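import Pool.Agent.Helper267_hyp.J10

set_option autoImplicit false

open MeasureTheory Filter Topology Set

namespace Pool.Agent.H267H

theorem s5 (h5a : S5a) (h5b : S5b) : S5 := by
  intro y u z l hl hy hyc hy0 hu hz hu0 hz0 a
  obtain ⟨p1, p2, p3⟩ := h5a y u z l hl hy hyc hy0 hu hz hu0 hz0
  have hb := h5b y u z a l hl hy hu hz hu0 (tendsto_zero_of_div hz0) (tendsto_zero_of_div p3) p1 p2
  refine ⟨p1, fun r hr => (hb r hr).1, fun r hr => (hb r hr).2, ?_, p3⟩
  intro r hr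
  refine (p2 r hr).congr_deriv ?_
  obtain ⟨e1, e2⟩ := hb r hr
  have hq := p1 r hr
  have hyr := hy r hr
  set q := u r ^ 2 + z r ^ 2 with hqdef
  have hsq : √q * √q = q := Real.mul_self_sqrt hq.le
  have hs : u r * z r = q * (Real.sin (a r) * Real.cos (a r)) := by
    calc u r * z r = (√q * Real.cos (a r)) * (√q * Real.sin (a r)) := by rw [← e1, ← e2]
      _ = (√q * √q) * (Real.sin (a r) * Real.cos (a r)) := by ring
      _ = _ := by rw [hsq]
  rw [hs]
  field_simp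

/-- all the facts about the phase `aa l` -/
theorem phase_facts (h3 : S3) (h4 : S4) (h5 : S5) (l : ℝ) (hl : 0 < l) :
    (∀ r : ℝ, 0 < r → 0 < uu l r ^ 2 + zz l r ^ 2) ∧
    (∀ r : ℝ, 0 < r → uu l r = √(uu l r ^ 2 + zz l r ^ 2) * Real.cos (aa l r)) ∧
    (∀ r : ℝ, 0 < r → zz l r = √(uu l r ^ 2 + zz l r ^ 2) * Real.sin (aa l r)) ∧
    (∀ r : ℝ, 0 < r → HasDerivAt (aa l)
      (l - Real.sin (aa l r) * Real.cos (aa l r) / yy r) r) ∧
    Tendsto (fun r => aa l r / r) (𝓝[>] 0) (𝓝 (l / 2)) := by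
  obtain ⟨q1, q2, q3, q4, q5⟩ := h4 l hl
  exact h5 yy (uu l) (zz l) l hl (fun r hr => (h3.1 r hr).2.1)
    (fun r hr => ((h3.1 r hr).2.2).continuousAt.continuousWithinAt) h3.2.2.1 q1 q2 q3 q4

theorem s9 (h3 : S3) (h4 : S4) (h5 : S5) (h6 : S6)
    (h9a : ∀ d : ℝ, 0 < d → ContinuousOn (fun l => aa l d) (Ioi 0))
    (h9b : (∀ l s : ℝ, 0 < l → 0 < s →
        0 < l - uu l s * zz l s / (yy s * (uu l s ^ 2 + zz l s ^ 2))) →
      (∀ l r : ℝ, 0 < l → 0 < r → HasDerivAt (aa l)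
        (l - uu l r * zz l r / (yy r * (uu l r ^ 2 + zz l r ^ 2))) r) →
      (∀ l : ℝ, 0 < l → Tendsto (aa l) (𝓝[>] 0) (𝓝 0)) →
      ∀ d : ℝ, 0 < d → Tendsto (fun l => aa l d) atTop atTop) : S9 := by
  have hy : ∀ r : ℝ, 0 < r → 0 < yy r := fun r hr => (h3.1 r hr).2.1
  have e : ∀ l r : ℝ, 0 < l → 0 < r →
      l - uu l r * zz l r / (yy r * (uu l r ^ 2 + zz l r ^ 2)) =
        l - Real.sin (aa l r) * Real.cos (aa l r) / yy r := by
    intro l r hl hr
    obtain ⟨p1, p2, p3, -, -⟩ := phase_facts h3 h4 h5 l hl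
    have hq := p1 r hr
    have e1 := p2 r hr
    have e2 := p3 r hr
    have hyr := hy r hr
    set q := uu l r ^ 2 + zz l r ^ 2 with hqdef
    have hsq : √q * √q = q := Real.mul_self_sqrt hq.le
    have hs : uu l r * zz l r = q * (Real.sin (aa l r) * Real.cos (aa l r)) := by
      calc uu l r * zz l r = (√q * Real.cos (aa l r)) * (√q * Real.sin (aa l r)) := by
            rw [← e1, ← e2]
        _ = (√q * √q) * (Real.sin (aa l r) * Real.cos (aa l r)) := by ring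
        _ = _ := by rw [hsq]
    rw [hs]
    field_simp
  intro d hd
  refine ⟨h9a d hd, h9b ?_ ?_ ?_ d hd⟩
  · intro l r hl hr
    obtain ⟨p1, p2, p3, p4, p5⟩ := phase_facts h3 h4 h5 l hl
    have hs := h6 yy (fun r => (1 + 1 / kk r ^ 2) / 2) (aa l) l hl hy
      (fun r hr => (h3.1 r hr).2.2) (fun r hr => by positivity) h3.2.2.1 p4 p5 r hr
    rw [e l r hl hr, sub_pos, div_lt_iff₀ (hy r hr)]
    exact hs
  · intro l r hl hr
    obtain ⟨p1, p2, p3, p4, p5⟩ := phase_facts h3 h4 h5 l hl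
    rw [e l r hl hr]
    exact p4 r hr
  · intro l hl
    obtain ⟨p1, p2, p3, p4, p5⟩ := phase_facts h3 h4 h5 l hl
    exact tendsto_zero_of_div p5

/-- the quotient comparison -/
theorem quot (h1 : S1) (h3 : S3) (h4 : S4) (h5 : S5) (h6 : S6) (h9 : S9) (h10 : S10) :
    (∀ d : ℝ, 0 < d → ∃ l : ℝ, 0 < l ∧ uu l d < 0) ∧
    ∀ d d' : ℝ, 0 < d → d < d' → ∀ l : ℝ, ∃ L : ℝ, uu L d ≤ uu l d' := by
  have hy : ∀ r : ℝ, 0 < r → 0 < yy r := fun r hr => (h3.1 r hr).2.1
  have hdy : ∀ r : ℝ, 0 < r → HasDerivAt yy ((1 + 1 / kk r ^ 2) / 2) r :=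
    fun r hr => (h3.1 r hr).2.2
  have hdp : ∀ r : ℝ, 0 < r → 0 < (1 + 1 / kk r ^ 2) / 2 := fun r hr => by positivity
  -- intermediate values
  have ivt : ∀ d l x : ℝ, 0 < d → 0 < l → aa l d ≤ x → ∃ L : ℝ, l ≤ L ∧ aa L d = x := by
    intro d l x hd hl hx
    obtain ⟨M, hM⟩ := ((h9 d hd).2.eventually_ge_atTop x).exists_forall_of_atTop
    have hM' := hM (max M l) (le_max_left _ _)
    have hc : ContinuousOn (fun l => aa l d) (Icc l (max M l)) :=
      (h9 d hd).1.mono (fun t ht => lt_of_lt_of_le hl ht.1)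
    obtain ⟨L, hL, hL2⟩ := intermediate_value_Icc (le_max_right M l) hc ⟨hx, hM'⟩
    exact ⟨L, hL.1, hL2⟩
  have neg : ∀ d : ℝ, 0 < d → ∃ l : ℝ, 0 < l ∧ uu l d < 0 := by
    intro d hd
    obtain ⟨n, hn⟩ := exists_nat_gt (aa 1 d)
    have hpi := Real.pi_gt_three
    have hx : aa 1 d ≤ (n : ℝ) * (2 * Real.pi) + Real.pi := by
      have : (0:ℝ) ≤ n := Nat.cast_nonneg n
      nlinarith
    obtain ⟨L, hL1, hL2⟩ := ivt d 1 _ hd one_pos hx
    have hL : 0 < L := by linarith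
    obtain ⟨p1, p2, p3, p4, p5⟩ := phase_facts h3 h4 h5 L hL
    refine ⟨L, hL, ?_⟩
    rw [p2 d hd, hL2]
    have hc : Real.cos ((n : ℝ) * (2 * Real.pi) + Real.pi) = -1 := by
      rw [add_comm, Real.cos_add_nat_mul_two_pi, Real.cos_pi]
    rw [hc]
    have := Real.sqrt_pos.2 (p1 d hd)
    linarith
  refine ⟨neg, ?_⟩
  intro d d' hd hdd' l
  have hd' : 0 < d' := hd.trans hdd'
  -- reduction to positive `l`
  have heven : ∀ l r : ℝ, uu (-l) r = uu l r := by
    intro l r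
    have : Phi (-l) r = Phi l r := by
      unfold Phi
      congr 1
      apply intervalIntegral.integral_congr
      intro t _
      simp only [neg_mul, Real.cos_neg]
    unfold uu
    rw [this]
  have main : ∀ l : ℝ, 0 < l → ∃ L : ℝ, uu L d ≤ uu l d' := by
    intro l hl
    by_cases hu : 0 ≤ uu l d'
    · obtain ⟨L, -, hL⟩ := neg d hd
      exact ⟨L, by linarith⟩
    · rw [not_le] at hu
      obtain ⟨p1, p2, p3, p4, p5⟩ := phase_facts h3 h4 h5 l hl
      have hmono : StrictMonoOn (aa l) (Ioi 0) := by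
        apply strictMonoOn_of_deriv_pos (convex_Ioi 0)
          (fun r hr => (p4 r hr).continuousAt.continuousWithinAt)
        intro r hr
        rw [interior_Ioi] at hr
        rw [(p4 r hr).deriv, sub_pos, div_lt_iff₀ (hy r hr)]
        exact h6 yy _ (aa l) l hl hy hdy hdp h3.2.2.1 p4 p5 r hr
      have hlt : aa l d < aa l d' := hmono (mem_Ioi.2 hd) (mem_Ioi.2 hd') hdd'
      obtain ⟨L, hL1, hL2⟩ := ivt d l _ hd hl hlt.le
      have hLl : l < L := by
        rcases hL1.lt_or_eq with h | h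
        · exact h
        · rw [← h] at hL2
          linarith
      have hL : 0 < L := hl.trans hLl
      obtain ⟨r1, r2, r3, r4, r5⟩ := phase_facts h3 h4 h5 L hL
      obtain ⟨u1, u2, u3, u4, -⟩ := h4 l hl
      obtain ⟨v1, v2, v3, v4, -⟩ := h4 L hL
      have amp : ∀ (l : ℝ), 0 < l → (∀ r : ℝ, 0 < r → HasDerivAt (uu l) (-(l * zz l r)) r) →
          (∀ r : ℝ, 0 < r → HasDerivAt (zz l) (l * uu l r - zz l r / yy r) r) →
          (∀ r : ℝ, 0 < r → 0 < uu l r ^ 2 + zz l r ^ 2) →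
          (∀ r : ℝ, 0 < r → zz l r = √(uu l r ^ 2 + zz l r ^ 2) * Real.sin (aa l r)) →
          ∀ r : ℝ, 0 < r → HasDerivAt (fun r => Real.log (uu l r ^ 2 + zz l r ^ 2) / 2)
            (-(Real.sin (aa l r)) ^ 2 / yy r) r := by
        intro l hl w1 w2 w3 w4 r hr
        have hq := w3 r hr
        have e2 := w4 r hr
        have hyr := hy r hr
        have D : HasDerivAt (fun r => Real.log (uu l r ^ 2 + zz l r ^ 2) / 2) _ r :=
          ((((w1 r hr).pow 2).add ((w2 r hr).pow 2)).log hq.ne').div_const 2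
        refine D.congr_deriv ?_
        have hsq : √(uu l r ^ 2 + zz l r ^ 2) ^ 2 = uu l r ^ 2 + zz l r ^ 2 :=
          Real.sq_sqrt hq.le
        have hz2 : zz l r ^ 2 = (uu l r ^ 2 + zz l r ^ 2) * (Real.sin (aa l r)) ^ 2 := by
          calc zz l r ^ 2 = (√(uu l r ^ 2 + zz l r ^ 2) * Real.sin (aa l r)) ^ 2 := by rw [← e2]
            _ = _ := by rw [mul_pow, hsq]
        have hs2 : (Real.sin (aa l r)) ^ 2 = zz l r ^ 2 / (uu l r ^ 2 + zz l r ^ 2) := by
          rw [eq_div_iff hq.ne', mul_comm]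
          exact hz2.symm
        rw [show (-(Real.sin (aa l r)) ^ 2 / yy r) = -((Real.sin (aa l r)) ^ 2) / yy r from rfl, hs2]
        have hq' := hq.ne'
        simp only [Nat.cast_ofNat, Nat.add_one_sub_one, pow_one, Pi.add_apply, Pi.pow_apply]
        field_simp
        ring
      have lim : ∀ (l : ℝ), Tendsto (uu l) (𝓝[>] 0) (𝓝 1) →
          Tendsto (fun r => zz l r / r) (𝓝[>] 0) (𝓝 (l / 2)) →
          Tendsto (fun r => Real.log (uu l r ^ 2 + zz l r ^ 2) / 2) (𝓝[>] 0) (𝓝 0) := by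
        intro l w1 w2
        have w3 := tendsto_zero_of_div w2
        have w4 : Tendsto (fun r => uu l r ^ 2 + zz l r ^ 2) (𝓝[>] 0) (𝓝 (1 ^ 2 + 0 ^ 2)) :=
          (w1.pow 2).add (w3.pow 2)
        have w5 : Tendsto (fun r => Real.log (uu l r ^ 2 + zz l r ^ 2) / 2) (𝓝[>] 0)
            (𝓝 (Real.log (1 ^ 2 + 0 ^ 2) / 2)) :=
          (w4.log (by norm_num)).div_const 2
        simpa using w5
      have cmp := h10 yy (fun r => (1 + 1 / kk r ^ 2) / 2) l L (aa l) (aa L)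
        (fun r => Real.log (uu l r ^ 2 + zz l r ^ 2) / 2)
        (fun r => Real.log (uu L r ^ 2 + zz L r ^ 2) / 2) hl hLl hy hdy hdp h3.2.1 h3.2.2.1
        p4 p5 r4 r5 (amp l hl u1 u2 p1 p3) (lim l u3 u4) (amp L hL v1 v2 r1 r3) (lim L v3 v4)
        d d' hd hd' hL2
      have hle : uu l d' ^ 2 + zz l d' ^ 2 ≤ uu L d ^ 2 + zz L d ^ 2 := by
        rw [← Real.log_le_log_iff (p1 d' hd') (r1 d hd)]
        have hc : Real.log (uu l d' ^ 2 + zz l d' ^ 2) / 2 ≤
          Real.log (uu L d ^ 2 + zz L d ^ 2) / 2 := cmp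
        linarith
      have hsq := Real.sqrt_le_sqrt hle
      have hp := Real.sqrt_pos.2 (p1 d' hd')
      have hcos : Real.cos (aa l d') < 0 := by
        by_contra hc
        rw [not_lt] at hc
        have := p2 d' hd'
        rw [this] at hu
        have := mul_nonneg hp.le hc
        linarith
      refine ⟨L, ?_⟩
      rw [r2 d hd, p2 d' hd', hL2]
      nlinarith
  rcases lt_trichotomy l 0 with h | h | h
  · obtain ⟨L, hL⟩ := main (-l) (by linarith)
    exact ⟨L, by rw [heven] at hL; exact hL⟩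
  · subst h
    obtain ⟨L, -, hL⟩ := neg d hd
    refine ⟨L, ?_⟩
    have : uu 0 d' = 1 := by
      unfold uu
      exact div_self (h1.2.2.2.2.2.1 d').ne'
    rw [this]
    linarith
  · exact main l h

/-- **Main.** -/
theorem mono (h1 : S1) (h3 : S3) (h4 : S4) (h5 : S5) (h6 : S6) (h9 : S9) (h10 : S10) :
    (∀ d : ℝ, 0 < d → BddBelow (range fun l : ℝ => Phi l d) ∧ (⨅ l : ℝ, Phi l d) < 0) ∧
    ∀ d d' : ℝ, 0 < d → d < d' →
      1 - Phi 0 d / (⨅ l : ℝ, Phi l d) ≤ 1 - Phi 0 d' / (⨅ l : ℝ, Phi l d') := by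
  obtain ⟨q1, q2⟩ := quot h1 h3 h4 h5 h6 h9 h10
  obtain ⟨-, -, -, -, -, hpos, hbd, -⟩ := h1
  have hbb : ∀ d : ℝ, BddBelow (range fun l : ℝ => Phi l d) := by
    intro d
    refine ⟨-Phi 0 d, ?_⟩
    rintro _ ⟨l, rfl⟩
    exact (abs_le.1 (hbd l d)).1
  have hneg : ∀ d : ℝ, 0 < d → (⨅ l : ℝ, Phi l d) < 0 := by
    intro d hd
    obtain ⟨l, hl, hu⟩ := q1 d hd
    have hP : Phi l d < 0 := by
      unfold uu at hu
      by_contra hc
      rw [not_lt] at hc
      have := div_nonneg hc (hpos d).le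
      linarith
    exact lt_of_le_of_lt (ciInf_le (hbb d) l) hP
  refine ⟨fun d hd => ⟨hbb d, hneg d hd⟩, ?_⟩
  intro d d' hd hdd'
  have hd' := hd.trans hdd'
  have n1 := hneg d hd
  have n2 := hneg d' hd'
  have P1 := hpos d
  have P2 := hpos d'
  set I := ⨅ l : ℝ, Phi l d with hI
  set J := ⨅ l : ℝ, Phi l d' with hJ
  have key : I / Phi 0 d * Phi 0 d' ≤ J := by
    rw [hJ]
    apply le_ciInf
    intro l
    obtain ⟨L, hL⟩ := q2 d d' hd hdd' l
    have h1 : I ≤ Phi L d := ciInf_le (hbb d) L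
    have h2 : I / Phi 0 d ≤ Phi l d' / Phi 0 d' := by
      refine le_trans ?_ hL
      unfold uu
      exact div_le_div_of_nonneg_right h1 P1.le
    rw [le_div_iff₀ P2] at h2
    exact h2
  have key2 : I * Phi 0 d' ≤ J * Phi 0 d := by
    have := mul_le_mul_of_nonneg_right key P1.le
    have e : I / Phi 0 d * Phi 0 d' * Phi 0 d = I * Phi 0 d' := by
      field_simp
    linarith
  have : Phi 0 d' / J ≤ Phi 0 d / I := by
    rw [div_le_iff_of_neg n2, div_mul_eq_mul_div, div_le_iff_of_neg n1]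
    nlinarith
  linarith

end Pool.Agent.H267H
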