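import Pool.Agent.Helper267_hyp.Defs2
import Pool.Agent.Helper267_hyp.Asm

set_option autoImplicit false

open MeasureTheory Filter Topology Set
open scoped ENNReal ComplexConjugate InnerProductSpace

namespace Pool.Agent.H267H

theorem measurable_XB (b : ℂ) : Measurable (XB b) := by
  unfold XB XX
  fun_prop

theorem eLpNorm_sq (f : ℂ → ℂ) : (eLpNorm f 2 mu) ^ 2 = ∫⁻ z, ‖f z‖ₑ ^ 2 ∂mu := by
  rw [eLpNorm_eq_lintegral_rpow_enorm_toReal (by norm_num) (by norm_num)]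
  rw [← ENNReal.rpow_natCast, ← ENNReal.rpow_mul]
  norm_num

theorem lint_rad (h4 : K4) (k : ℝ → ℂ) (hk : Continuous k) (b : ℂ) (hb : 0 < b.im) :
    ∫⁻ z, ‖k (XB b z)‖ₑ ^ 2 ∂mu = ENNReal.ofReal (2 * Real.pi) * ∫⁻ X in Ioi (1:ℝ), ‖k X‖ₑ ^ 2 :=
  h4 b hb (fun X => ‖k X‖ₑ ^ 2) (by fun_prop)

theorem lint_fin (k : ℝ → ℂ) (hk : Continuous k) (hc : HasCompactSupport k) :
    ∫⁻ X in Ioi (1:ℝ), ‖k X‖ₑ ^ 2 < ∞ := by
  have h : MemLp k 2 (volume : Measure ℝ) := hk.memLp_of_hasCompactSupport hc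
  have h2 := h.eLpNorm_lt_top
  rw [eLpNorm_eq_lintegral_rpow_enorm_toReal (by norm_num) (by norm_num)] at h2
  have h3 : ∫⁻ X : ℝ, ‖k X‖ₑ ^ 2 < ∞ := by
    have := (ENNReal.rpow_lt_top_iff_of_pos (by norm_num : (0:ℝ) < 1 / (2:ℝ≥0∞).toReal)).1 h2
    simpa using this
  exact lt_of_le_of_lt (setLIntegral_le_lintegral _ _) h3

theorem memLp_rad (h4 : K4) (k : ℝ → ℂ) (hk : Continuous k) (hc : HasCompactSupport k)
    (b : ℂ) (hb : 0 < b.im) : MemLp (fun z => k (XB b z)) 2 mu := by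
  refine ⟨(hk.measurable.comp (measurable_XB b)).aestronglyMeasurable, ?_⟩
  have h := eLpNorm_sq (fun z => k (XB b z))
  rw [lint_rad h4 k hk b hb] at h
  have h2 : (eLpNorm (fun z => k (XB b z)) 2 mu) ^ 2 < ∞ := by
    rw [h]
    exact ENNReal.mul_lt_top ENNReal.ofReal_lt_top (lint_fin k hk hc)
  by_contra hcon
  rw [not_lt, top_le_iff] at hcon
  rw [hcon] at h2
  simp at h2

/-- the sequence of radial functions -/
noncomputable def kseq (d c : ℝ) (k : ℝ → ℂ) : ℕ → ℝ → ℂ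
  | 0 => k
  | n + 1 => fun X => MM d (kseq d c k n) X - (c : ℂ) * kseq d c k n X

theorem gg_sub (k1 k2 : ℝ → ℂ) (c : ℂ) (h1 : Continuous k1) (c1 : HasCompactSupport k1)
    (h2 : Continuous k2) (c2 : HasCompactSupport k2) :
    gg (fun X => k1 X - c * k2 X) = fun s => gg k1 s - c * gg k2 s := by
  have integ : ∀ (k : ℝ → ℂ), Continuous k → HasCompactSupport k → ∀ s : ℝ,
      Integrable (fun w : ℝ => k (Real.cosh s + w ^ 2 / 2)) := by
    intro k hk hc s
    apply Continuous.integrable_of_hasCompactSupport (by fun_prop)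
    obtain ⟨R, hR⟩ := hc.isCompact.isBounded.subset_closedBall (0:ℝ)
    apply HasCompactSupport.intro (isCompact_Icc (a := -(2 * |R| + 2)) (b := 2 * |R| + 2))
    intro w hw
    by_contra hne
    have hmem : Real.cosh s + w ^ 2 / 2 ∈ tsupport k := subset_tsupport _ hne
    have := hR hmem
    rw [mem_closedBall_zero_iff, Real.norm_eq_abs] at this
    have h1 := le_abs_self (Real.cosh s + w ^ 2 / 2)
    have h2 := Real.cosh_pos s
    have h3 := le_abs_self R
    have h4 : w ^ 2 ≤ 2 * |R| := by linarith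
    apply hw
    have h5 : |w| ≤ 2 * |R| + 2 := by
      rw [← sq_abs] at h4
      have := abs_nonneg w
      have := abs_nonneg R
      nlinarith
    exact ⟨by linarith [neg_abs_le w], by linarith [le_abs_self w]⟩
  funext s
  unfold gg
  rw [integral_sub (integ k1 h1 c1 s) ((integ k2 h2 c2 s).const_mul c), integral_const_mul]

theorem kseq_props (h5 : K5) (h10 : K10) (d c : ℝ) (hd : 0 < d) (k : ℝ → ℂ)
    (hk : ContDiff ℝ (⊤ : ℕ∞) k) (hc : HasCompactSupport k) (n : ℕ) :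
    Continuous (kseq d c k n) ∧ HasCompactSupport (kseq d c k n) ∧
    ContDiff ℝ (⊤ : ℕ∞) (gg (kseq d c k n)) ∧ HasCompactSupport (gg (kseq d c k n)) := by
  induction n with
  | zero => exact ⟨hk.continuous, hc, (h10.1 k hk hc).1, (h10.1 k hk hc).2⟩
  | succ n ih =>
    obtain ⟨i1, i2, i3, i4⟩ := ih
    obtain ⟨j1, j2, j3⟩ := h5 d hd _ i1 i2
    obtain ⟨q1, q2, q3⟩ := h10.2 d hd _ i3 i4
    have e : gg (kseq d c k (n + 1)) =
        fun s => CC d (gg (kseq d c k n)) s - (c : ℂ) * gg (kseq d c k n) s := by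
      have := gg_sub (MM d (kseq d c k n)) (kseq d c k n) (c : ℂ) j1 j2 i1 i2
      rw [j3] at this
      exact this
    refine ⟨?_, ?_, ?_, ?_⟩
    · exact j1.sub (continuous_const.mul i1)
    · exact j2.sub (i2.mul_left)
    · rw [e]
      exact q1.sub (contDiff_const.mul i3)
    · rw [e]
      exact q2.sub (i4.mul_left)

theorem kseq_deriv (h5 : K5) (h7 : K7) (h10 : K10) (d c σ : ℝ) (hd : 0 < d) (hσ : 0 ≤ σ)
    (hsup : ∀ l : ℝ, |Phi l d - c| ≤ σ) (k : ℝ → ℂ)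
    (hk : ContDiff ℝ (⊤ : ℕ∞) k) (hc : HasCompactSupport k) (n : ℕ) :
    ∫⁻ s : ℝ, ‖deriv (gg (kseq d c k n)) s‖ₑ ^ 2 ≤
      ENNReal.ofReal (σ ^ 2) ^ n * ∫⁻ s : ℝ, ‖deriv (gg k) s‖ₑ ^ 2 := by
  induction n with
  | zero => simp [kseq]
  | succ n ih =>
    obtain ⟨i1, i2, i3, i4⟩ := kseq_props h5 h10 d c hd k hk hc n
    obtain ⟨j1, j2, j3⟩ := h5 d hd _ i1 i2
    obtain ⟨q1, q2, q3⟩ := h10.2 d hd _ i3 i4
    have e : gg (kseq d c k (n + 1)) =
        fun s => CC d (gg (kseq d c k n)) s - (c : ℂ) * gg (kseq d c k n) s := by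
      have := gg_sub (MM d (kseq d c k n)) (kseq d c k n) (c : ℂ) j1 j2 i1 i2
      rw [j3] at this
      exact this
    have i3' : ContDiff ℝ (⊤ : ℕ∞) (deriv (gg (kseq d c k n))) := by
      rw [contDiff_infty_iff_deriv] at i3
      exact i3.2
    have i4' : HasCompactSupport (deriv (gg (kseq d c k n))) := i4.deriv
    have de : deriv (gg (kseq d c k (n + 1))) =
        fun s => CC d (deriv (gg (kseq d c k n))) s - (c : ℂ) * deriv (gg (kseq d c k n)) s := by
      funext s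
      rw [e]
      have d1 : DifferentiableAt ℝ (CC d (gg (kseq d c k n))) s :=
        (q1.differentiable (by simp)).differentiableAt
      have d2 : DifferentiableAt ℝ (gg (kseq d c k n)) s :=
        (i3.differentiable (by simp)).differentiableAt
      have d3 := (d1.hasDerivAt.sub (d2.hasDerivAt.const_mul (c : ℂ))).deriv
      rw [q3] at d3
      exact d3
    rw [de]
    calc _ ≤ ENNReal.ofReal (σ ^ 2) * ∫⁻ s : ℝ, ‖deriv (gg (kseq d c k n)) s‖ₑ ^ 2 :=
          h7 d c σ hd hσ hsup _ i3' i4'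
      _ ≤ ENNReal.ofReal (σ ^ 2) * (ENNReal.ofReal (σ ^ 2) ^ n *
          ∫⁻ s : ℝ, ‖deriv (gg k) s‖ₑ ^ 2) := by gcongr
      _ = _ := by rw [pow_succ]; ring

end Pool.Agent.H267H
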