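import Pool.Agent.Helper267_hyp.Asm2a

set_option autoImplicit false

open MeasureTheory Filter Topology Set
open scoped ENNReal ComplexConjugate InnerProductSpace

namespace Pool.Agent.H267H

theorem ae_im_pos : ∀ᵐ z : ℂ ∂mu, 0 < z.im := by
  unfold mu
  apply (withDensity_absolutelyContinuous _ _).ae_le
  exact ae_restrict_mem (measurableSet_lt measurable_const Complex.measurable_im)

theorem inner_A (d : ℝ) (A : Lp ℂ 2 mu →L[ℂ] Lp ℂ 2 mu)
    (hA : ∀ (f : ℂ → ℂ) (hf : MemLp f 2 mu), (A (hf.toLp f) : ℂ → ℂ) =ᵐ[mu] avg d f)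
    (x y : Lp ℂ 2 mu) : ⟪x, A y⟫_ℂ = ∫ z, avg d y z * conj (x z) ∂mu := by
  rw [L2.inner_def]
  have h := hA y (Lp.memLp y)
  rw [Lp.toLp_coeFn] at h
  apply integral_congr_ae
  filter_upwards [h] with z hz
  rw [RCLike.inner_apply, hz]

theorem symm_A (h2 : K2) (d : ℝ) (hd : 0 < d) (A : Lp ℂ 2 mu →L[ℂ] Lp ℂ 2 mu)
    (hA : ∀ (f : ℂ → ℂ) (hf : MemLp f 2 mu), (A (hf.toLp f) : ℂ → ℂ) =ᵐ[mu] avg d f)
    (x y : Lp ℂ 2 mu) : ⟪A x, y⟫_ℂ = ⟪x, A y⟫_ℂ := by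
  rw [inner_A d A hA x y, h2 d hd y x (Lp.memLp y) (Lp.memLp x), L2.inner_def]
  have h := hA x (Lp.memLp x)
  rw [Lp.toLp_coeFn] at h
  apply integral_congr_ae
  filter_upwards [h] with z hz
  rw [RCLike.inner_apply, hz]

theorem norm_sq_Lp (x : Lp ℂ 2 mu) : ‖x‖ₑ ^ 2 = ∫⁻ z, ‖x z‖ₑ ^ 2 ∂mu := by
  rw [← eLpNorm_sq]
  congr 1
  rw [Lp.enorm_def]

theorem shifted_bound (h1 : K1) (h2 : K2) (h3 : K3) (h4 : K4) (h5 : K5) (h6 : K6) (h7 : K7)
    (h8 : K8) (h9 : K9) (h10 : K10) (d : ℝ) (hd : 0 < d) (c σ : ℝ) (hσ : 0 ≤ σ)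
    (hsup : ∀ l : ℝ, |Phi l d - c| ≤ σ) (A : Lp ℂ 2 mu →L[ℂ] Lp ℂ 2 mu)
    (hA : ∀ (f : ℂ → ℂ) (hf : MemLp f 2 mu), (A (hf.toLp f) : ℂ → ℂ) =ᵐ[mu] avg d f)
    (x : Lp ℂ 2 mu) : ‖A x - (c : ℂ) • x‖ ≤ σ * ‖x‖ := by
  set T : Lp ℂ 2 mu →L[ℂ] Lp ℂ 2 mu := A - (c : ℂ) • (1 : Lp ℂ 2 mu →L[ℂ] Lp ℂ 2 mu) with hT
  have hTx : ∀ x, T x = A x - (c : ℂ) • x := by
    intro x
    rw [hT]
    rfl
  have hsa : IsSelfAdjoint T := by
    rw [ContinuousLinearMap.isSelfAdjoint_iff_isSymmetric]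
    intro x y
    change ⟪T x, y⟫_ℂ = ⟪x, T y⟫_ℂ
    rw [hTx, hTx, inner_sub_left, inner_sub_right, symm_A h2 d hd A hA, inner_smul_left,
      inner_smul_right]
    simp
  set D : Set (Lp ℂ 2 mu) := {g | ∃ (b : ℂ) (k : ℝ → ℂ), 0 < b.im ∧ ContDiff ℝ (⊤ : ℕ∞) k ∧
    HasCompactSupport k ∧ (g : ℂ → ℂ) =ᵐ[mu] fun z => k (XB b z)} with hD
  obtain ⟨C6, hC6, h6'⟩ := h6
  have hpow : ∀ g : Lp ℂ 2 mu, ∀ (b : ℂ) (k : ℝ → ℂ), 0 < b.im → ContDiff ℝ (⊤ : ℕ∞) k →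
      HasCompactSupport k → (g : ℂ → ℂ) =ᵐ[mu] (fun z => k (XB b z)) → ∀ n : ℕ,
      ((T ^ n) g : ℂ → ℂ) =ᵐ[mu] fun z => kseq d c k n (XB b z) := by
    intro g b k hb hk hc hg n
    induction n with
    | zero => simpa [kseq] using hg
    | succ n ih =>
      obtain ⟨i1, i2, -, -⟩ := kseq_props h5 h10 d c hd k hk hc n
      have hm := memLp_rad h4 _ i1 i2 b hb
      have e1 : (T ^ n) g = hm.toLp _ := by
        apply Lp.ext
        exact ih.trans hm.coeFn_toLp.symm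
      have e2 : (T ^ (n + 1)) g = A (hm.toLp _) - (c : ℂ) • hm.toLp _ := by
        rw [pow_succ', ContinuousLinearMap.mul_apply, hTx, e1]
      rw [e2]
      filter_upwards [Lp.coeFn_sub (A (hm.toLp _)) ((c : ℂ) • hm.toLp _),
        Lp.coeFn_smul (c : ℂ) (hm.toLp _), hA _ hm, hm.coeFn_toLp, ae_im_pos] with z z1 z2 z3 z4 z5
      rw [z1, Pi.sub_apply, z2, Pi.smul_apply, z3, z4, h3 d _ b z hd hb z5]
      simp [kseq]
  have hDb : ∀ g ∈ D, ∃ C : ℝ, ∀ n : ℕ, ‖(T ^ n) g‖ ≤ C * σ ^ n := by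
    rintro g ⟨b, k, hb, hk, hc, hg⟩
    have g1 := (h10.1 k hk hc).1
    have g2 := (h10.1 k hk hc).2
    have g3 : Continuous (deriv (gg k)) := by
      rw [contDiff_infty_iff_deriv] at g1
      exact g1.2.continuous
    have hB : ∫⁻ s : ℝ, ‖deriv (gg k) s‖ₑ ^ 2 < ∞ := by
      have h : MemLp (deriv (gg k)) 2 (volume : Measure ℝ) :=
        g3.memLp_of_hasCompactSupport g2.deriv
      have h2 := h.eLpNorm_lt_top
      rw [eLpNorm_eq_lintegral_rpow_enorm_toReal (by norm_num) (by norm_num)] at h2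
      have := (ENNReal.rpow_lt_top_iff_of_pos (by norm_num : (0:ℝ) < 1 / (2:ℝ≥0∞).toReal)).1 h2
      simpa using this
    set B := ∫⁻ s : ℝ, ‖deriv (gg k) s‖ₑ ^ 2 with hBdef
    refine ⟨√(2 * Real.pi * C6 * B.toReal), fun n => ?_⟩
    obtain ⟨i1, i2, i3, i4⟩ := kseq_props h5 h10 d c hd k hk hc n
    have n1 : ‖(T ^ n) g‖ₑ ^ 2 ≤ ENNReal.ofReal (2 * Real.pi) * (ENNReal.ofReal C6 *
        (ENNReal.ofReal (σ ^ 2) ^ n * B)) := by
      rw [norm_sq_Lp]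
      calc ∫⁻ z, ‖((T ^ n) g) z‖ₑ ^ 2 ∂mu = ∫⁻ z, ‖kseq d c k n (XB b z)‖ₑ ^ 2 ∂mu := by
            apply lintegral_congr_ae
            filter_upwards [hpow g b k hb hk hc hg n] with z hz
            rw [hz]
        _ = ENNReal.ofReal (2 * Real.pi) * ∫⁻ X in Ioi (1:ℝ), ‖kseq d c k n X‖ₑ ^ 2 :=
            lint_rad h4 _ i1 b hb
        _ ≤ ENNReal.ofReal (2 * Real.pi) * (ENNReal.ofReal C6 *
              ∫⁻ s : ℝ, ‖deriv (gg (kseq d c k n)) s‖ₑ ^ 2) := by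
            gcongr
            exact h6' _ i1 i2 (i3.of_le (by exact_mod_cast le_top))
        _ ≤ _ := by
            gcongr
            exact kseq_deriv h5 h7 h10 d c σ hd hσ hsup k hk hc n
    have n2 : ‖(T ^ n) g‖ ^ 2 ≤ (2 * Real.pi * C6 * B.toReal) * (σ ^ n) ^ 2 := by
      have hfin : ENNReal.ofReal (2 * Real.pi) * (ENNReal.ofReal C6 *
        (ENNReal.ofReal (σ ^ 2) ^ n * B)) ≠ ∞ := by
        apply ENNReal.mul_ne_top ENNReal.ofReal_ne_top
        apply ENNReal.mul_ne_top ENNReal.ofReal_ne_top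
        exact ENNReal.mul_ne_top (ENNReal.pow_ne_top ENNReal.ofReal_ne_top) hB.ne
      have := ENNReal.toReal_mono hfin n1
      rw [ENNReal.toReal_pow, toReal_enorm] at this
      simp only [ENNReal.toReal_mul, ENNReal.toReal_pow] at this
      rw [ENNReal.toReal_ofReal (by positivity), ENNReal.toReal_ofReal hC6.le,
        ENNReal.toReal_ofReal (by positivity)] at this
      calc ‖(T ^ n) g‖ ^ 2 ≤ _ := this
        _ = _ := by ring
    have n3 : 0 ≤ σ ^ n := pow_nonneg hσ n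
    have n4 : 0 ≤ 2 * Real.pi * C6 * B.toReal := by
      have := ENNReal.toReal_nonneg (a := B)
      positivity
    have := Real.sqrt_le_sqrt n2
    rw [Real.sqrt_sq (norm_nonneg _), Real.sqrt_mul n4, Real.sqrt_sq n3] at this
    exact this
  have hdense : Dense (Submodule.span ℂ D : Set (Lp ℂ 2 mu)) := by
    have : (Submodule.span ℂ D).topologicalClosure = ⊤ := by
      rw [Submodule.topologicalClosure_eq_top_iff, Submodule.eq_bot_iff]
      intro f hf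
      have h := h9 f (Lp.memLp f) ?_
      · apply Lp.ext
        exact h.trans (Lp.coeFn_zero _ _ _).symm
      · intro b k hb hk hc
        have hk' : ContDiff ℝ (⊤ : ℕ∞) (fun X => (k X : ℂ)) :=
          Complex.ofRealCLM.contDiff.comp hk
        have hc' : HasCompactSupport (fun X => (k X : ℂ)) :=
          hc.comp_left (g := fun x : ℝ => (x : ℂ)) (by simp)
        have hm := memLp_rad h4 (fun X => (k X : ℂ)) hk'.continuous hc' b hb
        have hin : hm.toLp _ ∈ Submodule.span ℂ D :=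
          Submodule.subset_span ⟨b, fun X => (k X : ℂ), hb, hk', hc', hm.coeFn_toLp⟩
        have := (Submodule.mem_orthogonal _ _).1 hf _ hin
        rw [L2.inner_def] at this
        rw [← this]
        apply integral_congr_ae
        filter_upwards [hm.coeFn_toLp] with z hz
        rw [RCLike.inner_apply, hz]
        simp
    rw [dense_iff_closure_eq]
    have h := congrArg (fun S : Submodule ℂ (Lp ℂ 2 mu) => (S : Set (Lp ℂ 2 mu))) this
    simpa [Submodule.topologicalClosure_coe] using h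
  have := h8 T σ D hσ hsa hDb hdense x
  rwa [hTx] at this

end Pool.Agent.H267H
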