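import Pool.Agent.Helper267_hyp.Asm2b

set_option autoImplicit false

open MeasureTheory Filter Topology Set
open scoped ENNReal ComplexConjugate InnerProductSpace

namespace Pool.Agent.H267H

noncomputable section

/-- the values `⟨A_d f, f⟩` for `f` of norm one -/
def RR (d : ℝ) : Set ℝ := {x : ℝ | ∃ f : ℂ → ℂ, MemLp f 2 mu ∧ ∫ z, ‖f z‖ ^ 2 ∂mu = 1 ∧
  ∫ z, avg d f z * conj (f z) ∂mu = (x : ℂ)}

theorem norm_sq_int (x : Lp ℂ 2 mu) : ‖x‖ ^ 2 = ∫ z, ‖x z‖ ^ 2 ∂mu := by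
  have h : ⟪x, x⟫_ℂ = ∫ z, ⟪x z, x z⟫_ℂ ∂mu := L2.inner_def x x
  have h2 : ∀ z, ⟪x z, x z⟫_ℂ = ((‖x z‖ ^ 2 : ℝ) : ℂ) := by
    intro z
    rw [inner_self_eq_norm_sq_to_K]
    norm_cast
  simp only [h2] at h
  have h3 : (∫ z, ((‖x z‖ ^ 2 : ℝ) : ℂ) ∂mu) = ((∫ z, ‖x z‖ ^ 2 ∂mu : ℝ) : ℂ) :=
    integral_complex_ofReal
  rw [h3] at h
  have h5 := congrArg Complex.re h
  have h6 : (⟪x, x⟫_ℂ).re = ‖x‖ ^ 2 := by
    have := inner_self_eq_norm_sq (𝕜 := ℂ) x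
    simpa using this
  rw [h6, Complex.ofReal_re] at h5
  exact h5

/-- the value of the quadratic form is real and between the bounds -/
theorem form_bounds (h1 : K1) (h2 : K2) (h3 : K3) (h4 : K4) (h5 : K5) (h6 : K6) (h7 : K7)
    (h8 : K8) (h9 : K9) (h10 : K10) (hS1 : S1) (d : ℝ) (hd : 0 < d) (f : ℂ → ℂ)
    (hf : MemLp f 2 mu) :
    (∫ z, avg d f z * conj (f z) ∂mu).im = 0 ∧
    (⨅ l : ℝ, Phi l d) * ∫ z, ‖f z‖ ^ 2 ∂mu ≤ (∫ z, avg d f z * conj (f z) ∂mu).re ∧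
    (∫ z, avg d f z * conj (f z) ∂mu).re ≤ Phi 0 d * ∫ z, ‖f z‖ ^ 2 ∂mu := by
  obtain ⟨-, -, -, -, -, hpos, hbd, -⟩ := hS1
  have hbb : BddBelow (range fun l : ℝ => Phi l d) := by
    refine ⟨-Phi 0 d, ?_⟩
    rintro _ ⟨l, rfl⟩
    exact (abs_le.1 (hbd l d)).1
  obtain ⟨A, hAn, hA⟩ := h1 d hd
  set x := hf.toLp f with hx
  have hxf : (x : ℂ → ℂ) =ᵐ[mu] f := hf.coeFn_toLp
  have hin : ⟪x, A x⟫_ℂ = ∫ z, avg d f z * conj (f z) ∂mu := by
    rw [L2.inner_def]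
    apply integral_congr_ae
    filter_upwards [hA f hf, hxf] with z z1 z2
    rw [RCLike.inner_apply, z1, z2]
  have hnorm : ∫ z, ‖f z‖ ^ 2 ∂mu = ‖x‖ ^ 2 := by
    rw [norm_sq_int]
    apply integral_congr_ae
    filter_upwards [hxf] with z z2
    rw [z2]
  rw [← hin, hnorm]
  refine ⟨?_, ?_, ?_⟩
  · have h := symm_A h2 d hd A hA x x
    have h' := inner_conj_symm (𝕜 := ℂ) x (A x)
    rw [h] at h'
    exact Complex.conj_eq_iff_im.1 h'
  · set I := ⨅ l : ℝ, Phi l d with hI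
    set c := Phi 0 d with hc
    have hI0 : ∀ l : ℝ, I ≤ Phi l d := fun l => ciInf_le hbb l
    have hσ : 0 ≤ c - I := by linarith [hI0 0]
    have hsup : ∀ l : ℝ, |Phi l d - c| ≤ c - I := by
      intro l
      rw [abs_le]
      have a1 := hI0 l
      have a2 := (abs_le.1 (hbd l d)).2
      constructor <;> linarith
    have hb := shifted_bound h1 h2 h3 h4 h5 h6 h7 h8 h9 h10 d hd c (c - I) hσ hsup A hA x
    have e : ⟪x, A x⟫_ℂ = ⟪x, A x - (c : ℂ) • x⟫_ℂ + (c : ℂ) * ((‖x‖ ^ 2 : ℝ) : ℂ) := by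
      rw [inner_sub_right, inner_smul_right, inner_self_eq_norm_sq_to_K]
      push_cast
      ring_nf
      simp
    have e2 : (⟪x, A x⟫_ℂ).re = (⟪x, A x - (c : ℂ) • x⟫_ℂ).re + c * ‖x‖ ^ 2 := by
      rw [e, Complex.add_re, ← Complex.ofReal_mul, Complex.ofReal_re]
    have e3 : |(⟪x, A x - (c : ℂ) • x⟫_ℂ).re| ≤ ‖x‖ * ((c - I) * ‖x‖) := by
      calc |(⟪x, A x - (c : ℂ) • x⟫_ℂ).re| ≤ ‖⟪x, A x - (c : ℂ) • x⟫_ℂ‖ :=
            Complex.abs_re_le_norm _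
        _ ≤ ‖x‖ * ‖A x - (c : ℂ) • x‖ := norm_inner_le_norm _ _
        _ ≤ _ := by gcongr
    have e4 := (abs_le.1 e3).1
    rw [e2]
    nlinarith
  · calc (⟪x, A x⟫_ℂ).re ≤ ‖⟪x, A x⟫_ℂ‖ := Complex.re_le_norm _
      _ ≤ ‖x‖ * ‖A x‖ := norm_inner_le_norm _ _
      _ ≤ ‖x‖ * (Phi 0 d * ‖x‖) := by
          gcongr
          exact A.le_of_opNorm_le hAn x
      _ = _ := by ring

/-- approximate eigenfunctions, normalised -/
theorem rayleigh_close (h11 : K11) (hfb : ∀ d : ℝ, 0 < d → ∀ f : ℂ → ℂ, MemLp f 2 mu →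
      (∫ z, avg d f z * conj (f z) ∂mu).im = 0) (d l ε : ℝ) (hd : 0 < d) (hε : 0 < ε) :
    ∃ x ∈ RR d, |x - Phi l d| ≤ ε := by
  obtain ⟨f, hf, hpos, hle⟩ := h11 d l ε hd hε
  set N := ∫ z, ‖f z‖ ^ 2 ∂mu with hN
  have hs : 0 < √N := Real.sqrt_pos.2 hpos
  have hs2 : √N * √N = N := Real.mul_self_sqrt hpos.le
  set a : ℂ := (((√N)⁻¹ : ℝ) : ℂ) with ha
  have hf' : MemLp (fun z => a * f z) 2 mu := hf.const_mul a
  have havg : ∀ z, avg d (fun z => a * f z) z = a * avg d f z := by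
    intro z
    unfold avg
    rw [intervalIntegral.integral_const_mul]
    ring
  have hint : ∫ z, avg d (fun z => a * f z) z * conj (a * f z) ∂mu =
      ((N⁻¹ : ℝ) : ℂ) * ∫ z, avg d f z * conj (f z) ∂mu := by
    rw [← integral_const_mul]
    apply integral_congr_ae
    filter_upwards with z
    rw [havg, map_mul, ha, Complex.conj_ofReal]
    have : ((N⁻¹ : ℝ) : ℂ) = (((√N)⁻¹ : ℝ) : ℂ) * (((√N)⁻¹ : ℝ) : ℂ) := by
      rw [← Complex.ofReal_mul, ← mul_inv, hs2]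
    rw [this]
    ring
  have him := hfb d hd f hf
  set J := ∫ z, avg d f z * conj (f z) ∂mu with hJ
  have hJre : J = ((J.re : ℝ) : ℂ) := by
    apply Complex.ext
    · simp
    · simpa using him
  refine ⟨N⁻¹ * J.re, ⟨fun z => a * f z, hf', ?_, ?_⟩, ?_⟩
  · have e : ∀ z, ‖a * f z‖ ^ 2 = N⁻¹ * ‖f z‖ ^ 2 := by
      intro z
      rw [norm_mul, mul_pow, ha, Complex.norm_real, Real.norm_eq_abs, sq_abs, inv_pow]
      congr 2
      rw [sq]
      exact hs2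
    simp only [e]
    rw [integral_const_mul, ← hN]
    exact inv_mul_cancel₀ hpos.ne'
  · rw [hint, hJre]
    push_cast
    simp
  · have : N⁻¹ * J.re - Phi l d = N⁻¹ * (J.re - Phi l d * N) := by
      field_simp
    rw [this, abs_mul, abs_of_pos (inv_pos.2 hpos)]
    calc N⁻¹ * |J.re - Phi l d * N| ≤ N⁻¹ * (ε * N) := by gcongr
      _ = ε := by field_simp

theorem spectral (h1 : K1) (h2 : K2) (h3 : K3) (h4 : K4) (h5 : K5) (h6 : K6) (h7 : K7)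
    (h8 : K8) (h9 : K9) (h10 : K10) (h11 : K11) (hS1 : S1) (d : ℝ) (hd : 0 < d) :
    BddAbove (RR d) ∧ BddBelow (RR d) ∧ sSup (RR d) = Phi 0 d ∧
      sInf (RR d) = ⨅ l : ℝ, Phi l d := by
  have hfb := fun d hd f hf => form_bounds h1 h2 h3 h4 h5 h6 h7 h8 h9 h10 hS1 d hd f hf
  have hup : ∀ x ∈ RR d, x ≤ Phi 0 d := by
    rintro x ⟨f, hf, hN, hx⟩
    have := (hfb d hd f hf).2.2
    rw [hx, hN] at this
    simpa using this
  have hlo : ∀ x ∈ RR d, (⨅ l : ℝ, Phi l d) ≤ x := by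
    rintro x ⟨f, hf, hN, hx⟩
    have := (hfb d hd f hf).2.1
    rw [hx, hN] at this
    simpa using this
  have hcl := fun l ε hε => rayleigh_close h11 (fun d hd f hf => (hfb d hd f hf).1) d l ε hd hε
  have hne : (RR d).Nonempty := by
    obtain ⟨x, hx, -⟩ := hcl 0 1 one_pos
    exact ⟨x, hx⟩
  have ba : BddAbove (RR d) := ⟨_, hup⟩
  have bb : BddBelow (RR d) := ⟨_, hlo⟩
  refine ⟨ba, bb, le_antisymm (csSup_le hne hup) ?_, le_antisymm ?_ (le_csInf hne hlo)⟩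
  · apply le_of_forall_pos_le_add
    intro ε hε
    obtain ⟨x, hx, hxe⟩ := hcl 0 ε hε
    have := le_csSup ba hx
    have := (abs_le.1 hxe).1
    linarith
  · apply le_ciInf
    intro l
    apply le_of_forall_pos_le_add
    intro ε hε
    obtain ⟨x, hx, hxe⟩ := hcl l ε hε
    have := csInf_le bb hx
    have := (abs_le.1 hxe).2
    linarith

end

end Pool.Agent.H267H
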