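import Pool.Agent.Helper267_hyp.Defs2

set_option autoImplicit false

open MeasureTheory Filter Topology Set
open scoped ENNReal ComplexConjugate

namespace Pool.Agent.H267H

theorem k12_P_pos (r t : ℝ) : 0 < P r t := by
  unfold P
  have h1 : |Real.sinh r| < Real.cosh r := by
    apply abs_lt_of_sq_lt_sq _ (Real.cosh_pos r).le
    rw [Real.cosh_sq]
    linarith
  have h2 : Real.sinh r * Real.cos t ≤ |Real.sinh r| := by
    calc Real.sinh r * Real.cos t ≤ |Real.sinh r * Real.cos t| := le_abs_self _
      _ = |Real.sinh r| * |Real.cos t| := abs_mul _ _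
      _ ≤ |Real.sinh r| * 1 := by
          apply mul_le_mul_of_nonneg_left (Real.abs_cos_le_one t) (abs_nonneg _)
      _ = |Real.sinh r| := mul_one _
  linarith

/-- `t ↦ act z (pt d t)` runs through the circle of radius `d` about `z` with constant speed -/
theorem k12 (d t : ℝ) (z : ℂ) (hd : 0 < d) (hz : 0 < z.im) :
    1 + ‖act z (pt d t) - z‖ ^ 2 / (2 * z.im * (act z (pt d t)).im) = Real.cosh d ∧
    ∃ w : ℂ, HasDerivAt (fun t : ℝ => act z (pt d t)) w t ∧
      ‖w‖ = Real.sinh d * (act z (pt d t)).im := by
  have hP := k12_P_pos d t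
  have hcs : Real.cosh d ^ 2 = Real.sinh d ^ 2 + 1 := Real.cosh_sq d
  have hsc : Real.sin t ^ 2 + Real.cos t ^ 2 = 1 := Real.sin_sq_add_cos_sq t
  have hS : 0 < Real.sinh d := Real.sinh_pos_iff.2 hd
  have hPdef : P d t = Real.cosh d - Real.sinh d * Real.cos t := rfl
  constructor
  · rw [Complex.sq_norm, Complex.normSq_apply]
    simp only [act, pt, Complex.sub_re, Complex.sub_im]
    field_simp
    rw [hPdef]
    linear_combination (z.im ^ 2 * Real.sinh d ^ 2) * hsc - z.im ^ 2 * hcs
  · refine ⟨⟨z.im * (-(Real.sinh d * (Real.cosh d * Real.cos t - Real.sinh d)) / P d t ^ 2),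
      z.im * (-(Real.sinh d * Real.sin t) / P d t ^ 2)⟩, ?_, ?_⟩
    · have hPd : HasDerivAt (fun t => P d t) (Real.sinh d * Real.sin t) t := by
        unfold P
        have := ((Real.hasDerivAt_cos t).const_mul (Real.sinh d)).const_sub (Real.cosh d)
        refine this.congr_deriv ?_
        ring
      have h1 : HasDerivAt (fun t => z.re + z.im * (-(Real.sinh d * Real.sin t) / P d t))
          (z.im * (-(Real.sinh d * (Real.cosh d * Real.cos t - Real.sinh d)) / P d t ^ 2)) t := by
        have := (((((Real.hasDerivAt_sin t).const_mul (Real.sinh d)).neg).div hPd hP.ne').const_mul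
          z.im).const_add z.re
        refine this.congr_deriv ?_
        congr 2
        simp only [Pi.neg_apply]
        rw [hPdef]
        linear_combination (Real.sinh d ^ 2) * hsc
      have h2 : HasDerivAt (fun t => z.im * (1 / P d t))
          (z.im * (-(Real.sinh d * Real.sin t) / P d t ^ 2)) t := by
        have := (((hasDerivAt_const t (1:ℝ)).div hPd hP.ne')).const_mul z.im
        refine this.congr_deriv ?_
        congr 2
        ring
      have h3 := (h1.ofReal_comp).add ((h2.ofReal_comp).mul_const Complex.I)
      have e1 : (fun t : ℝ => act z (pt d t)) = fun t : ℝ =>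
          ((z.re + z.im * (-(Real.sinh d * Real.sin t) / P d t) : ℝ) : ℂ) +
            ((z.im * (1 / P d t) : ℝ) : ℂ) * Complex.I := by
        funext t
        apply Complex.ext
        · simp only [act, pt, Complex.add_re, Complex.mul_re, Complex.ofReal_re,
            Complex.ofReal_im, Complex.I_re, Complex.I_im]
          ring
        · simp only [act, pt, Complex.add_im, Complex.mul_im, Complex.ofReal_re,
            Complex.ofReal_im, Complex.I_re, Complex.I_im]
          ring
      rw [e1]
      refine h3.congr_deriv ?_
      apply Complex.ext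
      · simp only [Complex.add_re, Complex.mul_re, Complex.ofReal_re,
          Complex.ofReal_im, Complex.I_re, Complex.I_im]
        ring
      · simp only [Complex.add_im, Complex.mul_im, Complex.ofReal_re,
          Complex.ofReal_im, Complex.I_re, Complex.I_im]
        ring
    · have hn : (0:ℝ) ≤ Real.sinh d * (act z (pt d t)).im := by
        simp only [act, pt]
        positivity
      rw [← abs_of_nonneg hn, ← abs_of_nonneg (norm_nonneg _), ← sq_eq_sq_iff_abs_eq_abs,
        Complex.sq_norm, Complex.normSq_apply]
      simp only [act, pt]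
      field_simp
      rw [hPdef]
      have hcs' : Real.cosh d ^ 2 - Real.sinh d ^ 2 - 1 = 0 := by linarith
      linear_combination (Real.cos t ^ 2 - 1) * hcs' + hsc

end Pool.Agent.H267H
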