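import Pool.Agent.Helper267_hyp.Defs3
import Pool.Agent.Helper267_hyp.Asm2c
import Pool.Agent.Helper267_hyp.K12

set_option autoImplicit false

open MeasureTheory Filter Topology Set
open scoped ENNReal ComplexConjugate

namespace Pool.Agent.H267H

noncomputable section

/-- the values of the quadratic form in the disc -/
def RRD (d : ℝ) : Set ℝ := {x : ℝ | ∃ f : ℂ → ℂ, MemLp f 2 nu ∧ ∫ w, ‖f w‖ ^ 2 ∂nu = 1 ∧
  ∫ w, davg d f w * conj (f w) ∂nu = (x : ℂ)}

theorem ae_norm_lt : ∀ᵐ w : ℂ ∂nu, ‖w‖ < 1 := by
  unfold nu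
  apply (withDensity_absolutelyContinuous _ _).ae_le
  exact ae_restrict_mem (measurableSet_lt measurable_norm measurable_const)

theorem icay_cay (w : ℂ) (hw : ‖w‖ < 1) : icay (cay w) = w := by
  have h1 : (1 : ℂ) - w ≠ 0 := by
    intro h
    have : w = 1 := by linear_combination -h
    rw [this] at hw
    simp at hw
  unfold icay cay
  have hI := Complex.I_ne_zero
  have e1 : Complex.I * (1 + w) / (1 - w) - Complex.I = 2 * Complex.I * w / (1 - w) := by
    field_simp
    ring
  have e2 : Complex.I * (1 + w) / (1 - w) + Complex.I = 2 * Complex.I / (1 - w) := by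
    field_simp
    ring
  rw [e1, e2]
  field_simp

theorem cay_icay (z : ℂ) (hz : 0 < z.im) : cay (icay z) = z := by
  have h1 : z + Complex.I ≠ 0 := by
    intro h
    have := congrArg Complex.im h
    simp at this
    linarith
  unfold icay cay
  have hI := Complex.I_ne_zero
  have e1 : 1 + (z - Complex.I) / (z + Complex.I) = 2 * z / (z + Complex.I) := by
    field_simp
    ring
  have e2 : 1 - (z - Complex.I) / (z + Complex.I) = 2 * Complex.I / (z + Complex.I) := by
    field_simp
    ring
  rw [e1, e2]
  field_simp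

theorem cay_im (w : ℂ) (hw : ‖w‖ < 1) : 0 < (cay w).im := by
  have h1 : (1 : ℂ) - w ≠ 0 := by
    intro h
    have : w = 1 := by linear_combination -h
    rw [this] at hw
    simp at hw
  have h2 : 0 < Complex.normSq (1 - w) := Complex.normSq_pos.2 h1
  have h3 : w.re ^ 2 + w.im ^ 2 < 1 := by
    have : ‖w‖ ^ 2 < 1 := by
      have := norm_nonneg w
      nlinarith
    rw [Complex.sq_norm, Complex.normSq_apply] at this
    nlinarith
  have e : (cay w).im = (1 - (w.re ^ 2 + w.im ^ 2)) / Complex.normSq (1 - w) := by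
    unfold cay
    rw [Complex.div_im]
    simp only [Complex.mul_im, Complex.mul_re, Complex.I_re, Complex.I_im, Complex.add_re,
      Complex.add_im, Complex.one_re, Complex.one_im, Complex.sub_re, Complex.sub_im]
    field_simp
    ring
  rw [e]
  exact div_pos (by linarith) h2

theorem act_im_pos (d t : ℝ) (z : ℂ) (hz : 0 < z.im) : 0 < (act z (pt d t)).im := by
  have := k12_P_pos d t
  simp only [act, pt]
  positivity

theorem RRD_eq (hC1 : C1) (hC3 : C3) (hK1 : K1) (d : ℝ) (hd : 0 < d) : RRD d = RR d := by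
  obtain ⟨A, -, hA⟩ := hK1 d hd
  obtain ⟨hc, hi⟩ := hC1
  have key : ∀ F : ℂ → ℂ, MemLp F 2 mu →
      ∫ z, avg d F z * conj (F z) ∂mu = ∫ w, avg d F (cay w) * conj (F (cay w)) ∂nu := by
    intro F hF
    have hG : AEStronglyMeasurable (fun z => avg d F z * conj (F z)) mu := by
      apply AEStronglyMeasurable.mul
      · exact (Lp.aestronglyMeasurable _).congr (hA F hF)
      · exact Complex.continuous_conj.comp_aestronglyMeasurable hF.1
    have h := integral_map (μ := nu) (φ := cay) hc.measurable.aemeasurable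
      (f := fun z => avg d F z * conj (F z)) (by rw [hc.map_eq]; exact hG)
    rw [hc.map_eq] at h
    exact h
  have keyn : ∀ F : ℂ → ℂ, MemLp F 2 mu →
      ∫ z, ‖F z‖ ^ 2 ∂mu = ∫ w, ‖F (cay w)‖ ^ 2 ∂nu := by
    intro F hF
    have h := integral_map (μ := nu) (φ := cay) hc.measurable.aemeasurable
      (f := fun z => ‖F z‖ ^ 2) (by rw [hc.map_eq]; exact hF.1.norm.pow 2)
    rw [hc.map_eq] at h
    exact h
  apply Set.Subset.antisymm
  · rintro x ⟨f, hf, hn, hx⟩
    have hF : MemLp (fun z => f (icay z)) 2 mu := hf.comp_measurePreserving hi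
    refine ⟨fun z => f (icay z), hF, ?_, ?_⟩
    · rw [keyn _ hF, ← hn]
      apply integral_congr_ae
      filter_upwards [ae_norm_lt] with w hw
      rw [icay_cay w hw]
    · rw [key _ hF, ← hx]
      apply integral_congr_ae
      filter_upwards [ae_norm_lt] with w hw
      rw [hC3 d f w hd hw, icay_cay w hw]
  · rintro x ⟨F, hF, hn, hx⟩
    have hf : MemLp (fun w => F (cay w)) 2 nu := hF.comp_measurePreserving hc
    refine ⟨fun w => F (cay w), hf, ?_, ?_⟩
    · rw [← keyn _ hF, hn]
    · rw [← hx, key _ hF]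
      apply integral_congr_ae
      filter_upwards [ae_norm_lt] with w hw
      rw [← hC3 d (fun w => F (cay w)) w hd hw]
      congr 1
      unfold avg
      congr 1
      apply intervalIntegral.integral_congr
      intro t _
      simp only
      rw [cay_icay _ (act_im_pos d t _ (cay_im w hw))]

end

end Pool.Agent.H267H
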