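import Pool.Agent.Helper267_hyp.Defs3

set_option autoImplicit false

open MeasureTheory Filter Topology Set
open scoped ENNReal ComplexConjugate

namespace Pool.Agent.H267H

lemma C1_meas_cay : Measurable cay := by
  unfold cay; fun_prop

lemma C1_meas_icay : Measurable icay := by
  unfold icay; fun_prop

lemma C1_ne (w : ℂ) (hw : ‖w‖ < 1) : (1 : ℂ) - w ≠ 0 := by
  intro h
  have : w = 1 := (sub_eq_zero.1 h).symm
  rw [this] at hw
  simp at hw

lemma C1_icay_cay (w : ℂ) (hw : ‖w‖ < 1) : icay (cay w) = w := by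
  have h := C1_ne w hw
  unfold icay cay
  have hI := Complex.I_ne_zero
  have e1 : Complex.I * (1 + w) / (1 - w) - Complex.I = 2 * Complex.I * w / (1 - w) := by
    field_simp; ring
  have e2 : Complex.I * (1 + w) / (1 - w) + Complex.I = 2 * Complex.I / (1 - w) := by
    field_simp; ring
  rw [e1, e2]
  field_simp

lemma C1_ne2 (z : ℂ) (hz : 0 < z.im) : z + Complex.I ≠ 0 := by
  intro h
  have := congrArg Complex.im h
  simp at this
  linarith

lemma C1_cay_icay (z : ℂ) (hz : 0 < z.im) : cay (icay z) = z := by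
  have h := C1_ne2 z hz
  unfold icay cay
  have hI := Complex.I_ne_zero
  have e1 : 1 + (z - Complex.I) / (z + Complex.I) = 2 * z / (z + Complex.I) := by
    field_simp; ring
  have e2 : 1 - (z - Complex.I) / (z + Complex.I) = 2 * Complex.I / (z + Complex.I) := by
    field_simp; ring
  rw [e1, e2]
  field_simp

lemma C1_icay_norm (z : ℂ) (hz : 0 < z.im) : ‖icay z‖ < 1 := by
  have h := C1_ne2 z hz
  unfold icay
  rw [norm_div, div_lt_one (norm_pos_iff.2 h)]
  have : ‖z - Complex.I‖ ^ 2 < ‖z + Complex.I‖ ^ 2 := by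
    rw [← Complex.normSq_eq_norm_sq, ← Complex.normSq_eq_norm_sq, Complex.normSq_apply,
      Complex.normSq_apply]
    simp
    nlinarith
  exact lt_of_pow_lt_pow_left₀ 2 (norm_nonneg _) this

lemma C1_cay_im (w : ℂ) (hw : ‖w‖ < 1) : (cay w).im = (1 - ‖w‖ ^ 2) / Complex.normSq (1 - w) := by
  have h := C1_ne w hw
  have h2 : Complex.normSq (1 - w) ≠ 0 := fun h' => h (Complex.normSq_eq_zero.1 h')
  unfold cay
  rw [Complex.div_im, ← Complex.normSq_eq_norm_sq]
  field_simp
  simp [Complex.normSq_apply]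
  ring

lemma C1_cay_pos (w : ℂ) (hw : ‖w‖ < 1) : 0 < (cay w).im := by
  have h := C1_ne w hw
  rw [C1_cay_im w hw]
  have : 0 < Complex.normSq (1 - w) := Complex.normSq_pos.2 h
  have h2 : ‖w‖ ^ 2 < 1 := by nlinarith [norm_nonneg w]
  apply div_pos (by linarith) this

lemma C1_deriv (w : ℂ) (hw : ‖w‖ < 1) : HasDerivAt cay (2 * Complex.I / (1 - w) ^ 2) w := by
  have h := C1_ne w hw
  have h1 : HasDerivAt (fun w : ℂ => Complex.I * (1 + w)) (Complex.I * 1) w :=
    ((hasDerivAt_id w).const_add 1).const_mul Complex.I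
  have h2 : HasDerivAt (fun w : ℂ => 1 - w) (-1) w := (hasDerivAt_id w).const_sub 1
  have h3 := h1.div h2 h
  have e : cay = fun w => Complex.I * (1 + w) / (1 - w) := rfl
  rw [e]
  refine h3.congr_deriv ?_
  congr 1
  ring_nf

lemma C1_det (c : ℂ) : (c • (1 : ℂ →L[ℝ] ℂ)).det = Complex.normSq c := by
  rw [← Algebra.norm_complex_apply, Algebra.norm_apply]
  unfold ContinuousLinearMap.det
  congr 1

lemma C1_map : Measure.map cay nu = mu := by
  have mD : MeasurableSet {w : ℂ | ‖w‖ < 1} := (isOpen_lt continuous_norm continuous_const).measurableSet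
  have mH : MeasurableSet {z : ℂ | 0 < z.im} := (isOpen_lt continuous_const Complex.continuous_im).measurableSet
  ext S hS
  rw [Measure.map_apply C1_meas_cay hS]
  unfold nu mu
  have mcS : MeasurableSet (cay ⁻¹' S) := C1_meas_cay hS
  rw [withDensity_apply _ mcS, withDensity_apply _ hS]
  rw [Measure.restrict_restrict mcS, Measure.restrict_restrict hS]
  have him : cay '' (cay ⁻¹' S ∩ {w : ℂ | ‖w‖ < 1}) = S ∩ {z : ℂ | 0 < z.im} := by
    ext z
    constructor
    · rintro ⟨w, ⟨h1, h2⟩, rfl⟩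
      exact ⟨h1, C1_cay_pos w h2⟩
    · rintro ⟨h1, h2⟩
      refine ⟨icay z, ⟨?_, C1_icay_norm z h2⟩, C1_cay_icay z h2⟩
      show cay (icay z) ∈ S
      rw [C1_cay_icay z h2]; exact h1
  rw [← him]
  rw [lintegral_image_eq_lintegral_abs_det_fderiv_mul volume (mcS.inter mD)
    (f' := fun w => (2 * Complex.I / (1 - w) ^ 2) • (1 : ℂ →L[ℝ] ℂ))]
  · apply setLIntegral_congr_fun (mcS.inter mD)
    intro w hw
    have hw2 : ‖w‖ < 1 := hw.2
    have h := C1_ne w hw2
    have hp : 0 < Complex.normSq (1 - w) := Complex.normSq_pos.2 h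
    have h2 : ‖w‖ ^ 2 < 1 := by nlinarith [norm_nonneg w]
    show ENNReal.ofReal (4 / (1 - ‖w‖ ^ 2) ^ 2) =
      ENNReal.ofReal |((2 * Complex.I / (1 - w) ^ 2) • (1 : ℂ →L[ℝ] ℂ)).det| *
        ENNReal.ofReal (1 / (cay w).im ^ 2)
    rw [C1_det, abs_of_nonneg (Complex.normSq_nonneg _), ← ENNReal.ofReal_mul (Complex.normSq_nonneg _),
      C1_cay_im w hw2]
    congr 1
    have e1 : Complex.normSq (2 * Complex.I / (1 - w) ^ 2) = 4 / Complex.normSq (1 - w) ^ 2 := by
      rw [map_div₀, map_pow, map_mul, Complex.normSq_I]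
      norm_num
    rw [e1]
    have h3 : (1 - ‖w‖ ^ 2) ≠ 0 := by linarith
    field_simp
  · intro w hw
    exact (C1_deriv w hw.2).complexToReal_fderiv.hasFDerivWithinAt
  · intro a ha b hb hab
    rw [← C1_icay_cay a ha.2, ← C1_icay_cay b hb.2, hab]

theorem c1 : C1 := by
  refine ⟨⟨C1_meas_cay, C1_map⟩, ⟨C1_meas_icay, ?_⟩⟩
  have mD : MeasurableSet {w : ℂ | ‖w‖ < 1} := (isOpen_lt continuous_norm continuous_const).measurableSet
  rw [← C1_map, Measure.map_map C1_meas_icay C1_meas_cay]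
  have : (icay ∘ cay) =ᵐ[nu] id := by
    have h : ∀ᵐ w ∂(volume.restrict {w : ℂ | ‖w‖ < 1}), (icay ∘ cay) w = id w := by
      rw [ae_restrict_iff' mD]
      filter_upwards with w hw
      exact C1_icay_cay w hw
    exact (withDensity_absolutelyContinuous _ _).ae_le h
  rw [Measure.map_congr this, Measure.map_id]

end Pool.Agent.H267H
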