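import Pool.Agent.Helper267_hyp.Defs3

set_option autoImplicit false

open MeasureTheory Filter Topology Set
open scoped ENNReal ComplexConjugate

namespace Pool.Agent.H267H

theorem c3_P_pos (d t : ℝ) : 0 < P d t := by
  unfold P
  have h1 : |Real.sinh d| < Real.cosh d := by
    rw [abs_lt]
    constructor
    · have := Real.sinh_lt_cosh (-d)
      rw [Real.sinh_neg, Real.cosh_neg] at this
      linarith
    · exact Real.sinh_lt_cosh d
  have h2 : |Real.sinh d * Real.cos t| ≤ |Real.sinh d| := by
    rw [abs_mul]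
    exact mul_le_of_le_one_right (abs_nonneg _) (Real.abs_cos_le_one t)
  have h3 := le_abs_self (Real.sinh d * Real.cos t)
  linarith

theorem c3_R1 (d : ℝ) : Real.tanh (d / 2) * (1 + Real.cosh d) = Real.sinh d := by
  have h1 : Real.sinh d = 2 * Real.sinh (d / 2) * Real.cosh (d / 2) := by
    rw [← Real.sinh_two_mul]; congr 1; ring
  have h2 : Real.cosh d = 2 * Real.cosh (d / 2) ^ 2 - 1 := by
    have := Real.cosh_two_mul (d / 2)
    have h3 := Real.cosh_sq (d / 2)
    have h4 : 2 * (d / 2) = d := by ring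
    rw [h4] at this
    linarith
  have hc := Real.cosh_pos (d / 2)
  rw [h1, h2, Real.tanh_eq_sinh_div_cosh]
  field_simp
  ring

theorem c3_R2 (d : ℝ) : Real.sinh d * Real.tanh (d / 2) = Real.cosh d - 1 := by
  have h1 : Real.sinh d = 2 * Real.sinh (d / 2) * Real.cosh (d / 2) := by
    rw [← Real.sinh_two_mul]; congr 1; ring
  have h2 : Real.cosh d = 2 * Real.sinh (d / 2) ^ 2 + 1 := by
    have := Real.cosh_two_mul (d / 2)
    have h3 := Real.cosh_sq (d / 2)
    have h4 : 2 * (d / 2) = d := by ring
    rw [h4] at this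
    linarith
  have hc := Real.cosh_pos (d / 2)
  rw [h1, h2, Real.tanh_eq_sinh_div_cosh]
  field_simp
  ring

theorem c3_act (z p : ℂ) : act z p = (z.re : ℂ) + (z.im : ℂ) * p := by
  apply Complex.ext <;> simp [act]

theorem c3_pt (d t : ℝ) :
    pt d t * (1 - (Real.tanh (d / 2) : ℂ) * Complex.exp (t * Complex.I)) =
      Complex.I * (1 + (Real.tanh (d / 2) : ℂ) * Complex.exp (t * Complex.I)) := by
  have hP := c3_P_pos d t
  have h1 := c3_R1 d
  have h2 := c3_R2 d
  have hsc := Real.sin_sq_add_cos_sq t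
  set R := Real.tanh (d / 2)
  have er : ((R : ℂ) * Complex.exp (t * Complex.I)).re = R * Real.cos t := by
    rw [Complex.re_ofReal_mul, Complex.exp_ofReal_mul_I_re]
  have ei : ((R : ℂ) * Complex.exp (t * Complex.I)).im = R * Real.sin t := by
    rw [Complex.im_ofReal_mul, Complex.exp_ofReal_mul_I_im]
  set e := (R : ℂ) * Complex.exp (t * Complex.I)
  have pr : (pt d t).re = -(Real.sinh d * Real.sin t) / P d t := rfl
  have pi : (pt d t).im = 1 / P d t := rfl
  have hPd : P d t = Real.cosh d - Real.sinh d * Real.cos t := rfl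
  apply Complex.ext
  · simp only [Complex.mul_re, Complex.sub_re, Complex.sub_im, Complex.one_re, Complex.one_im,
      Complex.add_re, Complex.add_im, Complex.I_re, Complex.I_im, er, ei, pr, pi]
    field_simp
    rw [hPd]
    linear_combination (Real.sin t) * h1
  · simp only [Complex.mul_im, Complex.sub_re, Complex.sub_im, Complex.one_re, Complex.one_im,
      Complex.add_re, Complex.add_im, Complex.I_re, Complex.I_im, er, ei, pr, pi]
    field_simp
    rw [hPd]
    linear_combination h2 + (Real.sinh d * R) * hsc - Real.cos t * h1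


/-- the algebraic identity -/
theorem c3_alg (w v e : ℂ) (hw : 1 - w ≠ 0) (hv : 1 - v ≠ 0) (he : 1 - e ≠ 0) :
    icay ((Complex.I * (1 + w) / (1 - w) + -Complex.I * (1 + v) / (1 - v)) / 2 +
      (Complex.I * (1 + w) / (1 - w) - -Complex.I * (1 + v) / (1 - v)) / (2 * Complex.I) *
        (Complex.I * (1 + e) / (1 - e))) =
    ((1 - w) / (1 - v) * e + w) / (1 + v * ((1 - w) / (1 - v) * e)) := by
  have hI : Complex.I ≠ 0 := Complex.I_ne_zero
  have hK : 2 * Complex.I / ((1 - w) * (1 - e)) ≠ 0 :=
    div_ne_zero (mul_ne_zero two_ne_zero hI) (mul_ne_zero hw he)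
  have e0 : (Complex.I * (1 + w) / (1 - w) + -Complex.I * (1 + v) / (1 - v)) / 2 +
      (Complex.I * (1 + w) / (1 - w) - -Complex.I * (1 + v) / (1 - v)) / (2 * Complex.I) *
        (Complex.I * (1 + e) / (1 - e)) =
      (Complex.I * (1 + w) / (1 - w) + Complex.I * (1 + v) / (1 - v) * e) / (1 - e) := by
    field_simp
    ring
  rw [e0]
  unfold icay
  have e1 : (Complex.I * (1 + w) / (1 - w) + Complex.I * (1 + v) / (1 - v) * e) / (1 - e) - Complex.I =
      2 * Complex.I / ((1 - w) * (1 - e)) * ((1 - w) / (1 - v) * e + w) := by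
    field_simp
    ring
  have e2 : (Complex.I * (1 + w) / (1 - w) + Complex.I * (1 + v) / (1 - v) * e) / (1 - e) + Complex.I =
      2 * Complex.I / ((1 - w) * (1 - e)) * (1 + v * ((1 - w) / (1 - v) * e)) := by
    field_simp
    ring
  rw [e1, e2, mul_div_mul_left _ _ hK]

theorem c3_R_lt (d : ℝ) : |Real.tanh (d / 2)| < 1 := by
  rw [Real.tanh_eq_sinh_div_cosh, abs_div, abs_of_pos (Real.cosh_pos _), div_lt_one (Real.cosh_pos _)]
  rw [abs_lt]
  constructor
  · have := Real.sinh_lt_cosh (-(d / 2))
    rw [Real.sinh_neg, Real.cosh_neg] at this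
    linarith
  · exact Real.sinh_lt_cosh _

theorem c3_point (d t c : ℝ) (w : ℂ) (hw1 : ‖w‖ < 1)
    (hc : Complex.exp (c * Complex.I) = (1 - w) / (1 - conj w)) :
    icay (act (cay w) (pt d t)) = dpt d (t + c) w := by
  have hw : 1 - w ≠ 0 := by
    intro h
    have : w = 1 := by linear_combination -h
    rw [this] at hw1
    simp at hw1
  have hv : 1 - conj w ≠ 0 := by
    intro h
    have : conj w = 1 := by linear_combination -h
    have h2 : ‖conj w‖ = 1 := by rw [this]; simp
    rw [RCLike.norm_conj] at h2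
    linarith
  have he : 1 - (Real.tanh (d / 2) : ℂ) * Complex.exp (t * Complex.I) ≠ 0 := by
    intro h
    have h1 : (Real.tanh (d / 2) : ℂ) * Complex.exp (t * Complex.I) = 1 := by linear_combination -h
    have h2 := congrArg norm h1
    rw [norm_mul, Complex.norm_exp_ofReal_mul_I, mul_one, Complex.norm_real, Real.norm_eq_abs,
      norm_one] at h2
    have := c3_R_lt d
    linarith
  have hp : pt d t = Complex.I * (1 + (Real.tanh (d / 2) : ℂ) * Complex.exp (t * Complex.I)) /
      (1 - (Real.tanh (d / 2) : ℂ) * Complex.exp (t * Complex.I)) := by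
    rw [eq_div_iff he]
    exact c3_pt d t
  have hcj : conj (cay w) = -Complex.I * (1 + conj w) / (1 - conj w) := by
    unfold cay
    simp
  have hre : (((cay w).re : ℝ) : ℂ) = (cay w + conj (cay w)) / 2 := Complex.re_eq_add_conj _
  have him : (((cay w).im : ℝ) : ℂ) = (cay w - conj (cay w)) / (2 * Complex.I) :=
    Complex.im_eq_sub_conj _
  rw [c3_act, hre, him, hcj, hp]
  unfold cay
  rw [c3_alg w (conj w) _ hw hv he]
  unfold dpt
  have hexp : (Real.tanh (d / 2) : ℂ) * Complex.exp (((t + c : ℝ) : ℂ) * Complex.I) =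
      (1 - w) / (1 - conj w) * ((Real.tanh (d / 2) : ℂ) * Complex.exp (t * Complex.I)) := by
    rw [← hc]
    push_cast
    rw [add_mul, Complex.exp_add]
    ring
  rw [hexp]

/- TARGET -/
theorem c3 : C3 := by
  intro d f w _ hw1
  have hw : 1 - w ≠ 0 := by
    intro h
    have : w = 1 := by linear_combination -h
    rw [this] at hw1
    simp at hw1
  have hnorm : ‖(1 - w) / (1 - conj w)‖ = 1 := by
    have h1 : ‖1 - conj w‖ = ‖1 - w‖ := by
      have : 1 - conj w = conj (1 - w) := by simp
      rw [this, RCLike.norm_conj]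
    rw [norm_div, h1, div_self (norm_ne_zero_iff.2 hw)]
  set c := Complex.arg ((1 - w) / (1 - conj w)) with hcdef
  have hc : Complex.exp (c * Complex.I) = (1 - w) / (1 - conj w) := by
    have := Complex.norm_mul_exp_arg_mul_I ((1 - w) / (1 - conj w))
    rwa [hnorm, Complex.ofReal_one, one_mul] at this
  unfold avg davg
  congr 1
  have h1 : ∀ t : ℝ, f (icay (act (cay w) (pt d t))) = (fun s => f (dpt d s w)) (t + c) := by
    intro t
    simp only
    rw [c3_point d t c w hw1 hc]
  simp_rw [h1]
  rw [intervalIntegral.integral_comp_add_right (fun s => f (dpt d s w)) c]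
  have hper : Function.Periodic (fun s : ℝ => f (dpt d s w)) (2 * Real.pi) := by
    intro s
    simp only
    have : Complex.exp (((s + 2 * Real.pi : ℝ) : ℂ) * Complex.I) = Complex.exp ((s : ℂ) * Complex.I) := by
      push_cast
      rw [add_mul, Complex.exp_add, Complex.exp_two_pi_mul_I, mul_one]
    unfold dpt
    rw [this]
  have h2 := hper.intervalIntegral_add_eq c 0
  rw [zero_add] at h2
  rw [zero_add, add_comm (2 * Real.pi) c]
  exact h2

end Pool.Agent.H267H
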