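import Pool.Agent.Helper267_hyp.Defs3

set_option autoImplicit false

open MeasureTheory Filter Topology Set
open scoped ENNReal ComplexConjugate

namespace Pool.Agent.H267H

lemma C4_key (e w : ℂ) : Complex.normSq (1 + conj w * e) - Complex.normSq (e + w) =
    (1 - Complex.normSq w) * (1 - Complex.normSq e) := by
  simp only [Complex.normSq_apply, Complex.add_re, Complex.add_im, Complex.mul_re, Complex.mul_im,
    Complex.conj_re, Complex.conj_im, Complex.one_re, Complex.one_im]
  ring

lemma C4_ne (e w : ℂ) (hw : ‖w‖ < 1) (he : ‖e‖ < 1) : 1 + conj w * e ≠ 0 := by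
  intro h
  have h1 : conj w * e = -1 := by linear_combination h
  have h2 : ‖conj w * e‖ = 1 := by rw [h1]; simp
  rw [norm_mul, RCLike.norm_conj] at h2
  nlinarith [norm_nonneg w, norm_nonneg e]

theorem c4 : C4 := by
  intro d t w hd hw
  obtain ⟨R, hR⟩ : ∃ R : ℝ, R = Real.tanh (d / 2) := ⟨_, rfl⟩
  have hc : 0 < Real.cosh (d / 2) := Real.cosh_pos _
  have hs : 0 < Real.sinh (d / 2) := Real.sinh_pos_iff.2 (by linarith)
  have hcs : Real.cosh (d / 2) ^ 2 - Real.sinh (d / 2) ^ 2 = 1 := Real.cosh_sq_sub_sinh_sq _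
  have hR' : R = Real.sinh (d / 2) / Real.cosh (d / 2) := by rw [hR, Real.tanh_eq_sinh_div_cosh]
  have hR0 : 0 < R := by rw [hR']; positivity
  have hR1 : R < 1 := by
    rw [hR', div_lt_one hc]
    nlinarith
  have hsd : Real.sinh d = 2 * R / (1 - R ^ 2) := by
    have e : d = 2 * (d / 2) := by ring
    have h1 : Real.sinh d = 2 * Real.sinh (d / 2) * Real.cosh (d / 2) := by
      conv_lhs => rw [e]
      rw [Real.sinh_two_mul]
    have h2 : 1 - R ^ 2 = 1 / Real.cosh (d / 2) ^ 2 := by
      rw [hR']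
      field_simp
      linarith
    rw [h1, h2, hR']
    field_simp
  obtain ⟨e, he⟩ : ∃ e : ℂ, e = (R : ℂ) * Complex.exp (t * Complex.I) := ⟨_, rfl⟩
  have hen : ‖e‖ = R := by
    rw [he, norm_mul, Complex.norm_exp_ofReal_mul_I, Complex.norm_real, Real.norm_eq_abs,
      abs_of_pos hR0, mul_one]
  have he1 : ‖e‖ < 1 := by rw [hen]; exact hR1
  have hne := C4_ne e w hw he1
  have hkey := C4_key e w
  have hdp : dpt d t w = (e + w) / (1 + conj w * e) := by
    unfold dpt
    rw [← hR, ← he]
  have hns : 0 < Complex.normSq (1 + conj w * e) := Complex.normSq_pos.2 hne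
  have hw2 : Complex.normSq w < 1 := by
    rw [Complex.normSq_eq_norm_sq]; nlinarith [norm_nonneg w]
  have he2 : Complex.normSq e = R ^ 2 := by rw [Complex.normSq_eq_norm_sq, hen]
  have hR2 : R ^ 2 < 1 := by nlinarith
  have hT : ‖dpt d t w‖ ^ 2 = Complex.normSq (e + w) / Complex.normSq (1 + conj w * e) := by
    rw [hdp, ← Complex.normSq_eq_norm_sq, map_div₀]
  have hT1 : 1 - ‖dpt d t w‖ ^ 2 = (1 - Complex.normSq w) * (1 - R ^ 2) / Complex.normSq (1 + conj w * e) := by
    rw [hT, ← he2, ← hkey, sub_div, div_self hns.ne']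
  have hT2 : 0 < 1 - ‖dpt d t w‖ ^ 2 := by
    rw [hT1]
    apply div_pos _ hns
    apply mul_pos <;> linarith
  refine ⟨?_, ?_, ?_⟩
  · nlinarith [norm_nonneg (dpt d t w)]
  · have hcw : (1 : ℂ) - conj w * w ≠ 0 := by
      intro h
      have h1 : conj w * w = 1 := by linear_combination -h
      have h2 : ‖conj w * w‖ = 1 := by rw [h1]; simp
      rw [norm_mul, RCLike.norm_conj] at h2
      nlinarith [norm_nonneg w]
    have e1 : (e + w) / (1 + conj w * e) - w = e * (1 - conj w * w) / (1 + conj w * e) := by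
      rw [eq_div_iff hne, sub_mul, div_mul_cancel₀ _ hne]
      ring
    have e2 : 1 - conj w * ((e + w) / (1 + conj w * e)) = (1 - conj w * w) / (1 + conj w * e) := by
      rw [eq_div_iff hne, sub_mul, mul_assoc, div_mul_cancel₀ _ hne]
      ring
    rw [hdp, e1, e2, ← hR]
    have e3 : e * (1 - conj w * w) / (1 + conj w * e) / ((1 - conj w * w) / (1 + conj w * e)) = e := by
      rw [div_div_div_cancel_right₀ hne, mul_div_assoc, div_self hcw, mul_one]
    rw [e3, hen]
  · have hd1 : HasDerivAt (fun t : ℝ => (R : ℂ) * Complex.exp (t * Complex.I)) (e * Complex.I) t := by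
      have h1 : HasDerivAt (fun t : ℝ => ((t : ℂ) * Complex.I)) (1 * Complex.I) t :=
        (Complex.ofRealCLM.hasDerivAt (x := t)).mul_const Complex.I
      have h2 := (h1.cexp).const_mul (R : ℂ)
      refine h2.congr_deriv ?_
      rw [he]; ring
    have hd2 : HasDerivAt (fun t : ℝ => dpt d t w)
        ((e * Complex.I * (1 + conj w * e) - (e + w) * (conj w * (e * Complex.I))) / (1 + conj w * e) ^ 2) t := by
      have h1 := hd1.add_const w
      have h2 := (hd1.const_mul (conj w)).const_add 1
      have h3 := h1.div h2 (by rw [← he]; exact hne)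
      rw [← he] at h3
      have e0 : (fun t : ℝ => dpt d t w) = (fun t : ℝ => ((R : ℂ) * Complex.exp (t * Complex.I) + w) /
          (1 + conj w * ((R : ℂ) * Complex.exp (t * Complex.I)))) := by
        funext t
        unfold dpt
        rw [← hR]
      rw [e0]
      exact h3
    refine ⟨_, hd2, ?_⟩
    have ev : (e * Complex.I * (1 + conj w * e) - (e + w) * (conj w * (e * Complex.I))) / (1 + conj w * e) ^ 2
        = e * Complex.I * (1 - conj w * w) / (1 + conj w * e) ^ 2 := by
      congr 1
      ring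
    have hcc : (1 : ℂ) - conj w * w = ((1 - Complex.normSq w : ℝ) : ℂ) := by
      rw [mul_comm, Complex.mul_conj]; push_cast; ring
    have hn : ‖(e * Complex.I * (1 - conj w * w)) / (1 + conj w * e) ^ 2‖ =
        R * (1 - Complex.normSq w) / Complex.normSq (1 + conj w * e) := by
      rw [norm_div, norm_pow, ← Complex.normSq_eq_norm_sq, norm_mul, norm_mul, hen, Complex.norm_I, hcc,
        Complex.norm_real, Real.norm_eq_abs, abs_of_pos (by linarith)]
      ring
    rw [ev, hn, hT1, hsd]
    have a1 : 1 - Complex.normSq w ≠ 0 := by linarith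
    have a2 : 1 - R ^ 2 ≠ 0 := by linarith
    have a3 := hns.ne'
    obtain ⟨M, hM⟩ : ∃ M : ℝ, M = Complex.normSq (1 + conj w * e) := ⟨_, rfl⟩
    rw [← hM] at a3 ⊢
    field_simp

end Pool.Agent.H267H
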