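import Mathlib

/-!
# MP_592f63_co: the spherical functions of the hyperbolic plane (definitions and statements)
-/

set_option autoImplicit false

open MeasureTheory Filter Topology Set

namespace Pool.Agent.H267H

noncomputable section

/-- `P(r,t) = cosh r - sinh r cos t`, positive for all real `r`, `t`. -/
def P (r t : ℝ) : ℝ := Real.cosh r - Real.sinh r * Real.cos t

/-- The spherical function `φ_l(r) = (1/2π) ∫ P^(-1/2) cos (l log P) dt`. -/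
def Phi (l r : ℝ) : ℝ :=
  (1 / (2 * Real.pi)) * ∫ t in (0:ℝ)..(2 * Real.pi),
    (P r t) ^ (-(1 / 2) : ℝ) * Real.cos (l * Real.log (P r t))

/-- Its derivative with respect to `r`. -/
def dPhi (l r : ℝ) : ℝ :=
  (1 / (2 * Real.pi)) * ∫ t in (0:ℝ)..(2 * Real.pi),
    (Real.sinh r - Real.cosh r * Real.cos t) * ((P r t) ^ (-(3 / 2) : ℝ) *
      (-(1 / 2) * Real.cos (l * Real.log (P r t)) - l * Real.sin (l * Real.log (P r t))))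

/-- `k = cosh + 2 sinh φ_0'/φ_0` -/
def kk (r : ℝ) : ℝ := Real.cosh r + 2 * Real.sinh r * dPhi 0 r / Phi 0 r

/-- `y = sinh / k`, the reciprocal of the logarithmic derivative of `sinh r φ_0(r)^2` -/
def yy (r : ℝ) : ℝ := Real.sinh r / kk r

/-- `u_l = φ_l / φ_0` -/
def uu (l r : ℝ) : ℝ := Phi l r / Phi 0 r

/-- `z_l = - u_l' / l` -/
def zz (l r : ℝ) : ℝ := -(dPhi l r * Phi 0 r - Phi l r * dPhi 0 r) / (l * Phi 0 r ^ 2)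

/-- the phase -/
def aa (l r : ℝ) : ℝ := ∫ s in (0:ℝ)..r,
  (l - uu l s * zz l s / (yy s * (uu l s ^ 2 + zz l s ^ 2)))

/-- J1 -/
def S1 : Prop :=
  (∀ l r : ℝ, HasDerivAt (Phi l) (dPhi l r) r) ∧
  Continuous (fun p : ℝ × ℝ => Phi p.1 p.2) ∧
  Continuous (fun p : ℝ × ℝ => dPhi p.1 p.2) ∧
  (∀ l : ℝ, Phi l 0 = 1) ∧ (∀ l : ℝ, dPhi l 0 = 0) ∧
  (∀ r : ℝ, 0 < Phi 0 r) ∧ (∀ l r : ℝ, |Phi l r| ≤ Phi 0 r) ∧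
  (∀ r : ℝ, |dPhi 0 r| ≤ 1 / 2 * Phi 0 r)

/-- J2 -/
def S2 : Prop := ∀ l r : ℝ, 0 < r →
  HasDerivAt (fun r => Real.sinh r * dPhi l r) (-(1 / 4 + l ^ 2) * Real.sinh r * Phi l r) r

/-- J3 -/
def S3 : Prop :=
  (∀ r : ℝ, 0 < r → 1 ≤ kk r ∧ 0 < yy r ∧ HasDerivAt yy ((1 + 1 / kk r ^ 2) / 2) r) ∧
  AntitoneOn (fun r => (1 + 1 / kk r ^ 2) / 2) (Ioi 0) ∧
  Tendsto (fun r => yy r / r) (𝓝[>] 0) (𝓝 1) ∧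
  (∀ R : ℝ, 0 < R → ∃ c : ℝ, 0 < c ∧ ∀ r : ℝ, 0 < r → r ≤ R → c * r ≤ yy r)

/-- J4 -/
def S4 : Prop := ∀ l : ℝ, 0 < l →
  (∀ r : ℝ, 0 < r → HasDerivAt (uu l) (-(l * zz l r)) r) ∧
  (∀ r : ℝ, 0 < r → HasDerivAt (zz l) (l * uu l r - zz l r / yy r) r) ∧
  Tendsto (uu l) (𝓝[>] 0) (𝓝 1) ∧
  Tendsto (fun r => zz l r / r) (𝓝[>] 0) (𝓝 (l / 2)) ∧
  (∀ r : ℝ, 0 < r → |zz l r| ≤ l * r)

/-- J5 (abstract) -/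
def S5 : Prop := ∀ (y u z : ℝ → ℝ) (l : ℝ), 0 < l →
  (∀ r : ℝ, 0 < r → 0 < y r) → ContinuousOn y (Ioi 0) →
  Tendsto (fun r => y r / r) (𝓝[>] 0) (𝓝 1) →
  (∀ r : ℝ, 0 < r → HasDerivAt u (-(l * z r)) r) →
  (∀ r : ℝ, 0 < r → HasDerivAt z (l * u r - z r / y r) r) →
  Tendsto u (𝓝[>] 0) (𝓝 1) →
  Tendsto (fun r => z r / r) (𝓝[>] 0) (𝓝 (l / 2)) →
  let a : ℝ → ℝ := fun r => ∫ s in (0:ℝ)..r, (l - u s * z s / (y s * (u s ^ 2 + z s ^ 2)))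
  (∀ r : ℝ, 0 < r → 0 < u r ^ 2 + z r ^ 2) ∧
  (∀ r : ℝ, 0 < r → u r = √(u r ^ 2 + z r ^ 2) * Real.cos (a r)) ∧
  (∀ r : ℝ, 0 < r → z r = √(u r ^ 2 + z r ^ 2) * Real.sin (a r)) ∧
  (∀ r : ℝ, 0 < r → HasDerivAt a (l - Real.sin (a r) * Real.cos (a r) / y r) r) ∧
  Tendsto (fun r => a r / r) (𝓝[>] 0) (𝓝 (l / 2))

/-- J5a (abstract) -/
def S5a : Prop := ∀ (y u z : ℝ → ℝ) (l : ℝ), 0 < l →
  (∀ r : ℝ, 0 < r → 0 < y r) → ContinuousOn y (Ioi 0) →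
  Tendsto (fun r => y r / r) (𝓝[>] 0) (𝓝 1) →
  (∀ r : ℝ, 0 < r → HasDerivAt u (-(l * z r)) r) →
  (∀ r : ℝ, 0 < r → HasDerivAt z (l * u r - z r / y r) r) →
  Tendsto u (𝓝[>] 0) (𝓝 1) →
  Tendsto (fun r => z r / r) (𝓝[>] 0) (𝓝 (l / 2)) →
  let a : ℝ → ℝ := fun r => ∫ s in (0:ℝ)..r, (l - u s * z s / (y s * (u s ^ 2 + z s ^ 2)))
  (∀ r : ℝ, 0 < r → 0 < u r ^ 2 + z r ^ 2) ∧
  (∀ r : ℝ, 0 < r → HasDerivAt a (l - u r * z r / (y r * (u r ^ 2 + z r ^ 2))) r) ∧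
  Tendsto (fun r => a r / r) (𝓝[>] 0) (𝓝 (l / 2))

/-- J5b (abstract) -/
def S5b : Prop := ∀ (y u z a : ℝ → ℝ) (l : ℝ), 0 < l →
  (∀ r : ℝ, 0 < r → 0 < y r) →
  (∀ r : ℝ, 0 < r → HasDerivAt u (-(l * z r)) r) →
  (∀ r : ℝ, 0 < r → HasDerivAt z (l * u r - z r / y r) r) →
  Tendsto u (𝓝[>] 0) (𝓝 1) → Tendsto z (𝓝[>] 0) (𝓝 0) → Tendsto a (𝓝[>] 0) (𝓝 0) →
  (∀ r : ℝ, 0 < r → 0 < u r ^ 2 + z r ^ 2) →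
  (∀ r : ℝ, 0 < r → HasDerivAt a (l - u r * z r / (y r * (u r ^ 2 + z r ^ 2))) r) →
  (∀ r : ℝ, 0 < r → u r = √(u r ^ 2 + z r ^ 2) * Real.cos (a r) ∧
    z r = √(u r ^ 2 + z r ^ 2) * Real.sin (a r))

/-- J6 (abstract) -/
def S6 : Prop := ∀ (y dy a : ℝ → ℝ) (l : ℝ), 0 < l →
  (∀ r : ℝ, 0 < r → 0 < y r) → (∀ r : ℝ, 0 < r → HasDerivAt y (dy r) r) →
  (∀ r : ℝ, 0 < r → 0 < dy r) →
  Tendsto (fun r => y r / r) (𝓝[>] 0) (𝓝 1) →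
  (∀ r : ℝ, 0 < r → HasDerivAt a (l - Real.sin (a r) * Real.cos (a r) / y r) r) →
  Tendsto (fun r => a r / r) (𝓝[>] 0) (𝓝 (l / 2)) →
  ∀ r : ℝ, 0 < r → Real.sin (a r) * Real.cos (a r) < l * y r

/-- J7 (abstract) -/
def S7 : Prop := ∀ (a da : ℝ → ℝ), (∀ r : ℝ, 0 < r → HasDerivAt a (da r) r) →
  (∀ r : ℝ, 0 < r → 0 < da r) → Tendsto a (𝓝[>] 0) (𝓝 0) →
  ∃ g : ℝ → ℝ, (∀ r : ℝ, 0 < r → 0 < a r ∧ g (a r) = r) ∧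
    (∀ R x : ℝ, 0 < R → 0 < x → x < a R → 0 < g x ∧ a (g x) = x ∧ HasDerivAt g (1 / da (g x)) x) ∧
    Tendsto g (𝓝[>] 0) (𝓝[>] 0)

/-- J8 (abstract) -/
def S8 : Prop := ∀ (X : ℝ) (E F S T : ℝ → ℝ),
  (∀ x ∈ Ioo 0 X, HasDerivAt E (S x * E x / (E x - Real.sin x * Real.cos x)) x) →
  (∀ x ∈ Ioo 0 X, HasDerivAt F (T x * F x / (F x - Real.sin x * Real.cos x)) x) →
  (∀ x ∈ Ioo 0 X, 0 < E x ∧ Real.sin x * Real.cos x < E x) →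
  (∀ x ∈ Ioo 0 X, 0 < F x ∧ Real.sin x * Real.cos x < F x) →
  (∀ x ∈ Ioo 0 X, 0 < S x) → (∀ x ∈ Ioo 0 X, 0 < T x) →
  (∀ x ∈ Ioo 0 X, F x ≤ E x → S x ≤ T x) →
  Tendsto (fun x => F x / E x) (𝓝[>] 0) (𝓝 1) →
  ∀ x ∈ Ioo 0 X, E x ≤ F x

/-- J9 -/
def S9 : Prop := ∀ d : ℝ, 0 < d →
  ContinuousOn (fun l => aa l d) (Ioi 0) ∧ Tendsto (fun l => aa l d) atTop atTop

/-- J10 (abstract): comparison of two amplitudes at the same phase -/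
def S10 : Prop := ∀ (y dy : ℝ → ℝ) (l L : ℝ) (a b R S : ℝ → ℝ), 0 < l → l < L →
  (∀ r : ℝ, 0 < r → 0 < y r) → (∀ r : ℝ, 0 < r → HasDerivAt y (dy r) r) →
  (∀ r : ℝ, 0 < r → 0 < dy r) → AntitoneOn dy (Ioi 0) →
  Tendsto (fun r => y r / r) (𝓝[>] 0) (𝓝 1) →
  (∀ r : ℝ, 0 < r → HasDerivAt a (l - Real.sin (a r) * Real.cos (a r) / y r) r) →
  Tendsto (fun r => a r / r) (𝓝[>] 0) (𝓝 (l / 2)) →
  (∀ r : ℝ, 0 < r → HasDerivAt b (L - Real.sin (b r) * Real.cos (b r) / y r) r) →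
  Tendsto (fun r => b r / r) (𝓝[>] 0) (𝓝 (L / 2)) →
  (∀ r : ℝ, 0 < r → HasDerivAt R (-(Real.sin (a r)) ^ 2 / y r) r) → Tendsto R (𝓝[>] 0) (𝓝 0) →
  (∀ r : ℝ, 0 < r → HasDerivAt S (-(Real.sin (b r)) ^ 2 / y r) r) → Tendsto S (𝓝[>] 0) (𝓝 0) →
  ∀ d d' : ℝ, 0 < d → 0 < d' → b d = a d' → R d' ≤ S d

end

end Pool.Agent.H267H
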