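import Pool.Agent.Helper267_hyp.Defs

/-!
# MP_592f63_co: the averaging operators on the upper half-plane
-/

set_option autoImplicit false

open MeasureTheory Filter Topology Set
open scoped ENNReal ComplexConjugate

namespace Pool.Agent.H267H

noncomputable section

/-- the hyperbolic measure `y⁻² dx dy` of the upper half-plane -/
def mu : Measure ℂ :=
  (volume.restrict {z : ℂ | 0 < z.im}).withDensity (fun z => ENNReal.ofReal (1 / z.im ^ 2))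

/-- the points of the hyperbolic circle of radius `d` about `i`, arc length proportional to `t` -/
def pt (d t : ℝ) : ℂ := ⟨-(Real.sinh d * Real.sin t) / P d t, 1 / P d t⟩

/-- the image of `p` under the isometry `w ↦ Re z + (Im z) w` which moves `i` to `z` -/
def act (z p : ℂ) : ℂ := ⟨z.re + z.im * p.re, z.im * p.im⟩

/-- the mean value of `f` over the circle of radius `d` about `z` -/
def avg (d : ℝ) (f : ℂ → ℂ) (z : ℂ) : ℂ :=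
  ((1 / (2 * Real.pi) : ℝ) : ℂ) * ∫ t in (0:ℝ)..(2 * Real.pi), f (act z (pt d t))

/-- the inverse with respect to `act`: `act p (binv p) = i` -/
def binv (p : ℂ) : ℂ := ⟨-p.re / p.im, 1 / p.im⟩

/-- hyperbolic cosine of the distance from `i` -/
def XX (z : ℂ) : ℝ := (z.re ^ 2 + z.im ^ 2 + 1) / (2 * z.im)

/-- hyperbolic cosine of the distance from `b` -/
def XB (b z : ℂ) : ℝ := XX ⟨(z.re - b.re) / b.im, z.im / b.im⟩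

/-- the averaging operator on radial functions, `X = cosh r` -/
def MM (d : ℝ) (k : ℝ → ℂ) (X : ℝ) : ℂ :=
  ((1 / (2 * Real.pi) : ℝ) : ℂ) * ∫ t in (0:ℝ)..(2 * Real.pi),
    k (X * Real.cosh d - √(X ^ 2 - 1) * Real.sinh d * Real.cos t)

/-- the Abel (horocyclic) transform of a radial function -/
def gg (k : ℝ → ℂ) (s : ℝ) : ℂ := ∫ w : ℝ, k (Real.cosh s + w ^ 2 / 2)

/-- the same transform in the variable `Y = cosh s` -/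
def GG (k : ℝ → ℂ) (Y : ℝ) : ℂ := ∫ w : ℝ, k (Y + w ^ 2 / 2)

/-- the convolution operator on the line with multiplier `Phi l d` -/
def CC (d : ℝ) (g : ℝ → ℂ) (s : ℝ) : ℂ :=
  ((1 / (2 * Real.pi) : ℝ) : ℂ) * ∫ t in (0:ℝ)..(2 * Real.pi),
    (((P d t) ^ (-(1 / 2) : ℝ) : ℝ) : ℂ) * g (s - Real.log (P d t))

/-- K0: scaling of the measure under right multiplication -/
def K0 : Prop := ∀ p : ℂ, 0 < p.im → ∀ F : ℂ → ℝ≥0∞, Measurable F →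
  ∫⁻ z, F (act z p) ∂mu = ENNReal.ofReal p.im * ∫⁻ z, F z ∂mu

/-- K1: the averaging operator on `L²` -/
def K1 : Prop := ∀ d : ℝ, 0 < d → ∃ A : Lp ℂ 2 mu →L[ℂ] Lp ℂ 2 mu, ‖A‖ ≤ Phi 0 d ∧
  ∀ (f : ℂ → ℂ) (hf : MemLp f 2 mu), (A (hf.toLp f) : ℂ → ℂ) =ᵐ[mu] avg d f

/-- K2a: invariance of the arc length under inversion -/
def K2a : Prop := ∀ d : ℝ, 0 < d → ∀ F : ℂ → ℝ≥0∞, Measurable F →
  ∫⁻ t in Ioc (0:ℝ) (2 * Real.pi), ENNReal.ofReal (1 / P d t) * F (binv (pt d t)) =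
    ∫⁻ t in Ioc (0:ℝ) (2 * Real.pi), F (pt d t)

/-- K2: symmetry of the averaging operator -/
def K2 : Prop := ∀ d : ℝ, 0 < d → ∀ f g : ℂ → ℂ, MemLp f 2 mu → MemLp g 2 mu →
  ∫ z, avg d f z * conj (g z) ∂mu = ∫ z, f z * conj (avg d g z) ∂mu

/-- K3: radial functions -/
def K3 : Prop := ∀ (d : ℝ) (k : ℝ → ℂ) (b z : ℂ), 0 < d → 0 < b.im → 0 < z.im →
  avg d (fun w => k (XB b w)) z = MM d k (XB b z)

/-- K4: integrals of radial functions -/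
def K4 : Prop := ∀ (b : ℂ), 0 < b.im → ∀ F : ℝ → ℝ≥0∞, Measurable F →
  ∫⁻ z, F (XB b z) ∂mu = ENNReal.ofReal (2 * Real.pi) * ∫⁻ X in Ioi (1:ℝ), F X

/-- K5: the Abel transform intertwines `MM d` and `CC d` -/
def K5 : Prop := ∀ d : ℝ, 0 < d → ∀ k : ℝ → ℂ, Continuous k → HasCompactSupport k →
  Continuous (MM d k) ∧ HasCompactSupport (MM d k) ∧ gg (MM d k) = CC d (gg k)

/-- K6a: inversion of the Abel transform -/
def K6a : Prop := ∀ k : ℝ → ℂ, Continuous k → HasCompactSupport k →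
  ContDiff ℝ 1 (gg k) →
  (∀ Y : ℝ, 1 < Y → ∀ s : ℝ, 0 < s → Real.cosh s = Y →
    HasDerivAt (GG k) (deriv (gg k) s / (Real.sinh s : ℂ)) Y) ∧
  ∀ X : ℝ, 1 < X → k X = -((1 / (2 * Real.pi) : ℝ) : ℂ) * ∫ z : ℝ, deriv (GG k) (X + z ^ 2 / 2)

/-- K6b: a Hardy type inequality -/
def K6b : Prop := ∃ C : ℝ, 0 < C ∧ ∀ H : ℝ → ℝ≥0∞, Measurable H →
  ∫⁻ X in Ioi (1:ℝ), (∫⁻ z : ℝ, H (X + z ^ 2 / 2)) ^ 2 ≤
    ENNReal.ofReal C * ∫⁻ Y in Ioi (1:ℝ), H Y ^ 2 * ENNReal.ofReal (√(Y ^ 2 - 1))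

/-- K6: bound of a radial function by its Abel transform -/
def K6 : Prop := ∃ C : ℝ, 0 < C ∧ ∀ k : ℝ → ℂ, Continuous k → HasCompactSupport k →
  ContDiff ℝ 1 (gg k) →
  ∫⁻ X in Ioi (1:ℝ), ‖k X‖ₑ ^ 2 ≤ ENNReal.ofReal C * ∫⁻ s : ℝ, ‖deriv (gg k) s‖ₑ ^ 2

/-- K7a: the spherical function is real -/
def K7a : Prop := ∀ l d : ℝ, 0 < d →
  ∫ t in (0:ℝ)..(2 * Real.pi), (P d t) ^ (-(1 / 2) : ℝ) * Real.sin (l * Real.log (P d t)) = 0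

/-- K7: multiplier bound (Plancherel) -/
def K7 : Prop := ∀ (d c σ : ℝ), 0 < d → 0 ≤ σ → (∀ l : ℝ, |Phi l d - c| ≤ σ) →
  ∀ g : ℝ → ℂ, ContDiff ℝ (⊤ : ℕ∞) g → HasCompactSupport g →
  ∫⁻ s : ℝ, ‖CC d g s - (c : ℂ) * g s‖ₑ ^ 2 ≤ ENNReal.ofReal (σ ^ 2) * ∫⁻ s : ℝ, ‖g s‖ₑ ^ 2

/-- K8: powers of a self-adjoint operator -/
def K8 : Prop := ∀ (T : Lp ℂ 2 mu →L[ℂ] Lp ℂ 2 mu) (σ : ℝ) (D : Set (Lp ℂ 2 mu)), 0 ≤ σ →
  IsSelfAdjoint T → (∀ g ∈ D, ∃ C : ℝ, ∀ n : ℕ, ‖(T ^ n) g‖ ≤ C * σ ^ n) →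
  Dense (Submodule.span ℂ D : Set (Lp ℂ 2 mu)) → ∀ x, ‖T x‖ ≤ σ * ‖x‖

/-- K9: density of the translates of radial functions -/
def K9 : Prop := ∀ f : ℂ → ℂ, MemLp f 2 mu →
  (∀ (b : ℂ) (k : ℝ → ℝ), 0 < b.im → ContDiff ℝ (⊤ : ℕ∞) k → HasCompactSupport k →
    ∫ z, f z * (k (XB b z) : ℂ) ∂mu = 0) → f =ᵐ[mu] 0

/-- K10: smoothness -/
def K10 : Prop :=
  (∀ k : ℝ → ℂ, ContDiff ℝ (⊤ : ℕ∞) k → HasCompactSupport k →
    ContDiff ℝ (⊤ : ℕ∞) (gg k) ∧ HasCompactSupport (gg k)) ∧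
  (∀ d : ℝ, 0 < d → ∀ g : ℝ → ℂ, ContDiff ℝ (⊤ : ℕ∞) g → HasCompactSupport g →
    ContDiff ℝ (⊤ : ℕ∞) (CC d g) ∧ HasCompactSupport (CC d g) ∧
      deriv (CC d g) = CC d (deriv g))

/-- K11: approximate eigenfunctions -/
def K11 : Prop := ∀ d l ε : ℝ, 0 < d → 0 < ε → ∃ f : ℂ → ℂ, MemLp f 2 mu ∧
  0 < ∫ z, ‖f z‖ ^ 2 ∂mu ∧
  |(∫ z, avg d f z * conj (f z) ∂mu).re - Phi l d * ∫ z, ‖f z‖ ^ 2 ∂mu| ≤
    ε * ∫ z, ‖f z‖ ^ 2 ∂mu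

end

end Pool.Agent.H267H
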