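import Pool.Agent.Helper267_hyp.Defs2

/-!
# MP_592f63_co: the unit disc
-/

set_option autoImplicit false

open MeasureTheory Filter Topology Set
open scoped ENNReal ComplexConjugate

namespace Pool.Agent.H267H

noncomputable section

/-- the hyperbolic measure `4 (1 - |w|²)⁻² dx dy` of the unit disc -/
def nu : Measure ℂ :=
  (volume.restrict {w : ℂ | ‖w‖ < 1}).withDensity (fun w => ENNReal.ofReal (4 / (1 - ‖w‖ ^ 2) ^ 2))

/-- the point with parameter `t` of the hyperbolic circle of radius `d` about `w` in the disc -/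
def dpt (d t : ℝ) (w : ℂ) : ℂ :=
  ((Real.tanh (d / 2) : ℂ) * Complex.exp (t * Complex.I) + w) /
    (1 + conj w * ((Real.tanh (d / 2) : ℂ) * Complex.exp (t * Complex.I)))

/-- the circle mean in the disc -/
def davg (d : ℝ) (f : ℂ → ℂ) (w : ℂ) : ℂ :=
  ((1 / (2 * Real.pi) : ℝ) : ℂ) * ∫ t in (0:ℝ)..(2 * Real.pi), f (dpt d t w)

/-- Cayley transform and its inverse -/
def cay (w : ℂ) : ℂ := Complex.I * (1 + w) / (1 - w)

def icay (z : ℂ) : ℂ := (z - Complex.I) / (z + Complex.I)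

/-- C1 -/
def C1 : Prop := MeasurePreserving cay nu mu ∧ MeasurePreserving icay mu nu

/-- C3 -/
def C3 : Prop := ∀ (d : ℝ) (f : ℂ → ℂ) (w : ℂ), 0 < d → ‖w‖ < 1 →
  avg d (fun z => f (icay z)) (cay w) = davg d f w

/-- C4: geometry of the parametrisation in the disc: distance `d` and constant speed -/
def C4 : Prop := ∀ (d t : ℝ) (w : ℂ), 0 < d → ‖w‖ < 1 →
  ‖dpt d t w‖ < 1 ∧
  ‖(dpt d t w - w) / (1 - conj w * dpt d t w)‖ = Real.tanh (d / 2) ∧
  ∃ v : ℂ, HasDerivAt (fun t : ℝ => dpt d t w) v t ∧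
    2 * ‖v‖ / (1 - ‖dpt d t w‖ ^ 2) = Real.sinh d

end

end Pool.Agent.H267H
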