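import Pool.Agent.Helper267_hyp.Defs

set_option autoImplicit false

open MeasureTheory Filter Topology Set

namespace Pool.Agent.H267H

lemma P_pos (r t : ℝ) : 0 < P r t := by
  unfold P
  have h1 : |Real.sinh r| < Real.cosh r := by
    rw [abs_lt]
    constructor
    · have h := Real.exp_pos r
      have h' := Real.cosh_add_sinh r
      linarith
    · exact Real.sinh_lt_cosh r
  have h2 : Real.sinh r * Real.cos t ≤ |Real.sinh r| := by
    calc Real.sinh r * Real.cos t ≤ |Real.sinh r * Real.cos t| := le_abs_self _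
      _ = |Real.sinh r| * |Real.cos t| := abs_mul _ _
      _ ≤ |Real.sinh r| * 1 :=
        mul_le_mul_of_nonneg_left (Real.abs_cos_le_one t) (abs_nonneg _)
      _ = |Real.sinh r| := mul_one _
  linarith

lemma P_cont : Continuous (fun p : ℝ × ℝ => P p.1 p.2) := by
  unfold P
  exact (Real.continuous_cosh.comp continuous_fst).sub
    ((Real.continuous_sinh.comp continuous_fst).mul (Real.continuous_cos.comp continuous_snd))

/-- the integrand of `Phi` -/
noncomputable def FF (l r t : ℝ) : ℝ :=
  (P r t) ^ (-(1 / 2) : ℝ) * Real.cos (l * Real.log (P r t))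

/-- the integrand of `dPhi` -/
noncomputable def DD (l r t : ℝ) : ℝ :=
  (Real.sinh r - Real.cosh r * Real.cos t) * ((P r t) ^ (-(3 / 2) : ℝ) *
      (-(1 / 2) * Real.cos (l * Real.log (P r t)) - l * Real.sin (l * Real.log (P r t))))

lemma FF_cont (l : ℝ) : Continuous (fun p : ℝ × ℝ => FF l p.1 p.2) := by
  unfold FF
  have h0 : ∀ p : ℝ × ℝ, P p.1 p.2 ≠ 0 := fun p => (P_pos _ _).ne'
  exact (P_cont.rpow_const fun p => Or.inl (h0 p)).mul
    (Real.continuous_cos.comp (continuous_const.mul (P_cont.log h0)))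

lemma DD_cont (l : ℝ) : Continuous (fun p : ℝ × ℝ => DD l p.1 p.2) := by
  unfold DD
  have h0 : ∀ p : ℝ × ℝ, P p.1 p.2 ≠ 0 := fun p => (P_pos _ _).ne'
  have hl : Continuous fun p : ℝ × ℝ => l * Real.log (P p.1 p.2) :=
    continuous_const.mul (P_cont.log h0)
  refine ((Real.continuous_sinh.comp continuous_fst).sub
    ((Real.continuous_cosh.comp continuous_fst).mul
      (Real.continuous_cos.comp continuous_snd))).mul ?_
  refine (P_cont.rpow_const fun p => Or.inl (h0 p)).mul ?_
  exact (continuous_const.mul (Real.continuous_cos.comp hl)).sub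
    (continuous_const.mul (Real.continuous_sin.comp hl))

lemma FF_deriv (l r t : ℝ) : HasDerivAt (fun r => FF l r t) (DD l r t) r := by
  have hP : HasDerivAt (fun r => P r t) (Real.sinh r - Real.cosh r * Real.cos t) r := by
    unfold P
    exact (Real.hasDerivAt_cosh r).sub ((Real.hasDerivAt_sinh r).mul_const _)
  have hp := P_pos r t
  have h1 := hP.rpow_const (p := (-(1 / 2) : ℝ)) (Or.inl hp.ne')
  have h2 := ((hP.log hp.ne').const_mul l).cos
  have h3 := h1.mul h2
  refine h3.congr_deriv ?_
  have e1 : (P r t) ^ (-(3 / 2) : ℝ) = (P r t) ^ (-(1 / 2) : ℝ) / P r t := by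
    rw [← Real.rpow_sub_one hp.ne']
    norm_num
  have e2 : (P r t) ^ (-(1 / 2) - 1 : ℝ) = (P r t) ^ (-(1 / 2) : ℝ) / P r t :=
    Real.rpow_sub_one hp.ne' _
  unfold DD
  rw [e1]
  simp only [e2]
  field_simp
  ring

/- TARGET -/
theorem s1a : ∀ l r : ℝ, HasDerivAt (Phi l) (dPhi l r) r := by
  intro l r
  obtain ⟨C, hC⟩ := ((isCompact_Icc (a := r - 1) (b := r + 1)).prod
    (isCompact_Icc (a := (0 : ℝ)) (b := 2 * Real.pi))).exists_bound_of_continuousOn
    (DD_cont l).continuousOn
  have hcr : ∀ x : ℝ, Continuous (fun t => FF l x t) := fun x =>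
    (FF_cont l).comp (continuous_const.prodMk continuous_id)
  have hdr : ∀ x : ℝ, Continuous (fun t => DD l x t) := fun x =>
    (DD_cont l).comp (continuous_const.prodMk continuous_id)
  have h2 : (0 : ℝ) ≤ 2 * Real.pi := by positivity
  have key := intervalIntegral.hasDerivAt_integral_of_dominated_loc_of_deriv_le
    (μ := volume) (F := fun x t => FF l x t) (F' := fun x t => DD l x t) (x₀ := r)
    (s := Metric.ball r 1) (a := 0) (b := 2 * Real.pi) (bound := fun _ => C)
    (Metric.ball_mem_nhds r one_pos)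
    (Eventually.of_forall fun x => (hcr x).aestronglyMeasurable)
    ((hcr r).intervalIntegrable _ _)
    (hdr r).aestronglyMeasurable
    (Eventually.of_forall fun t ht x hx => by
      rw [uIoc_of_le h2] at ht
      rw [Metric.mem_ball, Real.dist_eq, abs_lt] at hx
      exact hC (x, t) ⟨⟨by simp only; linarith [hx.1], by simp only; linarith [hx.2]⟩,
        ⟨ht.1.le, ht.2⟩⟩)
    intervalIntegrable_const
    (Eventually.of_forall fun t _ x _ => FF_deriv l x t)
  exact key.2.const_mul (1 / (2 * Real.pi))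

end Pool.Agent.H267H
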