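import Pool.Agent.Helper267_hyp.Defs

set_option autoImplicit false

open MeasureTheory Filter Topology Set

namespace Pool.Agent.H267H

lemma s1b_P_pos (r t : ℝ) : 0 < P r t := by
  unfold P
  have h1 : |Real.sinh r| < Real.cosh r := by
    apply abs_lt_of_sq_lt_sq _ (Real.cosh_pos r).le
    rw [Real.cosh_sq]
    linarith
  have h2 : Real.sinh r * Real.cos t ≤ |Real.sinh r| := by
    calc Real.sinh r * Real.cos t ≤ |Real.sinh r * Real.cos t| := le_abs_self _
      _ = |Real.sinh r| * |Real.cos t| := abs_mul _ _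
      _ ≤ |Real.sinh r| * 1 := by
          apply mul_le_mul_of_nonneg_left (Real.abs_cos_le_one t) (abs_nonneg _)
      _ = |Real.sinh r| := mul_one _
  linarith

lemma s1b_P_cont : Continuous (fun q : ℝ × ℝ => P q.1 q.2) := by
  unfold P
  fun_prop

lemma s1b_F_cont : Continuous (fun q : (ℝ × ℝ) × ℝ =>
    (P q.1.2 q.2) ^ (-(1 / 2) : ℝ) * Real.cos (q.1.1 * Real.log (P q.1.2 q.2))) := by
  have hP : Continuous (fun q : (ℝ × ℝ) × ℝ => P q.1.2 q.2) := by
    unfold P
    fun_prop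
  have hne : ∀ q : (ℝ × ℝ) × ℝ, P q.1.2 q.2 ≠ 0 := fun q => (s1b_P_pos _ _).ne'
  refine (hP.rpow_const fun q => Or.inl (hne q)).mul (Real.continuous_cos.comp ?_)
  exact (continuous_fst.comp continuous_fst).mul (hP.log hne)

lemma s1b_G_cont : Continuous (fun q : (ℝ × ℝ) × ℝ =>
    (Real.sinh q.1.2 - Real.cosh q.1.2 * Real.cos q.2) * ((P q.1.2 q.2) ^ (-(3 / 2) : ℝ) *
      (-(1 / 2) * Real.cos (q.1.1 * Real.log (P q.1.2 q.2)) -
        q.1.1 * Real.sin (q.1.1 * Real.log (P q.1.2 q.2))))) := by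
  have hP : Continuous (fun q : (ℝ × ℝ) × ℝ => P q.1.2 q.2) := by
    unfold P
    fun_prop
  have hne : ∀ q : (ℝ × ℝ) × ℝ, P q.1.2 q.2 ≠ 0 := fun q => (s1b_P_pos _ _).ne'
  have hl : Continuous (fun q : (ℝ × ℝ) × ℝ => q.1.1 * Real.log (P q.1.2 q.2)) :=
    (continuous_fst.comp continuous_fst).mul (hP.log hne)
  have h0 : Continuous (fun q : (ℝ × ℝ) × ℝ =>
      Real.sinh q.1.2 - Real.cosh q.1.2 * Real.cos q.2) := by fun_prop
  refine h0.mul ((hP.rpow_const fun q => Or.inl (hne q)).mul ?_)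
  exact (continuous_const.mul (Real.continuous_cos.comp hl)).sub
    ((continuous_fst.comp continuous_fst).mul (Real.continuous_sin.comp hl))

theorem s1b : Continuous (fun p : ℝ × ℝ => Phi p.1 p.2) ∧
    Continuous (fun p : ℝ × ℝ => dPhi p.1 p.2) := by
  constructor
  · unfold Phi
    refine continuous_const.mul ?_
    exact intervalIntegral.continuous_parametric_intervalIntegral_of_continuous'
      (f := fun (p : ℝ × ℝ) (t : ℝ) =>
        (P p.2 t) ^ (-(1 / 2) : ℝ) * Real.cos (p.1 * Real.log (P p.2 t))) s1b_F_cont 0 (2 * Real.pi)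
  · unfold dPhi
    refine continuous_const.mul ?_
    exact intervalIntegral.continuous_parametric_intervalIntegral_of_continuous'
      (f := fun (p : ℝ × ℝ) (t : ℝ) =>
        (Real.sinh p.2 - Real.cosh p.2 * Real.cos t) * ((P p.2 t) ^ (-(3 / 2) : ℝ) *
          (-(1 / 2) * Real.cos (p.1 * Real.log (P p.2 t)) -
            p.1 * Real.sin (p.1 * Real.log (P p.2 t))))) s1b_G_cont 0 (2 * Real.pi)

lemma s1c_F_cont (l r : ℝ) : Continuous (fun t : ℝ =>
    (P r t) ^ (-(1 / 2) : ℝ) * Real.cos (l * Real.log (P r t))) :=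
  s1b_F_cont.comp (by fun_prop : Continuous fun t : ℝ => (((l, r), t) : (ℝ × ℝ) × ℝ))

lemma s1c_G_cont (l r : ℝ) : Continuous (fun t : ℝ =>
    (Real.sinh r - Real.cosh r * Real.cos t) * ((P r t) ^ (-(3 / 2) : ℝ) *
      (-(1 / 2) * Real.cos (l * Real.log (P r t)) - l * Real.sin (l * Real.log (P r t))))) :=
  s1b_G_cont.comp (by fun_prop : Continuous fun t : ℝ => (((l, r), t) : (ℝ × ℝ) × ℝ))

lemma s1c_P_zero (t : ℝ) : P 0 t = 1 := by
  simp [P]

lemma s1c_Pr_le (r t : ℝ) : |Real.sinh r - Real.cosh r * Real.cos t| ≤ P r t := by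
  apply abs_le_of_sq_le_sq _ (s1b_P_pos r t).le
  unfold P
  have h1 := Real.cosh_sq r
  have h2 := Real.sin_sq_add_cos_sq t
  nlinarith [sq_nonneg (Real.sin t)]

lemma s1c_Phi0 (r : ℝ) : Phi 0 r =
    (1 / (2 * Real.pi)) * ∫ t in (0:ℝ)..(2 * Real.pi), (P r t) ^ (-(1 / 2) : ℝ) := by
  unfold Phi
  simp

lemma s1c_H_cont (r : ℝ) : Continuous (fun t : ℝ => (P r t) ^ (-(1 / 2) : ℝ)) := by
  have h := s1c_F_cont 0 r
  simpa using h

theorem s1c : (∀ l : ℝ, Phi l 0 = 1) ∧ (∀ l : ℝ, dPhi l 0 = 0) ∧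
    (∀ r : ℝ, 0 < Phi 0 r) ∧ (∀ l r : ℝ, |Phi l r| ≤ Phi 0 r) ∧
    (∀ r : ℝ, |dPhi 0 r| ≤ 1 / 2 * Phi 0 r) := by
  have hpi := Real.pi_pos
  have h2pi : (0:ℝ) < 2 * Real.pi := by positivity
  refine ⟨?_, ?_, ?_, ?_, ?_⟩
  · intro l
    unfold Phi
    simp only [s1c_P_zero, Real.one_rpow, Real.log_one, mul_zero, Real.cos_zero, mul_one,
      intervalIntegral.integral_const, smul_eq_mul, sub_zero]
    field_simp
  · intro l
    unfold dPhi
    simp only [s1c_P_zero, Real.one_rpow, Real.log_one, mul_zero, Real.cos_zero, mul_one,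
      Real.sin_zero, Real.sinh_zero, Real.cosh_zero, one_mul, zero_sub, sub_zero]
    have h : (∫ t in (0:ℝ)..(2 * Real.pi), -Real.cos t * -(1 / 2)) = 0 := by
      rw [intervalIntegral.integral_mul_const, intervalIntegral.integral_neg, integral_cos]
      simp
    rw [h, mul_zero]
  · intro r
    rw [s1c_Phi0]
    refine mul_pos (by positivity) ?_
    apply intervalIntegral.intervalIntegral_pos_of_pos
      ((s1c_H_cont r).intervalIntegrable _ _) _ h2pi
    intro t
    exact Real.rpow_pos_of_pos (s1b_P_pos r t) _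
  · intro l r
    rw [s1c_Phi0]
    unfold Phi
    rw [abs_mul, abs_of_pos (by positivity : (0:ℝ) < 1 / (2 * Real.pi))]
    refine mul_le_mul_of_nonneg_left ?_ (by positivity)
    refine (intervalIntegral.abs_integral_le_integral_abs h2pi.le).trans ?_
    refine intervalIntegral.integral_mono_on h2pi.le ((s1c_F_cont l r).abs.intervalIntegrable _ _)
      ((s1c_H_cont r).intervalIntegrable _ _) ?_
    intro t _
    have h0 : 0 < (P r t) ^ (-(1 / 2) : ℝ) := Real.rpow_pos_of_pos (s1b_P_pos r t) _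
    rw [abs_mul, abs_of_pos h0]
    calc (P r t) ^ (-(1 / 2) : ℝ) * |Real.cos (l * Real.log (P r t))|
        ≤ (P r t) ^ (-(1 / 2) : ℝ) * 1 :=
          mul_le_mul_of_nonneg_left (Real.abs_cos_le_one _) h0.le
      _ = (P r t) ^ (-(1 / 2) : ℝ) := mul_one _
  · intro r
    rw [s1c_Phi0]
    unfold dPhi
    rw [abs_mul, abs_of_pos (by positivity : (0:ℝ) < 1 / (2 * Real.pi))]
    rw [mul_left_comm (1 / 2 : ℝ) (1 / (2 * Real.pi))]
    refine mul_le_mul_of_nonneg_left ?_ (by positivity)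
    rw [← intervalIntegral.integral_const_mul]
    refine (intervalIntegral.abs_integral_le_integral_abs h2pi.le).trans ?_
    refine intervalIntegral.integral_mono_on h2pi.le ((s1c_G_cont 0 r).abs.intervalIntegrable _ _)
      (((s1c_H_cont r).const_mul _).intervalIntegrable _ _) ?_
    intro t _
    have hP := s1b_P_pos r t
    have h3 : 0 < (P r t) ^ (-(3 / 2) : ℝ) := Real.rpow_pos_of_pos hP _
    have h4 : P r t * (P r t) ^ (-(3 / 2) : ℝ) = (P r t) ^ (-(1 / 2) : ℝ) := by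
      nth_rw 1 [← Real.rpow_one (P r t)]
      rw [← Real.rpow_add hP]
      norm_num
    simp only [zero_mul, Real.cos_zero, mul_one, Real.sin_zero, sub_zero]
    rw [abs_mul, abs_mul, abs_of_pos h3, abs_neg, abs_of_pos (by norm_num : (0:ℝ) < 1 / 2)]
    calc |Real.sinh r - Real.cosh r * Real.cos t| * ((P r t) ^ (-(3 / 2) : ℝ) * (1 / 2))
        ≤ P r t * ((P r t) ^ (-(3 / 2) : ℝ) * (1 / 2)) :=
          mul_le_mul_of_nonneg_right (s1c_Pr_le r t) (by positivity)
      _ = 1 / 2 * (P r t * (P r t) ^ (-(3 / 2) : ℝ)) := by ring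
      _ = 1 / 2 * (P r t) ^ (-(1 / 2) : ℝ) := by rw [h4]

end Pool.Agent.H267H
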