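import Pool.Agent.Helper267_hyp.Defs

/-! The differential equation of the spherical functions (J2). -/

set_option autoImplicit false

open MeasureTheory Filter Topology Set

namespace Pool.Agent.H267H

namespace J2x

/-- `f'(p)` -/
noncomputable def f1 (l p : ℝ) : ℝ :=
  p ^ (-(3 / 2) : ℝ) * (-(1 / 2) * Real.cos (l * Real.log p) - l * Real.sin (l * Real.log p))

/-- `f''(p)` -/
noncomputable def f2 (l p : ℝ) : ℝ :=
  p ^ (-(5 / 2) : ℝ) *
    ((3 / 4 - l ^ 2) * Real.cos (l * Real.log p) + 2 * l * Real.sin (l * Real.log p))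

theorem rp32 {p : ℝ} (hp : 0 < p) : p ^ (-(3 / 2) : ℝ) = p ^ (-(5 / 2) : ℝ) * p := by
  have h := Real.rpow_add hp (-(5 / 2)) 1
  rw [Real.rpow_one] at h
  rw [← h]
  norm_num

theorem rp12 {p : ℝ} (hp : 0 < p) : p ^ (-(1 / 2) : ℝ) = p ^ (-(5 / 2) : ℝ) * p ^ 2 := by
  have h := Real.rpow_add hp (-(5 / 2)) 2
  rw [Real.rpow_two] at h
  rw [← h]
  norm_num

theorem hasDerivAt_f1 (l p : ℝ) (hp : 0 < p) : HasDerivAt (f1 l) (f2 l p) p := by
  have h1 : HasDerivAt (fun x : ℝ => x ^ (-(3 / 2) : ℝ)) (-(3 / 2) * p ^ (-(3 / 2) - 1 : ℝ)) p :=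
    Real.hasDerivAt_rpow_const (Or.inl hp.ne')
  have h2 : HasDerivAt (fun x : ℝ => l * Real.log x) (l * p⁻¹) p :=
    (Real.hasDerivAt_log hp.ne').const_mul l
  have h3 : HasDerivAt (fun x : ℝ => -(1 / 2) * Real.cos (l * Real.log x) -
      l * Real.sin (l * Real.log x))
      (-(1 / 2) * (-Real.sin (l * Real.log p) * (l * p⁻¹)) -
        l * (Real.cos (l * Real.log p) * (l * p⁻¹))) p :=
    (h2.cos.const_mul (-(1 / 2) : ℝ)).sub (h2.sin.const_mul l)
  have h4 : HasDerivAt (f1 l)
      (-(3 / 2) * p ^ (-(3 / 2) - 1 : ℝ) *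
        (-(1 / 2) * Real.cos (l * Real.log p) - l * Real.sin (l * Real.log p)) +
        p ^ (-(3 / 2) : ℝ) * (-(1 / 2) * (-Real.sin (l * Real.log p) * (l * p⁻¹)) -
        l * (Real.cos (l * Real.log p) * (l * p⁻¹)))) p := h1.mul h3
  refine h4.congr_deriv ?_
  have e1 : p ^ (-(3 / 2) - 1 : ℝ) = p ^ (-(5 / 2) : ℝ) := by norm_num
  rw [e1, rp32 hp, f2]
  have hp' : p ≠ 0 := hp.ne'
  field_simp
  ring

theorem P_pos (r t : ℝ) : 0 < P r t := by
  unfold P
  have h1 : |Real.sinh r * Real.cos t| ≤ |Real.sinh r| := by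
    rw [abs_mul]
    exact mul_le_of_le_one_right (abs_nonneg _) (Real.abs_cos_le_one t)
  have h2 : |Real.sinh r| < Real.cosh r := by
    rw [abs_lt]
    constructor
    · have := Real.exp_pos r
      rw [← Real.cosh_add_sinh] at this
      linarith
    · exact Real.sinh_lt_cosh r
  have h3 := le_abs_self (Real.sinh r * Real.cos t)
  linarith

theorem P_ne (r t : ℝ) : P r t ≠ 0 := (P_pos r t).ne'

theorem cont_P : Continuous (fun p : ℝ × ℝ => P p.1 p.2) := by
  unfold P
  exact (Real.continuous_cosh.comp continuous_fst).sub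
    ((Real.continuous_sinh.comp continuous_fst).mul (Real.continuous_cos.comp continuous_snd))

theorem cont_logP : Continuous (fun p : ℝ × ℝ => Real.log (P p.1 p.2)) :=
  cont_P.log fun p => P_ne p.1 p.2

theorem cont_f1 (l : ℝ) : Continuous (fun p : ℝ × ℝ => f1 l (P p.1 p.2)) := by
  unfold f1
  have h1 := cont_P.rpow_const (p := (-(3 / 2) : ℝ)) fun p => Or.inl (P_ne p.1 p.2)
  have h2 : Continuous (fun p : ℝ × ℝ => l * Real.log (P p.1 p.2)) :=
    continuous_const.mul cont_logP
  exact h1.mul ((continuous_const.mul (Real.continuous_cos.comp h2)).sub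
    (continuous_const.mul (Real.continuous_sin.comp h2)))

theorem cont_f2 (l : ℝ) : Continuous (fun p : ℝ × ℝ => f2 l (P p.1 p.2)) := by
  unfold f2
  have h1 := cont_P.rpow_const (p := (-(5 / 2) : ℝ)) fun p => Or.inl (P_ne p.1 p.2)
  have h2 : Continuous (fun p : ℝ × ℝ => l * Real.log (P p.1 p.2)) :=
    continuous_const.mul cont_logP
  exact h1.mul ((continuous_const.mul (Real.continuous_cos.comp h2)).add
    (continuous_const.mul (Real.continuous_sin.comp h2)))

/-- the integrand of `dPhi` -/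
noncomputable def F (l r t : ℝ) : ℝ := (Real.sinh r - Real.cosh r * Real.cos t) * f1 l (P r t)

/-- its derivative -/
noncomputable def F' (l r t : ℝ) : ℝ :=
  P r t * f1 l (P r t) + (Real.sinh r - Real.cosh r * Real.cos t) ^ 2 * f2 l (P r t)

theorem cont_Pr : Continuous (fun p : ℝ × ℝ => Real.sinh p.1 - Real.cosh p.1 * Real.cos p.2) :=
  (Real.continuous_sinh.comp continuous_fst).sub
    ((Real.continuous_cosh.comp continuous_fst).mul (Real.continuous_cos.comp continuous_snd))

theorem cont_F (l : ℝ) : Continuous (fun p : ℝ × ℝ => F l p.1 p.2) := by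
  unfold F
  exact cont_Pr.mul (cont_f1 l)

theorem cont_F' (l : ℝ) : Continuous (fun p : ℝ × ℝ => F' l p.1 p.2) := by
  unfold F'
  exact (cont_P.mul (cont_f1 l)).add ((cont_Pr.pow 2).mul (cont_f2 l))

theorem hasDerivAt_P (r t : ℝ) :
    HasDerivAt (fun r => P r t) (Real.sinh r - Real.cosh r * Real.cos t) r := by
  unfold P
  exact (Real.hasDerivAt_cosh r).sub ((Real.hasDerivAt_sinh r).mul_const _)

theorem hasDerivAt_Pt (r t : ℝ) :
    HasDerivAt (fun t => P r t) (Real.sinh r * Real.sin t) t := by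
  unfold P
  have h := ((Real.hasDerivAt_cos t).const_mul (Real.sinh r)).const_sub (Real.cosh r)
  refine h.congr_deriv ?_
  ring

theorem hasDerivAt_F (l r t : ℝ) : HasDerivAt (fun r => F l r t) (F' l r t) r := by
  unfold F F'
  have h1 : HasDerivAt (fun r => Real.sinh r - Real.cosh r * Real.cos t) (P r t) r := by
    unfold P
    exact (Real.hasDerivAt_sinh r).sub ((Real.hasDerivAt_cosh r).mul_const _)
  have h2 : HasDerivAt (fun r => f1 l (P r t))
      (f2 l (P r t) * (Real.sinh r - Real.cosh r * Real.cos t)) r :=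
    HasDerivAt.comp (h₂ := f1 l) (h := fun r => P r t) r (hasDerivAt_f1 l (P r t) (P_pos r t))
      (hasDerivAt_P r t)
  refine (h1.mul h2).congr_deriv ?_
  ring

theorem hasDerivAt_int (l r : ℝ) :
    HasDerivAt (fun r => ∫ t in (0:ℝ)..(2 * Real.pi), F l r t)
      (∫ t in (0:ℝ)..(2 * Real.pi), F' l r t) r := by
  have hK : IsCompact (Icc (r - 1) (r + 1) ×ˢ Icc (0 : ℝ) (2 * Real.pi)) :=
    isCompact_Icc.prod isCompact_Icc
  obtain ⟨C, hC⟩ := hK.exists_bound_of_continuousOn (cont_F' l).continuousOn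
  have hpi : (0 : ℝ) ≤ 2 * Real.pi := by positivity
  have hcF : ∀ x, Continuous (F l x) := fun x =>
    (cont_F l).comp (continuous_const.prodMk continuous_id)
  have hcF' : ∀ x, Continuous (F' l x) := fun x =>
    (cont_F' l).comp (continuous_const.prodMk continuous_id)
  refine (intervalIntegral.hasDerivAt_integral_of_dominated_loc_of_deriv_le
    (s := Icc (r - 1) (r + 1)) (bound := fun _ => C) ?_ ?_ ?_ ?_ ?_ ?_ ?_).2
  · exact Icc_mem_nhds (by linarith) (by linarith)
  · exact Eventually.of_forall fun x => (hcF x).aestronglyMeasurable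
  · exact (hcF r).intervalIntegrable _ _
  · exact (hcF' r).aestronglyMeasurable
  · refine Eventually.of_forall fun t ht x hx => ?_
    rw [uIoc_of_le hpi] at ht
    exact hC (x, t) ⟨hx, ht.1.le, ht.2⟩
  · exact intervalIntegrable_const
  · exact Eventually.of_forall fun t _ x _ => hasDerivAt_F l x t

theorem dPhi_eq (l r : ℝ) :
    dPhi l r = (1 / (2 * Real.pi)) * ∫ t in (0:ℝ)..(2 * Real.pi), F l r t := rfl

theorem hasDerivAt_dPhi (l r : ℝ) :
    HasDerivAt (dPhi l) ((1 / (2 * Real.pi)) * ∫ t in (0:ℝ)..(2 * Real.pi), F' l r t) r :=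
  (hasDerivAt_int l r).const_mul _

/-- the exact derivative in `t` -/
noncomputable def G' (l r t : ℝ) : ℝ :=
  Real.cos t * f1 l (P r t) + Real.sin t * (f2 l (P r t) * (Real.sinh r * Real.sin t))

theorem hasDerivAt_G (l r t : ℝ) :
    HasDerivAt (fun t => Real.sin t * f1 l (P r t)) (G' l r t) t := by
  have h2 : HasDerivAt (fun t => f1 l (P r t)) (f2 l (P r t) * (Real.sinh r * Real.sin t)) t :=
    (hasDerivAt_f1 l (P r t) (P_pos r t)).comp t (hasDerivAt_Pt r t)
  exact (Real.hasDerivAt_sin t).mul h2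

theorem cont_G' (l r : ℝ) : Continuous (G' l r) := by
  have h1 : Continuous (fun t => f1 l (P r t)) :=
    (cont_f1 l).comp (continuous_const.prodMk continuous_id)
  have h2 : Continuous (fun t => f2 l (P r t)) :=
    (cont_f2 l).comp (continuous_const.prodMk continuous_id)
  unfold G'
  exact (Real.continuous_cos.mul h1).add
    (Real.continuous_sin.mul (h2.mul (continuous_const.mul Real.continuous_sin)))

theorem int_G' (l r : ℝ) : ∫ t in (0:ℝ)..(2 * Real.pi), G' l r t = 0 := by
  rw [intervalIntegral.integral_eq_sub_of_hasDerivAt (fun t _ => hasDerivAt_G l r t)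
    ((cont_G' l r).intervalIntegrable _ _)]
  rw [Real.sin_two_pi, Real.sin_zero]
  ring

theorem pointwise (l r t : ℝ) :
    Real.cosh r * F l r t + Real.sinh r * F' l r t =
      -(1 / 4 + l ^ 2) * Real.sinh r *
        ((P r t) ^ (-(1 / 2) : ℝ) * Real.cos (l * Real.log (P r t))) - G' l r t := by
  have hp := P_pos r t
  unfold F F' G' f1 f2
  rw [rp32 hp, rp12 hp]
  generalize (P r t) ^ (-(5 / 2) : ℝ) = q
  generalize Real.cos (l * Real.log (P r t)) = c
  generalize Real.sin (l * Real.log (P r t)) = s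
  have h1 : Real.sin t ^ 2 = 1 - Real.cos t ^ 2 := by
    have := Real.sin_sq_add_cos_sq t
    linarith
  have h2 : Real.cosh r ^ 2 = Real.sinh r ^ 2 + 1 := Real.cosh_sq r
  unfold P
  generalize Real.cosh r = C at *
  generalize Real.sinh r = S at *
  generalize Real.cos t = x at *
  generalize Real.sin t = y at *
  linear_combination (-(q * (C - S * x) * (-(1 / 2) * c - l * s) * x) +
    S * q * ((3 / 4 - l ^ 2) * c + 2 * l * s) * (x ^ 2 - 1)) * h2 +
    S * q * ((3 / 4 - l ^ 2) * c + 2 * l * s) * h1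

end J2x

open J2x in
theorem s2 : S2 := by
  intro l r _
  have h1 := (Real.hasDerivAt_sinh r).mul (hasDerivAt_dPhi l r)
  refine h1.congr_deriv ?_
  rw [dPhi_eq, Phi]
  have hcF : Continuous (F l r) := (cont_F l).comp (continuous_const.prodMk continuous_id)
  have hcF' : Continuous (F' l r) := (cont_F' l).comp (continuous_const.prodMk continuous_id)
  have h2 : Real.cosh r * (∫ t in (0:ℝ)..(2 * Real.pi), F l r t) +
      Real.sinh r * (∫ t in (0:ℝ)..(2 * Real.pi), F' l r t) =
      -(1 / 4 + l ^ 2) * Real.sinh r * (∫ t in (0:ℝ)..(2 * Real.pi),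
        (P r t) ^ (-(1 / 2) : ℝ) * Real.cos (l * Real.log (P r t))) := by
    have hcf : Continuous (fun t => (P r t) ^ (-(1 / 2) : ℝ) * Real.cos (l * Real.log (P r t))) := by
      have hP : Continuous (fun t => P r t) := cont_P.comp (continuous_const.prodMk continuous_id)
      have hl : Continuous (fun t => l * Real.log (P r t)) :=
        continuous_const.mul (hP.log fun t => P_ne r t)
      exact (hP.rpow_const fun t => Or.inl (P_ne r t)).mul (Real.continuous_cos.comp hl)
    have i1 : IntervalIntegrable (fun t => Real.cosh r * F l r t) volume 0 (2 * Real.pi) :=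
      (continuous_const.mul hcF).intervalIntegrable _ _
    have i2 : IntervalIntegrable (fun t => Real.sinh r * F' l r t) volume 0 (2 * Real.pi) :=
      (continuous_const.mul hcF').intervalIntegrable _ _
    have i3 : IntervalIntegrable (fun t => -(1 / 4 + l ^ 2) * Real.sinh r *
        ((P r t) ^ (-(1 / 2) : ℝ) * Real.cos (l * Real.log (P r t)))) volume 0 (2 * Real.pi) :=
      (continuous_const.mul hcf).intervalIntegrable _ _
    have i4 : IntervalIntegrable (G' l r) volume 0 (2 * Real.pi) :=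
      (cont_G' l r).intervalIntegrable _ _
    have e1 := intervalIntegral.integral_add i1 i2
    have e2 := intervalIntegral.integral_sub i3 i4
    rw [int_G', sub_zero] at e2
    rw [← intervalIntegral.integral_const_mul, ← intervalIntegral.integral_const_mul,
      ← intervalIntegral.integral_const_mul, ← e1, ← e2]
    exact intervalIntegral.integral_congr (fun t _ => pointwise l r t)
  linear_combination (1 / (2 * Real.pi)) * h2

end Pool.Agent.H267H
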