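import Pool.Agent.Helper267_hyp.Defs

/-! # J3: the function `k = cosh + 2 sinh φ_0'/φ_0` and `y = sinh / k` -/

set_option autoImplicit false

open MeasureTheory Filter Topology Set

namespace Pool.Agent.H267H

theorem j3_comp {f : ℝ → ℝ → ℝ} (h : Continuous fun p : ℝ × ℝ => f p.1 p.2) :
    Continuous (f 0) := by
  have h3 : Continuous (fun r : ℝ => ((0 : ℝ), r)) := by fun_prop
  exact h.comp h3

theorem j3_cont_Phi (h1 : S1) : Continuous (Phi 0) := j3_comp h1.2.1

theorem j3_cont_dPhi (h1 : S1) : Continuous (dPhi 0) := j3_comp h1.2.2.1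

theorem j3_cont_kk (h1 : S1) : Continuous kk := by
  have hP := j3_cont_Phi h1
  have hD := j3_cont_dPhi h1
  have hpos := h1.2.2.2.2.2.1
  unfold kk
  exact Real.continuous_cosh.add
    (((continuous_const.mul Real.continuous_sinh).mul hD).div hP fun r => (hpos r).ne')

theorem j3_kk_zero : kk 0 = 1 := by
  unfold kk
  simp

/-- the derivative of `k` -/
theorem j3_deriv (h1 : S1) (h2 : S2) {r : ℝ} (hr : 0 < r) :
    HasDerivAt kk (Real.sinh r * (1 - 4 * (dPhi 0 r / Phi 0 r) ^ 2) / 2) r := by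
  have hpos := h1.2.2.2.2.2.1 r
  have e1 := h1.1 0 r
  have e2 := h2 0 r hr
  have e3 := (e2.div e1 hpos.ne').const_mul 2
  have e4 := (Real.hasDerivAt_cosh r).add e3
  have e5 : kk = (Real.cosh + fun y => 2 *
      (((fun r => Real.sinh r * dPhi 0 r) / Phi 0) y)) := by
    funext x
    simp only [kk, Pi.add_apply, Pi.div_apply]
    ring
  rw [e5]
  refine e4.congr_deriv ?_
  have hne := hpos.ne'
  field_simp
  ring

theorem j3_psi (h1 : S1) (r : ℝ) : 0 ≤ 1 - 4 * (dPhi 0 r / Phi 0 r) ^ 2 := by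
  have hpos := h1.2.2.2.2.2.1 r
  have hb := h1.2.2.2.2.2.2.2 r
  have h : |dPhi 0 r / Phi 0 r| ≤ 1 / 2 := by
    rw [abs_div, abs_of_pos hpos, div_le_iff₀ hpos]
    exact hb
  have h3 := abs_le.1 h
  nlinarith [h3.1, h3.2]

theorem j3_mono (h1 : S1) (h2 : S2) : MonotoneOn kk (Ici 0) := by
  refine monotoneOn_of_deriv_nonneg (convex_Ici 0) (j3_cont_kk h1).continuousOn ?_ ?_
  · intro r hr
    rw [interior_Ici] at hr
    exact (j3_deriv h1 h2 hr).differentiableAt.differentiableWithinAt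
  · intro r hr
    rw [interior_Ici] at hr
    rw [(j3_deriv h1 h2 hr).deriv]
    have := Real.sinh_pos_iff.2 (mem_Ioi.1 hr)
    have := j3_psi h1 r
    positivity

theorem j3_one_le (h1 : S1) (h2 : S2) {r : ℝ} (hr : 0 ≤ r) : 1 ≤ kk r := by
  have := j3_mono h1 h2 (mem_Ici.2 le_rfl) (mem_Ici.2 hr) hr
  rwa [j3_kk_zero] at this

theorem j3_yy (h1 : S1) (h2 : S2) {r : ℝ} (hr : 0 < r) :
    HasDerivAt yy ((1 + 1 / kk r ^ 2) / 2) r := by
  have hk := j3_one_le h1 h2 hr.le
  have hk0 : kk r ≠ 0 := by linarith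
  have e1 := (Real.hasDerivAt_sinh r).div (j3_deriv h1 h2 hr) hk0
  refine e1.congr_deriv ?_
  have hc : Real.cosh r ^ 2 - Real.sinh r ^ 2 = 1 := Real.cosh_sq_sub_sinh_sq r
  have hψ : kk r = Real.cosh r + 2 * Real.sinh r * (dPhi 0 r / Phi 0 r) := by
    unfold kk
    ring
  set ψ := dPhi 0 r / Phi 0 r with hψd
  rw [div_eq_div_iff (pow_ne_zero 2 hk0) two_ne_zero]
  have e2 : (1 + 1 / kk r ^ 2) * kk r ^ 2 = kk r ^ 2 + 1 := by
    field_simp
  rw [e2, hψ]
  linear_combination hc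

theorem s3 (h1 : S1) (h2 : S2) : S3 := by
  have hmono := j3_mono h1 h2
  refine ⟨fun r hr => ⟨j3_one_le h1 h2 hr.le, ?_, j3_yy h1 h2 hr⟩, ?_, ?_, ?_⟩
  · have hk := j3_one_le h1 h2 hr.le
    exact div_pos (Real.sinh_pos_iff.2 hr) (by linarith)
  · intro a ha b hb hab
    have ha' := mem_Ioi.1 ha
    have hb' := mem_Ioi.1 hb
    have hka := j3_one_le h1 h2 ha'.le
    have hkab := hmono (mem_Ici.2 ha'.le) (mem_Ici.2 hb'.le) hab
    have h3 : kk a ^ 2 ≤ kk b ^ 2 := by gcongr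
    have h4 : 1 / kk b ^ 2 ≤ 1 / kk a ^ 2 :=
      one_div_le_one_div_of_le (by positivity) h3
    show (1 + 1 / kk b ^ 2) / 2 ≤ (1 + 1 / kk a ^ 2) / 2
    linarith
  · have hs : Tendsto (fun r : ℝ => Real.sinh r / r) (𝓝[>] 0) (𝓝 1) := by
      have h3 := (Real.hasDerivAt_sinh 0).tendsto_slope
      rw [Real.cosh_zero] at h3
      have h4 : Tendsto (slope Real.sinh 0) (𝓝[>] 0) (𝓝 1) :=
        h3.mono_left (nhdsWithin_mono _ fun x hx => (mem_Ioi.1 hx).ne')
      refine h4.congr fun x => ?_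
      rw [slope_def_field, Real.sinh_zero, sub_zero, sub_zero]
    have hk : Tendsto kk (𝓝[>] 0) (𝓝 1) := by
      have h3 := ((j3_cont_kk h1).tendsto 0).mono_left (nhdsWithin_le_nhds (s := Ioi 0))
      rwa [j3_kk_zero] at h3
    have h5 := hs.div hk one_ne_zero
    rw [div_one] at h5
    refine h5.congr fun x => ?_
    simp only [Pi.div_apply, yy]
    rw [div_right_comm]
  · intro R hR
    have hkR := j3_one_le h1 h2 hR.le
    refine ⟨1 / kk R, by positivity, fun r hr hrR => ?_⟩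
    have hk := j3_one_le h1 h2 hr.le
    have hkr := hmono (mem_Ici.2 hr.le) (mem_Ici.2 hR.le) hrR
    have hs : r ≤ Real.sinh r := Real.self_le_sinh_iff.2 hr.le
    calc 1 / kk R * r = r / kk R := by ring
      _ ≤ r / kk r := by
          apply div_le_div_of_nonneg_left hr.le (by linarith) hkr
      _ ≤ Real.sinh r / kk r := by
          apply div_le_div_of_nonneg_right hs (by linarith)

end Pool.Agent.H267H
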