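import Pool.Agent.Helper267_hyp.Defs

set_option autoImplicit false

open MeasureTheory Filter Topology Set

namespace Pool.Agent.H267H

/-- `G = sinh (Phi_l' Phi_0 - Phi_l Phi_0')` -/
private noncomputable def GG (l r : ℝ) : ℝ :=
  (Real.sinh r * dPhi l r) * Phi 0 r - Phi l r * (Real.sinh r * dPhi 0 r)

private noncomputable def ww (r : ℝ) : ℝ := Real.sinh r * Phi 0 r ^ 2

/-- TARGET -/
theorem s4 (h1 : S1) (h2 : S2) (h3 : S3) : S4 := by
  obtain ⟨d1, c1, c2, e0, e0', pos, bd, -⟩ := h1
  obtain ⟨k1, -, yl, -⟩ := h3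
  intro l hl
  have hl0 : l ≠ 0 := hl.ne'
  have hp0 : ∀ r, Phi 0 r ≠ 0 := fun r => (pos r).ne'
  have cPhi : ∀ m : ℝ, Continuous (Phi m) := by
    intro m
    have hq : Continuous (fun r : ℝ => ((m, r) : ℝ × ℝ)) := by fun_prop
    have h := c1.comp hq
    have e : (fun p : ℝ × ℝ => Phi p.1 p.2) ∘ (fun r : ℝ => ((m, r) : ℝ × ℝ)) = Phi m := by
      funext r; rfl
    rw [e] at h
    exact h
  have cdPhi : ∀ m : ℝ, Continuous (dPhi m) := by
    intro m
    have hq : Continuous (fun r : ℝ => ((m, r) : ℝ × ℝ)) := by fun_prop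
    have h := c2.comp hq
    have e : (fun p : ℝ × ℝ => dPhi p.1 p.2) ∘ (fun r : ℝ => ((m, r) : ℝ × ℝ)) = dPhi m := by
      funext r; rfl
    rw [e] at h
    exact h
  have hsinh : ∀ r : ℝ, 0 < r → 0 < Real.sinh r := fun r hr => Real.sinh_pos_iff.2 hr
  have wpos : ∀ r : ℝ, 0 < r → 0 < ww r := fun r hr => by
    unfold ww
    have := hsinh r hr
    have := pos r
    positivity
  -- derivative of `w`
  have dw : ∀ r : ℝ, 0 < r → HasDerivAt ww (ww r / yy r) r := by
    intro r hr
    have h := (Real.hasDerivAt_sinh r).mul ((d1 0 r).pow 2)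
    have e : ww = Real.sinh * Phi 0 ^ 2 := by
      funext s
      rfl
    rw [← e] at h
    have hk := (k1 r hr).1
    have hs := hsinh r hr
    refine h.congr_deriv ?_
    unfold ww yy
    have hk0 : kk r ≠ 0 := by linarith
    rw [div_div_eq_mul_div]
    unfold kk
    simp only [Pi.pow_apply]
    field_simp [hp0 r, hs.ne']
    push_cast
    ring
  -- derivative of `G`
  have dG : ∀ r : ℝ, 0 < r → HasDerivAt (GG l) (-l ^ 2 * (ww r * uu l r)) r := by
    intro r hr
    have h := ((h2 l r hr).mul (d1 0 r)).sub ((d1 l r).mul (h2 0 r hr))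
    have e : GG l = (fun r => Real.sinh r * dPhi l r) * Phi 0 - Phi l * fun r => Real.sinh r * dPhi 0 r := by
      funext s
      rfl
    rw [← e] at h
    refine h.congr_deriv ?_
    unfold ww uu
    field_simp [hp0 r]
    ring
  -- `z = - G / (l w)` for `r > 0`
  have zG : ∀ r : ℝ, 0 < r → zz l r = -GG l r / (l * ww r) := by
    intro r hr
    unfold zz GG ww
    have hs := (hsinh r hr).ne'
    have hp := hp0 r
    field_simp
  have ub : ∀ r : ℝ, |uu l r| ≤ 1 := by
    intro r
    unfold uu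
    rw [abs_div, abs_of_pos (pos r), div_le_one (pos r)]
    exact bd l r
  have hu1 : Tendsto (uu l) (𝓝[>] 0) (𝓝 1) := by
    have hc : Continuous (uu l) := (cPhi l).div (cPhi 0) hp0
    have h := (hc.tendsto 0).mono_left (nhdsWithin_le_nhds (s := Ioi 0))
    have e : uu l 0 = 1 := by unfold uu; rw [e0, e0]; norm_num
    rwa [e] at h
  refine ⟨?_, ?_, hu1, ?_, ?_⟩
  · intro r _
    have h := (d1 l r).div (d1 0 r) (hp0 r)
    have e : uu l = Phi l / Phi 0 := by
      funext s
      rfl
    rw [← e] at h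
    refine h.congr_deriv ?_
    unfold zz
    field_simp [hp0 r]
  · intro r hr
    have hw := (wpos r hr).ne'
    have h : HasDerivAt (fun s => -GG l s / (l * ww s)) _ r :=
      ((dG r hr).neg).div ((dw r hr).const_mul l) (mul_ne_zero hl0 hw)
    have hz : HasDerivAt (zz l) _ r := h.congr_of_eventuallyEq (by
      filter_upwards [Ioi_mem_nhds hr] with s hs
      exact zG s hs)
    refine hz.congr_deriv ?_
    have hy := (k1 r hr).2.1.ne'
    rw [zG r hr]
    simp only [Pi.neg_apply]
    field_simp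
  · -- l'Hopital
    have hGc : Continuous (GG l) := by
      unfold GG
      exact ((Real.continuous_sinh.mul (cdPhi l)).mul (cPhi 0)).sub
        ((cPhi l).mul (Real.continuous_sinh.mul (cdPhi 0)))
    have hwc : Continuous ww := by
      unfold ww
      exact Real.continuous_sinh.mul ((cPhi 0).pow 2)
    have hG0 : GG l 0 = 0 := by unfold GG; simp
    have hw0 : ww 0 = 0 := by unfold ww; simp
    have hf : ∀ᶠ x in 𝓝[>] (0 : ℝ), HasDerivAt (fun s => -GG l s) (l ^ 2 * (ww x * uu l x)) x := by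
      filter_upwards [self_mem_nhdsWithin] with x hx
      exact (dG x hx).neg.congr_deriv (by ring)
    have hg : ∀ᶠ x in 𝓝[>] (0 : ℝ), HasDerivAt (fun s => s * (l * ww s))
        (1 * (l * ww x) + x * (l * (ww x / yy x))) x := by
      filter_upwards [self_mem_nhdsWithin] with x hx
      exact (hasDerivAt_id x).mul ((dw x hx).const_mul l)
    have hg0 : ∀ᶠ x in 𝓝[>] (0 : ℝ), 1 * (l * ww x) + x * (l * (ww x / yy x)) ≠ 0 := by
      filter_upwards [self_mem_nhdsWithin] with x hx
      have hx' : (0 : ℝ) < x := hx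
      have h5 := wpos x hx'
      have h6 := (k1 x hx').2.1
      positivity
    have t1 : Tendsto (fun s => -GG l s) (𝓝[>] 0) (𝓝 0) := by
      have h := ((hGc.neg).tendsto 0).mono_left (nhdsWithin_le_nhds (s := Ioi 0))
      have h' : Tendsto (-GG l) (𝓝[>] 0) (𝓝 0) := by simpa [hG0] using h
      exact h'
    have t2 : Tendsto (fun s => s * (l * ww s)) (𝓝[>] 0) (𝓝 0) := by
      have h := ((continuous_id.mul (continuous_const.mul hwc)).tendsto 0).mono_left
        (nhdsWithin_le_nhds (s := Ioi (0 : ℝ))) (f := fun s : ℝ => s * (l * ww s))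
      simpa [hw0] using h
    have t3 : Tendsto (fun x => l ^ 2 * (ww x * uu l x) / (1 * (l * ww x) + x * (l * (ww x / yy x))))
        (𝓝[>] 0) (𝓝 (l / 2)) := by
      have h5 : Tendsto (fun x => l * uu l x / (1 + (yy x / x)⁻¹)) (𝓝[>] 0) (𝓝 (l * 1 / (1 + 1⁻¹))) :=
        (hu1.const_mul l).div (tendsto_const_nhds.add (yl.inv₀ one_ne_zero)) (by norm_num)
      have e : l * 1 / (1 + 1⁻¹) = l / 2 := by norm_num
      rw [e] at h5
      refine h5.congr' ?_
      filter_upwards [self_mem_nhdsWithin] with x hx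
      have hx' : (0 : ℝ) < x := hx
      have h6 := (wpos x hx')
      have h7 := (k1 x hx').2.1
      rw [inv_div]
      have h8 : 1 + x / yy x ≠ 0 := by positivity
      have h9 : 1 * (l * ww x) + x * (l * (ww x / yy x)) = (l * ww x) * (1 + x / yy x) := by ring
      rw [h9]
      field_simp
    have h := HasDerivAt.lhopital_zero_nhdsGT hf hg hg0 t1 t2 t3
    refine h.congr' ?_
    filter_upwards [self_mem_nhdsWithin] with x hx
    have hx' : (0 : ℝ) < x := hx
    rw [zG x hx', div_div]
    congr 1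
    ring
  · intro r hr
    have hGc : ContinuousOn (GG l) (Icc 0 r) := by
      unfold GG
      exact (((Real.continuous_sinh.mul (cdPhi l)).mul (cPhi 0)).sub
        ((cPhi l).mul (Real.continuous_sinh.mul (cdPhi 0)))).continuousOn
    have hwc : ∀ s : ℝ, ContinuousOn ww (Icc s r) := by
      intro s
      unfold ww
      exact (Real.continuous_sinh.mul ((cPhi 0).pow 2)).continuousOn
    obtain ⟨c, hc, hc2⟩ := exists_hasDerivAt_eq_slope (GG l) (fun s => -l ^ 2 * (ww s * uu l s)) hr hGc
      (fun x hx => dG x hx.1)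
    have hG0 : GG l 0 = 0 := by unfold GG; simp
    rw [hG0, sub_zero, sub_zero, eq_div_iff hr.ne'] at hc2
    obtain ⟨c', hc', hc3⟩ := exists_hasDerivAt_eq_slope ww (fun s => ww s / yy s) hc.2 (hwc c)
      (fun x hx => dw x (hc.1.trans hx.1))
    have hcc' : 0 < c' := hc.1.trans hc'.1
    have hmono : ww c ≤ ww r := by
      have h5 : 0 < ww c' / yy c' := div_pos (wpos c' hcc') (k1 c' hcc').2.1
      rw [hc3] at h5
      have h6 : 0 < r - c := sub_pos.2 hc.2
      have h7 : 0 < ww r - ww c := by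
        have := mul_pos h5 h6
        rwa [div_mul_cancel₀ _ h6.ne'] at this
      linarith
    rw [zG r hr, abs_div, abs_neg, abs_of_pos (mul_pos hl (wpos r hr)),
      div_le_iff₀ (mul_pos hl (wpos r hr)), ← hc2]
    have hwc0 := wpos c hc.1
    rw [abs_mul, abs_mul, abs_mul, abs_neg, abs_of_pos hr, abs_of_pos hwc0, abs_of_pos (by positivity : 0 < l ^ 2)]
    have h8 : ww c * |uu l c| ≤ ww r := by
      calc ww c * |uu l c| ≤ ww c * 1 := mul_le_mul_of_nonneg_left (ub c) hwc0.le
        _ ≤ ww r := by linarith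
    calc l ^ 2 * (ww c * |uu l c|) * r ≤ l ^ 2 * ww r * r := by gcongr
      _ = l * r * (l * ww r) := by ring

end Pool.Agent.H267H
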