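import Pool.Agent.Helper267_hyp.Defs

set_option autoImplicit false

open MeasureTheory Filter Topology Set

namespace Pool.Agent.H267H

/-- positivity of `u ^ 2 + z ^ 2` -/
theorem s5a_pos {y u z : ℝ → ℝ} {l : ℝ}
    (hy : ∀ r : ℝ, 0 < r → 0 < y r) (hyc : ContinuousOn y (Ioi 0))
    (hu : ∀ r : ℝ, 0 < r → HasDerivAt u (-(l * z r)) r)
    (hz : ∀ r : ℝ, 0 < r → HasDerivAt z (l * u r - z r / y r) r)
    (hq : Tendsto (fun r => u r ^ 2 + z r ^ 2) (𝓝[>] 0) (𝓝 1)) :
    ∀ r : ℝ, 0 < r → 0 < u r ^ 2 + z r ^ 2 := by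
  intro r1 hr1
  by_contra hcon
  have hq1 : u r1 ^ 2 + z r1 ^ 2 = 0 := le_antisymm (not_lt.1 hcon) (by positivity)
  have key : ∀ e : ℝ, 0 < e → e < r1 → u e ^ 2 + z e ^ 2 ≤ 0 := by
    intro e he her
    obtain ⟨x0, hx0, hmin⟩ := isCompact_Icc.exists_isMinOn (s := Icc e r1) (nonempty_Icc.2 her.le)
      (hyc.mono fun x hx => lt_of_lt_of_le he hx.1)
    set m := y x0 with hm
    have hm0 : 0 < m := hy x0 (lt_of_lt_of_le he hx0.1)
    have hmy : ∀ x ∈ Icc e r1, m ≤ y x := fun x hx => hmin hx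
    have hd : ∀ x : ℝ, 0 < x → HasDerivAt
        (fun r => (u r ^ 2 + z r ^ 2) * Real.exp (2 / m * r))
        ((2 * u x * (-(l * z x)) + 2 * z x * (l * u x - z x / y x)) * Real.exp (2 / m * x) +
          (u x ^ 2 + z x ^ 2) * (Real.exp (2 / m * x) * (2 / m))) x := by
      intro x hx
      have h1 := ((hu x hx).pow 2).add ((hz x hx).pow 2)
      have h2 : HasDerivAt (fun r : ℝ => Real.exp (2 / m * r))
          (Real.exp (2 / m * x) * (2 / m)) x := by
        have h3 : HasDerivAt (fun r : ℝ => 2 / m * r) (2 / m) x := by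
          simpa using (hasDerivAt_id x).const_mul (2 / m)
        exact h3.exp
      have h4 := h1.mul h2
      refine h4.congr_deriv ?_
      simp only [Pi.add_apply, Pi.pow_apply]
      push_cast
      ring
    have hmono : MonotoneOn (fun r => (u r ^ 2 + z r ^ 2) * Real.exp (2 / m * r)) (Icc e r1) := by
      refine monotoneOn_of_deriv_nonneg (convex_Icc e r1) ?_ ?_ ?_
      · intro x hx
        exact (hd x (lt_of_lt_of_le he hx.1)).continuousAt.continuousWithinAt
      · intro x hx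
        rw [interior_Icc] at hx
        exact (hd x (he.trans hx.1)).differentiableAt.differentiableWithinAt
      · intro x hx
        rw [interior_Icc] at hx
        have hx0 : 0 < x := he.trans hx.1
        rw [(hd x hx0).deriv]
        have hyx : 0 < y x := hy x hx0
        have h1 : z x ^ 2 / y x ≤ z x ^ 2 / m :=
          div_le_div_of_nonneg_left (by positivity) hm0 (hmy x ⟨hx.1.le, hx.2.le⟩)
        have h2 : (2 * u x * (-(l * z x)) + 2 * z x * (l * u x - z x / y x)) *
              Real.exp (2 / m * x) + (u x ^ 2 + z x ^ 2) * (Real.exp (2 / m * x) * (2 / m)) =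
            2 * Real.exp (2 / m * x) * (u x ^ 2 / m + (z x ^ 2 / m - z x ^ 2 / y x)) := by
          field_simp
          ring
        rw [h2]
        have h3 : 0 ≤ u x ^ 2 / m := by positivity
        exact mul_nonneg (by positivity) (by linarith)
    have h1 := hmono (left_mem_Icc.2 her.le) (right_mem_Icc.2 her.le) her.le
    simp only at h1
    rw [hq1, zero_mul] at h1
    by_contra h2
    exact absurd h1 (not_le.2 (mul_pos (not_le.1 h2) (Real.exp_pos _)))
  have h1 : ∀ᶠ r in 𝓝[>] (0 : ℝ), u r ^ 2 + z r ^ 2 ≤ 0 := by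
    have h2 : ∀ᶠ r in 𝓝[>] (0 : ℝ), r ∈ Ioo 0 r1 := Ioo_mem_nhdsGT hr1
    filter_upwards [h2] with r hr
    exact key r hr.1 hr.2
  exact absurd (le_of_tendsto hq h1) (by norm_num)

/- TARGET -/
theorem s5a : S5a := by
  intro y u z l hl hy hyc hyt hu hz hut hzt
  have hid : Tendsto (fun r : ℝ => r) (𝓝[>] 0) (𝓝 0) := tendsto_nhdsWithin_of_tendsto_nhds tendsto_id
  have hz0 : Tendsto z (𝓝[>] 0) (𝓝 0) := by
    have h1 := hzt.mul hid
    rw [mul_zero] at h1
    refine h1.congr' ?_
    filter_upwards [self_mem_nhdsWithin] with r hr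
    exact div_mul_cancel₀ _ (ne_of_gt hr)
  have hq : Tendsto (fun r => u r ^ 2 + z r ^ 2) (𝓝[>] 0) (𝓝 1) := by
    have h1 := (hut.pow 2).add (hz0.pow 2)
    norm_num at h1
    exact h1
  have hpos := s5a_pos hy hyc hu hz hq
  intro a
  set f : ℝ → ℝ := fun s => l - u s * z s / (y s * (u s ^ 2 + z s ^ 2)) with hf
  -- the limit of the integrand
  have hft : Tendsto f (𝓝[>] 0) (𝓝 (l / 2)) := by
    have h1 : Tendsto (fun s => l - u s * (z s / s) * (y s / s)⁻¹ * (u s ^ 2 + z s ^ 2)⁻¹)
        (𝓝[>] 0) (𝓝 (l - 1 * (l / 2) * 1⁻¹ * 1⁻¹)) :=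
      tendsto_const_nhds.sub (((hut.mul hzt).mul (hyt.inv₀ one_ne_zero)).mul (hq.inv₀ one_ne_zero))
    have h2 : l - 1 * (l / 2) * (1 : ℝ)⁻¹ * (1 : ℝ)⁻¹ = l / 2 := by
      rw [inv_one]
      ring
    rw [h2] at h1
    refine h1.congr' ?_
    filter_upwards [self_mem_nhdsWithin] with s hs
    have hs0 : s ≠ 0 := ne_of_gt hs
    have hy0 : y s ≠ 0 := (hy s hs).ne'
    have hq0 : u s ^ 2 + z s ^ 2 ≠ 0 := (hpos s hs).ne'
    simp only [hf]
    field_simp
  have hfc : ∀ s : ℝ, 0 < s → ContinuousAt f s := by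
    intro s hs
    have h1 := (hu s hs).continuousAt
    have h2 := (hz s hs).continuousAt
    have h3 : ContinuousAt y s := hyc.continuousAt (Ioi_mem_nhds hs)
    exact continuousAt_const.sub ((h1.mul h2).div (h3.mul ((h1.pow 2).add (h2.pow 2)))
      (mul_pos (hy s hs) (hpos s hs)).ne')
  -- the continuous extension
  set g : ℝ → ℝ := fun s => if s ≤ 0 then l / 2 else f s with hg
  have hgf : ∀ s : ℝ, 0 < s → g s = f s := fun s hs => by
    simp only [hg, if_neg (not_le.2 hs)]
  have hg0 : ∀ s : ℝ, s ≤ 0 → g s = l / 2 := fun s hs => by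
    simp only [hg, if_pos hs]
  have hgc : Continuous g := by
    rw [continuous_iff_continuousAt]
    intro s
    rcases lt_trichotomy s 0 with hs | hs | hs
    · have h1 : g =ᶠ[𝓝 s] fun _ => l / 2 := by
        filter_upwards [Iio_mem_nhds hs] with x hx
        exact hg0 x (le_of_lt hx)
      exact continuousAt_const.congr h1.symm
    · rw [hs, ContinuousAt, hg0 0 le_rfl, ← nhdsLE_sup_nhdsGT, tendsto_sup]
      constructor
      · refine tendsto_const_nhds.congr' ?_
        filter_upwards [self_mem_nhdsWithin] with x hx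
        exact (hg0 x hx).symm
      · refine hft.congr' ?_
        filter_upwards [self_mem_nhdsWithin] with x hx
        exact (hgf x hx).symm
    · have h1 : g =ᶠ[𝓝 s] f := by
        filter_upwards [Ioi_mem_nhds hs] with x hx
        exact hgf x hx
      exact (hfc s hs).congr h1.symm
  have hag : ∀ r : ℝ, 0 < r → a r = ∫ s in (0 : ℝ)..r, g s := by
    intro r hr
    change ∫ s in (0 : ℝ)..r, f s = ∫ s in (0 : ℝ)..r, g s
    refine intervalIntegral.integral_congr_ae (Eventually.of_forall fun x hx => ?_)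
    rw [uIoc_of_le hr.le] at hx
    exact (hgf x hx.1).symm
  refine ⟨hpos, fun r hr => ?_, ?_⟩
  · have h1 := (hgc.integral_hasStrictDerivAt 0 r).hasDerivAt
    rw [hgf r hr] at h1
    refine h1.congr_of_eventuallyEq ?_
    filter_upwards [Ioi_mem_nhds hr] with x hx
    exact hag x hx
  · have h1 := (hgc.integral_hasStrictDerivAt 0 0).hasDerivAt
    rw [hg0 0 le_rfl, hasDerivAt_iff_tendsto_slope] at h1
    have h2 : Tendsto (slope (fun x => ∫ s in (0 : ℝ)..x, g s) 0) (𝓝[>] 0) (𝓝 (l / 2)) :=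
      h1.mono_left (nhdsWithin_mono _ fun x hx => ne_of_gt hx)
    refine h2.congr' ?_
    filter_upwards [self_mem_nhdsWithin] with r hr
    rw [slope_def_field, intervalIntegral.integral_same, sub_zero, sub_zero, hag r hr]

end Pool.Agent.H267H
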