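import Pool.Agent.Helper267_hyp.Defs

/-
JOB of helper267 (MP_592f63_co, Hoffman bound of the hyperbolic distance graphs; full paper proof = papers id 182, verdict ok).
-/

set_option autoImplicit false

open MeasureTheory Filter Topology Set

namespace Pool.Agent.H267H

theorem s5b_const (f : ℝ → ℝ) (c : ℝ) (h : ∀ r : ℝ, 0 < r → HasDerivAt f 0 r)
    (hl : Tendsto f (𝓝[>] 0) (𝓝 c)) : ∀ r : ℝ, 0 < r → f r = c := by
  intro r hr
  have hconst : ∀ x ∈ Ioi (0 : ℝ), f x = f r := fun x hx =>
    isOpen_Ioi.is_const_of_deriv_eq_zero isPreconnected_Ioi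
      (fun x hx => (h x hx).differentiableAt.differentiableWithinAt)
      (fun x hx => (h x hx).deriv) hx hr
  have h1 : Tendsto f (𝓝[>] 0) (𝓝 (f r)) :=
    tendsto_const_nhds.congr' (by
      filter_upwards [self_mem_nhdsWithin] with x hx using (hconst x hx).symm)
  exact tendsto_nhds_unique h1 hl

/- TARGET -/
theorem s5b : S5b := by
  intro y u z a l hl hy hu hz hu0 hz0 ha0 hq ha
  -- the square root
  obtain ⟨s, hs⟩ : ∃ s : ℝ → ℝ, s = fun r => √(u r ^ 2 + z r ^ 2) := ⟨_, rfl⟩
  have hs2 : ∀ r : ℝ, 0 < r → s r ^ 2 = u r ^ 2 + z r ^ 2 := fun r hr => by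
    rw [hs]; exact Real.sq_sqrt (hq r hr).le
  have hspos : ∀ r : ℝ, 0 < r → 0 < s r := fun r hr => by
    rw [hs]; exact Real.sqrt_pos.mpr (hq r hr)
  have hds : ∀ r : ℝ, 0 < r → HasDerivAt s (-(z r ^ 2 / (y r * s r))) r := by
    intro r hr
    have h1 : HasDerivAt (fun r => u r ^ 2 + z r ^ 2)
        (2 * u r * (-(l * z r)) + 2 * z r * (l * u r - z r / y r)) r := by
      have h2 := ((hu r hr).pow 2).add ((hz r hr).pow 2)
      refine HasDerivAt.congr_deriv (f := fun r => u r ^ 2 + z r ^ 2) h2 ?_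
      push_cast
      ring
    have h3 := h1.sqrt (hq r hr).ne'
    have hsr := hspos r hr
    have hyr := hy r hr
    rw [hs] at hsr ⊢
    refine HasDerivAt.congr_deriv h3 ?_
    dsimp only at hsr ⊢
    field_simp
    ring
  -- `C = u / s` and `D = z / s`
  have hC : ∀ r : ℝ, 0 < r → HasDerivAt (fun r => u r / s r)
      (-(z r / s r) * (l - u r * z r / (y r * s r ^ 2))) r := by
    intro r hr
    have h1 := (hu r hr).div (hds r hr) (hspos r hr).ne'
    have hsr := hspos r hr
    have hyr := hy r hr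
    refine HasDerivAt.congr_deriv (f := fun r => u r / s r) h1 ?_
    field_simp
    ring
  have hD : ∀ r : ℝ, 0 < r → HasDerivAt (fun r => z r / s r)
      ((u r / s r) * (l - u r * z r / (y r * s r ^ 2))) r := by
    intro r hr
    have h1 := (hz r hr).div (hds r hr) (hspos r hr).ne'
    have hsr := hspos r hr
    have hyr := hy r hr
    have h2 := hs2 r hr
    refine HasDerivAt.congr_deriv (f := fun r => z r / s r) h1 ?_
    field_simp
    linear_combination (-(z r)) * h2
  have ha' : ∀ r : ℝ, 0 < r → HasDerivAt a (l - u r * z r / (y r * s r ^ 2)) r := by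
    intro r hr
    rw [hs2 r hr]; exact ha r hr
  -- limits at zero
  have hslim : Tendsto s (𝓝[>] 0) (𝓝 1) := by
    have h1 : Tendsto (fun r => √(u r ^ 2 + z r ^ 2)) (𝓝[>] 0) (𝓝 √((1 : ℝ) ^ 2 + (0 : ℝ) ^ 2)) :=
      ((hu0.pow 2).add (hz0.pow 2)).sqrt
    rw [hs]
    simpa using h1
  have hCl : Tendsto (fun r => u r / s r) (𝓝[>] 0) (𝓝 1) := by
    have h1 : Tendsto (fun r => u r / s r) (𝓝[>] 0) (𝓝 (1 / 1)) := hu0.div hslim one_ne_zero
    rwa [div_one] at h1
  have hDl : Tendsto (fun r => z r / s r) (𝓝[>] 0) (𝓝 0) := by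
    have h1 : Tendsto (fun r => z r / s r) (𝓝[>] 0) (𝓝 (0 / 1)) := hz0.div hslim one_ne_zero
    rwa [zero_div] at h1
  have hcl : Tendsto (fun r => Real.cos (a r)) (𝓝[>] 0) (𝓝 1) := by
    have h1 : Tendsto (fun r => Real.cos (a r)) (𝓝[>] 0) (𝓝 (Real.cos 0)) :=
      (Real.continuous_cos.tendsto 0).comp ha0
    rwa [Real.cos_zero] at h1
  have hsl : Tendsto (fun r => Real.sin (a r)) (𝓝[>] 0) (𝓝 0) := by
    have h1 : Tendsto (fun r => Real.sin (a r)) (𝓝[>] 0) (𝓝 (Real.sin 0)) :=
      (Real.continuous_sin.tendsto 0).comp ha0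
    rwa [Real.sin_zero] at h1
  have hM := s5b_const (fun r => u r / s r * Real.cos (a r) + z r / s r * Real.sin (a r)) 1
    (fun r hr => by
      have h1 := ((hC r hr).mul (ha' r hr).cos).add ((hD r hr).mul (ha' r hr).sin)
      refine HasDerivAt.congr_deriv
        (f := fun r => u r / s r * Real.cos (a r) + z r / s r * Real.sin (a r)) h1 ?_
      ring)
    (by simpa using (hCl.mul hcl).add (hDl.mul hsl))
  have hN := s5b_const (fun r => z r / s r * Real.cos (a r) - u r / s r * Real.sin (a r)) 0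
    (fun r hr => by
      have h1 := ((hD r hr).mul (ha' r hr).cos).sub ((hC r hr).mul (ha' r hr).sin)
      refine HasDerivAt.congr_deriv
        (f := fun r => z r / s r * Real.cos (a r) - u r / s r * Real.sin (a r)) h1 ?_
      ring)
    (by simpa using (hDl.mul hcl).sub (hCl.mul hsl))
  intro r hr
  have hM := hM r hr
  have hN := hN r hr
  have hsr := hspos r hr
  have hsc := Real.sin_sq_add_cos_sq (a r)
  have e1 : u r / s r = Real.cos (a r) := by
    linear_combination Real.cos (a r) * hM - Real.sin (a r) * hN - u r / s r * hsc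
  have e2 : z r / s r = Real.sin (a r) := by
    linear_combination Real.sin (a r) * hM + Real.cos (a r) * hN - z r / s r * hsc
  have hsr' : √(u r ^ 2 + z r ^ 2) = s r := by rw [hs]
  rw [hsr', ← e1, ← e2]
  constructor <;> field_simp

end Pool.Agent.H267H
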