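import Pool.Agent.Helper267_hyp.Defs

set_option autoImplicit false

open MeasureTheory Filter Topology Set

namespace Pool.Agent.H267H

/- TARGET -/
theorem s6 : S6 := by
  intro y dy a l hl hy hdy hdy0 hyr ha har r hr
  have hfd : ∀ s, 0 < s → HasDerivAt (fun s => l * y s - Real.sin (a s) * Real.cos (a s))
      (l * dy s - (Real.cos (a s) * (l - Real.sin (a s) * Real.cos (a s) / y s) * Real.cos (a s) +
        Real.sin (a s) * (-Real.sin (a s) * (l - Real.sin (a s) * Real.cos (a s) / y s)))) s := by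
    intro s hs
    have h1 := (hdy s hs).const_mul l
    have h2 := ((ha s hs).sin).mul ((ha s hs).cos)
    exact h1.sub h2
  -- positivity near zero
  have h0 : Tendsto (fun s => l * (y s / s) - |a s / s|) (𝓝[>] 0) (𝓝 (l * 1 - |l / 2|)) :=
    (hyr.const_mul l).sub har.abs
  have hlim : 0 < l * 1 - |l / 2| := by
    rw [abs_of_pos (by linarith)]
    linarith
  have h1 : ∀ᶠ s in 𝓝[>] (0:ℝ), 0 < l * (y s / s) - |a s / s| := h0.eventually (lt_mem_nhds hlim)
  obtain ⟨r0, hr0, hr0'⟩ := mem_nhdsGT_iff_exists_Ioo_subset.1 h1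
  have hr0p : 0 < r0 := hr0
  have hpos : ∀ s, 0 < s → s < r0 → 0 < l * y s - Real.sin (a s) * Real.cos (a s) := by
    intro s hs hs0
    have h2 : 0 < l * (y s / s) - |a s / s| := hr0' ⟨hs, hs0⟩
    have h3 : Real.sin (a s) * Real.cos (a s) ≤ |a s| := by
      calc Real.sin (a s) * Real.cos (a s) ≤ |Real.sin (a s) * Real.cos (a s)| := le_abs_self _
        _ = |Real.sin (a s)| * |Real.cos (a s)| := abs_mul _ _
        _ ≤ |a s| * 1 := mul_le_mul (Real.abs_sin_le_abs) (Real.abs_cos_le_one _) (abs_nonneg _)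
            (abs_nonneg _)
        _ = |a s| := mul_one _
    have h4 : 0 < (l * (y s / s) - |a s / s|) * s := mul_pos h2 hs
    have h5 : (l * (y s / s) - |a s / s|) * s = l * y s - |a s| := by
      rw [abs_div, abs_of_pos hs]
      field_simp
    linarith
  by_contra hcon
  have hcon : l * y r - Real.sin (a r) * Real.cos (a r) ≤ 0 := by linarith [not_lt.1 hcon]
  have hrr : r0 / 2 ≤ r := by
    by_contra h
    have := hpos r hr (by linarith [not_le.1 h])
    linarith
  have hcomp : IsCompact {s : ℝ | s ∈ Icc (r0 / 2) r ∧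
      l * y s - Real.sin (a s) * Real.cos (a s) ≤ 0} := by
    refine IsCompact.of_isClosed_subset (isCompact_Icc (a := r0 / 2) (b := r)) ?_ fun s hs => hs.1
    have hc : ContinuousOn (fun s => l * y s - Real.sin (a s) * Real.cos (a s))
        (Icc (r0 / 2) r) := fun s hs =>
      (hfd s (by linarith [hs.1])).continuousAt.continuousWithinAt
    exact hc.preimage_isClosed_of_isClosed isClosed_Icc isClosed_Iic
  obtain ⟨r1, ⟨⟨hr1a, hr1b⟩, hr1c⟩, hr1min⟩ := hcomp.exists_isLeast ⟨r, ⟨hrr, le_rfl⟩, hcon⟩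
  have hr1p : 0 < r1 := by linarith
  have hbefore : ∀ s, 0 < s → s < r1 → 0 < l * y s - Real.sin (a s) * Real.cos (a s) := by
    intro s hs hs1
    by_cases h : s < r0
    · exact hpos s hs h
    · by_contra hn
      have := hr1min ⟨⟨by linarith [not_lt.1 h], by linarith⟩, not_lt.1 hn⟩
      linarith
  have hev : ∀ᶠ s in 𝓝[<] r1, 0 < s ∧ s < r1 := by
    have h2 : ∀ᶠ s in 𝓝[<] r1, 0 < s := nhdsWithin_le_nhds (lt_mem_nhds hr1p)
    filter_upwards [h2, self_mem_nhdsWithin] with s h3 h4
    exact ⟨h3, h4⟩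
  have hzero : l * y r1 - Real.sin (a r1) * Real.cos (a r1) = 0 := by
    refine le_antisymm hr1c ?_
    have h2 : Tendsto (fun s => l * y s - Real.sin (a s) * Real.cos (a s)) (𝓝[<] r1)
        (𝓝 (l * y r1 - Real.sin (a r1) * Real.cos (a r1))) :=
      (hfd r1 hr1p).continuousAt.tendsto.mono_left nhdsWithin_le_nhds
    refine ge_of_tendsto h2 ?_
    filter_upwards [hev] with s hs
    exact (hbefore s hs.1 hs.2).le
  have hd := hfd r1 hr1p
  have ha0 : l - Real.sin (a r1) * Real.cos (a r1) / y r1 = 0 := by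
    have h2 : Real.sin (a r1) * Real.cos (a r1) = l * y r1 := by linarith
    rw [h2, mul_div_assoc, div_self (hy r1 hr1p).ne', mul_one, sub_self]
  rw [ha0] at hd
  have hd' : HasDerivAt (fun s => l * y s - Real.sin (a s) * Real.cos (a s)) (l * dy r1) r1 := by
    convert hd using 1
    ring
  have hsl := hasDerivAt_iff_tendsto_slope.1 hd'
  have hpos' : 0 < l * dy r1 := mul_pos hl (hdy0 r1 hr1p)
  have h3 : ∀ᶠ s in 𝓝[<] r1, 0 < slope (fun s => l * y s - Real.sin (a s) * Real.cos (a s)) r1 s :=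
    (hsl.mono_left (nhdsWithin_mono _ fun s (hs : s < r1) => hs.ne)).eventually
      (lt_mem_nhds hpos')
  obtain ⟨s, hs, hs1, hs2⟩ := (h3.and hev).exists
  rw [slope_def_field, hzero, sub_zero] at hs
  have h4 := hbefore s hs1 hs2
  have h5 : (l * y s - Real.sin (a s) * Real.cos (a s)) / (s - r1) < 0 :=
    div_neg_of_pos_of_neg h4 (by linarith)
  exact absurd hs (not_lt.2 h5.le)

end Pool.Agent.H267H
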