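import Pool.Agent.Helper267_hyp.Defs

/-! J7: the inverse function on (0, oo). -/

set_option autoImplicit false

open MeasureTheory Filter Topology Set

namespace Pool.Agent.H267H

theorem s7 : S7 := by
  intro a da ha hpos hlim
  have hmono : StrictMonoOn a (Ioi 0) := by
    refine strictMonoOn_of_deriv_pos (convex_Ioi 0)
      (fun r hr => (ha r hr).continuousAt.continuousWithinAt) ?_
    intro r hr
    rw [interior_Ioi] at hr
    rw [(ha r hr).deriv]
    exact hpos r hr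
  have hapos : ∀ r : ℝ, 0 < r → 0 < a r := by
    intro r hr
    have h1 : (0:ℝ) ≤ a (r / 2) := by
      refine le_of_tendsto hlim ?_
      filter_upwards [Ioo_mem_nhdsGT (half_pos hr)] with s hs
      exact (hmono hs.1 (mem_Ioi.2 (half_pos hr)) hs.2).le
    exact h1.trans_lt (hmono (mem_Ioi.2 (half_pos hr)) (mem_Ioi.2 hr) (half_lt_self hr))
  have hex : ∀ R x : ℝ, 0 < R → 0 < x → x < a R → ∃ r, 0 < r ∧ a r = x := by
    intro R x hR hx hxR
    have h1 : ∀ᶠ s in 𝓝[>] (0:ℝ), a s < x := hlim.eventually (gt_mem_nhds hx)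
    obtain ⟨e, he, he2⟩ := (h1.and (Ioo_mem_nhdsGT hR)).exists
    have hcont : ContinuousOn a (Icc e R) := fun r hr =>
      (ha r (he2.1.trans_le hr.1)).continuousAt.continuousWithinAt
    obtain ⟨r, hr, hra⟩ := intermediate_value_Icc he2.2.le hcont ⟨he.le, hxR.le⟩
    exact ⟨r, he2.1.trans_le hr.1, hra⟩
  classical
  let g : ℝ → ℝ := fun x => if h : ∃ r, 0 < r ∧ a r = x then h.choose else x
  have hg : ∀ x, (∃ r, 0 < r ∧ a r = x) → 0 < g x ∧ a (g x) = x := by
    intro x h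
    have : g x = h.choose := dif_pos h
    rw [this]
    exact h.choose_spec
  have hga : ∀ r : ℝ, 0 < r → g (a r) = r := by
    intro r hr
    obtain ⟨h1, h2⟩ := hg (a r) ⟨r, hr, rfl⟩
    exact hmono.injOn (mem_Ioi.2 h1) (mem_Ioi.2 hr) h2
  have hgR : ∀ R x : ℝ, 0 < R → 0 < x → x < a R → 0 < g x ∧ a (g x) = x ∧ g x < R := by
    intro R x hR hx hxR
    obtain ⟨h1, h2⟩ := hg x (hex R x hR hx hxR)
    refine ⟨h1, h2, ?_⟩
    by_contra hcon
    push Not at hcon
    have := hmono.monotoneOn (mem_Ioi.2 hR) (mem_Ioi.2 h1) hcon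
    rw [h2] at this
    linarith
  refine ⟨g, fun r hr => ⟨hapos r hr, hga r hr⟩, ?_, ?_⟩
  · intro R x hR hx hxR
    obtain ⟨h1, h2, h3⟩ := hgR R x hR hx hxR
    refine ⟨h1, h2, ?_⟩
    have hs : Ioo 0 (a R) ∈ 𝓝 x := Ioo_mem_nhds hx hxR
    have hgm : MonotoneOn g (Ioo 0 (a R)) := by
      intro u hu v hv huv
      obtain ⟨u1, u2, u3⟩ := hgR R u hR hu.1 hu.2
      obtain ⟨v1, v2, v3⟩ := hgR R v hR hv.1 hv.2
      by_contra hcon
      push Not at hcon
      have := hmono (mem_Ioi.2 v1) (mem_Ioi.2 u1) hcon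
      rw [u2, v2] at this
      linarith
    have himg : Ioo 0 R ⊆ g '' Ioo 0 (a R) := by
      intro r hr
      exact ⟨a r, ⟨hapos r hr.1, hmono (mem_Ioi.2 hr.1) (mem_Ioi.2 hR) hr.2⟩, hga r hr.1⟩
    have hcont : ContinuousAt g x :=
      continuousAt_of_monotoneOn_of_image_mem_nhds hgm hs
        (mem_of_superset (Ioo_mem_nhds h1 h3) himg)
    have := HasDerivAt.of_local_left_inverse hcont (ha (g x) h1) (hpos (g x) h1).ne' (by
      filter_upwards [hs] with y hy
      exact (hgR R y hR hy.1 hy.2).2.1)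
    rwa [← one_div] at this
  · rw [tendsto_nhdsWithin_iff]
    constructor
    · rw [Metric.tendsto_nhds]
      intro ε hε
      filter_upwards [Ioo_mem_nhdsGT (hapos ε hε)] with x hx
      obtain ⟨h1, h2, h3⟩ := hgR ε x hε hx.1 hx.2
      rw [Real.dist_eq, sub_zero, abs_of_pos h1]
      exact h3
    · filter_upwards [Ioo_mem_nhdsGT (hapos 1 one_pos)] with x hx
      exact (hgR 1 x one_pos hx.1 hx.2).1

end Pool.Agent.H267H
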