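import Pool.Agent.Helper267_hyp.Defs

/- JOB of helper267 (MP_592f63_co): J8, log comparison. Proof by helper853. -/

set_option autoImplicit false

open MeasureTheory Filter Topology Set

namespace Pool.Agent.H267H

/- TARGET -/
theorem s8 : S8 := by
  intro X E F S T hE hF hEp hFp hS hT hST hlim x1 hx1
  by_contra hcon
  push Not at hcon
  obtain ⟨D, hD⟩ : ∃ D : ℝ → ℝ, D = fun x => Real.log (F x) - Real.log (E x) := ⟨_, rfl⟩
  have hDd : ∀ x ∈ Ioo 0 X, HasDerivAt D (T x / (F x - Real.sin x * Real.cos x) -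
      S x / (E x - Real.sin x * Real.cos x)) x := by
    intro x hx
    have h1 := (hF x hx).log (hFp x hx).1.ne'
    have h2 := (hE x hx).log (hEp x hx).1.ne'
    have e1 : T x * F x / (F x - Real.sin x * Real.cos x) / F x =
        T x / (F x - Real.sin x * Real.cos x) := by
      have := (hFp x hx).1.ne'
      rw [div_right_comm, mul_div_cancel_right₀ _ this]
    have e2 : S x * E x / (E x - Real.sin x * Real.cos x) / E x =
        S x / (E x - Real.sin x * Real.cos x) := by
      have := (hEp x hx).1.ne'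
      rw [div_right_comm, mul_div_cancel_right₀ _ this]
    rw [e1] at h1
    rw [e2] at h2
    rw [hD]
    exact h1.sub h2
  have hneg : ∀ x ∈ Ioo 0 X, (D x < 0 ↔ F x < E x) := by
    intro x hx
    rw [hD]
    show Real.log (F x) - Real.log (E x) < 0 ↔ F x < E x
    rw [sub_neg, Real.log_lt_log_iff (hFp x hx).1 (hEp x hx).1]
  have hmono : ∀ a b : ℝ, 0 < a → a ≤ b → b < X → (∀ y ∈ Ioo a b, F y < E y) → D a ≤ D b := by
    intro a b ha hab hb hlt
    have hsub : ∀ x ∈ Icc a b, x ∈ Ioo 0 X := fun x hx => ⟨ha.trans_le hx.1, hx.2.trans_lt hb⟩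
    have hm : MonotoneOn D (Icc a b) := by
      refine monotoneOn_of_deriv_nonneg (convex_Icc a b)
        (fun x hx => (hDd x (hsub x hx)).continuousAt.continuousWithinAt)
        (fun x hx => (hDd x (hsub x (interior_subset hx))).differentiableAt.differentiableWithinAt)
        fun x hx => ?_
      have hx' := hsub x (interior_subset hx)
      rw [(hDd x hx').deriv]
      rw [interior_Icc] at hx
      have h1 := hlt x hx
      have h2 : 0 < F x - Real.sin x * Real.cos x := sub_pos.2 (hFp x hx').2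
      have h3 : F x - Real.sin x * Real.cos x ≤ E x - Real.sin x * Real.cos x := by linarith
      have h4 := hST x hx' h1.le
      rw [sub_nonneg]
      exact div_le_div₀ (hT x hx').le h4 h2 h3
    exact hm ⟨le_rfl, hab⟩ ⟨hab, le_rfl⟩ hab
  have hD1 : D x1 < 0 := (hneg x1 hx1).2 hcon
  by_cases hall : ∀ x, 0 < x → x < x1 → F x < E x
  · -- the ratio stays away from 1
    have h1 : ∀ x, 0 < x → x < x1 → F x / E x ≤ Real.exp (D x1) := by
      intro x hx0 hx
      have hxm : x ∈ Ioo 0 X := ⟨hx0, hx.trans hx1.2⟩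
      have h2 : D x ≤ D x1 := hmono x x1 hx0 hx.le hx1.2 fun y hy => hall y (hx0.trans hy.1) hy.2
      have h3 : F x / E x = Real.exp (D x) := by
        rw [hD]
        show F x / E x = Real.exp (Real.log (F x) - Real.log (E x))
        rw [Real.exp_sub, Real.exp_log (hFp x hxm).1, Real.exp_log (hEp x hxm).1]
      rw [h3]
      exact Real.exp_le_exp.2 h2
    have h2 : (1 : ℝ) ≤ Real.exp (D x1) := by
      refine le_of_tendsto hlim ?_
      filter_upwards [Ioo_mem_nhdsGT hx1.1] with x hx
      exact h1 x hx.1 hx.2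
    have h3 : Real.exp (D x1) < 1 := by
      have h4 := Real.exp_lt_exp.2 hD1
      rwa [Real.exp_zero] at h4
    linarith
  · push Not at hall
    obtain ⟨x2, hx20, hx21, hx2⟩ := hall
    have hsub : ∀ x ∈ Icc x2 x1, x ∈ Ioo 0 X := fun x hx => ⟨hx20.trans_le hx.1, hx.2.trans_lt hx1.2⟩
    have hc : ContinuousOn D (Icc x2 x1) := fun x hx => (hDd x (hsub x hx)).continuousAt.continuousWithinAt
    have hcl : IsClosed (Icc x2 x1 ∩ D ⁻¹' Ici 0) := hc.preimage_isClosed_of_isClosed isClosed_Icc isClosed_Ici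
    have hcp : IsCompact (Icc x2 x1 ∩ D ⁻¹' Ici 0) := isCompact_Icc.of_isClosed_subset hcl inter_subset_left
    have hx2m : x2 ∈ Icc x2 x1 ∩ D ⁻¹' Ici 0 := by
      refine ⟨⟨le_rfl, hx21.le⟩, ?_⟩
      show 0 ≤ D x2
      by_contra hh
      push Not at hh
      have := (hneg x2 (hsub x2 ⟨le_rfl, hx21.le⟩)).1 hh
      linarith
    obtain ⟨x0, hx0, hx0max⟩ := hcp.exists_isGreatest ⟨x2, hx2m⟩
    have hx0D : 0 ≤ D x0 := hx0.2
    have hlt : ∀ y ∈ Ioo x0 x1, F y < E y := by
      intro y hy
      have hym : y ∈ Icc x2 x1 := ⟨hx0.1.1.trans hy.1.le, hy.2.le⟩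
      refine (hneg y (hsub y hym)).1 ?_
      by_contra hh
      push Not at hh
      have := hx0max ⟨hym, hh⟩
      linarith [hy.1]
    have := hmono x0 x1 (hx20.trans_le hx0.1.1) hx0.1.2 hx1.2 hlt
    linarith

end Pool.Agent.H267H
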