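import Pool.Agent.Helper267_hyp.Defs

set_option autoImplicit false

open MeasureTheory Filter Topology Set

namespace Pool.Agent.H267H

theorem uu_cont (h1 : S1) : Continuous (fun p : ℝ × ℝ => uu p.1 p.2) := by
  obtain ⟨-, hc, -, -, -, hpos, -, -⟩ := h1
  have h0 : Continuous (fun p : ℝ × ℝ => Phi 0 p.2) :=
    hc.comp (continuous_const.prodMk continuous_snd)
  exact hc.div h0 (fun p => (hpos p.2).ne')

theorem zz_cont (h1 : S1) : ContinuousOn (fun p : ℝ × ℝ => zz p.1 p.2) {p | 0 < p.1} := by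
  obtain ⟨-, hc, hd, -, -, hpos, -, -⟩ := h1
  have h0 : Continuous (fun p : ℝ × ℝ => Phi 0 p.2) :=
    hc.comp (continuous_const.prodMk continuous_snd)
  have hd0 : Continuous (fun p : ℝ × ℝ => dPhi 0 p.2) :=
    hd.comp (continuous_const.prodMk continuous_snd)
  have hnum : Continuous (fun p : ℝ × ℝ => -(dPhi p.1 p.2 * Phi 0 p.2 - Phi p.1 p.2 * dPhi 0 p.2)) :=
    ((hd.mul h0).sub (hc.mul hd0)).neg
  have hden : Continuous (fun p : ℝ × ℝ => p.1 * Phi 0 p.2 ^ 2) :=
    continuous_fst.mul (h0.pow 2)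
  refine hnum.continuousOn.div hden.continuousOn ?_
  intro p hp
  have hp' : 0 < p.1 := hp
  exact (mul_pos hp' (pow_pos (hpos p.2) 2)).ne'

theorem uu_zero (h1 : S1) (l : ℝ) : uu l 0 = 1 := by
  obtain ⟨-, -, -, h0, -, -, -, -⟩ := h1
  unfold uu
  rw [h0, h0, div_one]

theorem uu_le (h1 : S1) (l r : ℝ) : |uu l r| ≤ 1 := by
  obtain ⟨-, -, -, -, -, hpos, hle, -⟩ := h1
  unfold uu
  rw [abs_div, abs_of_pos (hpos r)]
  exact (div_le_one (hpos r)).2 (hle l r)

theorem q_pos (h3 : S3) (h4 : S4) (l : ℝ) (hl : 0 < l) (s : ℝ) (hs : 0 < s) :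
    0 < uu l s ^ 2 + zz l s ^ 2 := by
  by_contra hcon
  have hq0 : uu l s ^ 2 + zz l s ^ 2 = 0 :=
    le_antisymm (not_lt.1 hcon) (by positivity)
  obtain ⟨hu, hz, hlim, -, -⟩ := h4 l hl
  obtain ⟨hy, -, -, hyc⟩ := h3
  obtain ⟨c, hc, hcy⟩ := hyc s hs
  have key : ∀ ε : ℝ, 0 < ε → ε < s → uu l ε ^ 2 + zz l ε ^ 2 ≤ 0 := by
    intro ε hε hεs
    set K : ℝ := 2 / (c * ε) with hK
    have hcε : 0 < c * ε := mul_pos hc hε
    have hder : ∀ r : ℝ, 0 < r → HasDerivAt (fun r => (uu l r ^ 2 + zz l r ^ 2) * Real.exp (K * r))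
        ((2 * uu l r * (-(l * zz l r)) + 2 * zz l r * (l * uu l r - zz l r / yy r)) * Real.exp (K * r)
          + (uu l r ^ 2 + zz l r ^ 2) * (Real.exp (K * r) * K)) r := by
      intro r hr
      have e1 : HasDerivAt (fun r => uu l r ^ 2) (2 * uu l r * (-(l * zz l r))) r := by
        have := (hu r hr).fun_pow 2
        simpa using this
      have e2 : HasDerivAt (fun r => zz l r ^ 2) (2 * zz l r * (l * uu l r - zz l r / yy r)) r := by
        have := (hz r hr).fun_pow 2
        simpa using this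
      have e3 : HasDerivAt (fun r : ℝ => Real.exp (K * r)) (Real.exp (K * r) * K) r := by
        have := ((hasDerivAt_id r).const_mul K).exp
        simpa using this
      exact (e1.add e2).mul e3
    have hmono : MonotoneOn (fun r => (uu l r ^ 2 + zz l r ^ 2) * Real.exp (K * r)) (Icc ε s) := by
      apply monotoneOn_of_deriv_nonneg (convex_Icc ε s)
      · intro r hr
        exact (hder r (lt_of_lt_of_le hε hr.1)).continuousAt.continuousWithinAt
      · intro r hr
        rw [interior_Icc] at hr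
        exact (hder r (lt_trans hε hr.1)).differentiableAt.differentiableWithinAt
      · intro r hr
        rw [interior_Icc] at hr
        have hr0 : 0 < r := lt_trans hε hr.1
        rw [(hder r hr0).deriv]
        have hyr : 0 < yy r := (hy r hr0).2.1
        have hylow : c * ε ≤ yy r :=
          le_trans (mul_le_mul_of_nonneg_left hr.1.le hc.le) (hcy r hr0 hr.2.le)
        have h5 : zz l r ^ 2 / yy r ≤ (uu l r ^ 2 + zz l r ^ 2) / (c * ε) := by
          apply div_le_div₀ (by positivity) _ hcε hylow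
          nlinarith [sq_nonneg (uu l r)]
        have h6 : (2 * uu l r * (-(l * zz l r)) + 2 * zz l r * (l * uu l r - zz l r / yy r)) * Real.exp (K * r)
          + (uu l r ^ 2 + zz l r ^ 2) * (Real.exp (K * r) * K) =
            2 * Real.exp (K * r) * ((uu l r ^ 2 + zz l r ^ 2) / (c * ε) - zz l r ^ 2 / yy r) := by
          rw [hK]
          field_simp
          ring
        rw [h6]
        have := Real.exp_pos (K * r)
        have h7 : 0 ≤ (uu l r ^ 2 + zz l r ^ 2) / (c * ε) - zz l r ^ 2 / yy r := by linarith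
        positivity
    have h8 := hmono (left_mem_Icc.2 hεs.le) (right_mem_Icc.2 hεs.le) hεs.le
    simp only [hq0, zero_mul] at h8
    have := Real.exp_pos (K * ε)
    by_contra h9
    have h10 := mul_pos (not_le.1 h9) this
    linarith
  have h11 : ∀ᶠ ε in 𝓝[>] (0 : ℝ), (1 / 2 : ℝ) < uu l ε := hlim.eventually (lt_mem_nhds (by norm_num))
  have h12 : ∀ᶠ ε in 𝓝[>] (0 : ℝ), ε < s :=
    eventually_nhdsWithin_of_eventually_nhds (gt_mem_nhds hs)
  have h13 : ∀ᶠ ε in 𝓝[>] (0 : ℝ), 0 < ε := eventually_mem_nhdsWithin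
  obtain ⟨ε, ha, hb, hc'⟩ := (h11.and (h12.and h13)).exists
  have h14 := key ε hc' hb
  nlinarith [sq_nonneg (zz l ε)]

/- TARGET -/
theorem s9a (h1 : S1) (h3 : S3) (h4 : S4) : ∀ d : ℝ, 0 < d → ContinuousOn (fun l => aa l d) (Ioi 0) := by
  intro d hd l0 hl0
  have hl0' : 0 < l0 := hl0
  apply ContinuousAt.continuousWithinAt
  have hU := uu_cont h1
  have hZ := zz_cont h1
  have hy := h3.1
  obtain ⟨c', hc', hyc⟩ := h3.2.2.2 d hd
  -- lower bound for q
  have hcomp : IsCompact (Icc (l0 / 2) (2 * l0) ×ˢ Icc (0 : ℝ) d) := isCompact_Icc.prod isCompact_Icc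
  have hsub : (Icc (l0 / 2) (2 * l0) ×ˢ Icc (0 : ℝ) d) ⊆ {p : ℝ × ℝ | 0 < p.1} := by
    intro p hp
    have : l0 / 2 ≤ p.1 := hp.1.1
    show 0 < p.1
    linarith
  have hQ : ContinuousOn (fun p : ℝ × ℝ => uu p.1 p.2 ^ 2 + zz p.1 p.2 ^ 2)
      (Icc (l0 / 2) (2 * l0) ×ˢ Icc (0 : ℝ) d) :=
    (hU.continuousOn.pow 2).add ((hZ.mono hsub).pow 2)
  have hne : (Icc (l0 / 2) (2 * l0) ×ˢ Icc (0 : ℝ) d).Nonempty :=
    ⟨(l0, 0), ⟨⟨by linarith, by linarith⟩, ⟨le_refl _, hd.le⟩⟩⟩
  obtain ⟨p0, hp0, hmin⟩ := hcomp.exists_isMinOn hne hQ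
  have hqpos : ∀ l s : ℝ, 0 < l → 0 ≤ s → 0 < uu l s ^ 2 + zz l s ^ 2 := by
    intro l s hl hs
    rcases hs.eq_or_lt with h | h
    · rw [← h, uu_zero h1]
      positivity
    · exact q_pos h3 h4 l hl s h
  obtain ⟨c, hc⟩ : ∃ c : ℝ, c = uu p0.1 p0.2 ^ 2 + zz p0.1 p0.2 ^ 2 := ⟨_, rfl⟩
  have hcpos : 0 < c := by
    rw [hc]
    exact hqpos _ _ (hsub hp0) hp0.2.1
  have hlow : ∀ l s : ℝ, l0 / 2 ≤ l → l ≤ 2 * l0 → 0 ≤ s → s ≤ d → c ≤ uu l s ^ 2 + zz l s ^ 2 := by
    intro l s ha hb hs hsd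
    rw [hc]
    have h5 := isMinOn_iff.1 hmin (l, s) ⟨⟨ha, hb⟩, ⟨hs, hsd⟩⟩
    exact h5
  have hnear : ∀ᶠ l in 𝓝 l0, l0 / 2 < l ∧ l < 2 * l0 :=
    (lt_mem_nhds (by linarith : l0 / 2 < l0)).and (gt_mem_nhds (by linarith : l0 < 2 * l0))
  unfold aa
  apply intervalIntegral.continuousAt_of_dominated_interval
    (bound := fun _ => 2 * l0 + 2 * l0 / (c' * c))
  · -- measurability
    filter_upwards [hnear] with l hl
    have hlpos : 0 < l := by linarith [hl.1]
    rw [uIoc_of_le hd.le]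
    apply ContinuousOn.aestronglyMeasurable _ measurableSet_Ioc
    have hu : Continuous (fun s => uu l s) :=
      hU.comp (f := fun s : ℝ => ((l, s) : ℝ × ℝ)) (continuous_const.prodMk continuous_id)
    have hz : Continuous (fun s => zz l s) := by
      have hpair : ContinuousOn (fun s : ℝ => ((l, s) : ℝ × ℝ)) univ :=
        (continuous_const.prodMk continuous_id).continuousOn
      have hmaps : MapsTo (fun s : ℝ => ((l, s) : ℝ × ℝ)) univ {p : ℝ × ℝ | 0 < p.1} :=
        fun s _ => hlpos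
      have h6 := ContinuousOn.comp hZ hpair hmaps
      exact continuousOn_univ.1 h6
    have hyy : ContinuousOn yy (Ioc 0 d) := fun s hs =>
      (hy s hs.1).2.2.continuousAt.continuousWithinAt
    refine continuousOn_const.sub (((hu.mul hz).continuousOn).div
      (hyy.mul (((hu.pow 2).add (hz.pow 2)).continuousOn)) ?_)
    intro s hs
    exact (mul_pos (hy s hs.1).2.1 (hqpos l s hlpos hs.1.le)).ne'
  · -- bound
    filter_upwards [hnear] with l hl
    have hlpos : 0 < l := by linarith [hl.1]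
    refine Eventually.of_forall fun s hs => ?_
    rw [uIoc_of_le hd.le] at hs
    have hzs : |zz l s| ≤ l * s := (h4 l hlpos).2.2.2.2 s hs.1
    have hus : |uu l s| ≤ 1 := uu_le h1 l s
    have hys : c' * s ≤ yy s := hyc s hs.1 hs.2
    have hqs : c ≤ uu l s ^ 2 + zz l s ^ 2 := hlow l s hl.1.le hl.2.le hs.1.le hs.2
    have hden : c' * s * c ≤ yy s * (uu l s ^ 2 + zz l s ^ 2) :=
      mul_le_mul hys hqs hcpos.le (le_trans (mul_nonneg hc'.le hs.1.le) hys)
    have hden0 : 0 < c' * s * c := by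
      have := hs.1
      positivity
    have hnum : |uu l s * zz l s| ≤ 2 * l0 * s := by
      rw [abs_mul]
      calc |uu l s| * |zz l s| ≤ 1 * (l * s) :=
            mul_le_mul hus hzs (abs_nonneg _) zero_le_one
        _ ≤ 2 * l0 * s := by
            rw [one_mul]
            exact mul_le_mul_of_nonneg_right hl.2.le hs.1.le
    have hfrac : |uu l s * zz l s / (yy s * (uu l s ^ 2 + zz l s ^ 2))| ≤ 2 * l0 / (c' * c) := by
      rw [abs_div, abs_of_pos (lt_of_lt_of_le hden0 hden)]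
      calc |uu l s * zz l s| / (yy s * (uu l s ^ 2 + zz l s ^ 2)) ≤ (2 * l0 * s) / (c' * s * c) :=
            div_le_div₀ (mul_nonneg (by linarith) hs.1.le) hnum hden0 hden
        _ = 2 * l0 / (c' * c) := by
            have := hs.1.ne'
            field_simp
    calc ‖l - uu l s * zz l s / (yy s * (uu l s ^ 2 + zz l s ^ 2))‖
        ≤ ‖l‖ + ‖uu l s * zz l s / (yy s * (uu l s ^ 2 + zz l s ^ 2))‖ := norm_sub_le _ _
      _ ≤ 2 * l0 + 2 * l0 / (c' * c) := by
          refine add_le_add ?_ ?_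
          · rw [Real.norm_of_nonneg hlpos.le]
            exact hl.2.le
          · rw [Real.norm_eq_abs]
            exact hfrac
  · exact intervalIntegrable_const
  · refine Eventually.of_forall fun s hs => ?_
    rw [uIoc_of_le hd.le] at hs
    have hu : ContinuousAt (fun l => uu l s) l0 :=
      (hU.comp (f := fun l : ℝ => ((l, s) : ℝ × ℝ)) (continuous_id.prodMk continuous_const)).continuousAt
    have hz : ContinuousAt (fun l => zz l s) l0 := by
      have hpair : ContinuousOn (fun l : ℝ => ((l, s) : ℝ × ℝ)) (Ioi 0) :=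
        (continuous_id.prodMk continuous_const).continuousOn
      have hmaps : MapsTo (fun l : ℝ => ((l, s) : ℝ × ℝ)) (Ioi 0) {p : ℝ × ℝ | 0 < p.1} :=
        fun l hl => hl
      have h5 := ContinuousOn.comp hZ hpair hmaps
      exact h5.continuousAt (Ioi_mem_nhds hl0')
    refine continuousAt_id.sub ((hu.mul hz).div (continuousAt_const.mul ((hu.pow 2).add (hz.pow 2))) ?_)
    exact (mul_pos (hy s hs.1).2.1 (hqpos l0 s hl0' hs.1.le)).ne'

end Pool.Agent.H267H
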