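import Pool.Agent.Helper267_hyp.Asm
import Pool.Agent.Helper267_hyp.J1a
import Pool.Agent.Helper267_hyp.J1b
import Pool.Agent.Helper267_hyp.J2
import Pool.Agent.Helper267_hyp.J3
import Pool.Agent.Helper267_hyp.J4
import Pool.Agent.Helper267_hyp.J5a
import Pool.Agent.Helper267_hyp.J5b
import Pool.Agent.Helper267_hyp.J6
import Pool.Agent.Helper267_hyp.J7
import Pool.Agent.Helper267_hyp.J8
import Pool.Agent.Helper267_hyp.J9a
import Pool.Agent.Helper267_hyp.J9b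

set_option autoImplicit false

open MeasureTheory Filter Topology Set

namespace Pool.Agent.H267H

theorem hS1 : S1 := ⟨s1a, s1b.1, s1b.2, s1c⟩

theorem hS3 : S3 := s3 hS1 s2

theorem hS4 : S4 := s4 hS1 s2 hS3

theorem hS5 : S5 := s5 s5a s5b

theorem hS9 : S9 := s9 hS3 hS4 hS5 s6 (s9a hS1 hS3 hS4) (s9b hS3)

theorem hS10 : S10 := s10 s6 s7 s8

theorem final :
    (∀ d : ℝ, 0 < d → BddBelow (range fun l : ℝ => Phi l d) ∧ (⨅ l : ℝ, Phi l d) < 0) ∧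
    ∀ d d' : ℝ, 0 < d → d < d' →
      1 - Phi 0 d / (⨅ l : ℝ, Phi l d) ≤ 1 - Phi 0 d' / (⨅ l : ℝ, Phi l d') :=
  mono hS1 hS3 hS4 hS5 s6 hS9 hS10

end Pool.Agent.H267H
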