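import Pool.Agent.Helper267_hyp.Defs2

set_option autoImplicit false

open MeasureTheory Filter Topology Set
open scoped ENNReal ComplexConjugate

namespace Pool.Agent.H267H

/-- the linear map `z ↦ act z p` -/
noncomputable def K0_L (p : ℂ) : ℂ →ₗ[ℝ] ℂ where
  toFun z := act z p
  map_add' x y := by
    unfold act
    apply Complex.ext
    · simp only [Complex.add_re, Complex.add_im]; ring
    · simp only [Complex.add_im]; ring
  map_smul' c x := by
    unfold act
    apply Complex.ext
    · simp only [Complex.real_smul, RingHom.id_apply, Complex.mul_re, Complex.mul_im,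
        Complex.ofReal_re, Complex.ofReal_im]; ring
    · simp only [Complex.real_smul, RingHom.id_apply, Complex.mul_im,
        Complex.ofReal_re, Complex.ofReal_im]; ring

theorem K0_L_apply (p z : ℂ) : K0_L p z = act z p := rfl

theorem K0_det (p : ℂ) : LinearMap.det (K0_L p) = p.im := by
  rw [← LinearMap.det_toMatrix Complex.basisOneI, Matrix.det_fin_two]
  simp [LinearMap.toMatrix_apply, K0_L_apply, act, Complex.coe_basisOneI_repr]

theorem K0_meas_im : MeasurableSet {z : ℂ | 0 < z.im} :=
  measurableSet_lt measurable_const Complex.measurable_im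

theorem K0_lint (F : ℂ → ℝ≥0∞) (hF : Measurable F) :
    ∫⁻ z, F z ∂mu = ∫⁻ z : ℂ, ({z : ℂ | 0 < z.im}).indicator
      (fun z => ENNReal.ofReal (1 / z.im ^ 2) * F z) z := by
  have hd : Measurable (fun z : ℂ => ENNReal.ofReal (1 / z.im ^ 2)) := by
    refine Measurable.ennreal_ofReal ?_
    exact (Complex.measurable_im.pow_const 2).const_div 1
  unfold mu
  rw [lintegral_withDensity_eq_lintegral_mul _ hd hF, lintegral_indicator K0_meas_im]
  rfl

/- TARGET -/
theorem k0 : K0 := by
  intro p hp F hF
  have hL : Measurable (fun z => act z p) := by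
    have := (LinearMap.toContinuousLinearMap (K0_L p)).continuous.measurable
    exact this
  set S : Set ℂ := {z : ℂ | 0 < z.im} with hS
  set H : ℂ → ℝ≥0∞ := S.indicator (fun z => ENNReal.ofReal (1 / z.im ^ 2) * F z) with hH
  have hd : Measurable (fun z : ℂ => ENNReal.ofReal (1 / z.im ^ 2)) := by
    refine Measurable.ennreal_ofReal ?_
    exact (Complex.measurable_im.pow_const 2).const_div 1
  have hHm : Measurable H := (hd.mul hF).indicator K0_meas_im
  have e0 := K0_lint (fun z => F (act z p)) (hF.comp hL)
  rw [e0, K0_lint F hF]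
  have e1 : ∀ z : ℂ, S.indicator (fun z => ENNReal.ofReal (1 / z.im ^ 2) * F (act z p)) z =
      ENNReal.ofReal (p.im ^ 2) * H (act z p) := by
    intro z
    have him : (act z p).im = z.im * p.im := rfl
    by_cases hz : 0 < z.im
    · have h1 : z ∈ S := hz
      have h2 : act z p ∈ S := by
        show 0 < (act z p).im
        rw [him]; exact mul_pos hz hp
      rw [hH, indicator_of_mem h1, indicator_of_mem h2, him, ← mul_assoc,
        ← ENNReal.ofReal_mul (by positivity)]
      congr 2
      field_simp
    · have h1 : z ∉ S := hz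
      have h2 : act z p ∉ S := by
        show ¬ 0 < (act z p).im
        rw [him]
        push Not at hz ⊢
        exact mul_nonpos_of_nonpos_of_nonneg hz hp.le
      rw [hH, indicator_of_notMem h1, indicator_of_notMem h2, mul_zero]
  have hHL : Measurable (fun z => H (act z p)) := hHm.comp hL
  rw [lintegral_congr e1, lintegral_const_mul _ hHL]
  have hdet : LinearMap.det (K0_L p) ≠ 0 := by rw [K0_det]; exact hp.ne'
  have e2 := Measure.map_linearMap_addHaar_eq_smul_addHaar (volume : Measure ℂ) hdet
  have e3 : ∫⁻ z : ℂ, H (act z p) = ENNReal.ofReal |(p.im)⁻¹| * ∫⁻ z : ℂ, H z := by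
    have e4 : ∫⁻ z : ℂ, H (act z p) = ∫⁻ w : ℂ, H w ∂(Measure.map (K0_L p) volume) := by
      exact (lintegral_map hHm hL).symm
    rw [e4, e2, K0_det, lintegral_smul_measure]
    rfl
  rw [e3, ← mul_assoc, ← ENNReal.ofReal_mul (by positivity)]
  have e5 : p.im ^ 2 * |(p.im)⁻¹| = p.im := by
    rw [abs_of_pos (inv_pos.2 hp)]
    field_simp
  rw [e5]

end Pool.Agent.H267H
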