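import Pool.Agent.Helper267_hyp.Defs2

set_option autoImplicit false

open MeasureTheory Filter Topology Set
open scoped ENNReal ComplexConjugate

namespace Pool.Agent.H267H

noncomputable def k1nu : Measure ℝ := volume.restrict (Ioc (0:ℝ) (2 * Real.pi))

instance k1nu_finite : IsFiniteMeasure k1nu := by
  unfold k1nu; infer_instance

instance k1mu_sfinite : SFinite mu := by
  unfold mu; infer_instance

theorem k1_P_pos (d t : ℝ) : 0 < P d t := by
  unfold P
  have h1 : |Real.sinh d * Real.cos t| ≤ |Real.sinh d| := by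
    rw [abs_mul]
    exact mul_le_of_le_one_right (abs_nonneg _) (Real.abs_cos_le_one t)
  have h2 : |Real.sinh d| < Real.cosh d := by
    rw [abs_lt]
    constructor
    · have := Real.exp_pos d
      rw [← Real.cosh_add_sinh] at this
      linarith
    · have := Real.exp_pos (-d)
      rw [← Real.cosh_sub_sinh] at this
      linarith
  have h3 := le_abs_self (Real.sinh d * Real.cos t)
  linarith

theorem k1_P_cont (d : ℝ) : Continuous (P d) := by
  unfold P; fun_prop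

theorem k1_pt_meas (d : ℝ) : Measurable (pt d) := by
  have h1 : Measurable (P d) := (k1_P_cont d).measurable
  have h2 : Measurable (fun t : ℝ => -(Real.sinh d * Real.sin t) / P d t) := by fun_prop
  have h3 : Measurable (fun t : ℝ => 1 / P d t) := by fun_prop
  have : pt d = fun t => Complex.measurableEquivRealProd.symm
      (-(Real.sinh d * Real.sin t) / P d t, 1 / P d t) := by
    funext t
    rfl
  rw [this]
  exact Complex.measurableEquivRealProd.symm.measurable.comp (h2.prodMk h3)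

theorem k1_act_meas (d : ℝ) : Measurable (fun q : ℂ × ℝ => act q.1 (pt d q.2)) := by
  have hp : Measurable (fun q : ℂ × ℝ => pt d q.2) := (k1_pt_meas d).comp measurable_snd
  have h1 : Measurable (fun q : ℂ × ℝ => q.1.re + q.1.im * (pt d q.2).re) :=
    (Complex.measurable_re.comp measurable_fst).add
      ((Complex.measurable_im.comp measurable_fst).mul (Complex.measurable_re.comp hp))
  have h2 : Measurable (fun q : ℂ × ℝ => q.1.im * (pt d q.2).im) :=
    (Complex.measurable_im.comp measurable_fst).mul (Complex.measurable_im.comp hp)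
  have : (fun q : ℂ × ℝ => act q.1 (pt d q.2)) = fun q => Complex.measurableEquivRealProd.symm
      (q.1.re + q.1.im * (pt d q.2).re, q.1.im * (pt d q.2).im) := by
    funext q
    rfl
  rw [this]
  exact Complex.measurableEquivRealProd.symm.measurable.comp (h1.prodMk h2)

/-- `∫ v^{1/2}` -/
noncomputable def k1W (d : ℝ) : ℝ≥0∞ := ∫⁻ t, ENNReal.ofReal ((P d t) ^ (-(1 / 2) : ℝ)) ∂k1nu

theorem k1_W (d : ℝ) : k1W d = ENNReal.ofReal (2 * Real.pi * Phi 0 d) := by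
  unfold k1W
  have hc : Continuous (fun t => (P d t) ^ (-(1 / 2) : ℝ)) := by
    refine (k1_P_cont d).rpow_const ?_
    intro t
    left
    exact (k1_P_pos d t).ne'
  have hi : Integrable (fun t => (P d t) ^ (-(1 / 2) : ℝ)) k1nu := by
    unfold k1nu
    have := hc.intervalIntegrable (μ := volume) 0 (2 * Real.pi)
    rw [intervalIntegrable_iff_integrableOn_Ioc_of_le (by positivity)] at this
    exact this
  rw [← ofReal_integral_eq_lintegral_ofReal hi
    (Eventually.of_forall (fun t => Real.rpow_nonneg (k1_P_pos d t).le _))]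
  congr 1
  unfold Phi k1nu
  rw [intervalIntegral.integral_of_le (by positivity)]
  simp only [zero_mul, Real.cos_zero, mul_one]
  field_simp

theorem k1_cs (d : ℝ) (g : ℝ → ℝ≥0∞) (hg : Measurable g) :
    (∫⁻ t, g t ∂k1nu) ^ 2 ≤ k1W d *
      ∫⁻ t, ENNReal.ofReal ((P d t) ^ ((1 / 2) : ℝ)) * g t ^ 2 ∂k1nu := by
  have hPm : Measurable (P d) := (k1_P_cont d).measurable
  have h1 : Measurable (fun t => ENNReal.ofReal ((P d t) ^ (-(1 / 4) : ℝ))) := by fun_prop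
  have h2 : Measurable (fun t => ENNReal.ofReal ((P d t) ^ ((1 / 4) : ℝ)) * g t) := by fun_prop
  have key := ENNReal.lintegral_mul_le_Lp_mul_Lq k1nu
    (Real.HolderConjugate.two_two) h1.aemeasurable h2.aemeasurable
  have e1 : ∀ t, ((fun t => ENNReal.ofReal ((P d t) ^ (-(1 / 4) : ℝ))) *
      (fun t => ENNReal.ofReal ((P d t) ^ ((1 / 4) : ℝ)) * g t)) t = g t := by
    intro t
    have hP := k1_P_pos d t
    simp only [Pi.mul_apply]
    rw [← mul_assoc, ← ENNReal.ofReal_mul (Real.rpow_nonneg hP.le _), ← Real.rpow_add hP]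
    norm_num
  simp_rw [e1] at key
  have e2 : ∀ t, ENNReal.ofReal ((P d t) ^ (-(1 / 4) : ℝ)) ^ (2:ℝ) =
      ENNReal.ofReal ((P d t) ^ (-(1 / 2) : ℝ)) := by
    intro t
    have hP := k1_P_pos d t
    rw [ENNReal.ofReal_rpow_of_nonneg (Real.rpow_nonneg hP.le _) (by norm_num),
      ← Real.rpow_mul hP.le]
    norm_num
  have e3 : ∀ t, (ENNReal.ofReal ((P d t) ^ ((1 / 4) : ℝ)) * g t) ^ (2:ℝ) =
      ENNReal.ofReal ((P d t) ^ ((1 / 2) : ℝ)) * g t ^ 2 := by
    intro t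
    have hP := k1_P_pos d t
    rw [ENNReal.mul_rpow_of_nonneg _ _ (by norm_num),
      ENNReal.ofReal_rpow_of_nonneg (Real.rpow_nonneg hP.le _) (by norm_num),
      ← Real.rpow_mul hP.le]
    norm_num
  simp_rw [e2, e3] at key
  calc (∫⁻ t, g t ∂k1nu) ^ 2 ≤ ((∫⁻ (a : ℝ), ENNReal.ofReal (P d a ^ (-(1 / 2) : ℝ)) ∂k1nu) ^ (1 / 2 : ℝ) *
      (∫⁻ (a : ℝ), ENNReal.ofReal (P d a ^ (1 / 2 : ℝ)) * g a ^ 2 ∂k1nu) ^ (1 / 2 : ℝ)) ^ 2 := by
        exact pow_le_pow_left' key 2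
    _ = _ := by
      rw [mul_pow]
      congr 1
      · unfold k1W
        rw [← ENNReal.rpow_natCast, ← ENNReal.rpow_mul]
        norm_num
      · rw [← ENNReal.rpow_natCast, ← ENNReal.rpow_mul]
        norm_num

theorem k1_schur (h0 : K0) (d : ℝ) (g : ℂ → ℝ≥0∞) (hg : Measurable g) :
    ∫⁻ z, (∫⁻ t, g (act z (pt d t)) ∂k1nu) ^ 2 ∂mu ≤ k1W d ^ 2 * ∫⁻ z, g z ^ 2 ∂mu := by
  have hPm : Measurable (P d) := (k1_P_cont d).measurable
  have hga : Measurable (fun q : ℂ × ℝ => g (act q.1 (pt d q.2))) := hg.comp (k1_act_meas d)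
  have hjoint : Measurable (fun q : ℂ × ℝ =>
      ENNReal.ofReal ((P d q.2) ^ ((1 / 2) : ℝ)) * g (act q.1 (pt d q.2)) ^ 2) := by
    have h1 : Measurable (fun q : ℂ × ℝ => ENNReal.ofReal ((P d q.2) ^ ((1 / 2) : ℝ))) := by
      fun_prop
    exact h1.mul (hga.pow_const 2)
  calc ∫⁻ z, (∫⁻ t, g (act z (pt d t)) ∂k1nu) ^ 2 ∂mu
      ≤ ∫⁻ z, k1W d * ∫⁻ t, ENNReal.ofReal ((P d t) ^ ((1 / 2) : ℝ)) *
          g (act z (pt d t)) ^ 2 ∂k1nu ∂mu := by
        refine lintegral_mono (fun z => ?_)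
        exact k1_cs d _ (hga.comp measurable_prodMk_left)
    _ = k1W d * ∫⁻ z, ∫⁻ t, ENNReal.ofReal ((P d t) ^ ((1 / 2) : ℝ)) *
          g (act z (pt d t)) ^ 2 ∂k1nu ∂mu := by
        rw [lintegral_const_mul]
        exact Measurable.lintegral_prod_right' (f := fun q : ℂ × ℝ =>
          ENNReal.ofReal ((P d q.2) ^ ((1 / 2) : ℝ)) * g (act q.1 (pt d q.2)) ^ 2) hjoint
    _ = k1W d * ∫⁻ t, ∫⁻ z, ENNReal.ofReal ((P d t) ^ ((1 / 2) : ℝ)) *
          g (act z (pt d t)) ^ 2 ∂mu ∂k1nu := by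
        congr 1
        rw [lintegral_lintegral_swap]
        apply Measurable.aemeasurable
        exact hjoint
    _ = k1W d * ∫⁻ t, ENNReal.ofReal ((P d t) ^ (-(1 / 2) : ℝ)) * ∫⁻ z, g z ^ 2 ∂mu ∂k1nu := by
        congr 1
        refine lintegral_congr (fun t => ?_)
        have hP := k1_P_pos d t
        have him : (pt d t).im = 1 / P d t := rfl
        rw [lintegral_const_mul, h0 (pt d t) (by rw [him]; positivity) (fun z => g z ^ 2)
          (hg.pow_const 2), ← mul_assoc, him, ← ENNReal.ofReal_mul (Real.rpow_nonneg hP.le _)]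
        · congr 2
          rw [one_div (P d t), ← Real.rpow_neg_one (P d t), ← Real.rpow_add hP]
          norm_num
        · exact (hga.comp measurable_prodMk_right).pow_const 2
    _ = k1W d ^ 2 * ∫⁻ z, g z ^ 2 ∂mu := by
        rw [lintegral_mul_const _ (by fun_prop)]
        unfold k1W
        ring


/-- a.e. equality passes to the circles -/
theorem k1_ae (h0 : K0) (d : ℝ) (f f' : ℂ → ℂ) (h : f =ᵐ[mu] f') :
    ∀ᵐ z ∂mu, ∀ᵐ t ∂k1nu, f (act z (pt d t)) = f' (act z (pt d t)) := by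
  obtain ⟨N, hN, hNm, hN0⟩ := exists_measurable_superset_of_null (ae_iff.mp h)
  have hg : Measurable (N.indicator (fun _ => (1:ℝ≥0∞))) := measurable_const.indicator hNm
  have h1 := k1_schur h0 d _ hg
  have h2 : ∫⁻ z, (N.indicator (fun _ => (1:ℝ≥0∞)) z) ^ 2 ∂mu = 0 := by
    rw [lintegral_eq_zero_iff (hg.pow_const 2)]
    have : ∀ᵐ z ∂mu, z ∉ N := by
      rw [ae_iff]; simpa using hN0
    filter_upwards [this] with z hz
    simp [hz]
  rw [h2, mul_zero] at h1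
  have h3 := le_antisymm h1 (zero_le)
  have hm : Measurable (fun z => (∫⁻ t, N.indicator (fun _ => (1:ℝ≥0∞)) (act z (pt d t)) ∂k1nu) ^ 2) := by
    apply Measurable.pow_const
    exact Measurable.lintegral_prod_right' (f := fun q : ℂ × ℝ =>
      N.indicator (fun _ => (1:ℝ≥0∞)) (act q.1 (pt d q.2))) (hg.comp (k1_act_meas d))
  rw [lintegral_eq_zero_iff hm] at h3
  filter_upwards [h3] with z hz
  simp only [Pi.zero_apply, ne_eq, OfNat.ofNat_ne_zero, not_false_eq_true, pow_eq_zero_iff] at hz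
  have hmz : Measurable (fun t : ℝ => N.indicator (fun _ => (1:ℝ≥0∞)) (act z (pt d t))) :=
    (hg.comp (k1_act_meas d)).comp measurable_prodMk_left
  rw [lintegral_eq_zero_iff hmz] at hz
  filter_upwards [hz] with t ht
  by_contra hne
  have : act z (pt d t) ∈ N := hN hne
  simp [this] at ht

theorem k1_avg_eq (d : ℝ) (f : ℂ → ℂ) (z : ℂ) :
    avg d f z = ((1 / (2 * Real.pi) : ℝ) : ℂ) * ∫ t, f (act z (pt d t)) ∂k1nu := by
  unfold avg k1nu
  rw [intervalIntegral.integral_of_le (by positivity)]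

theorem k1_avg_meas (d : ℝ) (f : ℂ → ℂ) (hf : Measurable f) : Measurable (avg d f) := by
  have h1 : StronglyMeasurable (fun q : ℂ × ℝ => f (act q.1 (pt d q.2))) :=
    (hf.comp (k1_act_meas d)).stronglyMeasurable
  have h2 : StronglyMeasurable (fun z => ∫ t, f (act z (pt d t)) ∂k1nu) :=
    h1.integral_prod_right'
  have h3 : avg d f = fun z => ((1 / (2 * Real.pi) : ℝ) : ℂ) * ∫ t, f (act z (pt d t)) ∂k1nu := by
    funext z
    exact k1_avg_eq d f z
  rw [h3]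
  exact h2.measurable.const_mul _

theorem k1_avg_congr (h0 : K0) (d : ℝ) (f f' : ℂ → ℂ) (h : f =ᵐ[mu] f') :
    avg d f =ᵐ[mu] avg d f' := by
  filter_upwards [k1_ae h0 d f f' h] with z hz
  rw [k1_avg_eq, k1_avg_eq, integral_congr_ae hz]

theorem k1_lint (f : ℂ → ℂ) : eLpNorm f 2 mu = (∫⁻ z, ‖f z‖ₑ ^ 2 ∂mu) ^ (1 / 2 : ℝ) := by
  rw [eLpNorm_eq_lintegral_rpow_enorm_toReal (by norm_num) (by norm_num)]
  norm_num

theorem k1_bound (h0 : K0) (d : ℝ) (f : ℂ → ℂ) (hf : Measurable f) :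
    eLpNorm (avg d f) 2 mu ≤ ENNReal.ofReal (Phi 0 d) * eLpNorm f 2 mu := by
  have hpi : (0:ℝ) < 2 * Real.pi := by positivity
  have h1 : ∀ z, ‖avg d f z‖ₑ ^ 2 ≤ ENNReal.ofReal (1 / (2 * Real.pi)) ^ 2 *
      (∫⁻ t, ‖f (act z (pt d t))‖ₑ ∂k1nu) ^ 2 := by
    intro z
    rw [← mul_pow]
    refine pow_le_pow_left' ?_ 2
    rw [k1_avg_eq, enorm_mul]
    have e1 : ‖(((1 / (2 * Real.pi) : ℝ)) : ℂ)‖ₑ = ENNReal.ofReal (1 / (2 * Real.pi)) := by
      rw [← ofReal_norm, Complex.norm_real, Real.norm_of_nonneg (by positivity)]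
    rw [e1]
    gcongr
    exact enorm_integral_le_lintegral_enorm _
  have h2 : ∫⁻ z, ‖avg d f z‖ₑ ^ 2 ∂mu ≤
      ENNReal.ofReal (Phi 0 d) ^ 2 * ∫⁻ z, ‖f z‖ₑ ^ 2 ∂mu := by
    calc ∫⁻ z, ‖avg d f z‖ₑ ^ 2 ∂mu ≤ ∫⁻ z, ENNReal.ofReal (1 / (2 * Real.pi)) ^ 2 *
          (∫⁻ t, ‖f (act z (pt d t))‖ₑ ∂k1nu) ^ 2 ∂mu := lintegral_mono h1
      _ = ENNReal.ofReal (1 / (2 * Real.pi)) ^ 2 *
          ∫⁻ z, (∫⁻ t, ‖f (act z (pt d t))‖ₑ ∂k1nu) ^ 2 ∂mu := by
          rw [lintegral_const_mul]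
          apply Measurable.pow_const
          exact Measurable.lintegral_prod_right' (f := fun q : ℂ × ℝ =>
            ‖f (act q.1 (pt d q.2))‖ₑ) (hf.enorm.comp (k1_act_meas d))
      _ ≤ ENNReal.ofReal (1 / (2 * Real.pi)) ^ 2 * (k1W d ^ 2 * ∫⁻ z, ‖f z‖ₑ ^ 2 ∂mu) := by
          gcongr
          exact k1_schur h0 d (fun z => ‖f z‖ₑ) hf.enorm
      _ = ENNReal.ofReal (Phi 0 d) ^ 2 * ∫⁻ z, ‖f z‖ₑ ^ 2 ∂mu := by
          rw [← mul_assoc, ← mul_pow, k1_W, ← ENNReal.ofReal_mul (by positivity)]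
          congr 3
          field_simp
  rw [k1_lint, k1_lint]
  calc (∫⁻ z, ‖avg d f z‖ₑ ^ 2 ∂mu) ^ (1 / 2 : ℝ) ≤
      (ENNReal.ofReal (Phi 0 d) ^ 2 * ∫⁻ z, ‖f z‖ₑ ^ 2 ∂mu) ^ (1 / 2 : ℝ) :=
        ENNReal.rpow_le_rpow h2 (by norm_num)
    _ = _ := by
        rw [ENNReal.mul_rpow_of_nonneg _ _ (by norm_num)]
        congr 1
        rw [← ENNReal.rpow_natCast, ← ENNReal.rpow_mul]
        norm_num

theorem k1_int (h0 : K0) (d : ℝ) (f : ℂ → ℂ) (hf : Measurable f) (hf2 : MemLp f 2 mu) :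
    ∀ᵐ z ∂mu, Integrable (fun t => f (act z (pt d t))) k1nu := by
  have h1 := k1_schur h0 d (fun z => ‖f z‖ₑ) hf.enorm
  have h2 : ∫⁻ z, ‖f z‖ₑ ^ 2 ∂mu < ⊤ := by
    have := hf2.2
    rw [k1_lint] at this
    by_contra hcon
    rw [not_lt, top_le_iff] at hcon
    rw [hcon] at this
    simp at this
  have h3 : ∫⁻ z, (∫⁻ t, ‖f (act z (pt d t))‖ₑ ∂k1nu) ^ 2 ∂mu < ⊤ := by
    refine lt_of_le_of_lt h1 (ENNReal.mul_lt_top ?_ h2)
    rw [k1_W]
    exact ENNReal.pow_lt_top ENNReal.ofReal_lt_top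
  have hm : Measurable (fun z => (∫⁻ t, ‖f (act z (pt d t))‖ₑ ∂k1nu) ^ 2) := by
    apply Measurable.pow_const
    exact Measurable.lintegral_prod_right' (f := fun q : ℂ × ℝ =>
      ‖f (act q.1 (pt d q.2))‖ₑ) (hf.enorm.comp (k1_act_meas d))
  have h4 := ae_lt_top hm h3.ne
  filter_upwards [h4] with z hz
  refine ⟨((hf.comp (k1_act_meas d)).comp measurable_prodMk_left).aestronglyMeasurable, ?_⟩
  unfold HasFiniteIntegral
  by_contra hcon
  rw [not_lt, top_le_iff] at hcon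
  rw [hcon] at hz
  simp at hz


theorem k1_Phi_nonneg (d : ℝ) : 0 ≤ Phi 0 d := by
  unfold Phi
  refine mul_nonneg (by positivity) ?_
  apply intervalIntegral.integral_nonneg (by positivity)
  intro t _
  simp only [zero_mul, Real.cos_zero, mul_one]
  exact Real.rpow_nonneg (k1_P_pos d t).le _

theorem k1_mem (h0 : K0) (d : ℝ) (f : Lp ℂ 2 mu) : MemLp (avg d (f : ℂ → ℂ)) 2 mu :=
  ⟨(k1_avg_meas d _ (Lp.stronglyMeasurable f).measurable).aestronglyMeasurable,
    lt_of_le_of_lt (k1_bound h0 d _ (Lp.stronglyMeasurable f).measurable)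
      (ENNReal.mul_lt_top ENNReal.ofReal_lt_top (Lp.memLp f).2)⟩

noncomputable def k1A (h0 : K0) (d : ℝ) : Lp ℂ 2 mu →ₗ[ℂ] Lp ℂ 2 mu where
  toFun f := (k1_mem h0 d f).toLp (avg d (f : ℂ → ℂ))
  map_add' f g := by
    apply Lp.ext
    have e1 := (k1_mem h0 d (f + g)).coeFn_toLp
    have e2 := (k1_mem h0 d f).coeFn_toLp
    have e3 := (k1_mem h0 d g).coeFn_toLp
    have e4 := Lp.coeFn_add ((k1_mem h0 d f).toLp (avg d (f : ℂ → ℂ)))
      ((k1_mem h0 d g).toLp (avg d (g : ℂ → ℂ)))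
    have e5 := k1_avg_congr h0 d _ _ (Lp.coeFn_add f g)
    have e6 := k1_int h0 d _ (Lp.stronglyMeasurable f).measurable (Lp.memLp f)
    have e7 := k1_int h0 d _ (Lp.stronglyMeasurable g).measurable (Lp.memLp g)
    filter_upwards [e1, e2, e3, e4, e5, e6, e7] with z h1 h2 h3 h4 h5 h6 h7
    rw [h1, h4, Pi.add_apply, h2, h3, h5]
    rw [k1_avg_eq, k1_avg_eq, k1_avg_eq, ← mul_add, ← integral_add h6 h7]
    rfl
  map_smul' c f := by
    apply Lp.ext
    have e1 := (k1_mem h0 d (c • f)).coeFn_toLp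
    have e2 := (k1_mem h0 d f).coeFn_toLp
    have e4 := Lp.coeFn_smul c ((k1_mem h0 d f).toLp (avg d (f : ℂ → ℂ)))
    have e5 := k1_avg_congr h0 d _ _ (Lp.coeFn_smul c f)
    filter_upwards [e1, e2, e4, e5] with z h1 h2 h4 h5
    simp only [RingHom.id_apply]
    rw [h1, h4, Pi.smul_apply, h2, h5]
    rw [k1_avg_eq, k1_avg_eq]
    simp only [Pi.smul_apply, smul_eq_mul]
    rw [integral_const_mul]
    ring

/- TARGET -/
theorem k1 (h0 : K0) : K1 := by
  intro d _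
  refine ⟨(k1A h0 d).mkContinuous (Phi 0 d) ?_, ?_, ?_⟩
  · intro f
    have : ‖(k1A h0 d) f‖ = (eLpNorm (avg d (f : ℂ → ℂ)) 2 mu).toReal := by
      change ‖(k1_mem h0 d f).toLp (avg d (f : ℂ → ℂ))‖ = _
      rw [Lp.norm_toLp]
    rw [this, Lp.norm_def]
    have hb := k1_bound h0 d _ (Lp.stronglyMeasurable f).measurable
    have hfin : ENNReal.ofReal (Phi 0 d) * eLpNorm (f : ℂ → ℂ) 2 mu ≠ ⊤ :=
      (ENNReal.mul_lt_top ENNReal.ofReal_lt_top (Lp.memLp f).2).ne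
    have := ENNReal.toReal_mono hfin hb
    rwa [ENNReal.toReal_mul, ENNReal.toReal_ofReal (k1_Phi_nonneg d)] at this
  · exact LinearMap.mkContinuous_norm_le _ (k1_Phi_nonneg d) _
  · intro f hf
    rw [LinearMap.mkContinuous_apply]
    change ((k1_mem h0 d (hf.toLp f)).toLp (avg d ((hf.toLp f : Lp ℂ 2 mu) : ℂ → ℂ)) : ℂ → ℂ)
      =ᵐ[mu] avg d f
    exact ((k1_mem h0 d (hf.toLp f)).coeFn_toLp).trans (k1_avg_congr h0 d _ _ hf.coeFn_toLp)

end Pool.Agent.H267H
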