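import Pool.Agent.Helper267_hyp.Defs2

set_option autoImplicit false

open MeasureTheory Filter Topology Set
open scoped ENNReal ComplexConjugate

namespace Pool.Agent.H267H

lemma K10_P_pos (r t : ℝ) : 0 < P r t := by
  unfold P
  have h1 : |Real.sinh r| < Real.cosh r := by
    rw [abs_lt]
    constructor
    · have := Real.sinh_lt_cosh (-r)
      rw [Real.sinh_neg, Real.cosh_neg] at this
      linarith
    · exact Real.sinh_lt_cosh r
  have h2 : |Real.sinh r * Real.cos t| ≤ |Real.sinh r| := by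
    rw [abs_mul]
    exact mul_le_of_le_one_right (abs_nonneg _) (Real.abs_cos_le_one t)
  have h3 := le_abs_self (Real.sinh r * Real.cos t)
  linarith

lemma K10_P_cont (d : ℝ) : Continuous (fun t : ℝ => P d t) := by
  unfold P
  fun_prop

lemma K10_hasDeriv (F F' : ℝ → ℝ → ℂ) (hF : Continuous fun p : ℝ × ℝ => F p.1 p.2)
    (hF' : Continuous fun p : ℝ × ℝ => F' p.1 p.2)
    (hd : ∀ s w, HasDerivAt (fun s => F s w) (F' s w) s) (a b s : ℝ) :
    HasDerivAt (fun s => ∫ w in a..b, F s w) (∫ w in a..b, F' s w) s := by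
  have hc : ∀ s, Continuous (F s) := fun s =>
    hF.comp (continuous_const.prodMk continuous_id)
  have hc' : ∀ s, Continuous (F' s) := fun s =>
    hF'.comp (continuous_const.prodMk continuous_id)
  obtain ⟨C, hC⟩ := ((isCompact_closedBall s (1:ℝ)).prod (isCompact_uIcc (a := a) (b := b))).exists_bound_of_continuousOn
    hF'.continuousOn
  refine (intervalIntegral.hasDerivAt_integral_of_dominated_loc_of_deriv_le
    (bound := fun _ => C) (s := Metric.closedBall s 1) (Metric.closedBall_mem_nhds s one_pos)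
    (Filter.Eventually.of_forall fun x => (hc x).aestronglyMeasurable)
    ((hc s).intervalIntegrable _ _) ((hc' s).aestronglyMeasurable)
    (Filter.Eventually.of_forall fun t ht x hx => ?_) intervalIntegrable_const
    (Filter.Eventually.of_forall fun t _ x _ => hd x t)).2
  exact hC (x, t) ⟨hx, uIoc_subset_uIcc ht⟩

lemma K10_bound (k : ℝ → ℂ) (hk : HasCompactSupport k) :
    ∃ B : ℝ, 1 ≤ B ∧ (∀ x, B < |x| → k x = 0) ∧ ∀ x, B < |x| → deriv k x = 0 := by
  obtain ⟨B, hB⟩ := hk.isBounded.subset_closedBall (0:ℝ)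
  refine ⟨max B 1, le_max_right _ _, fun x hx => ?_, fun x hx => ?_⟩
  · by_contra h
    have h1 := hB (subset_tsupport _ (Function.mem_support.2 h))
    rw [mem_closedBall_zero_iff, Real.norm_eq_abs] at h1
    exact absurd (h1.trans (le_max_left B 1)) (not_le.2 hx)
  · by_contra h
    have h1 := hB (support_deriv_subset (Function.mem_support.2 h))
    rw [mem_closedBall_zero_iff, Real.norm_eq_abs] at h1
    exact absurd (h1.trans (le_max_left B 1)) (not_le.2 hx)

lemma K10_gg_eq (k : ℝ → ℂ) (B : ℝ) (hB : 1 ≤ B) (hk : ∀ x, B < |x| → k x = 0) (s : ℝ) :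
    gg k s = ∫ w in (-(2 * B))..(2 * B), k (Real.cosh s + w ^ 2 / 2) := by
  unfold gg
  refine (intervalIntegral.integral_eq_integral_of_support_subset fun w hw => ?_).symm
  have h1 : ¬ B < |Real.cosh s + w ^ 2 / 2| := fun h => hw (hk _ h)
  have h2 := Real.one_le_cosh s
  rw [not_lt, abs_of_nonneg (by positivity)] at h1
  have h3 : w ^ 2 < (2 * B) ^ 2 := by nlinarith
  have h4 : |w| < 2 * B := abs_lt_of_sq_lt_sq h3 (by linarith)
  rw [abs_lt] at h4
  exact ⟨h4.1, h4.2.le⟩

lemma K10_gg_deriv (k : ℝ → ℂ) (hk : ContDiff ℝ (⊤ : ℕ∞) k) (hs : HasCompactSupport k) (s : ℝ) :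
    HasDerivAt (gg k) ((Real.sinh s : ℂ) * gg (deriv k) s) s := by
  obtain ⟨B, hB, h1, h2⟩ := K10_bound k hs
  have hdk : Continuous (deriv k) := hk.continuous_deriv (by exact_mod_cast le_top)
  have hdiff : Differentiable ℝ k := hk.differentiable (by simp)
  have hfun : gg k = fun s => ∫ w in (-(2 * B))..(2 * B), k (Real.cosh s + w ^ 2 / 2) :=
    funext fun s => K10_gg_eq k B hB h1 s
  have hcos : Continuous fun p : ℝ × ℝ => Real.cosh p.1 + p.2 ^ 2 / 2 :=
    (Real.continuous_cosh.comp continuous_fst).add (by fun_prop)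
  have hsin : Continuous fun p : ℝ × ℝ => (Real.sinh p.1 : ℂ) :=
    Complex.continuous_ofReal.comp (Real.continuous_sinh.comp continuous_fst)
  rw [K10_gg_eq (deriv k) B hB h2 s, hfun, ← intervalIntegral.integral_const_mul]
  refine K10_hasDeriv (fun s w => k (Real.cosh s + w ^ 2 / 2))
    (fun s w => (Real.sinh s : ℂ) * deriv k (Real.cosh s + w ^ 2 / 2))
    (hk.continuous.comp hcos) (hsin.mul (hdk.comp hcos)) (fun s w => ?_) _ _ s
  have h3 : HasDerivAt (fun s : ℝ => Real.cosh s + w ^ 2 / 2) (Real.sinh s) s :=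
    (Real.hasDerivAt_cosh s).add_const _
  have h4 := HasDerivAt.scomp s (hdiff (Real.cosh s + w ^ 2 / 2)).hasDerivAt h3
  rw [Complex.real_smul] at h4
  exact h4

lemma K10_deriv_smooth {k : ℝ → ℂ} (hk : ContDiff ℝ (⊤ : ℕ∞) k) :
    ContDiff ℝ (⊤ : ℕ∞) (deriv k) := (contDiff_infty_iff_deriv.1 hk).2

lemma K10_gg_contDiff (n : ℕ) : ∀ k : ℝ → ℂ, ContDiff ℝ (⊤ : ℕ∞) k → HasCompactSupport k →
    ContDiff ℝ n (gg k) := by
  induction n with
  | zero =>
    intro k hk hs
    have : Differentiable ℝ (gg k) := fun s => (K10_gg_deriv k hk hs s).differentiableAt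
    exact_mod_cast contDiff_zero.2 this.continuous
  | succ n ih =>
    intro k hk hs
    have hd : Differentiable ℝ (gg k) := fun s => (K10_gg_deriv k hk hs s).differentiableAt
    have h1 : deriv (gg k) = fun s => (Real.sinh s : ℂ) * gg (deriv k) s :=
      funext fun s => (K10_gg_deriv k hk hs s).deriv
    have h2 := ih (deriv k) (K10_deriv_smooth hk) hs.deriv
    have h3 : ContDiff ℝ n (fun s : ℝ => (Real.sinh s : ℂ)) :=
      Complex.ofRealCLM.contDiff.comp Real.contDiff_sinh
    have h4 : ContDiff ℝ n (deriv (gg k)) := by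
      rw [h1]
      exact h3.mul h2
    push_cast
    rw [contDiff_succ_iff_deriv]
    exact ⟨hd, by simp, h4⟩

lemma K10_gg_supp (k : ℝ → ℂ) (hs : HasCompactSupport k) : HasCompactSupport (gg k) := by
  obtain ⟨B, hB, h1, -⟩ := K10_bound k hs
  refine HasCompactSupport.intro (isCompact_closedBall (0:ℝ) B) fun s hs => ?_
  rw [mem_closedBall_zero_iff, Real.norm_eq_abs, not_le] at hs
  have h2 : B < Real.cosh s := by
    rw [← Real.cosh_abs]
    have h3 : |s| ≤ Real.sinh |s| := Real.self_le_sinh_iff.2 (abs_nonneg s)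
    have h4 := Real.sinh_lt_cosh |s|
    linarith
  unfold gg
  have : (fun w : ℝ => k (Real.cosh s + w ^ 2 / 2)) = fun _ => 0 := by
    funext w
    refine h1 _ ?_
    have := sq_nonneg w
    have h5 : Real.cosh s + w ^ 2 / 2 ≤ |Real.cosh s + w ^ 2 / 2| := le_abs_self _
    linarith
  rw [this, integral_zero]

lemma K10_CC_deriv (d : ℝ) (g : ℝ → ℂ) (hg : ContDiff ℝ (⊤ : ℕ∞) g) (s : ℝ) :
    HasDerivAt (CC d g) (CC d (deriv g) s) s := by
  have hdg : Continuous (deriv g) := hg.continuous_deriv (by exact_mod_cast le_top)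
  have hdiff : Differentiable ℝ g := hg.differentiable (by simp)
  have hP : Continuous fun p : ℝ × ℝ => P d p.2 := (K10_P_cont d).comp continuous_snd
  have hlog : Continuous fun p : ℝ × ℝ => p.1 - Real.log (P d p.2) :=
    continuous_fst.sub (hP.log fun p => (K10_P_pos _ _).ne')
  have hpow : Continuous fun p : ℝ × ℝ => (((P d p.2) ^ (-(1 / 2) : ℝ) : ℝ) : ℂ) :=
    Complex.continuous_ofReal.comp (hP.rpow_const fun p => Or.inl (K10_P_pos _ _).ne')
  have h := K10_hasDeriv (fun s t => (((P d t) ^ (-(1 / 2) : ℝ) : ℝ) : ℂ) * g (s - Real.log (P d t)))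
    (fun s t => (((P d t) ^ (-(1 / 2) : ℝ) : ℝ) : ℂ) * deriv g (s - Real.log (P d t)))
    (hpow.mul (hg.continuous.comp hlog)) (hpow.mul (hdg.comp hlog)) (fun s t => ?_)
    0 (2 * Real.pi) s
  · exact h.const_mul _
  · have h3 : HasDerivAt (fun s : ℝ => s - Real.log (P d t)) 1 s := (hasDerivAt_id s).sub_const _
    have h4 := HasDerivAt.scomp s (hdiff (s - Real.log (P d t))).hasDerivAt h3
    rw [one_smul] at h4
    exact h4.const_mul _

lemma K10_CC_contDiff (d : ℝ) (n : ℕ) : ∀ g : ℝ → ℂ, ContDiff ℝ (⊤ : ℕ∞) g →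
    ContDiff ℝ n (CC d g) := by
  induction n with
  | zero =>
    intro g hg
    have : Differentiable ℝ (CC d g) := fun s => (K10_CC_deriv d g hg s).differentiableAt
    exact_mod_cast contDiff_zero.2 this.continuous
  | succ n ih =>
    intro g hg
    have hd : Differentiable ℝ (CC d g) := fun s => (K10_CC_deriv d g hg s).differentiableAt
    have h1 : deriv (CC d g) = CC d (deriv g) := funext fun s => (K10_CC_deriv d g hg s).deriv
    have h2 := ih (deriv g) (K10_deriv_smooth hg)
    push_cast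
    rw [contDiff_succ_iff_deriv]
    exact ⟨hd, by simp, by rw [h1]; exact h2⟩

lemma K10_CC_supp (d : ℝ) (g : ℝ → ℂ) (hs : HasCompactSupport g) : HasCompactSupport (CC d g) := by
  obtain ⟨B, hB, h1, -⟩ := K10_bound g hs
  have hlog : Continuous fun t : ℝ => Real.log (P d t) :=
    (K10_P_cont d).log fun p => (K10_P_pos _ _).ne'
  obtain ⟨D, hD⟩ := (isCompact_uIcc (a := (0:ℝ)) (b := 2 * Real.pi)).exists_bound_of_continuousOn
    hlog.continuousOn
  refine HasCompactSupport.intro (isCompact_closedBall (0:ℝ) (B + D)) fun s hs => ?_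
  rw [mem_closedBall_zero_iff, Real.norm_eq_abs, not_le] at hs
  unfold CC
  have h2 : ∫ t in (0:ℝ)..(2 * Real.pi),
      (((P d t) ^ (-(1 / 2) : ℝ) : ℝ) : ℂ) * g (s - Real.log (P d t)) =
      ∫ t in (0:ℝ)..(2 * Real.pi), (0:ℂ) := by
    refine intervalIntegral.integral_congr fun t ht => ?_
    have h3 := hD t ht
    rw [Real.norm_eq_abs] at h3
    have h4 : |s| ≤ |s - Real.log (P d t)| + |Real.log (P d t)| := by
      have := abs_add_le (s - Real.log (P d t)) (Real.log (P d t))
      rwa [sub_add_cancel] at this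
    have h5 : g (s - Real.log (P d t)) = 0 := h1 _ (by linarith)
    simp only [h5, mul_zero]
  rw [h2, intervalIntegral.integral_zero, mul_zero]

/- TARGET -/
theorem k10 : K10 := by
  refine ⟨fun k hk hs => ⟨?_, K10_gg_supp k hs⟩, fun d _ g hg hs => ⟨?_, K10_CC_supp d g hs,
    funext fun s => (K10_CC_deriv d g hg s).deriv⟩⟩
  · exact contDiff_infty.2 fun n => K10_gg_contDiff n k hk hs
  · exact contDiff_infty.2 fun n => K10_CC_contDiff d n g hg

end Pool.Agent.H267H
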