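import Pool.Agent.Helper267_hyp.Defs2

set_option autoImplicit false

open MeasureTheory Filter Topology Set
open scoped ENNReal ComplexConjugate

namespace Pool.Agent.H267H

/-- the box -/
def K11_box (a b c e : ℝ) : Set ℂ := {z : ℂ | (a ≤ z.re ∧ z.re ≤ b) ∧ (c ≤ z.im ∧ z.im ≤ e)}

lemma K11_box_meas (a b c e : ℝ) : MeasurableSet (K11_box a b c e) := by
  unfold K11_box
  have h1 : Measurable (fun z : ℂ => z.re) := Complex.measurable_re
  have h2 : Measurable (fun z : ℂ => z.im) := Complex.measurable_im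
  exact ((measurableSet_le measurable_const h1).inter (measurableSet_le h1 measurable_const)).inter
    ((measurableSet_le measurable_const h2).inter (measurableSet_le h2 measurable_const))

open Classical in
/-- the weight -/
noncomputable def K11_W (a b c e : ℝ) (z : ℂ) : ℝ := if z ∈ K11_box a b c e then z.im else 0

lemma K11_W_meas (a b c e : ℝ) : Measurable (K11_W a b c e) := by
  unfold K11_W
  exact Measurable.ite (K11_box_meas a b c e) Complex.measurable_im measurable_const

lemma K11_inv {c e : ℝ} (hc : 0 < c) (hce : c ≤ e) :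
    ∫⁻ y : ℝ, (Icc c e).indicator (fun y => ENNReal.ofReal (1 / y)) y
      = ENNReal.ofReal (Real.log e - Real.log c) := by
  rw [lintegral_indicator measurableSet_Icc]
  have hint : IntegrableOn (fun y : ℝ => 1 / y) (Icc c e) := by
    apply ContinuousOn.integrableOn_Icc
    intro y hy
    have hy0 : y ≠ 0 := (lt_of_lt_of_le hc hy.1).ne'
    exact (ContinuousAt.div continuousAt_const continuousAt_id hy0).continuousWithinAt
  rw [← ofReal_integral_eq_lintegral_ofReal hint]
  · rw [integral_Icc_eq_integral_Ioc, ← intervalIntegral.integral_of_le hce,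
      integral_one_div_of_pos hc (lt_of_lt_of_le hc hce),
      Real.log_div (lt_of_lt_of_le hc hce).ne' hc.ne']
  · rw [EventuallyLE, ae_restrict_iff' measurableSet_Icc]
    refine Eventually.of_forall fun y hy => ?_
    have hy0 : 0 < y := lt_of_lt_of_le hc hy.1
    show (0:ℝ) ≤ 1 / y
    positivity

lemma K11_mass {a b c e : ℝ} (hab : a ≤ b) (hc : 0 < c) (hce : c ≤ e) :
    ∫⁻ z, ENNReal.ofReal (K11_W a b c e z) ∂mu
      = ENNReal.ofReal ((b - a) * (Real.log e - Real.log c)) := by
  unfold mu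
  rw [lintegral_withDensity_eq_lintegral_mul _ (by
      have h2 : Measurable (fun z : ℂ => z.im) := Complex.measurable_im
      exact ((measurable_const.div (h2.pow_const 2)).ennreal_ofReal))
      (K11_W_meas a b c e).ennreal_ofReal]
  have hS : MeasurableSet {z : ℂ | 0 < z.im} :=
    measurableSet_lt measurable_const Complex.measurable_im
  rw [← lintegral_indicator hS]
  have hpt : ∀ z : ℂ, ({z : ℂ | 0 < z.im}.indicator
      ((fun z : ℂ => ENNReal.ofReal (1 / z.im ^ 2)) * fun z => ENNReal.ofReal (K11_W a b c e z)) z)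
      = (fun p : ℝ × ℝ => (Icc a b).indicator (fun _ => (1:ℝ≥0∞)) p.1 *
          (Icc c e).indicator (fun y => ENNReal.ofReal (1 / y)) p.2)
          (Complex.measurableEquivRealProd z) := by
    intro z
    simp only [Complex.measurableEquivRealProd_apply]
    by_cases hz : z ∈ K11_box a b c e
    · have hz' := hz
      obtain ⟨h1, h2⟩ := hz'
      have him : 0 < z.im := lt_of_lt_of_le hc h2.1
      rw [Set.indicator_of_mem (show z ∈ {z : ℂ | 0 < z.im} from him),
        Set.indicator_of_mem (show z.re ∈ Icc a b from h1),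
        Set.indicator_of_mem (show z.im ∈ Icc c e from h2), Pi.mul_apply, one_mul]
      unfold K11_W
      rw [if_pos hz, ← ENNReal.ofReal_mul (by positivity)]
      congr 1
      field_simp
    · have e1 : K11_W a b c e z = 0 := by
        unfold K11_W
        rw [if_neg hz]
      have e2 : (Icc a b).indicator (fun _ => (1:ℝ≥0∞)) z.re *
          (Icc c e).indicator (fun y => ENNReal.ofReal (1 / y)) z.im = 0 := by
        by_cases h1 : z.re ∈ Icc a b
        · by_cases h2 : z.im ∈ Icc c e
          · exact absurd ⟨h1, h2⟩ hz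
          · rw [Set.indicator_of_notMem h2, mul_zero]
        · rw [Set.indicator_of_notMem h1, zero_mul]
      rw [e2]
      apply Set.indicator_apply_eq_zero.2
      intro _
      rw [Pi.mul_apply, e1, ENNReal.ofReal_zero, mul_zero]
  rw [lintegral_congr hpt]
  have hm1 : Measurable ((Icc a b).indicator (fun _ => (1:ℝ≥0∞)) : ℝ → ℝ≥0∞) :=
    measurable_const.indicator measurableSet_Icc
  have hm2 : Measurable ((Icc c e).indicator (fun y => ENNReal.ofReal (1 / y)) : ℝ → ℝ≥0∞) :=
    (measurable_const.div measurable_id).ennreal_ofReal.indicator measurableSet_Icc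
  rw [Complex.volume_preserving_equiv_real_prod.lintegral_comp
    (f := fun p : ℝ × ℝ => (Icc a b).indicator (fun _ => (1:ℝ≥0∞)) p.1 *
          (Icc c e).indicator (fun y => ENNReal.ofReal (1 / y)) p.2)
    ((hm1.comp measurable_fst).mul (hm2.comp measurable_snd))]
  rw [Measure.volume_eq_prod, lintegral_prod_mul hm1.aemeasurable hm2.aemeasurable, K11_inv hc hce,
    lintegral_indicator measurableSet_Icc]
  simp only [lintegral_const, MeasurableSet.univ, Measure.restrict_apply, univ_inter, one_mul,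
    Real.volume_Icc]
  rw [← ENNReal.ofReal_mul (by linarith)]

lemma K11_W_nonneg {a b c e : ℝ} (hc : 0 < c) (z : ℂ) : 0 ≤ K11_W a b c e z := by
  unfold K11_W
  split_ifs with h
  · exact hc.le.trans h.2.1
  · exact le_rfl

lemma K11_W_int {a b c e : ℝ} (hab : a ≤ b) (hc : 0 < c) (hce : c ≤ e) :
    Integrable (K11_W a b c e) mu := by
  refine ⟨(K11_W_meas a b c e).aestronglyMeasurable, ?_⟩
  rw [hasFiniteIntegral_iff_ofReal (Eventually.of_forall (K11_W_nonneg hc)), K11_mass hab hc hce]
  exact ENNReal.ofReal_lt_top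

lemma K11_W_integral {a b c e : ℝ} (hab : a ≤ b) (hc : 0 < c) (hce : c ≤ e) :
    ∫ z, K11_W a b c e z ∂mu = (b - a) * (Real.log e - Real.log c) := by
  rw [integral_eq_lintegral_of_nonneg_ae (Eventually.of_forall (K11_W_nonneg hc))
    (K11_W_meas a b c e).aestronglyMeasurable, K11_mass hab hc hce, ENNReal.toReal_ofReal]
  have := Real.log_le_log hc hce
  exact mul_nonneg (by linarith) (by linarith)

/-- the character -/
noncomputable def K11_g (l y : ℝ) : ℂ :=
  ((y ^ (1 / 2 : ℝ) : ℝ) : ℂ) * Complex.exp (((l * Real.log y : ℝ) : ℂ) * Complex.I)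

lemma K11_g_norm {l y : ℝ} (hy : 0 ≤ y) : ‖K11_g l y‖ = y ^ (1 / 2 : ℝ) := by
  unfold K11_g
  rw [norm_mul, Complex.norm_exp_ofReal_mul_I, mul_one, Complex.norm_real, Real.norm_eq_abs,
    abs_of_nonneg (Real.rpow_nonneg hy _)]

lemma K11_half {y : ℝ} (hy : 0 ≤ y) : y ^ (1 / 2 : ℝ) * y ^ (1 / 2 : ℝ) = y := by
  rw [← Real.sqrt_eq_rpow, Real.mul_self_sqrt hy]

lemma K11_g_mul {l y v : ℝ} (hy : 0 < y) (hv : 0 < v) :
    K11_g l (y * v) = K11_g l y * K11_g l v := by
  unfold K11_g
  rw [Real.mul_rpow hy.le hv.le, Real.log_mul hy.ne' hv.ne', mul_add, Complex.ofReal_add, add_mul,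
    Complex.exp_add, Complex.ofReal_mul]
  ring

lemma K11_g_meas (l : ℝ) : Measurable (K11_g l) := by
  unfold K11_g
  apply Measurable.mul
  · exact Complex.measurable_ofReal.comp (measurable_id.pow_const _)
  · apply Complex.measurable_exp.comp
    exact (Complex.measurable_ofReal.comp (Real.measurable_log.const_mul l)).mul_const _

open Classical in
/-- the approximate eigenfunction -/
noncomputable def K11_f (l X L : ℝ) (z : ℂ) : ℂ :=
  if z ∈ K11_box (-X) X 1 (Real.exp L) then K11_g l z.im else 0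

lemma K11_f_meas (l X L : ℝ) : Measurable (K11_f l X L) := by
  unfold K11_f
  exact Measurable.ite (K11_box_meas _ _ _ _) ((K11_g_meas l).comp Complex.measurable_im)
    measurable_const

lemma K11_f_norm (l X L : ℝ) (z : ℂ) : ‖K11_f l X L z‖ ^ 2 = K11_W (-X) X 1 (Real.exp L) z := by
  unfold K11_f K11_W
  by_cases h : z ∈ K11_box (-X) X 1 (Real.exp L)
  · have him : (0:ℝ) ≤ z.im := zero_le_one.trans h.2.1
    rw [if_pos h, if_pos h, K11_g_norm him, sq, K11_half him]
  · rw [if_neg h, if_neg h, norm_zero]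
    norm_num

lemma K11_f_le (l X L : ℝ) {w : ℂ} (hw : 0 ≤ w.im) : ‖K11_f l X L w‖ ≤ w.im ^ (1 / 2 : ℝ) := by
  unfold K11_f
  split_ifs with h
  · rw [K11_g_norm hw]
  · rw [norm_zero]
    exact Real.rpow_nonneg hw _

lemma K11_P_lo {d : ℝ} (hd : 0 < d) (t : ℝ) : Real.exp (-d) ≤ P d t := by
  have h1 : 0 < Real.sinh d := Real.sinh_pos_iff.2 hd
  have h2 := Real.cos_le_one t
  have h3 := Real.cosh_sub_sinh d
  unfold P
  nlinarith

lemma K11_P_hi {d : ℝ} (hd : 0 < d) (t : ℝ) : P d t ≤ Real.exp d := by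
  have h1 : 0 < Real.sinh d := Real.sinh_pos_iff.2 hd
  have h2 := Real.neg_one_le_cos t
  have h3 := Real.cosh_add_sinh d
  unfold P
  nlinarith

lemma K11_P_pos {d : ℝ} (hd : 0 < d) (t : ℝ) : 0 < P d t :=
  lt_of_lt_of_le (Real.exp_pos _) (K11_P_lo hd t)

lemma K11_P_cont (d : ℝ) : Continuous (P d) := by
  unfold P
  fun_prop

lemma K11_v_lo {d : ℝ} (hd : 0 < d) (t : ℝ) : Real.exp (-d) ≤ 1 / P d t := by
  rw [Real.exp_neg, ← one_div]
  exact one_div_le_one_div_of_le (K11_P_pos hd t) (K11_P_hi hd t)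

lemma K11_v_hi {d : ℝ} (hd : 0 < d) (t : ℝ) : 1 / P d t ≤ Real.exp d := by
  have h := one_div_le_one_div_of_le (Real.exp_pos (-d)) (K11_P_lo hd t)
  rwa [Real.exp_neg, one_div (Real.exp d)⁻¹, inv_inv] at h

lemma K11_u {d : ℝ} (hd : 0 < d) (t : ℝ) :
    |-(Real.sinh d * Real.sin t) / P d t| ≤ Real.sinh d * Real.exp d := by
  have h1 : 0 < Real.sinh d := Real.sinh_pos_iff.2 hd
  rw [neg_div, abs_neg, mul_div_assoc, abs_mul, abs_of_pos h1, abs_div,
    abs_of_pos (K11_P_pos hd t)]
  apply mul_le_mul_of_nonneg_left _ h1.le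
  have h2 : |Real.sin t| / P d t ≤ 1 / P d t :=
    div_le_div_of_nonneg_right (Real.abs_sin_le_one t) (K11_P_pos hd t).le
  exact h2.trans (K11_v_hi hd t)

lemma K11_mk {β : Type} [MeasurableSpace β] {a b : β → ℝ} (ha : Measurable a) (hb : Measurable b) :
    Measurable (fun x => (⟨a x, b x⟩ : ℂ)) := by
  have : (fun x => (⟨a x, b x⟩ : ℂ)) = fun x => (a x : ℂ) + (b x : ℂ) * Complex.I := by
    funext x
    exact Complex.mk_eq_add_mul_I _ _
  rw [this]
  exact (Complex.measurable_ofReal.comp ha).add ((Complex.measurable_ofReal.comp hb).mul_const _)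

lemma K11_act_meas (d : ℝ) : Measurable (fun p : ℂ × ℝ => act p.1 (pt d p.2)) := by
  unfold act pt
  have hP : Measurable (fun p : ℂ × ℝ => P d p.2) := (K11_P_cont d).measurable.comp measurable_snd
  have hre : Measurable (fun p : ℂ × ℝ => p.1.re) := Complex.measurable_re.comp measurable_fst
  have him : Measurable (fun p : ℂ × ℝ => p.1.im) := Complex.measurable_im.comp measurable_fst
  have hs : Measurable (fun p : ℂ × ℝ => Real.sin p.2) := Real.measurable_sin.comp measurable_snd
  apply K11_mk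
  · exact hre.add (him.mul (((hs.const_mul _).neg).div hP))
  · exact him.mul (measurable_const.div hP)

lemma K11_avg_meas (d : ℝ) {f : ℂ → ℂ} (hf : Measurable f) :
    StronglyMeasurable (fun z => avg d f z) := by
  unfold avg
  have h2π : (0:ℝ) ≤ 2 * Real.pi := by positivity
  have hF : StronglyMeasurable (fun p : ℂ × ℝ => f (act p.1 (pt d p.2))) :=
    (hf.comp (K11_act_meas d)).stronglyMeasurable
  have h := hF.integral_prod_right' (ν := volume.restrict (Ioc 0 (2 * Real.pi)))
  simp only [intervalIntegral.integral_of_le h2π]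
  exact h.const_mul _

lemma K11_avg_norm {d : ℝ} (hd : 0 < d) (l X L : ℝ) {z : ℂ} (hz : 0 ≤ z.im) :
    ‖avg d (K11_f l X L) z‖ ≤ Real.exp d ^ (1 / 2 : ℝ) * z.im ^ (1 / 2 : ℝ) := by
  unfold avg
  rw [norm_mul, Complex.norm_real, Real.norm_eq_abs,
    abs_of_pos (by positivity : (0:ℝ) < 1 / (2 * Real.pi))]
  have h1 : ‖∫ t in (0:ℝ)..(2 * Real.pi), K11_f l X L (act z (pt d t))‖ ≤
      (Real.exp d ^ (1 / 2 : ℝ) * z.im ^ (1 / 2 : ℝ)) * |2 * Real.pi - 0| := by
    apply intervalIntegral.norm_integral_le_of_norm_le_const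
    intro t _
    have hv0 : 0 < 1 / P d t := one_div_pos.2 (K11_P_pos hd t)
    have him : (act z (pt d t)).im = z.im * (1 / P d t) := rfl
    refine (K11_f_le l X L (w := act z (pt d t)) (by rw [him]; exact mul_nonneg hz hv0.le)).trans ?_
    rw [him, mul_comm, Real.mul_rpow hv0.le hz]
    apply mul_le_mul_of_nonneg_right _ (Real.rpow_nonneg hz _)
    exact Real.rpow_le_rpow hv0.le (K11_v_hi hd t) (by norm_num)
  rw [sub_zero, abs_of_pos (by positivity : (0:ℝ) < 2 * Real.pi)] at h1
  calc 1 / (2 * Real.pi) * ‖∫ t in (0:ℝ)..(2 * Real.pi), K11_f l X L (act z (pt d t))‖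
      ≤ 1 / (2 * Real.pi) * ((Real.exp d ^ (1 / 2 : ℝ) * z.im ^ (1 / 2 : ℝ)) * (2 * Real.pi)) := by
        apply mul_le_mul_of_nonneg_left h1
        positivity
    _ = Real.exp d ^ (1 / 2 : ℝ) * z.im ^ (1 / 2 : ℝ) := by
        have : (2 * Real.pi) ≠ 0 := by positivity
        field_simp

lemma K11_g_inv {p : ℝ} (hp : 0 < p) (l : ℝ) :
    K11_g l (1 / p) = ((p ^ (-(1 / 2) : ℝ) * Real.cos (l * Real.log p) : ℝ) : ℂ) -
      ((p ^ (-(1 / 2) : ℝ) * Real.sin (l * Real.log p) : ℝ) : ℂ) * Complex.I := by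
  unfold K11_g
  have e1 : (1 / p) ^ (1 / 2 : ℝ) = p ^ (-(1 / 2) : ℝ) := by
    rw [one_div p, Real.inv_rpow hp.le, Real.rpow_neg hp.le]
  have e2 : l * Real.log (1 / p) = -(l * Real.log p) := by
    rw [one_div, Real.log_inv]
    ring
  rw [e1, e2, Complex.exp_mul_I, ← Complex.ofReal_cos, ← Complex.ofReal_sin, Real.cos_neg,
    Real.sin_neg]
  push_cast
  ring

lemma K11_phi (h7a : K7a) {d : ℝ} (hd : 0 < d) (l : ℝ) :
    ((1 / (2 * Real.pi) : ℝ) : ℂ) * ∫ t in (0:ℝ)..(2 * Real.pi), K11_g l (1 / P d t)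
      = (Phi l d : ℂ) := by
  have hPc : Continuous (fun t => (P d t) ^ (-(1 / 2) : ℝ)) :=
    (K11_P_cont d).rpow_const (fun t => Or.inl (K11_P_pos hd t).ne')
  have hlc : Continuous (fun t => l * Real.log (P d t)) :=
    continuous_const.mul ((K11_P_cont d).log (fun t => (K11_P_pos hd t).ne'))
  have hc1 : Continuous (fun t => (((P d t) ^ (-(1 / 2) : ℝ) *
      Real.cos (l * Real.log (P d t)) : ℝ) : ℂ)) :=
    Complex.continuous_ofReal.comp (hPc.mul (Real.continuous_cos.comp hlc))
  have hc2 : Continuous (fun t => (((P d t) ^ (-(1 / 2) : ℝ) *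
      Real.sin (l * Real.log (P d t)) : ℝ) : ℂ) * Complex.I) :=
    (Complex.continuous_ofReal.comp (hPc.mul (Real.continuous_sin.comp hlc))).mul continuous_const
  have e : ∀ t, K11_g l (1 / P d t) = (((P d t) ^ (-(1 / 2) : ℝ) *
      Real.cos (l * Real.log (P d t)) : ℝ) : ℂ) - (((P d t) ^ (-(1 / 2) : ℝ) *
      Real.sin (l * Real.log (P d t)) : ℝ) : ℂ) * Complex.I :=
    fun t => K11_g_inv (K11_P_pos hd t) l
  simp only [e]
  rw [intervalIntegral.integral_sub (hc1.intervalIntegrable _ _) (hc2.intervalIntegrable _ _),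
    intervalIntegral.integral_mul_const, intervalIntegral.integral_ofReal,
    intervalIntegral.integral_ofReal, h7a l d hd]
  unfold Phi
  push_cast
  ring

lemma K11_avg_in (h7a : K7a) {d : ℝ} (hd : 0 < d) (l : ℝ) {X L : ℝ} {z : ℂ}
    (hz : z ∈ K11_box (-(X - Real.sinh d * Real.exp d * Real.exp L))
      (X - Real.sinh d * Real.exp d * Real.exp L) (Real.exp d) (Real.exp (L - d))) :
    avg d (K11_f l X L) z = (Phi l d : ℂ) * K11_g l z.im := by
  obtain ⟨⟨h1, h2⟩, h3, h4⟩ := hz
  have him : 0 < z.im := lt_of_lt_of_le (Real.exp_pos _) h3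
  have hsd : 0 < Real.sinh d := Real.sinh_pos_iff.2 hd
  have hzL : z.im ≤ Real.exp L := h4.trans (Real.exp_le_exp.2 (by linarith))
  have key : ∀ t, K11_f l X L (act z (pt d t)) = K11_g l z.im * K11_g l (1 / P d t) := by
    intro t
    have hv0 : 0 < 1 / P d t := one_div_pos.2 (K11_P_pos hd t)
    have hmem : act z (pt d t) ∈ K11_box (-X) X 1 (Real.exp L) := by
      have hu := abs_le.1 (K11_u hd t)
      have hyu : |z.im * (-(Real.sinh d * Real.sin t) / P d t)| ≤
          Real.sinh d * Real.exp d * Real.exp L := by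
        rw [abs_mul, abs_of_pos him, mul_comm]
        exact mul_le_mul (K11_u hd t) hzL him.le (by positivity)
      have hyu' := abs_le.1 hyu
      refine ⟨⟨?_, ?_⟩, ?_, ?_⟩
      · show -X ≤ z.re + z.im * (-(Real.sinh d * Real.sin t) / P d t)
        linarith [hyu'.1]
      · show z.re + z.im * (-(Real.sinh d * Real.sin t) / P d t) ≤ X
        linarith [hyu'.2]
      · show 1 ≤ z.im * (1 / P d t)
        calc (1:ℝ) = Real.exp d * Real.exp (-d) := by rw [← Real.exp_add]; simp
          _ ≤ z.im * (1 / P d t) := mul_le_mul h3 (K11_v_lo hd t) (Real.exp_pos _).le him.le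
      · show z.im * (1 / P d t) ≤ Real.exp L
        calc z.im * (1 / P d t) ≤ Real.exp (L - d) * Real.exp d :=
              mul_le_mul h4 (K11_v_hi hd t) hv0.le (Real.exp_pos _).le
          _ = Real.exp L := by rw [← Real.exp_add]; congr 1; ring
    unfold K11_f
    rw [if_pos hmem]
    show K11_g l (z.im * (1 / P d t)) = _
    exact K11_g_mul him hv0
  unfold avg
  simp only [key]
  rw [intervalIntegral.integral_const_mul, ← K11_phi h7a hd l]
  ring

/- TARGET -/
theorem k11 (h0 : K0) (h7a : K7a) : K11 := by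
  intro d l ε hd hε
  have hsd : 0 < Real.sinh d := Real.sinh_pos_iff.2 hd
  obtain ⟨K, hK⟩ : ∃ K, K = Real.exp d ^ (1 / 2 : ℝ) + |Phi l d| := ⟨_, rfl⟩
  have hC1 : 0 < Real.exp d ^ (1 / 2 : ℝ) := Real.rpow_pos_of_pos (Real.exp_pos _) _
  have hK0 : 0 < K := by rw [hK]; positivity
  obtain ⟨L, hL⟩ : ∃ L, L = 4 * d * K / ε + 2 * d + 1 := ⟨_, rfl⟩
  obtain ⟨q, hq⟩ : ∃ q, q = Real.sinh d * Real.exp d * Real.exp L := ⟨_, rfl⟩
  have hq0 : 0 < q := by rw [hq]; positivity
  obtain ⟨X, hX⟩ : ∃ X, X = 2 * q * K / ε + q + 1 := ⟨_, rfl⟩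
  have hL1 : 4 * d * K ≤ ε * L := by
    have : ε * (4 * d * K / ε) = 4 * d * K := by field_simp
    rw [hL]
    nlinarith
  have hX1 : 2 * q * K ≤ ε * X := by
    have : ε * (2 * q * K / ε) = 2 * q * K := by field_simp
    rw [hX]
    nlinarith
  have hL2 : 2 * d ≤ L := by
    have : 0 < 4 * d * K / ε := by positivity
    rw [hL]
    linarith
  have hX2 : q ≤ X := by
    have : 0 < 2 * q * K / ε := by positivity
    rw [hX]
    linarith
  have hL0 : 0 < L := by linarith
  have hX0 : 0 < X := by linarith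
  have hL1e : (1:ℝ) ≤ Real.exp L := Real.one_le_exp hL0.le
  have m1 : ∫ z, K11_W (-X) X 1 (Real.exp L) z ∂mu = 2 * X * L := by
    rw [K11_W_integral (by linarith) one_pos hL1e, Real.log_exp, Real.log_one]
    ring
  have i1 : Integrable (K11_W (-X) X 1 (Real.exp L)) mu :=
    K11_W_int (by linarith) one_pos hL1e
  have m2 : ∫ z, K11_W (-(X - q)) (X - q) (Real.exp d) (Real.exp (L - d)) z ∂mu
      = 2 * (X - q) * (L - 2 * d) := by
    rw [K11_W_integral (by linarith) (Real.exp_pos _) (Real.exp_le_exp.2 (by linarith)),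
      Real.log_exp, Real.log_exp]
    ring
  have i2 : Integrable (K11_W (-(X - q)) (X - q) (Real.exp d) (Real.exp (L - d))) mu :=
    K11_W_int (by linarith) (Real.exp_pos _) (Real.exp_le_exp.2 (by linarith))
  have hn : ∀ z, ‖K11_f l X L z‖ ^ 2 = K11_W (-X) X 1 (Real.exp L) z := K11_f_norm l X L
  have hmf : AEStronglyMeasurable (K11_f l X L) mu :=
    (K11_f_meas l X L).aestronglyMeasurable
  refine ⟨K11_f l X L, ?_, ?_, ?_⟩
  · rw [memLp_two_iff_integrable_sq_norm hmf]
    simp only [hn]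
    exact i1
  · simp only [hn]
    rw [m1]
    positivity
  · simp only [hn]
    have hGm : AEStronglyMeasurable (fun z => avg d (K11_f l X L) z * conj (K11_f l X L z)) mu :=
      ((K11_avg_meas d (K11_f_meas l X L)).mul
        (Complex.continuous_conj.comp_stronglyMeasurable
          (K11_f_meas l X L).stronglyMeasurable)).aestronglyMeasurable
    have hGb : ∀ z, ‖avg d (K11_f l X L) z * conj (K11_f l X L z)‖ ≤
        Real.exp d ^ (1 / 2 : ℝ) * K11_W (-X) X 1 (Real.exp L) z := by
      intro z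
      by_cases hz : z ∈ K11_box (-X) X 1 (Real.exp L)
      · have him : (0:ℝ) ≤ z.im := zero_le_one.trans hz.2.1
        have hW : K11_W (-X) X 1 (Real.exp L) z = z.im := by
          unfold K11_W
          rw [if_pos hz]
        rw [norm_mul, RCLike.norm_conj, hW]
        calc ‖avg d (K11_f l X L) z‖ * ‖K11_f l X L z‖
            ≤ (Real.exp d ^ (1 / 2 : ℝ) * z.im ^ (1 / 2 : ℝ)) * z.im ^ (1 / 2 : ℝ) :=
              mul_le_mul (K11_avg_norm hd l X L him) (K11_f_le l X L him) (norm_nonneg _)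
                (by positivity)
          _ = Real.exp d ^ (1 / 2 : ℝ) * z.im := by
              rw [mul_assoc, K11_half him]
      · have hf0 : K11_f l X L z = 0 := by
          unfold K11_f
          rw [if_neg hz]
        have hW : K11_W (-X) X 1 (Real.exp L) z = 0 := by
          unfold K11_W
          rw [if_neg hz]
        rw [hf0, hW]
        simp
    have hGi : Integrable (fun z => avg d (K11_f l X L) z * conj (K11_f l X L z)) mu :=
      (i1.const_mul (Real.exp d ^ (1 / 2 : ℝ))).mono' hGm (Eventually.of_forall hGb)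
    have hWi : Integrable (fun z => ((Phi l d * K11_W (-X) X 1 (Real.exp L) z : ℝ) : ℂ)) mu :=
      (i1.const_mul (Phi l d)).ofReal
    have hDb : ∀ z, ‖avg d (K11_f l X L) z * conj (K11_f l X L z) -
        ((Phi l d * K11_W (-X) X 1 (Real.exp L) z : ℝ) : ℂ)‖ ≤
        K * (K11_W (-X) X 1 (Real.exp L) z -
          K11_W (-(X - q)) (X - q) (Real.exp d) (Real.exp (L - d)) z) := by
      intro z
      by_cases hin : z ∈ K11_box (-(X - q)) (X - q) (Real.exp d) (Real.exp (L - d))
      · have hbox : z ∈ K11_box (-X) X 1 (Real.exp L) := by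
          obtain ⟨⟨h1, h2⟩, h3, h4⟩ := hin
          refine ⟨⟨by linarith, by linarith⟩, ?_, h4.trans (Real.exp_le_exp.2 (by linarith))⟩
          exact (Real.one_le_exp hd.le).trans h3
        have him : (0:ℝ) ≤ z.im := zero_le_one.trans hbox.2.1
        have hW1 : K11_W (-X) X 1 (Real.exp L) z = z.im := by
          unfold K11_W
          rw [if_pos hbox]
        have hW2 : K11_W (-(X - q)) (X - q) (Real.exp d) (Real.exp (L - d)) z = z.im := by
          unfold K11_W
          rw [if_pos hin]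
        have hf1 : K11_f l X L z = K11_g l z.im := by
          unfold K11_f
          rw [if_pos hbox]
        rw [hW1, hW2, hf1, K11_avg_in h7a hd l (by rw [hq] at hin; exact hin), mul_assoc,
          Complex.mul_conj, Complex.normSq_eq_norm_sq, K11_g_norm him, sq, K11_half him]
        push_cast
        simp
      · have hW2 : K11_W (-(X - q)) (X - q) (Real.exp d) (Real.exp (L - d)) z = 0 := by
          unfold K11_W
          rw [if_neg hin]
        have hWn : 0 ≤ K11_W (-X) X 1 (Real.exp L) z := K11_W_nonneg one_pos z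
        rw [hW2, sub_zero, hK, add_mul]
        refine (norm_sub_le _ _).trans (add_le_add (hGb z) ?_)
        rw [Complex.norm_real, Real.norm_eq_abs, abs_mul, abs_of_nonneg hWn]
    have e1 : (∫ z, avg d (K11_f l X L) z * conj (K11_f l X L z) ∂mu).re -
        Phi l d * ∫ z, K11_W (-X) X 1 (Real.exp L) z ∂mu =
        (∫ z, (avg d (K11_f l X L) z * conj (K11_f l X L z) -
          ((Phi l d * K11_W (-X) X 1 (Real.exp L) z : ℝ) : ℂ)) ∂mu).re := by
      rw [integral_sub hGi hWi, Complex.sub_re, integral_complex_ofReal, Complex.ofReal_re,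
        integral_const_mul]
    rw [e1]
    refine (Complex.abs_re_le_norm _).trans ?_
    refine (norm_integral_le_integral_norm _).trans ?_
    have e2 : ∫ z, ‖avg d (K11_f l X L) z * conj (K11_f l X L z) -
        ((Phi l d * K11_W (-X) X 1 (Real.exp L) z : ℝ) : ℂ)‖ ∂mu ≤
        ∫ z, K * (K11_W (-X) X 1 (Real.exp L) z -
          K11_W (-(X - q)) (X - q) (Real.exp d) (Real.exp (L - d)) z) ∂mu :=
      integral_mono (hGi.sub hWi).norm ((i1.sub i2).const_mul K) hDb
    refine e2.trans ?_
    rw [integral_const_mul, integral_sub i1 i2, m1, m2]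
    have h5 : K * (2 * X * L - 2 * (X - q) * (L - 2 * d)) =
        (4 * d * K) * X + (2 * q * K) * (L - 2 * d) := by ring
    rw [h5]
    have h6 : (4 * d * K) * X ≤ (ε * L) * X := mul_le_mul_of_nonneg_right hL1 hX0.le
    have h7 : (2 * q * K) * (L - 2 * d) ≤ (ε * X) * L := by
      calc (2 * q * K) * (L - 2 * d) ≤ (2 * q * K) * L := by
            apply mul_le_mul_of_nonneg_left (by linarith) (by positivity)
        _ ≤ (ε * X) * L := mul_le_mul_of_nonneg_right hX1 hL0.le
    nlinarith

end Pool.Agent.H267H
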