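import Pool.Agent.Helper267_hyp.Defs2

set_option autoImplicit false

open MeasureTheory Filter Topology Set
open scoped ENNReal ComplexConjugate

namespace Pool.Agent.H267H

theorem k2_P_lower (d t : ℝ) (hd : 0 < d) : Real.exp (-d) ≤ P d t := by
  unfold P
  have h1 : 0 < Real.sinh d := Real.sinh_pos_iff.2 hd
  have h2 := Real.cos_le_one t
  have h3 : Real.cosh d - Real.sinh d = Real.exp (-d) := Real.cosh_sub_sinh d
  nlinarith

theorem k2_P_upper (d t : ℝ) (hd : 0 < d) : P d t ≤ Real.exp d := by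
  unfold P
  have h1 : 0 < Real.sinh d := Real.sinh_pos_iff.2 hd
  have h2 := Real.neg_one_le_cos t
  have h3 : Real.cosh d + Real.sinh d = Real.exp d := Real.cosh_add_sinh d
  nlinarith

theorem k2_P_pos (d t : ℝ) (hd : 0 < d) : 0 < P d t :=
  (Real.exp_pos _).trans_le (k2_P_lower d t hd)

theorem k2_measurable_mk {α : Type*} [MeasurableSpace α] {a b : α → ℝ} (ha : Measurable a)
    (hb : Measurable b) : Measurable (fun x => (⟨a x, b x⟩ : ℂ)) :=
  Complex.measurableEquivRealProd.symm.measurable.comp (ha.prodMk hb)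

theorem k2_measurable_act {α : Type*} [MeasurableSpace α] {z p : α → ℂ} (hz : Measurable z)
    (hp : Measurable p) : Measurable (fun x => act (z x) (p x)) := by
  unfold act
  apply k2_measurable_mk
  · exact (Complex.measurable_re.comp hz).add
      ((Complex.measurable_im.comp hz).mul (Complex.measurable_re.comp hp))
  · exact (Complex.measurable_im.comp hz).mul (Complex.measurable_im.comp hp)

theorem k2_measurable_P (d : ℝ) : Measurable (P d) := by
  unfold P
  exact (Real.measurable_cos.const_mul _).const_sub _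

theorem k2_measurable_pt (d : ℝ) : Measurable (pt d) := by
  unfold pt
  apply k2_measurable_mk
  · exact ((Real.measurable_sin.const_mul _).neg).div (k2_measurable_P d)
  · exact measurable_const.div (k2_measurable_P d)

theorem k2_measurable_binv : Measurable binv := by
  unfold binv
  apply k2_measurable_mk
  · exact Complex.measurable_re.neg.div Complex.measurable_im
  · exact measurable_const.div Complex.measurable_im

theorem k2_act_binv (z p : ℂ) (hp : 0 < p.im) : act (act z p) (binv p) = z := by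
  have hp' := hp.ne'
  apply Complex.ext
  · simp only [act, binv]
    field_simp
    ring
  · simp only [act, binv]
    field_simp

instance k2_sfinite : SFinite mu := by
  unfold mu
  infer_instance

theorem k2_map (h0 : K0) {p : ℂ} (hp : 0 < p.im) :
    mu.map (fun z => act z p) = ENNReal.ofReal p.im • mu := by
  have hm : Measurable (fun z => act z p) := k2_measurable_act measurable_id measurable_const
  ext s hs
  rw [Measure.map_apply hm hs]
  have h := h0 p hp (s.indicator 1) (measurable_one.indicator hs)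
  rw [lintegral_indicator_one hs] at h
  rw [Measure.smul_apply, smul_eq_mul, ← h, ← lintegral_indicator_one (hm hs)]
  rfl

theorem k2_mul_le (a b : ℝ≥0∞) : a * b ≤ a ^ 2 + b ^ 2 := by
  rcases le_total a b with h | h
  · calc a * b ≤ b * b := mul_le_mul_left h b
      _ = b ^ 2 := (sq b).symm
      _ ≤ a ^ 2 + b ^ 2 := le_add_self
  · calc a * b ≤ a * a := mul_le_mul_right h a
      _ = a ^ 2 := (sq a).symm
      _ ≤ a ^ 2 + b ^ 2 := le_self_add

theorem k2_int (h0 : K0) {F G : ℂ → ℂ} (hF : Measurable F) (hG : Measurable G)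
    (hF2 : ∫⁻ z, ‖F z‖ₑ ^ 2 ∂mu < ∞) (hG2 : ∫⁻ z, ‖G z‖ₑ ^ 2 ∂mu < ∞) {q : ℝ → ℂ}
    (hq : Measurable q) {M : ℝ} (hq0 : ∀ t, 0 < (q t).im) (hqM : ∀ t, (q t).im ≤ M)
    (ν : Measure ℝ) [IsFiniteMeasure ν] :
    Integrable (fun x : ℂ × ℝ => F (act x.1 (q x.2)) * G x.1) (mu.prod ν) := by
  have hm : Measurable (fun x : ℂ × ℝ => F (act x.1 (q x.2)) * G x.1) :=
    (hF.comp (k2_measurable_act measurable_fst (hq.comp measurable_snd))).mul
      (hG.comp measurable_fst)
  refine ⟨hm.aestronglyMeasurable, ?_⟩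
  have key : ∀ t, ∫⁻ z, ‖F (act z (q t)) * G z‖ₑ ∂mu ≤
      ENNReal.ofReal M * ∫⁻ z, ‖F z‖ₑ ^ 2 ∂mu + ∫⁻ z, ‖G z‖ₑ ^ 2 ∂mu := by
    intro t
    have hFm : Measurable (fun z => ‖F (act z (q t))‖ₑ ^ 2) :=
      (hF.comp (k2_measurable_act measurable_id measurable_const)).enorm.pow_const 2
    calc ∫⁻ z, ‖F (act z (q t)) * G z‖ₑ ∂mu
        ≤ ∫⁻ z, (‖F (act z (q t))‖ₑ ^ 2 + ‖G z‖ₑ ^ 2) ∂mu := by
          apply lintegral_mono
          intro z
          simp only [enorm_mul]
          exact k2_mul_le _ _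
      _ = ∫⁻ z, ‖F (act z (q t))‖ₑ ^ 2 ∂mu + ∫⁻ z, ‖G z‖ₑ ^ 2 ∂mu :=
          lintegral_add_left hFm _
      _ = ENNReal.ofReal (q t).im * ∫⁻ z, ‖F z‖ₑ ^ 2 ∂mu + ∫⁻ z, ‖G z‖ₑ ^ 2 ∂mu := by
          rw [h0 (q t) (hq0 t) (fun z => ‖F z‖ₑ ^ 2) (hF.enorm.pow_const 2)]
      _ ≤ _ := by
          gcongr
          exact hqM t
  unfold HasFiniteIntegral
  rw [lintegral_prod_symm' _ hm.enorm]
  calc ∫⁻ t, ∫⁻ z, ‖F (act z (q t)) * G z‖ₑ ∂mu ∂ν
      ≤ ∫⁻ _, (ENNReal.ofReal M * ∫⁻ z, ‖F z‖ₑ ^ 2 ∂mu + ∫⁻ z, ‖G z‖ₑ ^ 2 ∂mu) ∂ν :=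
        lintegral_mono key
    _ = (ENNReal.ofReal M * ∫⁻ z, ‖F z‖ₑ ^ 2 ∂mu + ∫⁻ z, ‖G z‖ₑ ^ 2 ∂mu) * ν univ :=
        lintegral_const _
    _ < ∞ := by
        apply ENNReal.mul_lt_top
        · exact ENNReal.add_lt_top.2 ⟨ENNReal.mul_lt_top ENNReal.ofReal_lt_top hF2, hG2⟩
        · exact measure_lt_top _ _

theorem k2_sq {f : ℂ → ℂ} (hf : MemLp f 2 mu) : ∫⁻ z, ‖f z‖ₑ ^ 2 ∂mu < ∞ := by
  have h := ((memLp_two_iff_integrable_sq_norm hf.1).1 hf).2
  unfold HasFiniteIntegral at h
  simpa [enorm_pow] using h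

theorem k2_core (h0 : K0) (h2 : K2a) (d : ℝ) (hd : 0 < d) (f g : ℂ → ℂ) (hf : Measurable f)
    (hg : Measurable g) (hf2 : ∫⁻ z, ‖f z‖ₑ ^ 2 ∂mu < ∞) (hg2 : ∫⁻ z, ‖g z‖ₑ ^ 2 ∂mu < ∞) :
    ∫ z, avg d f z * conj (g z) ∂mu = ∫ z, f z * conj (avg d g z) ∂mu := by
  have hpi : (0:ℝ) ≤ 2 * Real.pi := by positivity
  set ν : Measure ℝ := volume.restrict (Ioc (0:ℝ) (2 * Real.pi)) with hν
  set c : ℂ := ((1 / (2 * Real.pi) : ℝ) : ℂ) with hc
  have hcg : Measurable (fun z => conj (g z)) := Complex.continuous_conj.measurable.comp hg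
  have hcg2 : ∫⁻ z, ‖conj (g z)‖ₑ ^ 2 ∂mu < ∞ := by
    have : (fun z => ‖conj (g z)‖ₑ ^ 2) = fun z => ‖g z‖ₑ ^ 2 := by
      funext z
      rw [← ofReal_norm, ← ofReal_norm, RCLike.norm_conj]
    rw [this]
    exact hg2
  have him : ∀ t, (pt d t).im = 1 / P d t := fun t => rfl
  have him0 : ∀ t, 0 < (pt d t).im := fun t => by
    rw [him]
    exact one_div_pos.2 (k2_P_pos d t hd)
  have himM : ∀ t, (pt d t).im ≤ Real.exp d := fun t => by
    rw [him, one_div]
    calc (P d t)⁻¹ ≤ (Real.exp (-d))⁻¹ :=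
          inv_anti₀ (Real.exp_pos _) (k2_P_lower d t hd)
      _ = Real.exp d := by rw [Real.exp_neg, inv_inv]
  have hbim : ∀ t, (binv (pt d t)).im = P d t := fun t => by
    show 1 / (1 / P d t) = P d t
    rw [one_div_one_div]
  have hqm : Measurable (fun t => binv (pt d t)) := k2_measurable_binv.comp (k2_measurable_pt d)
  have int1 : Integrable (fun x : ℂ × ℝ => f (act x.1 (pt d x.2)) * conj (g x.1)) (mu.prod ν) :=
    k2_int h0 hf hcg hf2 hcg2 (k2_measurable_pt d) him0 himM ν
  have int2 : Integrable (fun x : ℂ × ℝ => conj (g (act x.1 (binv (pt d x.2)))) * f x.1)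
      (mu.prod ν) :=
    k2_int h0 hcg hf hcg2 hf2 hqm (fun t => by rw [hbim]; exact k2_P_pos d t hd)
      (fun t => by rw [hbim]; exact k2_P_upper d t hd) ν
  have int3 : Integrable (fun x : ℂ × ℝ => ((1 / P d x.2 : ℝ) : ℂ) *
      (f x.1 * conj (g (act x.1 (binv (pt d x.2)))))) (mu.prod ν) := by
    have hb : Measurable (fun x : ℂ × ℝ => ((1 / P d x.2 : ℝ) : ℂ)) :=
      Complex.measurable_ofReal.comp
        (measurable_const.div ((k2_measurable_P d).comp measurable_snd))
    have h := int2.bdd_mul (c := Real.exp d) hb.aestronglyMeasurable (Eventually.of_forall fun x => by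
      rw [Complex.norm_real, Real.norm_eq_abs, ← him x.2, abs_of_pos (him0 x.2)]
      exact himM x.2)
    refine h.congr (Eventually.of_forall fun x => ?_)
    simp only
    ring
  have claim3 : ∀ t, ∫ z, f (act z (pt d t)) * conj (g z) ∂mu =
      ((1 / P d t : ℝ) : ℂ) * ∫ w, f w * conj (g (act w (binv (pt d t)))) ∂mu := by
    intro t
    set F : ℂ → ℂ := fun w => f w * conj (g (act w (binv (pt d t)))) with hF
    have hFm : Measurable F := hf.mul (hcg.comp (k2_measurable_act measurable_id measurable_const))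
    have hm : Measurable (fun z => act z (pt d t)) :=
      k2_measurable_act measurable_id measurable_const
    calc ∫ z, f (act z (pt d t)) * conj (g z) ∂mu = ∫ z, F (act z (pt d t)) ∂mu := by
          congr 1
          funext z
          simp only [hF]
          rw [k2_act_binv z _ (him0 t)]
      _ = ∫ w, F w ∂(mu.map (fun z => act z (pt d t))) :=
          (integral_map hm.aemeasurable hFm.aestronglyMeasurable).symm
      _ = ((1 / P d t : ℝ) : ℂ) * ∫ w, F w ∂mu := by
          rw [k2_map h0 (him0 t), integral_smul_measure, ENNReal.toReal_ofReal (him0 t).le,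
            Complex.real_smul, him]
  have claim5 : ∀ w, ∫ t, ((1 / P d t : ℝ) : ℂ) *
      (f w * conj (g (act w (binv (pt d t))))) ∂ν = f w * ∫ t, conj (g (act w (pt d t))) ∂ν := by
    intro w
    set G : ℂ → ℂ := fun p => conj (g (act w p)) with hG
    have hGm : Measurable G := hcg.comp (k2_measurable_act measurable_const measurable_id)
    set ρ : ℝ → ℝ≥0∞ := fun t => ENNReal.ofReal (1 / P d t) with hρ
    have hρm : Measurable ρ := (measurable_const.div (k2_measurable_P d)).ennreal_ofReal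
    have hmap : (ν.withDensity ρ).map (fun t => binv (pt d t)) = ν.map (pt d) := by
      ext s hs
      rw [Measure.map_apply hqm hs, Measure.map_apply (k2_measurable_pt d) hs,
        withDensity_apply _ (hqm hs), ← lintegral_indicator (hqm hs),
        ← lintegral_indicator_one ((k2_measurable_pt d) hs)]
      have h := h2 d hd (s.indicator 1) (measurable_one.indicator hs)
      rw [← hν] at h
      have e2 : (fun t => s.indicator (1 : ℂ → ℝ≥0∞) (pt d t)) =
          (pt d ⁻¹' s).indicator (1 : ℝ → ℝ≥0∞) := rfl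
      rw [← e2, ← h]
      congr 1
      funext t
      by_cases ht : binv (pt d t) ∈ s
      · rw [indicator_of_mem (show t ∈ (fun t => binv (pt d t)) ⁻¹' s from ht),
          indicator_of_mem ht]
        simp [hρ]
      · rw [indicator_of_notMem (show t ∉ (fun t => binv (pt d t)) ⁻¹' s from ht),
          indicator_of_notMem ht]
        simp
    have e1 : ∫ t, G (pt d t) ∂ν = ∫ t, ((1 / P d t : ℝ) : ℂ) * G (binv (pt d t)) ∂ν := by
      calc ∫ t, G (pt d t) ∂ν = ∫ p, G p ∂(ν.map (pt d)) :=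
            (integral_map (k2_measurable_pt d).aemeasurable hGm.aestronglyMeasurable).symm
        _ = ∫ t, G (binv (pt d t)) ∂(ν.withDensity ρ) := by
            rw [← hmap, integral_map hqm.aemeasurable hGm.aestronglyMeasurable]
        _ = ∫ t, (ρ t).toReal • G (binv (pt d t)) ∂ν :=
            integral_withDensity_eq_integral_toReal_smul hρm
              (Eventually.of_forall fun t => ENNReal.ofReal_lt_top) _
        _ = _ := by
            congr 1
            funext t
            rw [hρ]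
            simp only
            rw [← him t, ENNReal.toReal_ofReal (him0 t).le, Complex.real_smul]
    calc ∫ t, ((1 / P d t : ℝ) : ℂ) * (f w * conj (g (act w (binv (pt d t))))) ∂ν
        = ∫ t, f w * (((1 / P d t : ℝ) : ℂ) * G (binv (pt d t))) ∂ν := by
          congr 1
          funext t
          simp only [hG]
          ring
      _ = f w * ∫ t, ((1 / P d t : ℝ) : ℂ) * G (binv (pt d t)) ∂ν := integral_const_mul _ _
      _ = f w * ∫ t, G (pt d t) ∂ν := by rw [e1]
  calc ∫ z, avg d f z * conj (g z) ∂mu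
      = ∫ z, c * ∫ t, f (act z (pt d t)) * conj (g z) ∂ν ∂mu := by
        congr 1
        funext z
        unfold avg
        rw [intervalIntegral.integral_of_le hpi, mul_assoc, ← integral_mul_const]
    _ = c * ∫ z, ∫ t, f (act z (pt d t)) * conj (g z) ∂ν ∂mu := integral_const_mul _ _
    _ = c * ∫ t, ∫ z, f (act z (pt d t)) * conj (g z) ∂mu ∂ν := by
        rw [integral_integral_swap int1]
    _ = c * ∫ t, ∫ w, ((1 / P d t : ℝ) : ℂ) *
          (f w * conj (g (act w (binv (pt d t))))) ∂mu ∂ν := by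
        congr 2
        funext t
        rw [claim3 t, integral_const_mul]
    _ = c * ∫ w, ∫ t, ((1 / P d t : ℝ) : ℂ) *
          (f w * conj (g (act w (binv (pt d t))))) ∂ν ∂mu := by
        rw [integral_integral_swap (f := fun w t => ((1 / P d t : ℝ) : ℂ) *
          (f w * conj (g (act w (binv (pt d t))))) ) int3]
    _ = c * ∫ w, f w * ∫ t, conj (g (act w (pt d t))) ∂ν ∂mu := by
        congr 2
        funext w
        exact claim5 w
    _ = ∫ w, f w * conj (avg d g w) ∂mu := by
        rw [← integral_const_mul]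
        congr 1
        funext w
        unfold avg
        rw [intervalIntegral.integral_of_le hpi, map_mul, ← integral_conj, Complex.conj_ofReal]
        ring

/- TARGET -/
theorem k2 (h0 : K0) (h1 : K1) (h2 : K2a) : K2 := by
  intro d hd f g hf hg
  obtain ⟨A, -, hA⟩ := h1 d hd
  have hf' : MemLp (hf.1.mk f) 2 mu := hf.ae_eq hf.1.ae_eq_mk
  have hg' : MemLp (hg.1.mk g) 2 mu := hg.ae_eq hg.1.ae_eq_mk
  have e1 : avg d f =ᵐ[mu] avg d (hf.1.mk f) := by
    have a1 := hA f hf
    have a2 := hA _ hf'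
    have h : hf.toLp f = hf'.toLp _ := (MemLp.toLp_eq_toLp_iff hf hf').2 hf.1.ae_eq_mk
    rw [h] at a1
    exact a1.symm.trans a2
  have e2 : avg d g =ᵐ[mu] avg d (hg.1.mk g) := by
    have a1 := hA g hg
    have a2 := hA _ hg'
    have h : hg.toLp g = hg'.toLp _ := (MemLp.toLp_eq_toLp_iff hg hg').2 hg.1.ae_eq_mk
    rw [h] at a1
    exact a1.symm.trans a2
  have l1 : ∫ z, avg d f z * conj (g z) ∂mu =
      ∫ z, avg d (hf.1.mk f) z * conj (hg.1.mk g z) ∂mu := by
    apply integral_congr_ae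
    filter_upwards [e1, hg.1.ae_eq_mk] with z h1 h2
    rw [h1, h2]
  have l2 : ∫ z, f z * conj (avg d g z) ∂mu =
      ∫ z, hf.1.mk f z * conj (avg d (hg.1.mk g) z) ∂mu := by
    apply integral_congr_ae
    filter_upwards [e2, hf.1.ae_eq_mk] with z h1 h2
    rw [h1, ← h2]
  rw [l1, l2]
  exact k2_core h0 h2 d hd _ _ hf.1.stronglyMeasurable_mk.measurable
    hg.1.stronglyMeasurable_mk.measurable (k2_sq hf') (k2_sq hg')

end Pool.Agent.H267H
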