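import Pool.Agent.Helper267_hyp.Defs2

/-!
# MP_592f63_co: invariance of the arc length under inversion (K2a)
-/

set_option autoImplicit false

open MeasureTheory Filter Topology Set
open scoped ENNReal ComplexConjugate

namespace Pool.Agent.H267H

theorem K2a_P_pos (d t : ℝ) (hd : 0 < d) : 0 < P d t := by
  unfold P
  have h1 : Real.sinh d < Real.cosh d := Real.sinh_lt_cosh d
  have h2 : 0 < Real.sinh d := Real.sinh_pos_iff.2 hd
  have h3 : Real.cos t ≤ 1 := Real.cos_le_one t
  nlinarith

theorem K2a_P_cont (d : ℝ) : Continuous (P d) := by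
  unfold P; fun_prop

theorem K2a_hP (d t : ℝ) : HasDerivAt (P d) (Real.sinh d * Real.sin t) t := by
  have h := ((Real.hasDerivAt_cos t).const_mul (Real.sinh d)).const_sub (Real.cosh d)
  have h' : HasDerivAt (P d) (-(Real.sinh d * -Real.sin t)) t := h
  convert h' using 1
  ring

/-- the angle of the inverted point -/
noncomputable def K2a_th (d t : ℝ) : ℝ := Real.pi + ∫ u in (0:ℝ)..t, 1 / P d u

theorem K2a_hth (d t : ℝ) (hd : 0 < d) : HasDerivAt (K2a_th d) (1 / P d t) t := by
  have hc : Continuous (fun u => 1 / P d u) :=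
    continuous_const.div (K2a_P_cont d) (fun u => (K2a_P_pos d u hd).ne')
  exact ((hc.integral_hasStrictDerivAt 0 t).hasDerivAt).const_add _

noncomputable def K2a_A (d t : ℝ) : ℝ := -(Real.cosh d * Real.cos t - Real.sinh d) / P d t

noncomputable def K2a_B (d t : ℝ) : ℝ := -Real.sin t / P d t

theorem K2a_hA (d t : ℝ) (hd : 0 < d) : HasDerivAt (K2a_A d) (Real.sin t / P d t ^ 2) t := by
  have h1 : HasDerivAt (fun t => -(Real.cosh d * Real.cos t - Real.sinh d))
      (-(Real.cosh d * -Real.sin t)) t :=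
    (((Real.hasDerivAt_cos t).const_mul (Real.cosh d)).sub_const (Real.sinh d)).neg
  have h2 := h1.div (K2a_hP d t) (K2a_P_pos d t hd).ne'
  have h3 : HasDerivAt (K2a_A d) _ t := h2
  convert h3 using 1
  congr 1
  unfold P
  linear_combination (-Real.sin t) * Real.cosh_sq d

theorem K2a_hB (d t : ℝ) (hd : 0 < d) :
    HasDerivAt (K2a_B d) (-(Real.cosh d * Real.cos t - Real.sinh d) / P d t ^ 2) t := by
  have h1 : HasDerivAt (fun t => -Real.sin t) (-Real.cos t) t := (Real.hasDerivAt_sin t).neg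
  have h2 := h1.div (K2a_hP d t) (K2a_P_pos d t hd).ne'
  have h3 : HasDerivAt (K2a_B d) _ t := h2
  convert h3 using 1
  congr 1
  unfold P
  linear_combination (-Real.sinh d) * Real.sin_sq_add_cos_sq t

theorem K2a_AB (d t : ℝ) (hd : 0 < d) : K2a_A d t ^ 2 + K2a_B d t ^ 2 = 1 := by
  have hP := (K2a_P_pos d t hd).ne'
  unfold K2a_A K2a_B
  rw [div_pow, div_pow, ← add_div, div_eq_one_iff_eq (pow_ne_zero 2 hP)]
  unfold P
  have h1 := Real.cosh_sq d
  have h2 := Real.sin_sq_add_cos_sq t
  linear_combination (-(1 - Real.cos t ^ 2)) * h1 + h2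

theorem K2a_trig (d t : ℝ) (hd : 0 < d) :
    Real.cos (K2a_th d t) = K2a_A d t ∧ Real.sin (K2a_th d t) = K2a_B d t := by
  let G : ℝ → ℝ := fun t => K2a_A d t * Real.cos (K2a_th d t) + K2a_B d t * Real.sin (K2a_th d t)
  have hG : ∀ t, HasDerivAt G 0 t := by
    intro t
    have h1 := (K2a_hA d t hd).mul (K2a_hth d t hd).cos
    have h2 := (K2a_hB d t hd).mul (K2a_hth d t hd).sin
    have h3 := h1.add h2
    have h4 : HasDerivAt G _ t := h3
    convert h4 using 1
    unfold K2a_A K2a_B
    have hP := (K2a_P_pos d t hd).ne'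
    field_simp
    ring
  have hconst : G t = G 0 :=
    is_const_of_deriv_eq_zero (fun x => (hG x).differentiableAt) (fun x => (hG x).deriv) t 0
  have hG0 : G 0 = 1 := by
    show K2a_A d 0 * Real.cos (K2a_th d 0) + K2a_B d 0 * Real.sin (K2a_th d 0) = 1
    have h0 : K2a_th d 0 = Real.pi := by simp [K2a_th]
    have hP0 : P d 0 = Real.cosh d - Real.sinh d := by simp [P]
    have hne : Real.cosh d - Real.sinh d ≠ 0 := by
      have := Real.sinh_lt_cosh d
      linarith
    rw [h0, Real.cos_pi, Real.sin_pi, mul_zero, add_zero]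
    unfold K2a_A
    rw [hP0, Real.cos_zero, mul_one]
    field_simp
  have h1 : K2a_A d t * Real.cos (K2a_th d t) + K2a_B d t * Real.sin (K2a_th d t) = 1 :=
    hconst.trans hG0
  have h2 := K2a_AB d t hd
  have h3 := Real.sin_sq_add_cos_sq (K2a_th d t)
  have h4 : (K2a_A d t - Real.cos (K2a_th d t)) ^ 2 + (K2a_B d t - Real.sin (K2a_th d t)) ^ 2 = 0 := by
    nlinarith
  have h5 : (K2a_A d t - Real.cos (K2a_th d t)) ^ 2 = 0 := by
    nlinarith [sq_nonneg (K2a_A d t - Real.cos (K2a_th d t)),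
      sq_nonneg (K2a_B d t - Real.sin (K2a_th d t))]
  have h6 : (K2a_B d t - Real.sin (K2a_th d t)) ^ 2 = 0 := by
    nlinarith [sq_nonneg (K2a_A d t - Real.cos (K2a_th d t)),
      sq_nonneg (K2a_B d t - Real.sin (K2a_th d t))]
  have h7 := pow_eq_zero_iff (two_ne_zero) |>.1 h5
  have h8 := pow_eq_zero_iff (two_ne_zero) |>.1 h6
  exact ⟨by linarith, by linarith⟩

theorem K2a_P_th (d t : ℝ) (hd : 0 < d) : P d (K2a_th d t) = 1 / P d t := by
  have hP := (K2a_P_pos d t hd).ne'
  have h : P d (K2a_th d t) = Real.cosh d - Real.sinh d * Real.cos (K2a_th d t) := rfl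
  rw [h, (K2a_trig d t hd).1]
  unfold K2a_A
  rw [eq_div_iff hP]
  have h1 : (Real.cosh d - Real.sinh d * (-(Real.cosh d * Real.cos t - Real.sinh d) / P d t)) *
      P d t = Real.cosh d * P d t + Real.sinh d * (Real.cosh d * Real.cos t - Real.sinh d) := by
    field_simp
    ring
  rw [h1]
  unfold P
  linear_combination Real.cosh_sq d

theorem K2a_binv (d t : ℝ) (hd : 0 < d) : binv (pt d t) = pt d (K2a_th d t) := by
  have hP := (K2a_P_pos d t hd).ne'
  have h1 := K2a_P_th d t hd
  have h2 := (K2a_trig d t hd).2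
  unfold binv pt
  simp only
  rw [h1, h2]
  unfold K2a_B
  apply Complex.ext
  · show -(-(Real.sinh d * Real.sin t) / P d t) / (1 / P d t) =
      -(Real.sinh d * (-Real.sin t / P d t)) / (1 / P d t)
    congr 1
    ring
  · show 1 / (1 / P d t) = 1 / (1 / P d t)
    rfl

theorem K2a_im (d t : ℝ) (hd : 0 < d) : (binv (pt d t)).im = P d t := by
  rw [K2a_binv d t hd]
  show 1 / P d (K2a_th d t) = P d t
  rw [K2a_P_th d t hd, one_div_one_div]

/-- lower integrals of periodic functions over `n` periods -/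
theorem K2a_per (g : ℝ → ℝ≥0∞) (hg : Function.Periodic g (2 * Real.pi)) (a : ℝ) (n : ℕ) :
    ∫⁻ x in Ioc a (a + n * (2 * Real.pi)), g x = n * ∫⁻ x in Ioc (0:ℝ) (2 * Real.pi), g x := by
  have hpi : 0 < 2 * Real.pi := by positivity
  have one : ∀ b : ℝ, ∫⁻ x in Ioc b (b + 2 * Real.pi), g x = ∫⁻ x in Ioc (0:ℝ) (2 * Real.pi), g x := by
    intro b
    have h1 := isAddFundamentalDomain_Ioc hpi b (volume : Measure ℝ)
    have h2 := isAddFundamentalDomain_Ioc hpi 0 (volume : Measure ℝ)
    rw [zero_add] at h2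
    refine h1.setLIntegral_eq h2 g ?_
    rintro ⟨c, hc⟩ x
    obtain ⟨m, rfl⟩ := AddSubgroup.mem_zmultiples_iff.1 hc
    show g (m • (2 * Real.pi) + x) = g x
    rw [add_comm, hg.zsmul m x]
  induction n with
  | zero => simp
  | succ n ih =>
    have h1 : Ioc a (a + ((n + 1 : ℕ) : ℝ) * (2 * Real.pi)) = Ioc a (a + n * (2 * Real.pi)) ∪
        Ioc (a + n * (2 * Real.pi)) (a + n * (2 * Real.pi) + 2 * Real.pi) := by
      rw [Ioc_union_Ioc_eq_Ioc]
      · congr 1
        push_cast
        ring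
      · have : 0 ≤ (n : ℝ) * (2 * Real.pi) := by positivity
        linarith
      · linarith
    rw [h1, lintegral_union measurableSet_Ioc (Set.Ioc_disjoint_Ioc_of_le le_rfl), ih, one]
    push_cast
    ring

theorem K2a_pt_periodic (d : ℝ) : Function.Periodic (pt d) (2 * Real.pi) := by
  intro t
  unfold pt P
  rw [Real.sin_add_two_pi, Real.cos_add_two_pi]

/- TARGET -/
theorem k2a : K2a := by
  intro d hd F hF
  have hpi : 0 < 2 * Real.pi := by positivity
  -- the number of periods
  have hcos : Real.cos (∫ u in (0:ℝ)..(2 * Real.pi), 1 / P d u) = 1 := by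
    have h1 := (K2a_trig d (2 * Real.pi) hd).1
    unfold K2a_th at h1
    rw [Real.cos_add, Real.cos_pi, Real.sin_pi] at h1
    have h2 : K2a_A d (2 * Real.pi) = -1 := by
      unfold K2a_A P
      rw [Real.cos_two_pi, mul_one, mul_one]
      have hne : Real.cosh d - Real.sinh d ≠ 0 := by
        have := Real.sinh_lt_cosh d
        linarith
      field_simp
    rw [h2] at h1
    linarith
  obtain ⟨m, hm⟩ := (Real.cos_eq_one_iff _).1 hcos
  have hc : Continuous (fun u => 1 / P d u) :=
    continuous_const.div (K2a_P_cont d) (fun u => (K2a_P_pos d u hd).ne')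
  have hIpos : 0 < ∫ u in (0:ℝ)..(2 * Real.pi), 1 / P d u :=
    intervalIntegral.intervalIntegral_pos_of_pos_on (hc.intervalIntegrable _ _)
      (fun x _ => one_div_pos.2 (K2a_P_pos d x hd)) hpi
  have hm0 : 0 < m := by
    rw [← hm] at hIpos
    have h1 : (0 : ℝ) < m := by
      by_contra hcon
      push Not at hcon
      have := mul_nonpos_of_nonpos_of_nonneg hcon hpi.le
      linarith
    exact_mod_cast h1
  obtain ⟨n, rfl⟩ := Int.eq_ofNat_of_zero_le hm0.le
  have hn : ∫ u in (0:ℝ)..(2 * Real.pi), 1 / P d u = n * (2 * Real.pi) := by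
    rw [← hm]; simp
  have hth0 : K2a_th d 0 = Real.pi := by simp [K2a_th]
  have hth1 : K2a_th d (2 * Real.pi) = Real.pi + n * (2 * Real.pi) := by
    unfold K2a_th
    rw [hn]
  have hmono : StrictMono (K2a_th d) := by
    apply strictMono_of_deriv_pos
    intro x
    rw [(K2a_hth d x hd).deriv]
    exact one_div_pos.2 (K2a_P_pos d x hd)
  have hthc : Continuous (K2a_th d) :=
    continuous_iff_continuousAt.2 fun x => (K2a_hth d x hd).continuousAt
  have himg : K2a_th d '' Ioc 0 (2 * Real.pi) = Ioc Real.pi (Real.pi + n * (2 * Real.pi)) := by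
    apply Set.Subset.antisymm
    · rintro _ ⟨x, hx, rfl⟩
      refine ⟨?_, ?_⟩
      · calc Real.pi = K2a_th d 0 := hth0.symm
          _ < K2a_th d x := hmono hx.1
      · calc K2a_th d x ≤ K2a_th d (2 * Real.pi) := hmono.monotone hx.2
          _ = _ := hth1
    · intro y hy
      apply intermediate_value_Ioc hpi.le (f := K2a_th d) hthc.continuousOn
      exact ⟨lt_of_le_of_lt hth0.le hy.1, hy.2.trans hth1.ge⟩
  -- the substitution
  have key : ∀ F : ℂ → ℝ≥0∞,
      ∫⁻ t in Ioc (0:ℝ) (2 * Real.pi), ENNReal.ofReal (1 / P d t) * F (binv (pt d t)) =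
        n * ∫⁻ t in Ioc (0:ℝ) (2 * Real.pi), F (pt d t) := by
    intro F
    have h1 := lintegral_image_eq_lintegral_abs_deriv_mul (s := Ioc 0 (2 * Real.pi))
      (f := K2a_th d) (f' := fun t => 1 / P d t) measurableSet_Ioc
      (fun x _ => (K2a_hth d x hd).hasDerivWithinAt) (hmono.injective.injOn)
      (fun x => F (pt d x))
    rw [himg, K2a_per (fun x => F (pt d x)) (fun x => by
      show F (pt d (x + 2 * Real.pi)) = F (pt d x)
      rw [K2a_pt_periodic d x]) Real.pi n] at h1
    rw [h1]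
    refine lintegral_congr fun t => ?_
    rw [K2a_binv d t hd, abs_of_pos (one_div_pos.2 (K2a_P_pos d t hd))]
  -- n = 1
  have hn1 : n = 1 := by
    have h1 := key (fun z => ENNReal.ofReal z.im)
    have h2 : ∫⁻ t in Ioc (0:ℝ) (2 * Real.pi),
        ENNReal.ofReal (1 / P d t) * ENNReal.ofReal (binv (pt d t)).im =
        ENNReal.ofReal (2 * Real.pi) := by
      have h3 : ∀ t : ℝ, ENNReal.ofReal (1 / P d t) * ENNReal.ofReal (binv (pt d t)).im = 1 := by
        intro t
        have hP := K2a_P_pos d t hd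
        rw [K2a_im d t hd, ← ENNReal.ofReal_mul (one_div_pos.2 hP).le, one_div_mul_cancel hP.ne',
          ENNReal.ofReal_one]
      simp only [h3]
      rw [setLIntegral_one, Real.volume_Ioc, sub_zero]
    have h4 : ∫⁻ t in Ioc (0:ℝ) (2 * Real.pi), ENNReal.ofReal (pt d t).im =
        ENNReal.ofReal (n * (2 * Real.pi)) := by
      have h5 : ∀ t : ℝ, (pt d t).im = 1 / P d t := fun t => rfl
      simp only [h5]
      rw [← hn, intervalIntegral.integral_of_le hpi.le, ofReal_integral_eq_lintegral_ofReal]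
      · exact (hc.intervalIntegrable 0 (2 * Real.pi)).1
      · exact Filter.Eventually.of_forall fun t => (one_div_pos.2 (K2a_P_pos d t hd)).le
    rw [h2, h4] at h1
    have h6 : (n : ℝ≥0∞) = ENNReal.ofReal n := by simp
    rw [h6, ← ENNReal.ofReal_mul (by positivity),
      ENNReal.ofReal_eq_ofReal_iff hpi.le (by positivity)] at h1
    have h7 : (n : ℝ) * n = 1 := by
      have h8 : ((n : ℝ) * n - 1) * (2 * Real.pi) = 0 := by linarith
      rcases mul_eq_zero.1 h8 with h | h
      · linarith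
      · exact absurd h hpi.ne'
    have h9 : n * n = 1 := by exact_mod_cast h7
    exact Nat.eq_one_of_mul_eq_one_right h9
  have := key F
  rw [hn1] at this
  simpa using this

end Pool.Agent.H267H
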