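import Pool.Agent.Helper267_hyp.Defs2

set_option autoImplicit false

open MeasureTheory Filter Topology Set
open scoped ENNReal ComplexConjugate

namespace Pool.Agent.H267H

theorem K3_P_pos {d : ℝ} (hd : 0 < d) (t : ℝ) : 0 < P d t := by
  unfold P
  have h1 : Real.sinh d < Real.cosh d := Real.sinh_lt_cosh d
  have h2 : 0 < Real.sinh d := Real.sinh_pos_iff.2 hd
  nlinarith [Real.cos_le_one t]

theorem K3_XX {d : ℝ} (hd : 0 < d) (t x y : ℝ) (hy : 0 < y) :
    XX ⟨x + y * (pt d t).re, y * (pt d t).im⟩ = XX ⟨x, y⟩ * Real.cosh d -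
      Real.sinh d * ((x ^ 2 + 1 - y ^ 2) / (2 * y) * Real.cos t + x * Real.sin t) := by
  have hP := K3_P_pos hd t
  have h1 := Real.sin_sq_add_cos_sq t
  have h2 := Real.cosh_sq d
  have hp : P d t = Real.cosh d - Real.sinh d * Real.cos t := rfl
  have hrel : (Real.sinh d * Real.sin t) ^ 2 + 1 =
      P d t * (Real.cosh d + Real.sinh d * Real.cos t) := by
    rw [hp]
    linear_combination Real.sinh d ^ 2 * h1 - h2
  unfold XX pt
  simp only
  generalize P d t = p at *
  have hp0 : p ≠ 0 := hP.ne'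
  have hy0 : y ≠ 0 := hy.ne'
  have e1 : ((x + y * (-(Real.sinh d * Real.sin t) / p)) ^ 2 + (y * (1 / p)) ^ 2 + 1) /
      (2 * (y * (1 / p))) = ((x * p - y * (Real.sinh d * Real.sin t)) ^ 2 + y ^ 2 + p ^ 2) /
        (2 * y * p) := by
    field_simp
    ring
  have e2 : (x ^ 2 + y ^ 2 + 1) / (2 * y) * Real.cosh d -
      Real.sinh d * ((x ^ 2 + 1 - y ^ 2) / (2 * y) * Real.cos t + x * Real.sin t) =
      (p * ((x ^ 2 + y ^ 2 + 1) * Real.cosh d - (x ^ 2 + 1 - y ^ 2) * (Real.sinh d * Real.cos t)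
        - 2 * x * y * (Real.sinh d * Real.sin t))) / (2 * y * p) := by
    field_simp
    ring
  rw [e1, e2]
  congr 1
  have e3 : Real.cosh d = p + Real.sinh d * Real.cos t := by linarith
  rw [e3] at hrel ⊢
  linear_combination y ^ 2 * hrel

theorem K3_polar (α x : ℝ) : ∃ t₀ : ℝ, α = √(α ^ 2 + x ^ 2) * Real.cos t₀ ∧
    x = √(α ^ 2 + x ^ 2) * Real.sin t₀ := by
  have h : ‖(⟨α, x⟩ : ℂ)‖ = √(α ^ 2 + x ^ 2) := by
    rw [Complex.norm_def, Complex.normSq_mk]
    congr 1
    ring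
  refine ⟨Complex.arg ⟨α, x⟩, ?_, ?_⟩
  · rw [← h]
    exact (Complex.norm_mul_cos_arg ⟨α, x⟩).symm
  · rw [← h]
    exact (Complex.norm_mul_sin_arg ⟨α, x⟩).symm

theorem K3_per (k : ℝ → ℂ) (A B t₀ : ℝ) :
    ∫ t in (0:ℝ)..(2 * Real.pi), k (A - B * Real.cos (t - t₀)) =
      ∫ t in (0:ℝ)..(2 * Real.pi), k (A - B * Real.cos t) := by
  have hper : Function.Periodic (fun t : ℝ => k (A - B * Real.cos t)) (2 * Real.pi) := by
    intro t
    simp only [Real.cos_add_two_pi]
  have h1 := intervalIntegral.integral_comp_sub_right (a := 0) (b := 2 * Real.pi)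
    (fun t : ℝ => k (A - B * Real.cos t)) t₀
  rw [h1]
  have h2 := hper.intervalIntegral_add_eq (0 - t₀) 0
  rw [zero_add] at h2
  rw [← h2]
  congr 1
  ring

/- TARGET -/
theorem k3 : K3 := by
  intro d k b z hd hb hz
  set x := (z.re - b.re) / b.im with hx
  set y := z.im / b.im with hy
  have hy0 : 0 < y := div_pos hz hb
  have hb0 : b.im ≠ 0 := hb.ne'
  set X := XX ⟨x, y⟩ with hX
  set α := (x ^ 2 + 1 - y ^ 2) / (2 * y) with hα
  have hXα : X ^ 2 - 1 = α ^ 2 + x ^ 2 := by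
    rw [hX, hα]
    unfold XX
    simp only
    field_simp
    ring
  have hXB : XB b z = X := rfl
  have hpt : ∀ t, XB b (act z (pt d t)) =
      X * Real.cosh d - Real.sinh d * (α * Real.cos t + x * Real.sin t) := by
    intro t
    rw [hX, hα, ← K3_XX hd t x y hy0]
    unfold XB act
    simp only
    congr 2
    · rw [hx, hy]
      field_simp
      ring
    · rw [hy]
      field_simp
  obtain ⟨t₀, h1, h2⟩ := K3_polar α x
  rw [← hXα] at h1 h2
  unfold avg MM
  rw [hXB]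
  congr 1
  rw [← K3_per k (X * Real.cosh d) (√(X ^ 2 - 1) * Real.sinh d) t₀]
  refine intervalIntegral.integral_congr fun t _ => ?_
  simp only
  rw [hpt]
  congr 1
  rw [Real.cos_sub]
  linear_combination (-Real.sinh d * Real.cos t) * h1 + (-Real.sinh d * Real.sin t) * h2

end Pool.Agent.H267H
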