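import Pool.Agent.Helper267_hyp.Defs2

/-!
# MP_592f63_co, K4: integrals of radial functions
-/

set_option autoImplicit false

open MeasureTheory Filter Topology Set
open scoped ENNReal ComplexConjugate

namespace Pool.Agent.H267H

namespace K4aux

/-- one-dimensional change of variables -/
theorem cov (s t : Set ℝ) (f f' : ℝ → ℝ) (hs : MeasurableSet s)
    (hf' : ∀ x ∈ s, HasDerivAt f (f' x) x) (hinj : InjOn f s) (him : f '' s = t)
    (hpos : ∀ x ∈ s, 0 ≤ f' x) (g : ℝ → ℝ≥0∞) :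
    ∫⁻ x in t, g x = ∫⁻ x in s, ENNReal.ofReal (f' x) * g (f x) := by
  rw [← him, lintegral_image_eq_lintegral_abs_deriv_mul hs (fun x hx => (hf' x hx).hasDerivWithinAt)
    hinj g]
  refine setLIntegral_congr_fun hs fun x hx => ?_
  rw [abs_of_nonneg (hpos x hx)]

/-- inversion -/
theorem inv_sub (G : ℝ → ℝ≥0∞) :
    ∫⁻ u in Ioi (0:ℝ), G u = ∫⁻ u in Ioi (0:ℝ), ENNReal.ofReal (1 / u ^ 2) * G u⁻¹ := by
  have him : (fun u : ℝ => u⁻¹) '' Ioi 0 = Ioi 0 := by
    ext x
    constructor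
    · rintro ⟨u, hu, rfl⟩
      have hu' : (0:ℝ) < u := hu
      show (0:ℝ) < u⁻¹
      exact inv_pos.2 hu'
    · intro hx
      have hx' : (0:ℝ) < x := hx
      have hx2 : (0:ℝ) < x⁻¹ := inv_pos.2 hx'
      exact ⟨x⁻¹, hx2, inv_inv x⟩
  rw [← him, lintegral_image_eq_lintegral_abs_deriv_mul (f' := fun u => -(u ^ 2)⁻¹) measurableSet_Ioi
    (fun x hx => (hasDerivAt_inv (ne_of_gt hx)).hasDerivWithinAt) (fun x _ y _ h => inv_injective h) G, him]
  refine setLIntegral_congr_fun measurableSet_Ioi fun x hx => ?_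
  rw [abs_neg, abs_of_nonneg (by positivity), one_div]

/-- `σ = u - 1/u` -/
theorem sig_sub (G : ℝ → ℝ≥0∞) :
    ∫⁻ σ, G σ = ∫⁻ u in Ioi (0:ℝ), ENNReal.ofReal (1 + 1 / u ^ 2) * G (u - u⁻¹) := by
  have him : (fun u : ℝ => u - u⁻¹) '' Ioi 0 = univ := by
    rw [eq_univ_iff_forall]
    intro x
    have h4 : 0 < √(x ^ 2 + 4) := Real.sqrt_pos.2 (by positivity)
    have h5 : √(x ^ 2 + 4) ^ 2 = x ^ 2 + 4 := Real.sq_sqrt (by positivity)
    have h6 : |x| < √(x ^ 2 + 4) := by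
      apply Real.lt_sqrt_of_sq_lt
      rw [sq_abs]; linarith
    have hu : 0 < (x + √(x ^ 2 + 4)) / 2 := by
      have := neg_abs_le x
      linarith
    refine ⟨(x + √(x ^ 2 + 4)) / 2, hu, ?_⟩
    simp only
    have hne : (x + √(x ^ 2 + 4)) ≠ 0 := by
      intro h; rw [h] at hu; simp at hu
    field_simp
    nlinarith
  have hinj : InjOn (fun u : ℝ => u - u⁻¹) (Ioi 0) := by
    intro a ha b hb h
    simp only at h
    have ha' : (0:ℝ) < a := ha
    have hb' : (0:ℝ) < b := hb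
    have h1 : (a - b) * (1 + 1 / (a * b)) = 0 := by
      have : (a - b) * (1 + 1 / (a * b)) = (a - a⁻¹) - (b - b⁻¹) := by
        field_simp
        ring
      rw [this, h]; ring
    have h2 : 0 < 1 + 1 / (a * b) := by positivity
    rcases mul_eq_zero.1 h1 with h3 | h3
    · linarith
    · exact absurd h3 h2.ne'
  have := cov (Ioi 0) univ (fun u => u - u⁻¹) (fun u => 1 + 1 / u ^ 2) measurableSet_Ioi
    (fun x hx => by
      have h := (hasDerivAt_id x).sub (hasDerivAt_inv (ne_of_gt hx))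
      have e : (1 : ℝ) - -(x ^ 2)⁻¹ = 1 + 1 / x ^ 2 := by rw [one_div]; ring
      rw [← e]
      exact h) hinj him (fun x _ => by positivity) G
  rw [Measure.restrict_univ] at this
  exact this

/-- `y = c u²` -/
theorem sq_sub (c : ℝ) (hc : 0 < c) (G : ℝ → ℝ≥0∞) :
    ∫⁻ y in Ioi (0:ℝ), G y = ∫⁻ u in Ioi (0:ℝ), ENNReal.ofReal (2 * c * u) * G (c * u ^ 2) := by
  refine cov (Ioi 0) (Ioi 0) (fun u => c * u ^ 2) (fun u => 2 * c * u) measurableSet_Ioi
    (fun x _ => ?_) ?_ ?_ (fun x hx => ?_) G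
  · have := (hasDerivAt_pow 2 x).const_mul c
    have e : c * (((2 : ℕ) : ℝ) * x ^ (2 - 1)) = 2 * c * x := by norm_num; ring
    rw [← e]
    exact this
  · intro a ha b hb h
    have ha' : (0:ℝ) < a := ha
    have hb' : (0:ℝ) < b := hb
    have h1 : a ^ 2 = b ^ 2 := mul_left_cancel₀ hc.ne' h
    exact (pow_left_inj₀ ha'.le hb'.le two_ne_zero).1 h1
  · ext x
    constructor
    · rintro ⟨u, hu, rfl⟩
      have : (0:ℝ) < u := hu
      show 0 < c * u ^ 2
      positivity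
    · intro hx
      have hx' : (0:ℝ) < x := hx
      refine ⟨√(x / c), Real.sqrt_pos.2 (by positivity), ?_⟩
      simp only
      rw [Real.sq_sqrt (by positivity)]
      field_simp
  · have : (0:ℝ) < x := hx
    positivity

/-- `x = a + c w` -/
theorem lin_sub (a c : ℝ) (hc : 0 < c) (G : ℝ → ℝ≥0∞) :
    ∫⁻ x, G x = ∫⁻ w, ENNReal.ofReal c * G (a + c * w) := by
  have := cov univ univ (fun w => a + c * w) (fun _ => c) MeasurableSet.univ
    (fun x _ => by
      have h := ((hasDerivAt_id x).const_mul c).const_add a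
      rw [mul_one] at h
      exact h) (fun x _ y _ h => by
      have h1 : c * x = c * y := by simpa using h
      exact mul_left_cancel₀ hc.ne' h1)
    (by
      rw [eq_univ_iff_forall]
      intro x
      refine ⟨(x - a) / c, mem_univ _, ?_⟩
      simp only
      field_simp
      ring) (fun _ _ => hc.le) G
  rw [Measure.restrict_univ] at this
  exact this

/-- `X = 1 + r²/2` -/
theorem rad_sub (F : ℝ → ℝ≥0∞) :
    ∫⁻ X in Ioi (1:ℝ), F X = ∫⁻ r in Ioi (0:ℝ), ENNReal.ofReal r * F (1 + r ^ 2 / 2) := by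
  refine cov (Ioi 0) (Ioi 1) (fun r => 1 + r ^ 2 / 2) (fun r => r) measurableSet_Ioi
    (fun x _ => ?_) ?_ ?_ (fun x hx => le_of_lt hx) F
  · have := ((hasDerivAt_pow 2 x).div_const 2).const_add 1
    have e : (((2 : ℕ) : ℝ) * x ^ (2 - 1)) / 2 = x := by norm_num
    rw [e] at this
    exact this
  · intro a ha b hb h
    have ha' : (0:ℝ) < a := ha
    have hb' : (0:ℝ) < b := hb
    simp only at h
    have h1 : a ^ 2 = b ^ 2 := by linarith
    exact (pow_left_inj₀ ha'.le hb'.le two_ne_zero).1 h1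
  · ext x
    constructor
    · rintro ⟨u, hu, rfl⟩
      have : (0:ℝ) < u := hu
      show 1 < 1 + u ^ 2 / 2
      have : 0 < u ^ 2 / 2 := by positivity
      linarith
    · intro hx
      have hx' : (1:ℝ) < x := hx
      refine ⟨√(2 * (x - 1)), Real.sqrt_pos.2 (by linarith), ?_⟩
      simp only
      rw [Real.sq_sqrt (by linarith)]
      ring

/-- the plane part -/
noncomputable def Psi (F : ℝ → ℝ≥0∞) (σ : ℝ) : ℝ≥0∞ := ∫⁻ w : ℝ, F (1 + (σ ^ 2 + w ^ 2) / 2)

theorem Psi_meas (F : ℝ → ℝ≥0∞) (hF : Measurable F) : Measurable (Psi F) := by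
  unfold Psi
  exact Measurable.lintegral_prod_right' (f := fun p : ℝ × ℝ => F (1 + (p.1 ^ 2 + p.2 ^ 2) / 2))
    (hF.comp (by fun_prop))

theorem plane (F : ℝ → ℝ≥0∞) (hF : Measurable F) :
    ∫⁻ σ, Psi F σ = ENNReal.ofReal (2 * Real.pi) * ∫⁻ X in Ioi (1:ℝ), F X := by
  have hm : Measurable (fun p : ℝ × ℝ => F (1 + (p.1 ^ 2 + p.2 ^ 2) / 2)) := hF.comp (by fun_prop)
  have h1 : ∫⁻ σ, Psi F σ = ∫⁻ p : ℝ × ℝ, F (1 + (p.1 ^ 2 + p.2 ^ 2) / 2) := by
    rw [Measure.volume_eq_prod, lintegral_prod _ hm.aemeasurable]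
    rfl
  rw [h1, ← lintegral_comp_polarCoord_symm, rad_sub]
  have h2 : ∀ p : ℝ × ℝ, ENNReal.ofReal p.1 • F (1 + ((polarCoord.symm p).1 ^ 2 +
      (polarCoord.symm p).2 ^ 2) / 2) = ENNReal.ofReal p.1 * F (1 + p.1 ^ 2 / 2) := by
    intro p
    rw [polarCoord_symm_apply, smul_eq_mul]
    congr 3
    simp only
    have := Real.cos_sq_add_sin_sq p.2
    have e : (p.1 * Real.cos p.2) ^ 2 + (p.1 * Real.sin p.2) ^ 2 =
        p.1 ^ 2 * (Real.cos p.2 ^ 2 + Real.sin p.2 ^ 2) := by ring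
    rw [e, this, mul_one]
  simp only [h2]
  rw [polarCoord_target, Measure.volume_eq_prod, ← Measure.prod_restrict]
  have hm2 : Measurable (fun p : ℝ × ℝ => ENNReal.ofReal p.1 * F (1 + p.1 ^ 2 / 2)) :=
    (ENNReal.measurable_ofReal.comp measurable_fst).mul (hF.comp (by fun_prop))
  rw [lintegral_prod _ hm2.aemeasurable]
  simp only
  simp only [lintegral_const, Measure.restrict_apply_univ, Real.volume_Ioo]
  have hm4 : Measurable (fun x : ℝ => ENNReal.ofReal x * F (1 + x ^ 2 / 2)) :=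
    (ENNReal.measurable_ofReal).mul (hF.comp (by fun_prop))
  rw [lintegral_mul_const _ hm4, mul_comm]
  congr 2
  ring

theorem half (F : ℝ → ℝ≥0∞) (hF : Measurable F) :
    ∫⁻ u in Ioi (0:ℝ), ENNReal.ofReal (2 / u ^ 2) * Psi F (u - u⁻¹) = ∫⁻ σ, Psi F σ := by
  have hP : Measurable (Psi F) := Psi_meas F hF
  have hev : ∀ σ, Psi F (-σ) = Psi F σ := by
    intro σ
    unfold Psi
    simp only [neg_sq]
  have hmu : Measurable (fun u : ℝ => Psi F (u - u⁻¹)) :=
    hP.comp (measurable_id.sub measurable_inv)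
  have h1 := inv_sub (fun u => Psi F (u - u⁻¹))
  have h2 : ∫⁻ u in Ioi (0:ℝ), ENNReal.ofReal (1 / u ^ 2) * Psi F (u⁻¹ - (u⁻¹)⁻¹) =
      ∫⁻ u in Ioi (0:ℝ), ENNReal.ofReal (1 / u ^ 2) * Psi F (u - u⁻¹) := by
    refine setLIntegral_congr_fun measurableSet_Ioi fun u _ => ?_
    rw [inv_inv, ← hev (u - u⁻¹), neg_sub]
  rw [h2] at h1
  rw [sig_sub]
  have hmo : Measurable (fun u : ℝ => ENNReal.ofReal (1 / u ^ 2) * Psi F (u - u⁻¹)) :=
    (ENNReal.measurable_ofReal.comp (by fun_prop)).mul hmu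
  calc ∫⁻ u in Ioi (0:ℝ), ENNReal.ofReal (2 / u ^ 2) * Psi F (u - u⁻¹)
      = ∫⁻ u in Ioi (0:ℝ), (ENNReal.ofReal (1 / u ^ 2) * Psi F (u - u⁻¹) +
          ENNReal.ofReal (1 / u ^ 2) * Psi F (u - u⁻¹)) := by
        refine setLIntegral_congr_fun measurableSet_Ioi fun u _ => ?_
        rw [← add_mul, ← ENNReal.ofReal_add (by positivity) (by positivity)]
        congr 2
        ring
    _ = (∫⁻ u in Ioi (0:ℝ), ENNReal.ofReal (1 / u ^ 2) * Psi F (u - u⁻¹)) +
          ∫⁻ u in Ioi (0:ℝ), ENNReal.ofReal (1 / u ^ 2) * Psi F (u - u⁻¹) :=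
        lintegral_add_left hmo _
    _ = (∫⁻ u in Ioi (0:ℝ), ENNReal.ofReal (1 / u ^ 2) * Psi F (u - u⁻¹)) +
          ∫⁻ u in Ioi (0:ℝ), Psi F (u - u⁻¹) := by rw [← h1]
    _ = ∫⁻ u in Ioi (0:ℝ), (ENNReal.ofReal (1 / u ^ 2) * Psi F (u - u⁻¹) +
          Psi F (u - u⁻¹)) := (lintegral_add_left hmo _).symm
    _ = _ := by
        refine setLIntegral_congr_fun measurableSet_Ioi fun u _ => ?_
        rw [ENNReal.ofReal_add zero_le_one (by positivity), ENNReal.ofReal_one, add_mul, one_mul,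
          add_comm]

theorem mu_lintegral (G : ℂ → ℝ≥0∞) (hG : Measurable G) :
    ∫⁻ z, G z ∂mu = ∫⁻ y in Ioi (0:ℝ), ∫⁻ x : ℝ, ENNReal.ofReal (1 / y ^ 2) * G ⟨x, y⟩ := by
  have hset : MeasurableSet {z : ℂ | 0 < z.im} := measurableSet_lt measurable_const Complex.measurable_im
  have hw : Measurable (fun z : ℂ => ENNReal.ofReal (1 / z.im ^ 2)) := by fun_prop
  unfold mu
  rw [lintegral_withDensity_eq_lintegral_mul _ hw hG, ← lintegral_indicator hset]
  have hH : Measurable ({z : ℂ | 0 < z.im}.indicator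
      ((fun z : ℂ => ENNReal.ofReal (1 / z.im ^ 2)) * G)) := (hw.mul hG).indicator hset
  rw [← (Complex.volume_preserving_equiv_real_prod.symm).lintegral_comp hH, Measure.volume_eq_prod,
    lintegral_prod_symm' (fun p : ℝ × ℝ => {z : ℂ | 0 < z.im}.indicator
      ((fun z : ℂ => ENNReal.ofReal (1 / z.im ^ 2)) * G) (Complex.measurableEquivRealProd.symm p))
      (hH.comp Complex.measurableEquivRealProd.symm.measurable),
    ← lintegral_indicator measurableSet_Ioi]
  refine lintegral_congr fun y => ?_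
  by_cases hy : y ∈ Ioi (0:ℝ)
  · rw [indicator_of_mem hy]
    refine lintegral_congr fun x => ?_
    rw [Complex.measurableEquivRealProd_symm_apply, indicator_of_mem]
    · rfl
    · exact hy
  · rw [indicator_of_notMem hy]
    have : ∀ x : ℝ, ({z : ℂ | 0 < z.im}.indicator
        ((fun z : ℂ => ENNReal.ofReal (1 / z.im ^ 2)) * G))
        (Complex.measurableEquivRealProd.symm (x, y)) = 0 := by
      intro x
      rw [Complex.measurableEquivRealProd_symm_apply, indicator_of_notMem]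
      exact hy
    simp only [this, lintegral_zero]

end K4aux

open K4aux

/- TARGET -/
theorem k4 : K4 := by
  intro b hb F hF
  have hXB : Measurable (XB b) := by
    unfold XB XX
    fun_prop
  rw [mu_lintegral (fun z => F (XB b z)) (hF.comp hXB), sq_sub b.im hb, ← plane F hF, ← half F hF]
  refine setLIntegral_congr_fun measurableSet_Ioi fun u hu => ?_
  have hu' : (0:ℝ) < u := hu
  have hne : u ≠ 0 := hu'.ne'
  have hbne : b.im ≠ 0 := hb.ne'
  have hmeas : Measurable (fun x : ℝ => F (XB b ⟨x, b.im * u ^ 2⟩)) := by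
    refine hF.comp (hXB.comp ?_)
    have : (fun x : ℝ => (⟨x, b.im * u ^ 2⟩ : ℂ)) = fun x : ℝ =>
        Complex.measurableEquivRealProd.symm (x, b.im * u ^ 2) := by
      funext x
      rw [Complex.measurableEquivRealProd_symm_apply]
    rw [this]
    exact Complex.measurableEquivRealProd.symm.measurable.comp (by fun_prop)
  rw [lintegral_const_mul _ hmeas, lin_sub b.re (b.im * u) (by positivity)]
  have hval : ∀ w : ℝ, XB b ⟨b.re + b.im * u * w, b.im * u ^ 2⟩ =
      1 + ((u - u⁻¹) ^ 2 + w ^ 2) / 2 := by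
    intro w
    unfold XB XX
    simp only
    field_simp
    ring
  simp only [hval]
  have hm3 : Measurable (fun w : ℝ => F (1 + ((u - u⁻¹) ^ 2 + w ^ 2) / 2)) := hF.comp (by fun_prop)
  rw [lintegral_const_mul _ hm3, ← mul_assoc, ← mul_assoc, ← ENNReal.ofReal_mul (by positivity),
    ← ENNReal.ofReal_mul (by positivity)]
  unfold Psi
  congr 2
  field_simp

end Pool.Agent.H267H
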