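import Pool.Agent.Helper267_hyp.Defs2

set_option autoImplicit false

open MeasureTheory Filter Topology Set
open scoped ENNReal ComplexConjugate

namespace Pool.Agent.H267H

lemma K5_P_pos (r t : ℝ) : 0 < P r t := by
  unfold P
  have h1 : |Real.sinh r| < Real.cosh r := by
    rw [abs_lt]
    constructor
    · have h := Real.exp_pos r
      have h' := Real.cosh_add_sinh r
      linarith
    · exact Real.sinh_lt_cosh r
  have h2 : Real.sinh r * Real.cos t ≤ |Real.sinh r| := by
    calc Real.sinh r * Real.cos t ≤ |Real.sinh r * Real.cos t| := le_abs_self _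
      _ = |Real.sinh r| * |Real.cos t| := abs_mul _ _
      _ ≤ |Real.sinh r| * 1 :=
        mul_le_mul_of_nonneg_left (Real.abs_cos_le_one t) (abs_nonneg _)
      _ = |Real.sinh r| := mul_one _
  linarith

lemma K5_P_cont (d : ℝ) : Continuous (fun t => P d t) := by
  unfold P
  fun_prop

/-- the shift -/
noncomputable def K5_c (d s t : ℝ) : ℝ := -(Real.exp (s / 2) * (Real.sinh d * Real.sin t)) / P d t

/-- the integrand -/
noncomputable def K5_f (d s : ℝ) (k : ℝ → ℂ) (t w : ℝ) : ℂ :=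
  k (Real.cosh (s - Real.log (P d t)) + P d t * (w + K5_c d s t) ^ 2 / 2)

lemma K5_c_cont (d s : ℝ) : Continuous (fun t => K5_c d s t) := by
  unfold K5_c
  refine Continuous.div ?_ (K5_P_cont d) (fun t => (K5_P_pos d t).ne')
  fun_prop

lemma K5_f_cont (d s : ℝ) (k : ℝ → ℂ) (hk : Continuous k) :
    Continuous (Function.uncurry (K5_f d s k)) := by
  have hP : Continuous (fun q : ℝ × ℝ => P d q.1) := (K5_P_cont d).comp continuous_fst
  have hl : Continuous (fun q : ℝ × ℝ => Real.log (P d q.1)) :=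
    hP.log (fun q => (K5_P_pos d q.1).ne')
  have hc : Continuous (fun q : ℝ × ℝ => K5_c d s q.1) := (K5_c_cont d s).comp continuous_fst
  show Continuous (fun q : ℝ × ℝ => k (Real.cosh (s - Real.log (P d q.1)) +
    P d q.1 * (q.2 + K5_c d s q.1) ^ 2 / 2))
  refine hk.comp ?_
  refine (Real.continuous_cosh.comp (continuous_const.sub hl)).add ?_
  exact (hP.mul ((continuous_snd.add hc).pow 2)).div_const 2

lemma K5_bound (k : ℝ → ℂ) (hk : HasCompactSupport k) :
    ∃ R : ℝ, 0 ≤ R ∧ ∀ x, R < |x| → k x = 0 := by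
  obtain ⟨R, hR⟩ := hk.isCompact.isBounded.subset_closedBall (0 : ℝ)
  refine ⟨max R 0, le_max_right _ _, fun x hx => ?_⟩
  apply image_eq_zero_of_notMem_tsupport
  intro hmem
  have := hR hmem
  rw [Metric.mem_closedBall, dist_zero_right, Real.norm_eq_abs] at this
  exact absurd (lt_of_le_of_lt (le_max_left R 0) hx) (not_lt.2 this)

lemma K5_int (d s : ℝ) (k : ℝ → ℂ) (hk : Continuous k) (hs : HasCompactSupport k) :
    Integrable (Function.uncurry (K5_f d s k))
      ((volume.restrict (uIoc (0:ℝ) (2 * Real.pi))).prod (volume : Measure ℝ)) := by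
  obtain ⟨R, hR0, hR⟩ := K5_bound k hs
  have hpi := Real.pi_pos
  obtain ⟨C1, hC1⟩ := (isCompact_Icc (a := (0:ℝ)) (b := 2 * Real.pi)).exists_bound_of_continuousOn
    (f := fun t => 1 / P d t)
    (continuous_const.div (K5_P_cont d) (fun t => (K5_P_pos d t).ne')).continuousOn
  obtain ⟨C2, hC2⟩ := (isCompact_Icc (a := (0:ℝ)) (b := 2 * Real.pi)).exists_bound_of_continuousOn
    (f := fun t => K5_c d s t) (K5_c_cont d s).continuousOn
  have hC1pos : 0 < C1 := by
    have h1 := hC1 0 ⟨le_rfl, by positivity⟩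
    have h2 : 0 < 1 / P d 0 := by have := K5_P_pos d 0; positivity
    rw [Real.norm_eq_abs, abs_of_pos h2] at h1
    linarith
  set Wd : ℝ := C2 + (2 * R * C1 + 1) with hWd
  have hvan : ∀ t ∈ Icc (0:ℝ) (2 * Real.pi), ∀ w, Wd < |w| → K5_f d s k t w = 0 := by
    intro t ht w hw
    unfold K5_f
    apply hR
    have hP := K5_P_pos d t
    have h1 := hC1 t ht
    have h1' : 0 < 1 / P d t := by positivity
    rw [Real.norm_eq_abs, abs_of_pos h1', div_le_iff₀ hP] at h1
    have h2 := hC2 t ht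
    rw [Real.norm_eq_abs] at h2
    have h3 : |w| - C2 ≤ |w + K5_c d s t| := by
      have := abs_sub_abs_le_abs_sub w (-(K5_c d s t))
      rw [abs_neg, sub_neg_eq_add] at this
      linarith
    have h4 : 2 * R * C1 + 1 ≤ |w + K5_c d s t| := by
      rw [hWd] at hw
      linarith
    have h5 : 0 ≤ 2 * R * C1 := by positivity
    have h6 : 2 * R * C1 + 1 ≤ (w + K5_c d s t) ^ 2 := by
      rw [← sq_abs]
      nlinarith
    have h7 := Real.one_le_cosh (s - Real.log (P d t))
    have h8 : 2 * R ≤ P d t * (w + K5_c d s t) ^ 2 := by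
      have e1 : 2 * R * 1 ≤ 2 * R * (C1 * P d t) := mul_le_mul_of_nonneg_left h1 (by linarith)
      have e2 : P d t * (2 * R * C1) ≤ P d t * (w + K5_c d s t) ^ 2 :=
        mul_le_mul_of_nonneg_left (by linarith) hP.le
      nlinarith
    have h9 : 0 ≤ Real.cosh (s - Real.log (P d t)) + P d t * (w + K5_c d s t) ^ 2 / 2 := by
      positivity
    rw [abs_of_nonneg h9]
    linarith
  have hcomp : IsCompact (Icc (0:ℝ) (2 * Real.pi) ×ˢ Icc (-Wd) Wd) :=
    isCompact_Icc.prod isCompact_Icc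
  have h1 : IntegrableOn (Function.uncurry (K5_f d s k))
      (Icc (0:ℝ) (2 * Real.pi) ×ˢ Icc (-Wd) Wd) ((volume : Measure ℝ).prod volume) :=
    (K5_f_cont d s k hk).continuousOn.integrableOn_compact hcomp
  have h2 : IntegrableOn (Function.uncurry (K5_f d s k))
      (uIoc (0:ℝ) (2 * Real.pi) ×ˢ univ) ((volume : Measure ℝ).prod volume) := by
    refine h1.of_forall_sdiff_eq_zero (measurableSet_uIoc.prod MeasurableSet.univ) ?_
    rintro ⟨t, w⟩ ⟨⟨ht, _⟩, hn⟩
    have ht' : t ∈ Icc (0:ℝ) (2 * Real.pi) := by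
      have : t ∈ Ioc (0:ℝ) (2 * Real.pi) := by
        have h3 : t ∈ uIoc (0:ℝ) (2 * Real.pi) := ht
        rwa [uIoc_of_le (by positivity)] at h3
      exact ⟨this.1.le, this.2⟩
    apply hvan t ht' w
    by_contra hcon
    push Not at hcon
    exact hn ⟨ht', abs_le.1 hcon⟩
  have h3 : (volume.restrict (uIoc (0:ℝ) (2 * Real.pi))).prod (volume : Measure ℝ) =
      ((volume : Measure ℝ).prod volume).restrict (uIoc (0:ℝ) (2 * Real.pi) ×ˢ univ) := by
    rw [← Measure.prod_restrict, Measure.restrict_univ]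
  rw [h3]
  exact h2

lemma K5_scale (d s : ℝ) (k : ℝ → ℂ) (t : ℝ) :
    ∫ w : ℝ, K5_f d s k t w =
      (((P d t) ^ (-(1 / 2) : ℝ) : ℝ) : ℂ) * gg k (s - Real.log (P d t)) := by
  unfold K5_f gg
  have hP := K5_P_pos d t
  have e1 := integral_add_right_eq_self (μ := (volume : Measure ℝ))
    (fun w : ℝ => k (Real.cosh (s - Real.log (P d t)) + P d t * w ^ 2 / 2)) (K5_c d s t)
  rw [e1]
  have e2 := Measure.integral_comp_mul_left
    (fun y : ℝ => k (Real.cosh (s - Real.log (P d t)) + y ^ 2 / 2)) (√(P d t))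
  have e3 : (fun w : ℝ => k (Real.cosh (s - Real.log (P d t)) + P d t * w ^ 2 / 2)) =
      fun w : ℝ => k (Real.cosh (s - Real.log (P d t)) + (√(P d t) * w) ^ 2 / 2) := by
    funext w
    rw [mul_pow, Real.sq_sqrt hP.le]
  rw [e3, e2, Complex.real_smul]
  congr 2
  rw [abs_of_pos (by positivity), Real.rpow_neg hP.le, Real.sqrt_eq_rpow]

lemma K5_point (d s w t : ℝ) :
    XB Complex.I (act ⟨Real.exp (s / 2) * w, Real.exp s⟩ (pt d t)) =
      Real.cosh (s - Real.log (P d t)) + P d t * (w + K5_c d s t) ^ 2 / 2 := by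
  have hP := K5_P_pos d t
  have hE := Real.exp_pos (s / 2)
  have hs : Real.exp s = Real.exp (s / 2) * Real.exp (s / 2) := by
    rw [← Real.exp_add]
    ring_nf
  have hc : Real.cosh (s - Real.log (P d t)) =
      (Real.exp (s / 2) * Real.exp (s / 2) / P d t +
        P d t / (Real.exp (s / 2) * Real.exp (s / 2))) / 2 := by
    rw [Real.cosh_eq, neg_sub, Real.exp_sub, Real.exp_sub, Real.exp_log hP, hs]
  rw [hc]
  simp only [XB, XX, act, pt, K5_c, Complex.I_re, Complex.I_im, hs]
  field_simp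
  ring

lemma K5_mid (h3 : K3) (d : ℝ) (hd : 0 < d) (k : ℝ → ℂ) (s w : ℝ) :
    MM d k (Real.cosh s + w ^ 2 / 2) =
      ((1 / (2 * Real.pi) : ℝ) : ℂ) * ∫ t in (0:ℝ)..(2 * Real.pi), K5_f d s k t w := by
  have hz : XB Complex.I ⟨Real.exp (s / 2) * w, Real.exp s⟩ = Real.cosh s + w ^ 2 / 2 := by
    have hE := Real.exp_pos (s / 2)
    have hs : Real.exp s = Real.exp (s / 2) * Real.exp (s / 2) := by
      rw [← Real.exp_add]
      ring_nf
    have hc : Real.cosh s = (Real.exp (s / 2) * Real.exp (s / 2) +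
        1 / (Real.exp (s / 2) * Real.exp (s / 2))) / 2 := by
      rw [Real.cosh_eq, Real.exp_neg, hs, one_div]
    rw [hc]
    simp only [XB, XX, Complex.I_re, Complex.I_im, hs]
    field_simp
    ring
  have h := h3 d k Complex.I ⟨Real.exp (s / 2) * w, Real.exp s⟩ hd (by simp) (Real.exp_pos s)
  rw [hz] at h
  rw [← h]
  unfold avg
  simp only [K5_point]
  rfl

lemma K5_cont (d : ℝ) (k : ℝ → ℂ) (hk : Continuous k) : Continuous (MM d k) := by
  unfold MM
  refine continuous_const.mul ?_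
  refine intervalIntegral.continuous_parametric_intervalIntegral_of_continuous' ?_ _ _
  refine hk.comp ?_
  fun_prop

lemma K5_supp (d : ℝ) (hd : 0 < d) (k : ℝ → ℂ) (hs : HasCompactSupport k) :
    HasCompactSupport (MM d k) := by
  obtain ⟨R, hR0, hR⟩ := K5_bound k hs
  refine HasCompactSupport.intro (isCompact_Icc (a := -(R * Real.exp d + 1))
    (b := R * Real.exp d + 1)) ?_
  intro X hX
  have hX' : R * Real.exp d + 1 < |X| := by
    by_contra hcon
    push Not at hcon
    exact hX (abs_le.1 hcon)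
  have hed := Real.exp_pos d
  have hX1 : 1 ≤ |X| := by
    have : 0 ≤ R * Real.exp d := by positivity
    linarith
  have hsh : 0 < Real.sinh d := Real.sinh_pos_iff.2 hd
  have hch := Real.cosh_pos d
  have hz : ∀ t, k (X * Real.cosh d - √(X ^ 2 - 1) * Real.sinh d * Real.cos t) = 0 := by
    intro t
    apply hR
    have h1 : √(X ^ 2 - 1) ≤ |X| := by
      rw [← Real.sqrt_sq_eq_abs]
      exact Real.sqrt_le_sqrt (by linarith)
    have h2 : |√(X ^ 2 - 1) * Real.sinh d * Real.cos t| ≤ |X| * Real.sinh d := by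
      rw [abs_mul, abs_mul, abs_of_nonneg (Real.sqrt_nonneg _), abs_of_pos hsh]
      calc √(X ^ 2 - 1) * Real.sinh d * |Real.cos t| ≤ √(X ^ 2 - 1) * Real.sinh d * 1 :=
            mul_le_mul_of_nonneg_left (Real.abs_cos_le_one t) (by positivity)
        _ = √(X ^ 2 - 1) * Real.sinh d := mul_one _
        _ ≤ |X| * Real.sinh d := mul_le_mul_of_nonneg_right h1 hsh.le
    have h3 := abs_sub_abs_le_abs_sub (X * Real.cosh d)
      (√(X ^ 2 - 1) * Real.sinh d * Real.cos t)
    rw [abs_mul X, abs_of_pos hch] at h3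
    have h4 : Real.cosh d - Real.sinh d = Real.exp (-d) := Real.cosh_sub_sinh d
    have h5 : |X| * Real.exp (-d) ≤ |X * Real.cosh d -
        √(X ^ 2 - 1) * Real.sinh d * Real.cos t| := by
      rw [← h4]
      linarith
    have h6 : R < |X| * Real.exp (-d) := by
      rw [Real.exp_neg, ← div_eq_mul_inv, lt_div_iff₀ hed]
      linarith
    linarith
  unfold MM
  simp only [hz, intervalIntegral.integral_zero, mul_zero]

/- TARGET -/
theorem k5 (h3 : K3) : K5 := by
  intro d hd k hk hs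
  refine ⟨K5_cont d k hk, K5_supp d hd k hs, ?_⟩
  funext s
  have e0 : gg (MM d k) s = ∫ w : ℝ, ((1 / (2 * Real.pi) : ℝ) : ℂ) *
      ∫ t in (0:ℝ)..(2 * Real.pi), K5_f d s k t w := by
    unfold gg
    exact integral_congr_ae (Eventually.of_forall fun w => K5_mid h3 d hd k s w)
  rw [e0, integral_const_mul, ← intervalIntegral_integral_swap (K5_int d s k hk hs)]
  unfold CC
  simp only [K5_scale]

end Pool.Agent.H267H
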