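import Pool.Agent.Helper267_hyp.Defs2

/-
K6: bound of a radial function by its Abel transform (job of helper267, by helper389).
-/

set_option autoImplicit false

open MeasureTheory Filter Topology Set
open scoped ENNReal ComplexConjugate

namespace Pool.Agent.H267H

theorem K6_image : Ioi (1 : ℝ) ⊆ Real.cosh '' Ioi 0 := by
  intro Y hY
  have hY1 : 1 < Y := hY
  have hpos : 0 < Y ^ 2 - 1 := by nlinarith
  refine ⟨Real.arsinh (√(Y ^ 2 - 1)), ?_, ?_⟩
  · exact Real.arsinh_pos_iff.2 (Real.sqrt_pos.2 hpos)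
  · rw [Real.cosh_arsinh, Real.sq_sqrt hpos.le]
    have : 1 + (Y ^ 2 - 1) = Y ^ 2 := by ring
    rw [this, Real.sqrt_sq (by linarith)]

theorem K6_cov (F : ℝ → ℝ≥0∞) : ∫⁻ Y in Ioi (1 : ℝ), F Y ≤
    ∫⁻ s in Ioi (0 : ℝ), ENNReal.ofReal |Real.sinh s| * F (Real.cosh s) := by
  have hinj : InjOn Real.cosh (Ioi 0) :=
    Real.cosh_strictMonoOn.injOn.mono Ioi_subset_Ici_self
  have h := lintegral_image_eq_lintegral_abs_deriv_mul (s := Ioi (0 : ℝ)) (f := Real.cosh)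
    (f' := Real.sinh) measurableSet_Ioi
    (fun x _ => (Real.hasDerivAt_cosh x).hasDerivWithinAt) hinj F
  rw [← h]
  exact lintegral_mono_set K6_image

/- TARGET -/
theorem k6 (ha : K6a) (hb : K6b) : K6 := by
  obtain ⟨C, hC, hb⟩ := hb
  refine ⟨C, hC, fun k hk hks hg => ?_⟩
  obtain ⟨h1, h2⟩ := ha k hk hks hg
  have hm : Measurable fun Y : ℝ => ‖deriv (GG k) Y‖ₑ := (measurable_deriv _).enorm
  have hπ : ‖-((1 / (2 * Real.pi) : ℝ) : ℂ)‖ₑ ≤ 1 := by
    rw [enorm_neg, ← ofReal_norm, ENNReal.ofReal_le_one, Complex.norm_real,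
      Real.norm_of_nonneg (by positivity), div_le_one (by positivity)]
    have := Real.pi_gt_three
    linarith
  have s1 : ∫⁻ X in Ioi (1:ℝ), ‖k X‖ₑ ^ 2 ≤
      ∫⁻ X in Ioi (1:ℝ), (∫⁻ z : ℝ, ‖deriv (GG k) (X + z ^ 2 / 2)‖ₑ) ^ 2 := by
    refine setLIntegral_mono' measurableSet_Ioi fun X hX => ?_
    refine pow_le_pow_left' ?_ 2
    rw [h2 X hX, enorm_mul]
    calc _ ≤ 1 * ∫⁻ z : ℝ, ‖deriv (GG k) (X + z ^ 2 / 2)‖ₑ :=
          mul_le_mul' hπ (enorm_integral_le_lintegral_enorm _)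
      _ = _ := one_mul _
  refine s1.trans ((hb _ hm).trans ?_)
  refine mul_le_mul' (le_refl _) ?_
  refine (K6_cov _).trans ?_
  refine le_trans ?_ (setLIntegral_le_lintegral (Ioi (0 : ℝ)) _)
  refine setLIntegral_mono' measurableSet_Ioi fun s hs => ?_
  have hs0 : 0 < s := hs
  have hsh : 0 < Real.sinh s := Real.sinh_pos_iff.2 hs0
  have hch : 1 < Real.cosh s := Real.one_lt_cosh.2 hs0.ne'
  have hd : deriv (GG k) (Real.cosh s) = deriv (gg k) s / (Real.sinh s : ℂ) :=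
    (h1 _ hch s hs0 rfl).deriv
  have hsq : √(Real.cosh s ^ 2 - 1) = Real.sinh s := by
    have : Real.cosh s ^ 2 - 1 = Real.sinh s ^ 2 := by
      have := Real.cosh_sq s
      linarith
    rw [this, Real.sqrt_sq hsh.le]
  have hne : ((Real.sinh s : ℝ) : ℂ) ≠ 0 := by
    exact_mod_cast hsh.ne'
  have he : ‖deriv (gg k) s‖ₑ =
      ‖deriv (gg k) s / (Real.sinh s : ℂ)‖ₑ * ENNReal.ofReal (Real.sinh s) := by
    have h3 : ENNReal.ofReal (Real.sinh s) = ‖((Real.sinh s : ℝ) : ℂ)‖ₑ := by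
      rw [← ofReal_norm, Complex.norm_real, Real.norm_of_nonneg hsh.le]
    rw [h3, ← enorm_mul, div_mul_cancel₀ _ hne]
  rw [hd, hsq, abs_of_pos hsh, he]
  apply le_of_eq
  ring

end Pool.Agent.H267H
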