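import Pool.Agent.Helper267_hyp.Defs2

set_option autoImplicit false

open MeasureTheory Filter Topology Set
open scoped ENNReal ComplexConjugate

namespace Pool.Agent.H267H

theorem K6a_part1 (k : ℝ → ℂ) (hg : ContDiff ℝ 1 (gg k)) (Y : ℝ) (hY : 1 < Y) :
    HasDerivAt (GG k) ((√(Y ^ 2 - 1))⁻¹ • deriv (gg k) (Real.arcosh Y)) Y := by
  have h1 : HasDerivAt (gg k) (deriv (gg k) (Real.arcosh Y)) (Real.arcosh Y) :=
    ((hg.differentiable (by norm_num)) _).hasDerivAt
  have h2 : HasDerivAt Real.arcosh (√(Y ^ 2 - 1))⁻¹ Y := Real.hasDerivAt_arcosh hY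
  have h3 := h1.scomp Y h2
  refine h3.congr_of_eventuallyEq ?_
  filter_upwards [Ioi_mem_nhds hY] with y hy
  show GG k y = gg k (Real.arcosh y)
  unfold gg GG
  rw [Real.cosh_arcosh (le_of_lt hy)]

theorem K6a_supp (k : ℝ → ℂ) (hk : HasCompactSupport k) :
    ∃ R : ℝ, 1 < R ∧ ∀ Y : ℝ, R < Y → k Y = 0 := by
  obtain ⟨R, hR⟩ := hk.isCompact.isBounded.subset_closedBall (0 : ℝ)
  refine ⟨max R 2, by simp, fun Y hY => ?_⟩
  apply image_eq_zero_of_notMem_tsupport
  intro h
  have h1 := hR h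
  rw [Metric.mem_closedBall, Real.dist_eq, sub_zero] at h1
  have h2 := le_abs_self Y
  have h3 := le_max_left R 2
  linarith

/-- the antiderivative -/
noncomputable def K6a_K (k : ℝ → ℂ) (R Y : ℝ) : ℂ := ∫ t in Y..R, k t

theorem K6a_K_deriv (k : ℝ → ℂ) (hk : Continuous k) (R Y : ℝ) :
    HasDerivAt (K6a_K k R) (-k Y) Y := by
  have h1 := ((hk.integral_hasStrictDerivAt R Y).hasDerivAt).neg
  refine h1.congr_of_eventuallyEq ?_
  filter_upwards with y
  show K6a_K k R y = - ∫ t in R..y, k t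
  unfold K6a_K
  rw [intervalIntegral.integral_symm]

theorem K6a_K_zero (k : ℝ → ℂ) (R : ℝ) (hR : ∀ Y : ℝ, R < Y → k Y = 0) (Y : ℝ) (hY : R ≤ Y) :
    K6a_K k R Y = 0 := by
  unfold K6a_K
  rw [intervalIntegral.integral_symm, neg_eq_zero, intervalIntegral.integral_of_le hY]
  apply setIntegral_eq_zero_of_forall_eq_zero
  intro t ht
  exact hR t ht.1

theorem K6a_big (R X r : ℝ) (hr : r ∉ Icc (-(2 * (|R| + |X|) + 1)) (2 * (|R| + |X|) + 1)) :
    R < X + r ^ 2 / 2 := by
  have h1 := abs_nonneg R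
  have h2 := abs_nonneg X
  have h3 := le_abs_self R
  have h4 := neg_abs_le X
  have h5 : 2 * (|R| + |X|) + 1 < |r| := by
    by_contra h
    apply hr
    have h6 := abs_le.1 (not_lt.1 h)
    exact ⟨h6.1, h6.2⟩
  have h6 : r ^ 2 = |r| ^ 2 := (sq_abs r).symm
  nlinarith

theorem K6a_radial (k : ℝ → ℂ) (hk : Continuous k) (R : ℝ) (hR : ∀ Y : ℝ, R < Y → k Y = 0)
    (X : ℝ) : ∫ r in Ioi (0:ℝ), (r : ℂ) * k (X + r ^ 2 / 2) = K6a_K k R X := by
  have h1 := integral_Ioi_of_hasDerivAt_of_tendsto' (a := 0) (m := (0:ℂ))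
    (f := fun r : ℝ => -K6a_K k R (X + r ^ 2 / 2))
    (f' := fun r : ℝ => (r : ℂ) * k (X + r ^ 2 / 2)) ?_ ?_ ?_
  · rw [h1]
    simp
  · intro r _
    have h2 : HasDerivAt (fun r : ℝ => X + r ^ 2 / 2) r r := by
      have := ((hasDerivAt_pow 2 r).div_const 2).const_add X
      have e : ((2:ℕ):ℝ) * r ^ (2 - 1) / 2 = r := by norm_num
      rw [e] at this
      exact this
    have h3 := ((K6a_K_deriv k hk R (X + r ^ 2 / 2)).scomp r h2).neg
    have e : -(r • -k (X + r ^ 2 / 2)) = (r : ℂ) * k (X + r ^ 2 / 2) := by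
      rw [smul_neg, neg_neg, Complex.real_smul]
    rw [e] at h3
    exact h3
  · apply Integrable.integrableOn
    apply Continuous.integrable_of_hasCompactSupport
    · exact Complex.continuous_ofReal.mul (hk.comp (by fun_prop))
    · apply HasCompactSupport.intro (isCompact_Icc (a := -(2 * (|R| + |X|) + 1))
        (b := 2 * (|R| + |X|) + 1))
      intro r hr
      rw [hR _ (K6a_big R X r hr), mul_zero]
  · apply tendsto_const_nhds.congr'
    filter_upwards [Ioi_mem_atTop (2 * (|R| + |X|) + 1)] with r hr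
    rw [K6a_K_zero k R hR _ (le_of_lt (K6a_big R X r (fun h => absurd h.2 (not_le.2 hr)))),
      neg_zero]

theorem K6a_polar (k : ℝ → ℂ) (hk : Continuous k) (R : ℝ) (hR : ∀ Y : ℝ, R < Y → k Y = 0)
    (X : ℝ) : ∫ z : ℝ, GG k (X + z ^ 2 / 2) = ((2 * Real.pi : ℝ) : ℂ) * K6a_K k R X := by
  have hcont : Continuous (fun p : ℝ × ℝ => k (X + p.1 ^ 2 / 2 + p.2 ^ 2 / 2)) :=
    hk.comp (by fun_prop)
  have hint : Integrable (fun p : ℝ × ℝ => k (X + p.1 ^ 2 / 2 + p.2 ^ 2 / 2))
      ((volume : Measure ℝ).prod volume) := by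
    apply hcont.integrable_of_hasCompactSupport
    apply HasCompactSupport.intro ((isCompact_Icc (a := -(2 * (|R| + |X|) + 1))
        (b := 2 * (|R| + |X|) + 1)).prod (isCompact_Icc (a := -(2 * (|R| + |X|) + 1))
        (b := 2 * (|R| + |X|) + 1)))
    rintro ⟨z, w⟩ hzw
    apply hR
    show R < X + z ^ 2 / 2 + w ^ 2 / 2
    by_cases hz : z ∈ Icc (-(2 * (|R| + |X|) + 1)) (2 * (|R| + |X|) + 1)
    · have hw : w ∉ Icc (-(2 * (|R| + |X|) + 1)) (2 * (|R| + |X|) + 1) := fun hw => hzw ⟨hz, hw⟩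
      have := K6a_big R X w hw
      have := sq_nonneg z
      linarith
    · have := K6a_big R X z hz
      have := sq_nonneg w
      linarith
  have h1 : ∫ z : ℝ, GG k (X + z ^ 2 / 2) =
      ∫ p : ℝ × ℝ, k (X + p.1 ^ 2 / 2 + p.2 ^ 2 / 2) := by
    rw [Measure.volume_eq_prod, integral_prod _ hint]
    rfl
  rw [h1, ← integral_comp_polarCoord_symm]
  have h2 : ∀ p : ℝ × ℝ, p.1 • k (X + (polarCoord.symm p).1 ^ 2 / 2 +
      (polarCoord.symm p).2 ^ 2 / 2) = ((p.1 : ℂ) * k (X + p.1 ^ 2 / 2)) * (1 : ℂ) := by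
    intro p
    rw [polarCoord_symm_apply, mul_one, Complex.real_smul]
    congr 2
    have := Real.sin_sq_add_cos_sq p.2
    show X + (p.1 * Real.cos p.2) ^ 2 / 2 + (p.1 * Real.sin p.2) ^ 2 / 2 = X + p.1 ^ 2 / 2
    have e : (p.1 * Real.cos p.2) ^ 2 / 2 + (p.1 * Real.sin p.2) ^ 2 / 2 =
        p.1 ^ 2 / 2 * (Real.sin p.2 ^ 2 + Real.cos p.2 ^ 2) := by ring
    rw [add_assoc, e, this, mul_one]
  simp_rw [h2]
  rw [polarCoord_target, Measure.volume_eq_prod,
    setIntegral_prod_mul (fun r : ℝ => (r : ℂ) * k (X + r ^ 2 / 2)) (fun _ : ℝ => (1 : ℂ)),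
    K6a_radial k hk R hR X, mul_comm]
  congr 1
  rw [setIntegral_const, Complex.real_smul, mul_one, Measure.real, Real.volume_Ioo]
  rw [ENNReal.toReal_ofReal (by linarith [Real.pi_pos])]
  push_cast
  ring

/- TARGET -/
theorem k6a : K6a := by
  intro k hk hkc hg
  have hderY : ∀ Y : ℝ, 1 < Y → HasDerivAt (GG k)
      ((√(Y ^ 2 - 1))⁻¹ • deriv (gg k) (Real.arcosh Y)) Y := fun Y hY => K6a_part1 k hg Y hY
  refine ⟨?_, ?_⟩
  · intro Y hY s hs hsY
    have h1 := hderY Y hY
    have h2 : Real.arcosh Y = s := by rw [← hsY, Real.arcosh_cosh hs.le]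
    have h3 : √(Y ^ 2 - 1) = Real.sinh s := by
      rw [← h2, Real.sinh_arcosh hY.le]
    rw [h2, h3, Complex.real_smul] at h1
    convert h1 using 1
    rw [Complex.ofReal_inv, div_eq_inv_mul]
  · intro X hX
    obtain ⟨R, hR1, hR⟩ := K6a_supp k hkc
    -- the derivative is continuous on `(1, ∞)`
    have hdc : ContinuousOn (deriv (GG k)) (Ioi 1) := by
      have h1 : ContinuousOn (fun Y : ℝ => (√(Y ^ 2 - 1))⁻¹ • deriv (gg k) (Real.arcosh Y))
          (Ioi 1) := by
        change ContinuousOn ((fun Y : ℝ => (√(Y ^ 2 - 1))⁻¹) •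
          (fun Y : ℝ => deriv (gg k) (Real.arcosh Y))) (Ioi 1)
        apply ContinuousOn.smul
        · apply ContinuousOn.inv₀
          · fun_prop
          · intro Y hY
            have : 0 < Y ^ 2 - 1 := by
              have : (1:ℝ) < Y := hY
              nlinarith
            exact (Real.sqrt_pos.2 this).ne'
        · exact (hg.continuous_deriv (le_refl _)).comp_continuousOn
            (Real.continuousOn_arcosh.mono (fun y hy => le_of_lt (show (1:ℝ) < y from hy)))
      exact h1.congr (fun Y hY => (hderY Y hY).deriv)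
    have hGc : ContinuousOn (GG k) (Ioi 1) :=
      fun Y hY => (hderY Y hY).continuousAt.continuousWithinAt
    have hG0 : ∀ Y : ℝ, R < Y → GG k Y = 0 := by
      intro Y hY
      unfold GG
      apply integral_eq_zero_of_ae
      filter_upwards with w
      apply hR
      have := sq_nonneg w
      linarith
    have hd0 : ∀ Y : ℝ, R < Y → deriv (GG k) Y = 0 := by
      intro Y hY
      have : HasDerivAt (GG k) 0 Y := by
        refine (hasDerivAt_const Y (0:ℂ)).congr_of_eventuallyEq ?_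
        filter_upwards [Ioi_mem_nhds hY] with y hy
        exact hG0 y hy
      exact this.deriv
    set a : ℝ := (1 + X) / 2 with ha
    have ha1 : 1 < a := by rw [ha]; linarith
    have haX : a < X := by rw [ha]; linarith
    obtain ⟨B, hB⟩ := (isCompact_Icc (a := a) (b := R)).exists_bound_of_continuousOn
      (hdc.mono (fun y hy => lt_of_lt_of_le ha1 hy.1))
    have hBd : ∀ Y : ℝ, a ≤ Y → ‖deriv (GG k) Y‖ ≤ max B 0 := by
      intro Y hY
      by_cases h : Y ≤ R
      · exact (hB Y ⟨hY, h⟩).trans (le_max_left _ _)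
      · rw [hd0 Y (not_le.1 h), norm_zero]
        exact le_max_right _ _
    have hmaps : ∀ x : ℝ, 1 < x → ∀ z : ℝ, x + z ^ 2 / 2 ∈ Ioi (1:ℝ) := by
      intro x hx z
      have := sq_nonneg z
      show 1 < x + z ^ 2 / 2
      linarith
    have hFc : ∀ x : ℝ, 1 < x → Continuous (fun z : ℝ => GG k (x + z ^ 2 / 2)) := by
      intro x hx
      exact hGc.comp_continuous (by fun_prop) (hmaps x hx)
    have hF'c : Continuous (fun z : ℝ => deriv (GG k) (X + z ^ 2 / 2)) :=
      hdc.comp_continuous (by fun_prop) (hmaps X hX)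
    have key := hasDerivAt_integral_of_dominated_loc_of_deriv_le (μ := (volume : Measure ℝ))
      (F := fun x z : ℝ => GG k (x + z ^ 2 / 2)) (F' := fun x z : ℝ => deriv (GG k) (x + z ^ 2 / 2))
      (x₀ := X) (s := Ioi a)
      (bound := (Icc (-(2 * (|R| + |(0:ℝ)|) + 1)) (2 * (|R| + |(0:ℝ)|) + 1)).indicator
        (fun _ => max B 0)) (Ioi_mem_nhds haX) ?_ ?_ ?_ ?_ ?_ ?_
    · have h1 : (fun x : ℝ => ∫ z : ℝ, GG k (x + z ^ 2 / 2)) =
          fun x => ((2 * Real.pi : ℝ) : ℂ) * K6a_K k R x := by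
        funext x
        exact K6a_polar k hk R hR x
      have h2 := key.2
      rw [h1] at h2
      have h3 : HasDerivAt (fun x => ((2 * Real.pi : ℝ) : ℂ) * K6a_K k R x)
          (((2 * Real.pi : ℝ) : ℂ) * (-k X)) X := (K6a_K_deriv k hk R X).const_mul _
      have h4 := h2.unique h3
      rw [h4]
      have hpi : (Real.pi : ℂ) ≠ 0 := by exact_mod_cast Real.pi_ne_zero
      push_cast
      field_simp
    · filter_upwards [Ioi_mem_nhds hX] with x hx
      exact (hFc x hx).aestronglyMeasurable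
    · apply (hFc X hX).integrable_of_hasCompactSupport
      apply HasCompactSupport.intro (isCompact_Icc (a := -(2 * (|R| + |X|) + 1))
        (b := 2 * (|R| + |X|) + 1))
      intro r hr
      exact hG0 _ (K6a_big R X r hr)
    · exact hF'c.aestronglyMeasurable
    · filter_upwards with z
      intro x hx
      by_cases hz : z ∈ Icc (-(2 * (|R| + |(0:ℝ)|) + 1)) (2 * (|R| + |(0:ℝ)|) + 1)
      · rw [indicator_of_mem hz]
        apply hBd
        have := sq_nonneg z
        have : a < x := hx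
        linarith
      · rw [indicator_of_notMem hz]
        have h1 := K6a_big R 0 z hz
        have h2 : a < x := hx
        rw [hd0 _ (by linarith), norm_zero]
    · apply (integrable_indicator_iff measurableSet_Icc).2
      exact integrableOn_const (by simp)
    · filter_upwards with z
      intro x hx
      have h2 : a < x := hx
      have h1 : HasDerivAt (GG k) (deriv (GG k) (x + z ^ 2 / 2)) (x + z ^ 2 / 2) :=
        (hderY _ (hmaps x (by linarith) z)).differentiableAt.hasDerivAt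
      exact h1.comp_add_const x (z ^ 2 / 2)

end Pool.Agent.H267H
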