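import Pool.Agent.Helper267_hyp.Defs2

set_option autoImplicit false

open MeasureTheory Filter Topology Set
open scoped ENNReal ComplexConjugate

namespace Pool.Agent.H267H

theorem K6b_L1 (X : ℝ) (hX : 0 < X) :
    ∫⁻ z : ℝ, ENNReal.ofReal ((X + z ^ 2 / 2)⁻¹) = ENNReal.ofReal (√2 * Real.pi / √X) := by
  have hs : 0 < √(2 * X) := Real.sqrt_pos.2 (by positivity)
  have hs2 : √(2 * X) ^ 2 = 2 * X := Real.sq_sqrt (by positivity)
  have h : ∀ z : ℝ, (X + z ^ 2 / 2)⁻¹ = X⁻¹ * (1 + ((√(2 * X))⁻¹ * z) ^ 2)⁻¹ := by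
    intro z
    rw [← mul_inv, mul_pow, inv_pow, hs2]
    congr 1
    field_simp
  have hint : Integrable (fun z : ℝ => X⁻¹ * (1 + ((√(2 * X))⁻¹ * z) ^ 2)⁻¹) :=
    (integrable_inv_one_add_sq.comp_mul_left' (inv_ne_zero hs.ne')).const_mul _
  simp_rw [h]
  rw [← ofReal_integral_eq_lintegral_ofReal hint (Eventually.of_forall fun z => by positivity)]
  congr 1
  rw [integral_const_mul, Measure.integral_comp_mul_left (fun y : ℝ => (1 + y ^ 2)⁻¹),
    integral_univ_inv_one_add_sq, inv_inv, abs_of_pos hs, smul_eq_mul,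
    Real.sqrt_mul (by norm_num : (0 : ℝ) ≤ 2)]
  have hx : 0 < √X := Real.sqrt_pos.2 hX
  have hx2 : √X * √X = X := Real.mul_self_sqrt hX.le
  rw [eq_div_iff hx.ne']
  calc X⁻¹ * (√2 * √X * Real.pi) * √X = X⁻¹ * (√X * √X) * (√2 * Real.pi) := by ring
    _ = √2 * Real.pi := by rw [hx2, inv_mul_cancel₀ hX.ne', one_mul]

theorem K6b_L2 (Y : ℝ) (hY : 1 < Y) :
    ∫⁻ z in Ioo (-√(2 * (Y - 1))) (√(2 * (Y - 1))), ENNReal.ofReal ((√(Y - z ^ 2 / 2))⁻¹) ≤
      ENNReal.ofReal (√2 * Real.pi * √((Y - 1) / Y)) := by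
  obtain ⟨b, hb⟩ : ∃ b, b = √(2 * (Y - 1)) := ⟨_, rfl⟩
  obtain ⟨a, ha⟩ : ∃ a, a = √(2 * Y) := ⟨_, rfl⟩
  have ha0 : 0 < a := by rw [ha]; exact Real.sqrt_pos.2 (by linarith)
  have hb0 : 0 < b := by rw [hb]; exact Real.sqrt_pos.2 (by linarith)
  have ha2 : a ^ 2 = 2 * Y := by rw [ha]; exact Real.sq_sqrt (by linarith)
  have hb2 : b ^ 2 = 2 * (Y - 1) := by rw [hb]; exact Real.sq_sqrt (by linarith)
  have hba : b < a := by nlinarith
  rw [← hb]
  have hz : ∀ z ∈ Icc (-b) b, z ^ 2 ≤ b ^ 2 := fun z hz => by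
    have := hz.1
    have := hz.2
    nlinarith
  have hder : ∀ z ∈ uIcc (-b) b, HasDerivAt (fun z : ℝ => √2 * Real.arcsin (z / a))
      ((√(Y - z ^ 2 / 2))⁻¹) z := by
    intro z hz'
    rw [uIcc_of_le (by linarith)] at hz'
    have h1 := hz z hz'
    have h2 : -1 < z / a := by
      rw [lt_div_iff₀ ha0]
      linarith [hz'.1]
    have h3 : z / a < 1 := by
      rw [div_lt_one ha0]
      linarith [hz'.2]
    have h4 := (Real.hasDerivAt_arcsin h2.ne' h3.ne).comp z ((hasDerivAt_id z).div_const a)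
    have h5 := h4.const_mul √2
    refine h5.congr_deriv ?_
    have h6 : Y - z ^ 2 / 2 = (a ^ 2 / 2) * (1 - (z / a) ^ 2) := by
      rw [div_pow]
      field_simp
      linarith
    rw [h6, Real.sqrt_mul (by positivity), Real.sqrt_div (by positivity), Real.sqrt_sq ha0.le]
    have h7 : 0 < 1 - (z / a) ^ 2 := by nlinarith
    have h8 : 0 < √(1 - (z / a) ^ 2) := Real.sqrt_pos.2 h7
    field_simp
  have hcont : ContinuousOn (fun z : ℝ => (√(Y - z ^ 2 / 2))⁻¹) (uIcc (-b) b) := by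
    refine ContinuousOn.inv₀ (by fun_prop) fun z hz' => ?_
    rw [uIcc_of_le (by linarith)] at hz'
    have h1 := hz z hz'
    exact (Real.sqrt_pos.2 (by linarith)).ne'
  have hII : IntervalIntegrable (fun z : ℝ => (√(Y - z ^ 2 / 2))⁻¹) volume (-b) b :=
    hcont.intervalIntegrable
  have hval := intervalIntegral.integral_eq_sub_of_hasDerivAt hder hII
  calc ∫⁻ z in Ioo (-b) b, ENNReal.ofReal ((√(Y - z ^ 2 / 2))⁻¹)
      ≤ ∫⁻ z in Ioc (-b) b, ENNReal.ofReal ((√(Y - z ^ 2 / 2))⁻¹) :=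
        lintegral_mono_set Ioo_subset_Ioc_self
    _ = ENNReal.ofReal (∫ z in Ioc (-b) b, (√(Y - z ^ 2 / 2))⁻¹) :=
        (ofReal_integral_eq_lintegral_ofReal
          ((intervalIntegrable_iff_integrableOn_Ioc_of_le (by linarith)).1 hII)
          (Eventually.of_forall fun z => by positivity)).symm
    _ ≤ ENNReal.ofReal (√2 * Real.pi * √((Y - 1) / Y)) := by
        apply ENNReal.ofReal_le_ofReal
        rw [← intervalIntegral.integral_of_le (by linarith), hval, neg_div, Real.arcsin_neg]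
        have h1 : b / a = √((Y - 1) / Y) := by
          rw [hb, ha, ← Real.sqrt_div (by linarith)]
          congr 1
          field_simp
        rw [← h1]
        have h2 : 0 ≤ b / a := by positivity
        have h3 : b / a ≤ 1 := (div_le_one ha0).2 hba.le
        have h4 : 0 ≤ Real.arcsin (b / a) := Real.arcsin_nonneg.2 h2
        have h5 := Real.mul_le_sin h4 (Real.arcsin_le_pi_div_two _)
        rw [Real.sin_arcsin (by linarith) h3] at h5
        have hpi := Real.pi_pos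
        have h6 : 2 * Real.arcsin (b / a) ≤ Real.pi * (b / a) := by
          rw [div_mul_eq_mul_div, div_le_iff₀ hpi] at h5
          linarith
        have h7 : 0 ≤ √2 := Real.sqrt_nonneg 2
        nlinarith

/-- the weight in the variable `X` -/
noncomputable def K6b_u (X : ℝ) : ℝ≥0∞ :=
  (Ioi (1 : ℝ)).indicator (fun X => ENNReal.ofReal (√2 * Real.pi / √X)) X

theorem K6b_u_meas : Measurable K6b_u := by
  unfold K6b_u
  exact Measurable.indicator (by fun_prop) measurableSet_Ioi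

theorem K6b_L3 (Y : ℝ) : ∫⁻ z : ℝ, K6b_u (Y - z ^ 2 / 2) ≤
    (Ioi (1 : ℝ)).indicator (fun Y => ENNReal.ofReal (2 * Real.pi ^ 2 * √((Y - 1) / Y))) Y := by
  by_cases hY : 1 < Y
  · rw [indicator_of_mem (show Y ∈ Ioi (1 : ℝ) from hY)]
    have h1 : ∀ z : ℝ, K6b_u (Y - z ^ 2 / 2) ≤
        (Ioo (-√(2 * (Y - 1))) (√(2 * (Y - 1)))).indicator
          (fun z => ENNReal.ofReal (√2 * Real.pi) * ENNReal.ofReal ((√(Y - z ^ 2 / 2))⁻¹)) z := by
      intro z
      unfold K6b_u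
      by_cases hz : 1 < Y - z ^ 2 / 2
      · rw [indicator_of_mem (show Y - z ^ 2 / 2 ∈ Ioi (1 : ℝ) from hz), indicator_of_mem]
        · rw [← ENNReal.ofReal_mul (by positivity), div_eq_mul_inv]
        · have h2 : z ^ 2 < 2 * (Y - 1) := by linarith
          have h3 := Real.lt_sqrt_of_sq_lt (x := |z|) (y := 2 * (Y - 1)) (by rwa [sq_abs])
          exact abs_lt.1 h3
      · rw [indicator_of_notMem (show Y - z ^ 2 / 2 ∉ Ioi (1 : ℝ) from hz)]
        exact bot_le
    refine (lintegral_mono h1).trans ?_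
    rw [lintegral_indicator measurableSet_Ioo, lintegral_const_mul _ (by fun_prop)]
    refine (mul_le_mul_right (K6b_L2 Y hY) _).trans ?_
    rw [← ENNReal.ofReal_mul (by positivity)]
    apply ENNReal.ofReal_le_ofReal
    have h4 : √2 * √2 = 2 := Real.mul_self_sqrt (by norm_num)
    apply le_of_eq
    calc √2 * Real.pi * (√2 * Real.pi * √((Y - 1) / Y))
        = (√2 * √2) * Real.pi ^ 2 * √((Y - 1) / Y) := by ring
      _ = 2 * Real.pi ^ 2 * √((Y - 1) / Y) := by rw [h4]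
  · rw [indicator_of_notMem (show Y ∉ Ioi (1 : ℝ) from hY)]
    refine le_of_eq ?_
    rw [lintegral_eq_zero_iff (by
      exact K6b_u_meas.comp (by fun_prop))]
    refine Eventually.of_forall fun z => ?_
    show K6b_u (Y - z ^ 2 / 2) = 0
    unfold K6b_u
    refine indicator_of_notMem ?_ _
    intro h
    have h' : 1 < Y - z ^ 2 / 2 := h
    have := sq_nonneg z
    exact hY (by linarith)

/- TARGET -/
theorem k6b : K6b := by
  refine ⟨2 * Real.pi ^ 2, by positivity, fun H hH => ?_⟩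
  -- Cauchy-Schwarz
  have cs : ∀ X : ℝ, 1 < X → (∫⁻ z : ℝ, H (X + z ^ 2 / 2)) ^ 2 ≤
      K6b_u X * ∫⁻ z : ℝ, H (X + z ^ 2 / 2) ^ 2 * ENNReal.ofReal (X + z ^ 2 / 2) := by
    intro X hX
    have hpos : ∀ z : ℝ, 0 < X + z ^ 2 / 2 := fun z => by positivity
    have h1 := ENNReal.lintegral_mul_le_Lp_mul_Lq (volume : Measure ℝ) (p := 2) (q := 2)
      (Real.HolderConjugate.two_two)
      (f := fun z : ℝ => H (X + z ^ 2 / 2) * ENNReal.ofReal (√(X + z ^ 2 / 2)))
      (g := fun z : ℝ => ENNReal.ofReal ((√(X + z ^ 2 / 2))⁻¹))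
      (by fun_prop) (by fun_prop)
    have h2 : ∀ z : ℝ, ((fun z : ℝ => H (X + z ^ 2 / 2) * ENNReal.ofReal (√(X + z ^ 2 / 2))) *
        (fun z : ℝ => ENNReal.ofReal ((√(X + z ^ 2 / 2))⁻¹))) z = H (X + z ^ 2 / 2) := by
      intro z
      have h3 : 0 < √(X + z ^ 2 / 2) := Real.sqrt_pos.2 (hpos z)
      simp only [Pi.mul_apply]
      rw [mul_assoc, ← ENNReal.ofReal_mul h3.le, mul_inv_cancel₀ h3.ne', ENNReal.ofReal_one, mul_one]
    simp_rw [h2] at h1
    have h4 : ∀ z : ℝ, (H (X + z ^ 2 / 2) * ENNReal.ofReal (√(X + z ^ 2 / 2))) ^ (2 : ℝ) =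
        H (X + z ^ 2 / 2) ^ 2 * ENNReal.ofReal (X + z ^ 2 / 2) := by
      intro z
      rw [ENNReal.rpow_two, mul_pow, ← ENNReal.ofReal_pow (Real.sqrt_nonneg _),
        Real.sq_sqrt (hpos z).le]
    have h5 : ∀ z : ℝ, (ENNReal.ofReal ((√(X + z ^ 2 / 2))⁻¹)) ^ (2 : ℝ) =
        ENNReal.ofReal ((X + z ^ 2 / 2)⁻¹) := by
      intro z
      rw [ENNReal.rpow_two, ← ENNReal.ofReal_pow (by positivity), inv_pow,
        Real.sq_sqrt (hpos z).le]
    simp_rw [h4, h5] at h1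
    rw [K6b_L1 X (by linarith)] at h1
    have h6 := pow_le_pow_left₀ bot_le h1 2
    refine h6.trans (le_of_eq ?_)
    rw [mul_pow, ← ENNReal.rpow_natCast, ← ENNReal.rpow_natCast, ← ENNReal.rpow_mul,
      ← ENNReal.rpow_mul]
    norm_num
    rw [mul_comm]
    unfold K6b_u
    rw [indicator_of_mem (show X ∈ Ioi (1 : ℝ) from hX)]
  have hK : Measurable fun Y : ℝ => H Y ^ 2 * ENNReal.ofReal Y := by fun_prop
  calc ∫⁻ X in Ioi (1:ℝ), (∫⁻ z : ℝ, H (X + z ^ 2 / 2)) ^ 2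
      ≤ ∫⁻ X in Ioi (1:ℝ), K6b_u X * ∫⁻ z : ℝ, H (X + z ^ 2 / 2) ^ 2 * ENNReal.ofReal (X + z ^ 2 / 2) :=
        setLIntegral_mono' measurableSet_Ioi cs
    _ ≤ ∫⁻ X : ℝ, K6b_u X * ∫⁻ z : ℝ, H (X + z ^ 2 / 2) ^ 2 * ENNReal.ofReal (X + z ^ 2 / 2) :=
        setLIntegral_le_lintegral _ _
    _ = ∫⁻ X : ℝ, ∫⁻ z : ℝ, K6b_u X * (H (X + z ^ 2 / 2) ^ 2 * ENNReal.ofReal (X + z ^ 2 / 2)) := by
        refine lintegral_congr fun X => ?_
        rw [lintegral_const_mul]
        exact hK.comp (by fun_prop)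
    _ = ∫⁻ z : ℝ, ∫⁻ X : ℝ, K6b_u X * (H (X + z ^ 2 / 2) ^ 2 * ENNReal.ofReal (X + z ^ 2 / 2)) := by
        refine lintegral_lintegral_swap ?_
        refine Measurable.aemeasurable ?_
        refine (K6b_u_meas.comp measurable_fst).mul ?_
        exact hK.comp (by fun_prop)
    _ = ∫⁻ z : ℝ, ∫⁻ Y : ℝ, K6b_u (Y - z ^ 2 / 2) * (H Y ^ 2 * ENNReal.ofReal Y) := by
        refine lintegral_congr fun z => ?_
        have := lintegral_add_right_eq_self (μ := (volume : Measure ℝ))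
          (fun Y : ℝ => K6b_u (Y - z ^ 2 / 2) * (H Y ^ 2 * ENNReal.ofReal Y)) (z ^ 2 / 2)
        rw [← this]
        refine lintegral_congr fun X => ?_
        rw [add_sub_cancel_right]
    _ = ∫⁻ Y : ℝ, ∫⁻ z : ℝ, K6b_u (Y - z ^ 2 / 2) * (H Y ^ 2 * ENNReal.ofReal Y) := by
        refine lintegral_lintegral_swap ?_
        refine Measurable.aemeasurable ?_
        refine (K6b_u_meas.comp (by fun_prop)).mul ?_
        exact hK.comp measurable_snd
    _ = ∫⁻ Y : ℝ, (∫⁻ z : ℝ, K6b_u (Y - z ^ 2 / 2)) * (H Y ^ 2 * ENNReal.ofReal Y) := by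
        refine lintegral_congr fun Y => ?_
        rw [lintegral_mul_const]
        exact K6b_u_meas.comp (by fun_prop)
    _ ≤ ∫⁻ Y : ℝ, (Ioi (1:ℝ)).indicator (fun Y => ENNReal.ofReal (2 * Real.pi ^ 2) *
          (H Y ^ 2 * ENNReal.ofReal (√(Y ^ 2 - 1)))) Y := by
        refine lintegral_mono fun Y => ?_
        refine (mul_le_mul_left (K6b_L3 Y) _).trans ?_
        by_cases hY : 1 < Y
        · rw [indicator_of_mem (show Y ∈ Ioi (1 : ℝ) from hY),
            indicator_of_mem (show Y ∈ Ioi (1 : ℝ) from hY)]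
          have h1 : √((Y - 1) / Y) * Y ≤ √(Y ^ 2 - 1) := by
            apply Real.le_sqrt_of_sq_le
            rw [mul_pow, Real.sq_sqrt (div_nonneg (by linarith) (by linarith))]
            have h2 : (Y - 1) / Y * Y ^ 2 = (Y - 1) * Y := by
              field_simp
            rw [h2]
            nlinarith
          calc ENNReal.ofReal (2 * Real.pi ^ 2 * √((Y - 1) / Y)) * (H Y ^ 2 * ENNReal.ofReal Y)
              = ENNReal.ofReal (2 * Real.pi ^ 2) * (H Y ^ 2 *
                  (ENNReal.ofReal (√((Y - 1) / Y)) * ENNReal.ofReal Y)) := by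
                rw [ENNReal.ofReal_mul (by positivity)]
                ring
            _ = ENNReal.ofReal (2 * Real.pi ^ 2) * (H Y ^ 2 *
                  ENNReal.ofReal (√((Y - 1) / Y) * Y)) := by
                rw [ENNReal.ofReal_mul (Real.sqrt_nonneg _)]
            _ ≤ _ := by
                gcongr
        · rw [indicator_of_notMem (show Y ∉ Ioi (1 : ℝ) from hY), zero_mul]
          exact bot_le
    _ = ENNReal.ofReal (2 * Real.pi ^ 2) *
          ∫⁻ Y in Ioi (1:ℝ), H Y ^ 2 * ENNReal.ofReal (√(Y ^ 2 - 1)) := by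
        rw [lintegral_indicator measurableSet_Ioi, lintegral_const_mul]
        fun_prop

end Pool.Agent.H267H
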