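import Pool.Agent.Helper267_hyp.Defs2

set_option autoImplicit false

open MeasureTheory Filter Topology Set
open scoped ENNReal ComplexConjugate ContDiff

namespace Pool.Agent.H267H

namespace K7x

theorem P_pos {d : ℝ} (hd : 0 < d) (t : ℝ) : 0 < P d t := by
  unfold P
  have h1 : Real.sinh d < Real.cosh d := Real.sinh_lt_cosh d
  have h2 : 0 < Real.sinh d := Real.sinh_pos_iff.2 hd
  nlinarith [Real.cos_le_one t]

/-- the weight -/
noncomputable def wt (d t : ℝ) : ℂ := (((P d t) ^ (-(1 / 2) : ℝ) : ℝ) : ℂ)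

/-- the shift -/
noncomputable def lg (d t : ℝ) : ℝ := Real.log (P d t)

theorem P_cont (d : ℝ) : Continuous (P d) := by
  unfold P
  fun_prop

theorem wt_cont {d : ℝ} (hd : 0 < d) : Continuous (wt d) := by
  unfold wt
  exact Complex.continuous_ofReal.comp
    ((P_cont d).rpow_const fun t => Or.inl (P_pos hd t).ne')

theorem lg_cont {d : ℝ} (hd : 0 < d) : Continuous (lg d) := by
  unfold lg
  exact (P_cont d).log fun t => (P_pos hd t).ne'

theorem CC_eq (d : ℝ) (g : ℝ → ℂ) (s : ℝ) : CC d g s = ((1 / (2 * Real.pi) : ℝ) : ℂ) *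
    ∫ t in (0:ℝ)..(2 * Real.pi), wt d t * g (s - lg d t) := rfl

theorem bound {E : Type} [NormedAddCommGroup E] {g : ℝ → E} (hc : HasCompactSupport g)
    (hg : Continuous g) : ∃ C, ∀ x, ‖g x‖ ≤ C := by
  obtain ⟨x₀, hx₀⟩ := hg.norm.exists_forall_ge_of_hasCompactSupport hc.norm
  exact ⟨_, hx₀⟩

theorem CC_deriv {d : ℝ} (hd : 0 < d) {g : ℝ → ℂ} (hg : ContDiff ℝ 1 g)
    (hc : HasCompactSupport g) (s : ℝ) : HasDerivAt (CC d g) (CC d (deriv g) s) s := by
  have hg' : Continuous (deriv g) := hg.continuous_deriv (le_refl _)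
  obtain ⟨M, hM⟩ := (isCompact_Icc (a := (0:ℝ)) (b := 2 * Real.pi)).exists_bound_of_continuousOn
    (wt_cont hd).continuousOn
  obtain ⟨C, hC⟩ := bound hc.deriv hg'
  have hw := wt_cont hd
  have hl := lg_cont hd
  have hgc := hg.continuous
  have h := intervalIntegral.hasDerivAt_integral_of_dominated_loc_of_deriv_le
    (μ := volume) (a := 0) (b := 2 * Real.pi)
    (F := fun s t => wt d t * g (s - lg d t)) (F' := fun s t => wt d t * deriv g (s - lg d t))
    (x₀ := s) (s := univ) (bound := fun _ => |M| * |C|) univ_mem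
    (Eventually.of_forall fun x => (by fun_prop : Continuous fun t =>
      wt d t * g (x - lg d t)).aestronglyMeasurable)
    ((by fun_prop : Continuous fun t => wt d t * g (s - lg d t)).intervalIntegrable _ _)
    (by fun_prop : Continuous fun t => wt d t * deriv g (s - lg d t)).aestronglyMeasurable
    (Eventually.of_forall fun t ht x _ => by
      rw [norm_mul]
      have ht' : t ∈ Icc (0:ℝ) (2 * Real.pi) := by
        rw [uIoc_of_le (by positivity)] at ht
        exact ⟨ht.1.le, ht.2⟩
      exact mul_le_mul ((hM t ht').trans (le_abs_self _)) ((hC _).trans (le_abs_self _))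
        (norm_nonneg _) (abs_nonneg _))
    intervalIntegrable_const
    (Eventually.of_forall fun t _ x _ => by
      have h1 : HasDerivAt g (deriv g (x - lg d t)) (x - lg d t) :=
        (hg.differentiable (by simp)).differentiableAt.hasDerivAt
      have h2 : HasDerivAt (fun x => g (x - lg d t)) (deriv g (x - lg d t)) x := by
        simpa using h1.comp_sub_const x (lg d t)
      exact h2.const_mul _)
  exact h.2.const_mul _

theorem CC_supp {d : ℝ} (hd : 0 < d) {g : ℝ → ℂ} (hc : HasCompactSupport g) :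
    HasCompactSupport (CC d g) := by
  obtain ⟨L, hL⟩ := (isCompact_Icc (a := (0:ℝ)) (b := 2 * Real.pi)).exists_bound_of_continuousOn
    (lg_cont hd).continuousOn
  obtain ⟨R, hR⟩ := hc.isCompact.isBounded.exists_norm_le
  refine HasCompactSupport.intro (K := Metric.closedBall 0 (R + L)) (isCompact_closedBall _ _) ?_
  intro s hs
  rw [mem_closedBall_zero_iff, not_le, Real.norm_eq_abs] at hs
  rw [CC_eq]
  have h0 : ∫ t in (0:ℝ)..(2 * Real.pi), wt d t * g (s - lg d t) =
      ∫ t in (0:ℝ)..(2 * Real.pi), (0 : ℂ) := by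
    refine intervalIntegral.integral_congr fun t ht => ?_
    rw [uIcc_of_le (by positivity)] at ht
    have h1 := hL t ht
    rw [Real.norm_eq_abs] at h1
    have h2 : g (s - lg d t) = 0 := by
      by_contra hne
      have h3 := hR _ (subset_tsupport _ hne)
      rw [Real.norm_eq_abs] at h3
      have h4 : |s| ≤ |s - lg d t| + |lg d t| := by
        have := abs_add_le (s - lg d t) (lg d t)
        simpa using this
      linarith
    simp only [h2, mul_zero]
  rw [h0]
  simp

theorem CC_smooth {d : ℝ} (hd : 0 < d) (n : ℕ) : ∀ {g : ℝ → ℂ}, ContDiff ℝ ∞ g →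
    HasCompactSupport g → ContDiff ℝ n (CC d g) := by
  induction n with
  | zero =>
    intro g hg hc
    rw [Nat.cast_zero, contDiff_zero]
    exact continuous_iff_continuousAt.2 fun s =>
      (CC_deriv hd (hg.of_le (by simp)) hc s).continuousAt
  | succ n ih =>
    intro g hg hc
    have h1 : ∀ s, HasDerivAt (CC d g) (CC d (deriv g) s) s :=
      CC_deriv hd (hg.of_le (by simp)) hc
    have h2 : deriv (CC d g) = CC d (deriv g) := funext fun s => (h1 s).deriv
    rw [Nat.cast_succ, contDiff_succ_iff_deriv]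
    refine ⟨fun s => (h1 s).differentiableAt, by simp, ?_⟩
    rw [h2]
    exact ih (contDiff_infty_iff_deriv.1 hg).2 hc.deriv


/-- the kernel of the Fourier transform -/
noncomputable def ex (w s : ℝ) : ℂ := Complex.exp (((-2 * Real.pi * s * w : ℝ) : ℂ) * Complex.I)

theorem ex_cont (w : ℝ) : Continuous (ex w) := by
  unfold ex
  fun_prop

theorem ex_norm (w s : ℝ) : ‖ex w s‖ = 1 := by
  unfold ex
  rw [Complex.norm_exp_ofReal_mul_I]

theorem ex_add (w s a : ℝ) : ex w (s + a) = ex w s * ex w a := by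
  unfold ex
  rw [← Complex.exp_add]
  congr 1
  push_cast
  ring

theorem ex_shift {g : ℝ → ℂ} (w a : ℝ) :
    ∫ s, ex w s * g (s - a) = ex w a * ∫ s, ex w s * g s := by
  rw [← integral_const_mul]
  have h := integral_sub_right_eq_self (μ := (volume : Measure ℝ))
    (fun s => ex w (s + a) * g s) a
  simp only [sub_add_cancel] at h
  rw [h]
  refine integral_congr_ae (Eventually.of_forall fun s => ?_)
  simp only
  rw [ex_add]
  ring

/-- the multiplier -/
theorem mult {d : ℝ} (hd : 0 < d) (h7a : K7a) (w : ℝ) :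
    ((1 / (2 * Real.pi) : ℝ) : ℂ) * ∫ t in (0:ℝ)..(2 * Real.pi), wt d t * ex w (lg d t) =
      ((Phi (2 * Real.pi * w) d : ℝ) : ℂ) := by
  have h1 : ∀ t, wt d t * ex w (lg d t) =
      (((P d t) ^ (-(1 / 2) : ℝ) * Real.cos (2 * Real.pi * w * Real.log (P d t)) : ℝ) : ℂ) -
        (((P d t) ^ (-(1 / 2) : ℝ) * Real.sin (2 * Real.pi * w * Real.log (P d t)) : ℝ) : ℂ) *
          Complex.I := by
    intro t
    unfold wt ex lg
    have e : -2 * Real.pi * Real.log (P d t) * w = -(2 * Real.pi * w * Real.log (P d t)) := by ring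
    rw [e, Complex.exp_mul_I, ← Complex.ofReal_cos, ← Complex.ofReal_sin, Real.cos_neg,
      Real.sin_neg]
    push_cast
    ring
  have hp : Continuous fun t => (P d t) ^ (-(1 / 2) : ℝ) :=
    (P_cont d).rpow_const fun t => Or.inl (P_pos hd t).ne'
  have hl : Continuous fun t => Real.log (P d t) := lg_cont hd
  simp only [h1]
  rw [intervalIntegral.integral_sub
    ((by fun_prop : Continuous fun t : ℝ => (((P d t) ^ (-(1 / 2) : ℝ) *
      Real.cos (2 * Real.pi * w * Real.log (P d t)) : ℝ) : ℂ)).intervalIntegrable _ _)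
    ((by fun_prop : Continuous fun t : ℝ => (((P d t) ^ (-(1 / 2) : ℝ) *
      Real.sin (2 * Real.pi * w * Real.log (P d t)) : ℝ) : ℂ) * Complex.I).intervalIntegrable _ _),
    intervalIntegral.integral_mul_const, intervalIntegral.integral_ofReal,
    intervalIntegral.integral_ofReal, h7a (2 * Real.pi * w) d hd]
  unfold Phi
  push_cast
  ring

theorem fourier_CC {d : ℝ} (hd : 0 < d) (h7a : K7a) {g : ℝ → ℂ} (hg : Continuous g)
    (hc : HasCompactSupport g) (w : ℝ) :
    ∫ s, ex w s * CC d g s = ((Phi (2 * Real.pi * w) d : ℝ) : ℂ) * ∫ s, ex w s * g s := by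
  have hw := wt_cont hd
  have hl := lg_cont hd
  have hex := ex_cont w
  obtain ⟨M, hM⟩ := (isCompact_Icc (a := (0:ℝ)) (b := 2 * Real.pi)).exists_bound_of_continuousOn
    hw.continuousOn
  obtain ⟨L, hL⟩ := (isCompact_Icc (a := (0:ℝ)) (b := 2 * Real.pi)).exists_bound_of_continuousOn
    hl.continuousOn
  obtain ⟨C, hC⟩ := bound hc hg
  obtain ⟨R, hR⟩ := hc.isCompact.isBounded.exists_norm_le
  have hpi : (0:ℝ) ≤ 2 * Real.pi := by positivity
  have hint : Integrable (Function.uncurry fun t s => wt d t * (ex w s * g (s - lg d t)))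
      ((volume.restrict (Set.uIoc 0 (2 * Real.pi))).prod volume) := by
    have hb : Integrable (fun z : ℝ × ℝ => (1 : ℝ) *
        (Set.indicator (Icc (-(R + L)) (R + L)) (fun _ => |M| * |C|) z.2))
        ((volume.restrict (Set.uIoc 0 (2 * Real.pi))).prod volume) := by
      have hfin : IsFiniteMeasure (volume.restrict (Set.uIoc 0 (2 * Real.pi))) := by
        rw [uIoc_of_le hpi]
        infer_instance
      refine Integrable.mul_prod (f := fun _ : ℝ => (1 : ℝ)) (integrable_const _) ?_
      rw [integrable_indicator_iff measurableSet_Icc]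
      exact integrableOn_const (by simp) 
    refine hb.mono' ?_ ?_
    · have : Continuous (Function.uncurry fun t s => wt d t * (ex w s * g (s - lg d t))) := by
        unfold Function.uncurry
        fun_prop
      exact this.aestronglyMeasurable
    · have h0 : ∀ᵐ z ∂((volume.restrict (Set.uIoc 0 (2 * Real.pi))).prod (volume : Measure ℝ)),
          z.1 ∈ Set.uIoc 0 (2 * Real.pi) := by
        have h1 : ∀ᵐ t ∂(volume.restrict (Set.uIoc 0 (2 * Real.pi))),
            t ∈ Set.uIoc 0 (2 * Real.pi) := ae_restrict_mem measurableSet_uIoc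
        exact Measure.quasiMeasurePreserving_fst.ae h1
      filter_upwards [h0] with z hz
      have hz' : z.1 ∈ Icc (0:ℝ) (2 * Real.pi) := by
        rw [uIoc_of_le hpi] at hz
        exact ⟨hz.1.le, hz.2⟩
      simp only [Function.uncurry]
      rw [norm_mul, norm_mul, ex_norm, one_mul, one_mul]
      by_cases h : z.2 ∈ Icc (-(R + L)) (R + L)
      · rw [indicator_of_mem h]
        exact mul_le_mul ((hM _ hz').trans (le_abs_self _)) ((hC _).trans (le_abs_self _))
          (norm_nonneg _) (abs_nonneg _)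
      · rw [indicator_of_notMem h]
        have h2 : g (z.2 - lg d z.1) = 0 := by
          by_contra hne
          have h3 := hR _ (subset_tsupport _ hne)
          have h4 := hL _ hz'
          rw [Real.norm_eq_abs, abs_le] at h3 h4
          exact h ⟨by linarith [h3.1, h4.1], by linarith [h3.2, h4.2]⟩
        rw [h2, norm_zero, mul_zero]
  have hsw := intervalIntegral_integral_swap hint
  have e1 : ∀ s, ex w s * CC d g s = ((1 / (2 * Real.pi) : ℝ) : ℂ) *
      ∫ t in (0:ℝ)..(2 * Real.pi), wt d t * (ex w s * g (s - lg d t)) := by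
    intro s
    rw [CC_eq, mul_left_comm, ← intervalIntegral.integral_const_mul]
    congr 1
    refine intervalIntegral.integral_congr fun t _ => ?_
    ring
  simp only [e1]
  rw [integral_const_mul, ← hsw]
  have e2 : ∀ t, ∫ s, wt d t * (ex w s * g (s - lg d t)) =
      wt d t * ex w (lg d t) * ∫ s, ex w s * g s := by
    intro t
    rw [integral_const_mul, ex_shift, mul_assoc]
  simp only [e2]
  rw [intervalIntegral.integral_mul_const, ← mul_assoc, mult hd h7a]


theorem lint {F : ℝ → ℂ} (hF : Continuous F) (hc : HasCompactSupport F) :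
    ∫⁻ s : ℝ, ‖F s‖ₑ ^ 2 = ENNReal.ofReal (∫ s, ‖F s‖ ^ 2) := by
  have h1 : Continuous fun s => ‖F s‖ ^ 2 := by fun_prop
  have h2 : HasCompactSupport fun s => ‖F s‖ ^ 2 := by
    refine hc.comp_left (g := fun z : ℂ => ‖z‖ ^ 2) ?_
    simp
  rw [ofReal_integral_eq_lintegral_ofReal (h1.integrable_of_hasCompactSupport h2)
    (Eventually.of_forall fun s => by positivity)]
  refine lintegral_congr fun s => ?_
  rw [ENNReal.ofReal_pow (norm_nonneg _), ofReal_norm]

open scoped FourierTransform in
theorem four {F g : ℝ → ℂ} (Fs gs : SchwartzMap ℝ ℂ) (hFs : ∀ s, Fs s = F s)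
    (hgs : ∀ s, gs s = g s) (m : ℝ → ℝ) (σ : ℝ)
    (hm : ∀ w, |m w| ≤ σ) (h : ∀ w, ∫ s, ex w s * F s = (m w : ℂ) * ∫ s, ex w s * g s) :
    ∫ s, ‖F s‖ ^ 2 ≤ σ ^ 2 * ∫ s, ‖g s‖ ^ 2 := by
  have h1 : ∀ w, 𝓕 Fs w = (m w : ℂ) * 𝓕 gs w := by
    intro w
    rw [SchwartzMap.fourier_coe, SchwartzMap.fourier_coe,
      Real.fourier_real_eq_integral_exp_smul, Real.fourier_real_eq_integral_exp_smul]
    simp only [hFs, hgs, smul_eq_mul]
    exact h w
  have h2 := SchwartzMap.integral_norm_sq_fourier Fs
  have h3 := SchwartzMap.integral_norm_sq_fourier gs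
  simp only [hFs] at h2
  simp only [hgs] at h3
  rw [← h2, ← h3, ← integral_const_mul]
  have h4 : Integrable fun w => σ ^ 2 * ‖𝓕 gs w‖ ^ 2 := by
    refine Integrable.const_mul ?_ _
    have h5 : MemLp (fun w => 𝓕 gs w) 2 volume := (𝓕 gs).memLp 2 volume
    exact h5.integrable_norm_pow (by norm_num)
  refine integral_mono_of_nonneg (Eventually.of_forall fun w => by positivity) h4
    (Eventually.of_forall fun w => ?_)
  simp only
  rw [h1, norm_mul, mul_pow, Complex.norm_real, Real.norm_eq_abs]
  exact mul_le_mul_of_nonneg_right (pow_le_pow_left₀ (abs_nonneg _) (hm w) 2) (by positivity)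

end K7x


/- TARGET -/
theorem k7 (h7a : K7a) : K7 := by
  intro d c σ hd hσ hb g hg hc
  have hgc : Continuous g := hg.continuous
  have hCC : ContDiff ℝ ∞ (CC d g) := contDiff_infty.2 fun n => K7x.CC_smooth hd n hg hc
  have hCCs := K7x.CC_supp hd hc
  have hF : ContDiff ℝ ∞ (fun s => CC d g s - (c : ℂ) * g s) := hCC.sub (contDiff_const.mul hg)
  have hFc : HasCompactSupport (fun s => CC d g s - (c : ℂ) * g s) := by
    have h1 : HasCompactSupport (fun s => (c : ℂ) * g s) := hc.mul_left
    exact hCCs.sub h1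
  rw [K7x.lint hF.continuous hFc, K7x.lint hgc hc, ← ENNReal.ofReal_mul (by positivity)]
  refine ENNReal.ofReal_le_ofReal ?_
  refine K7x.four (hFc.toSchwartzMap hF) (hc.toSchwartzMap hg) (fun s => rfl) (fun s => rfl)
    (fun w => Phi (2 * Real.pi * w) d - c) σ (fun w => hb _) (fun w => ?_)
  have hex := K7x.ex_cont w
  have hcc := hCC.continuous
  have i1 : Integrable fun s => K7x.ex w s * CC d g s :=
    (hex.mul hcc).integrable_of_hasCompactSupport hCCs.mul_left
  have i2 : Integrable fun s => K7x.ex w s * ((c : ℂ) * g s) :=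
    (hex.mul (continuous_const.mul hgc)).integrable_of_hasCompactSupport (hc.mul_left).mul_left
  change ∫ s, K7x.ex w s * (CC d g s - (c : ℂ) * g s) =
    ((Phi (2 * Real.pi * w) d - c : ℝ) : ℂ) * ∫ s, K7x.ex w s * g s
  have e0 : ∀ s, K7x.ex w s * (CC d g s - (c : ℂ) * g s) =
      K7x.ex w s * CC d g s - K7x.ex w s * ((c : ℂ) * g s) := fun s => mul_sub _ _ _
  simp only [e0]
  rw [integral_sub i1 i2, K7x.fourier_CC hd h7a hgc hc w]
  have e : ∀ s, K7x.ex w s * ((c : ℂ) * g s) = (c : ℂ) * (K7x.ex w s * g s) := fun s => by ring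
  simp only [e]
  rw [integral_const_mul]
  push_cast
  ring

end Pool.Agent.H267H
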