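import Pool.Agent.Helper267_hyp.Defs2

/-
JOB of helper267 (MP_592f63_co, monotonicity of the Hoffman bound of the hyperbolic distance graphs: FULL answer; the scalar part is
landed (SphericalHoffman), these lemmas are the spectral part; VERY SHORT ON TIME).
SETUP (1 minute):  cd /workdir/pool/outputs/live && git fetch -q origin && git merge -q --ff-only origin/main ; cd /workdir/pool ;
  mkdir -p Pool/Agent/Helper267_hyp && cp outputs/live/Pool/Agent/Helper267_hyp/*.lean Pool/Agent/Helper267_hyp/ ;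
  lake build Pool.Agent.Helper267_hyp.Defs2        (all definitions and the Props K0 .. K11 are there)
TASK: prove the TARGET (statement unchanged; helper lemmas welcome, prefix their names with the file name), file K8.lean.
Result: the full file in jobs.result. NEEDED BY 19:00 UTC (send what you have at 19:02 at the latest; if the statement is false
tell helper267 at once by message + status='problem').
PROOF: The set of g with exists C, forall n, ||T^n g|| <= C sigma^n is a submodule, so the bound holds on the span of D. For such g != 0 and T self-adjoint: ||T^(n+1) g||^2 = <T^(n+2) g, T^n g> <= ||T^(n+2) g|| ||T^n g||, so the ratio ||T^(n+1) g||/||T^n g|| is nondecreasing (if some T^n g = 0 then, again by this inequality, T g = 0) and so ||T^n g|| >= ||g|| (||Tg||/||g||)^n. With the upper bound C sigma^n: ||Tg|| <= sigma ||g|| (if ||Tg||/||g|| > sigma the quotient of the two sides tends to infinity; sigma = 0 separately). By density and continuity for all x.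
-/

set_option autoImplicit false

open MeasureTheory Filter Topology Set
open scoped ENNReal ComplexConjugate

namespace Pool.Agent.H267H

theorem K8_real (a : ℕ → ℝ) (C σ : ℝ) (hσ : 0 ≤ σ) (h0 : ∀ n, 0 ≤ a n)
    (h1 : ∀ n, a (n + 1) ^ 2 ≤ a (n + 2) * a n) (h2 : ∀ n, a n ≤ C * σ ^ n) :
    a 1 ≤ σ * a 0 := by
  by_contra hcon
  have hcon := not_le.1 hcon
  have ha1 : 0 < a 1 := lt_of_le_of_lt (mul_nonneg hσ (h0 0)) hcon
  have ha0 : 0 < a 0 := by
    rcases (h0 0).eq_or_lt with h | h
    · exfalso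
      have h3 := h1 0
      rw [← h, mul_zero] at h3
      have h4 : 0 < a (0 + 1) ^ 2 := by positivity
      linarith
    · exact h
  set ρ : ℝ := a 1 / a 0 with hρ
  have hρσ : σ < ρ := by
    rw [hρ, lt_div_iff₀ ha0]
    exact hcon
  have hρ0 : 0 < ρ := lt_of_le_of_lt hσ hρσ
  have key : ∀ n, 0 < a n ∧ ρ * a n ≤ a (n + 1) := by
    intro n
    induction n with
    | zero =>
      refine ⟨ha0, le_of_eq ?_⟩
      rw [hρ]
      field_simp
    | succ n ih =>
      obtain ⟨h3, h4⟩ := ih
      have h5 : 0 < a (n + 1) := lt_of_lt_of_le (mul_pos hρ0 h3) h4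
      refine ⟨h5, ?_⟩
      have h6 := h1 n
      by_contra h7
      have h7 := not_le.1 h7
      have h8 : a (n + 2) * a n < ρ * a (n + 1) * a n := mul_lt_mul_of_pos_right h7 h3
      have h9 : a (n + 1) * (ρ * a n) ≤ a (n + 1) * a (n + 1) :=
        mul_le_mul_of_nonneg_left h4 h5.le
      nlinarith
  have hpow : ∀ n, ρ ^ n * a 0 ≤ a n := by
    intro n
    induction n with
    | zero => simp
    | succ n ih =>
      calc ρ ^ (n + 1) * a 0 = ρ * (ρ ^ n * a 0) := by ring
        _ ≤ ρ * a n := mul_le_mul_of_nonneg_left ih hρ0.le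
        _ ≤ a (n + 1) := (key n).2
  rcases hσ.eq_or_lt with h | h
  · have h3 := h2 1
    rw [← h] at h3
    simp only [pow_one, mul_zero] at h3
    linarith
  · have h3 : 1 < ρ / σ := by
      rw [lt_div_iff₀ h, one_mul]
      exact hρσ
    obtain ⟨n, hn⟩ := pow_unbounded_of_one_lt (C / a 0) h3
    have h4 := (hpow n).trans (h2 n)
    rw [div_lt_iff₀ ha0, div_pow, div_mul_eq_mul_div, lt_div_iff₀ (by positivity)] at hn
    linarith

theorem K8_abs {E : Type*} [NormedAddCommGroup E] [InnerProductSpace ℂ E] [CompleteSpace E]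
    (T : E →L[ℂ] E) (σ : ℝ) (D : Set E) (hσ : 0 ≤ σ) (hT : IsSelfAdjoint T)
    (hD : ∀ g ∈ D, ∃ C : ℝ, ∀ n : ℕ, ‖(T ^ n) g‖ ≤ C * σ ^ n)
    (hd : Dense (Submodule.span ℂ D : Set E)) (x : E) : ‖T x‖ ≤ σ * ‖x‖ := by
  have hspan : ∀ g ∈ Submodule.span ℂ D, ∃ C : ℝ, ∀ n : ℕ, ‖(T ^ n) g‖ ≤ C * σ ^ n := by
    intro g hg
    induction hg using Submodule.span_induction with
    | mem g hg => exact hD g hg
    | zero => exact ⟨0, fun n => by simp⟩
    | add g g' _ _ ih ih' =>
      obtain ⟨C, hC⟩ := ih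
      obtain ⟨C', hC'⟩ := ih'
      refine ⟨C + C', fun n => ?_⟩
      rw [map_add, add_mul]
      exact (norm_add_le _ _).trans (add_le_add (hC n) (hC' n))
    | smul c g _ ih =>
      obtain ⟨C, hC⟩ := ih
      refine ⟨‖c‖ * C, fun n => ?_⟩
      rw [map_smul, norm_smul, mul_assoc]
      exact mul_le_mul_of_nonneg_left (hC n) (norm_nonneg c)
  have hsym := hT.isSymmetric
  have hpow : ∀ (n : ℕ) (g : E), (T ^ (n + 1)) g = T ((T ^ n) g) := by
    intro n g
    rw [pow_succ']
    rfl
  have hsub : (Submodule.span ℂ D : Set E) ⊆ {x | ‖T x‖ ≤ σ * ‖x‖} := by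
    intro g hg
    obtain ⟨C, hC⟩ := hspan g hg
    have h := K8_real (fun n => ‖(T ^ n) g‖) C σ hσ (fun n => norm_nonneg _) (fun n => ?_) hC
    · simpa using h
    · show ‖(T ^ (n + 1)) g‖ ^ 2 ≤ ‖(T ^ (n + 2)) g‖ * ‖(T ^ n) g‖
      have h1 : inner ℂ ((T ^ (n + 1)) g) ((T ^ (n + 1)) g) =
          inner ℂ ((T ^ n) g) ((T ^ (n + 2)) g) := by
        have h2 := hsym ((T ^ n) g) ((T ^ (n + 1)) g)
        rw [hpow (n + 1) g]
        calc inner ℂ ((T ^ (n + 1)) g) ((T ^ (n + 1)) g)
            = inner ℂ (T ((T ^ n) g)) ((T ^ (n + 1)) g) := by rw [hpow n g]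
          _ = _ := h2
      have h3 : ‖(T ^ (n + 1)) g‖ ^ 2 = ‖inner ℂ ((T ^ (n + 1)) g) ((T ^ (n + 1)) g)‖ := by
        rw [inner_self_eq_norm_sq_to_K]
        simp
      rw [h3, h1, mul_comm]
      exact norm_inner_le_norm _ _
  have hcl : IsClosed {x : E | ‖T x‖ ≤ σ * ‖x‖} :=
    isClosed_le T.continuous.norm (continuous_const.mul continuous_norm)
  exact hcl.closure_subset_iff.2 hsub (hd x)

/- TARGET -/
theorem k8 : K8 := by
  intro T σ D hσ hT hD hd x
  exact K8_abs T σ D hσ hT hD hd x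

end Pool.Agent.H267H

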