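import Pool.Agent.Helper267_hyp.Defs2

set_option autoImplicit false

open MeasureTheory Filter Topology Set
open scoped ENNReal ComplexConjugate

namespace Pool.Agent.H267H

/-- the density of `mu` -/
noncomputable def K9_rho (z : ℂ) : ℝ≥0∞ := ENNReal.ofReal (1 / z.im ^ 2)

theorem K9_rho_meas : Measurable K9_rho :=
  (measurable_const.div (Complex.measurable_im.pow_const 2)).ennreal_ofReal

theorem K9_measH : MeasurableSet {z : ℂ | 0 < z.im} :=
  measurableSet_lt measurable_const Complex.measurable_im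

theorem K9_restrict {s : Set ℂ} (hs : MeasurableSet s) (hsub : s ⊆ {z : ℂ | 0 < z.im}) :
    mu.restrict s = (volume.restrict s).withDensity K9_rho := by
  unfold mu
  rw [restrict_withDensity hs, Measure.restrict_restrict_of_subset hsub]
  rfl

theorem K9_int {s : Set ℂ} (hs : MeasurableSet s) (hsub : s ⊆ {z : ℂ | 0 < z.im}) (f : ℂ → ℂ) :
    ∫ z in s, f z ∂mu = ∫ z in s, (K9_rho z).toReal • f z := by
  rw [K9_restrict hs hsub]
  exact integral_withDensity_eq_integral_toReal_smul K9_rho_meas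
    (ae_of_all _ fun _ => ENNReal.ofReal_lt_top) f

theorem K9_intble {s : Set ℂ} (hs : MeasurableSet s) (hsub : s ⊆ {z : ℂ | 0 < z.im}) (f : ℂ → ℂ)
    (h : IntegrableOn f s mu) : IntegrableOn (fun z => (K9_rho z).toReal • f z) s := by
  unfold IntegrableOn at h ⊢
  rw [K9_restrict hs hsub] at h
  exact (integrable_withDensity_iff_integrable_smul' K9_rho_meas
    (ae_of_all _ fun _ => ENNReal.ofReal_lt_top)).1 h

theorem K9_ae : ∀ᵐ z ∂mu, 0 < z.im := by
  unfold mu
  refine (withDensity_absolutelyContinuous _ _).ae_le ?_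
  exact ae_restrict_mem K9_measH

theorem K9_XB_meas (b : ℂ) : Measurable (XB b) := by
  unfold XB XX
  dsimp only
  have h1 : Measurable fun z : ℂ => (z.re - b.re) / b.im :=
    (Complex.measurable_re.sub_const _).div_const _
  have h2 : Measurable fun z : ℂ => z.im / b.im := Complex.measurable_im.div_const _
  exact (((h1.pow_const 2).add (h2.pow_const 2)).add_const 1).div (h2.const_mul 2)

theorem K9_XB_pos {b z : ℂ} (hb : 0 < b.im) (hz : 0 < z.im) : 0 < XB b z := by
  unfold XB XX
  dsimp only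
  have h2 : 0 < z.im / b.im := div_pos hz hb
  positivity

theorem K9_finite (h4 : K4) {b : ℂ} (hb : 0 < b.im) (A : ℝ) : mu {z | XB b z ≤ A} < ∞ := by
  have h := h4 b hb (Set.indicator (Iic A) 1) (measurable_one.indicator measurableSet_Iic)
  have e1 : ∫⁻ z, Set.indicator (Iic A) (1 : ℝ → ℝ≥0∞) (XB b z) ∂mu = mu {z | XB b z ≤ A} := by
    have : (fun z => Set.indicator (Iic A) (1 : ℝ → ℝ≥0∞) (XB b z)) =
        Set.indicator {z | XB b z ≤ A} 1 := by
      funext z
      by_cases hz : XB b z ≤ A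
      · rw [Set.indicator_of_mem (show XB b z ∈ Iic A from hz),
          Set.indicator_of_mem (show z ∈ {z | XB b z ≤ A} from hz)]
        rfl
      · rw [Set.indicator_of_notMem (show XB b z ∉ Iic A from hz),
          Set.indicator_of_notMem (show z ∉ {z | XB b z ≤ A} from hz)]
    rw [this, lintegral_indicator_one (measurableSet_le (K9_XB_meas b) measurable_const)]
  rw [← e1, h, lintegral_indicator_one measurableSet_Iic]
  refine ENNReal.mul_lt_top ENNReal.ofReal_lt_top ?_
  rw [Measure.restrict_apply measurableSet_Iic]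
  refine (measure_mono (t := Icc 1 A) ?_).trans_lt (by rw [Real.volume_Icc]; exact ENNReal.ofReal_lt_top)
  intro x hx
  exact ⟨le_of_lt hx.2, hx.1⟩

theorem K9_integrableOn (h4 : K4) {f : ℂ → ℂ} (hf : MemLp f 2 mu) {b : ℂ} (hb : 0 < b.im)
    (A : ℝ) : IntegrableOn f {z | XB b z ≤ A} mu := by
  have : IsFiniteMeasure (mu.restrict {z | XB b z ≤ A}) :=
    ⟨by rw [Measure.restrict_apply_univ]; exact K9_finite h4 hb A⟩
  exact (hf.restrict _).integrable one_le_two

/-- the integral over the hyperbolic discs vanishes -/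
theorem K9_disc (h4 : K4) {f : ℂ → ℂ} (hf : MemLp f 2 mu)
    (h : ∀ (b : ℂ) (k : ℝ → ℝ), 0 < b.im → ContDiff ℝ (⊤ : ℕ∞) k → HasCompactSupport k →
      ∫ z, f z * (k (XB b z) : ℂ) ∂mu = 0) {b : ℂ} (hb : 0 < b.im) {A : ℝ} (hA : 0 < A) :
    ∫ z in {z | XB b z ≤ A}, f z ∂mu = 0 := by
  have hms : ∀ A : ℝ, MeasurableSet {z | XB b z ≤ A} := fun A =>
    measurableSet_le (K9_XB_meas b) measurable_const
  have hpos : ∀ n : ℕ, (0 : ℝ) < 1 / ((n : ℝ) + 1) := fun n => by positivity
  obtain ⟨k, hk⟩ : ∃ k : ℕ → ContDiffBump (0 : ℝ), ∀ n, (k n).rIn = A ∧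
      (k n).rOut = A + 1 / ((n : ℝ) + 1) :=
    ⟨fun n => ⟨A, A + 1 / ((n : ℝ) + 1), hA, by have := hpos n; linarith⟩, fun n => ⟨rfl, rfl⟩⟩
  have hz : ∀ n, ∫ z, f z * ((k n (XB b z) : ℝ) : ℂ) ∂mu = 0 := fun n =>
    h b (k n) hb (k n).contDiff (k n).hasCompactSupport
  have hlim : Tendsto (fun n => ∫ z, f z * ((k n (XB b z) : ℝ) : ℂ) ∂mu) atTop
      (𝓝 (∫ z, Set.indicator {z | XB b z ≤ A} f z ∂mu)) := by
    refine tendsto_integral_of_dominated_convergence
      (Set.indicator {z | XB b z ≤ A + 1} fun z => ‖f z‖) ?_ ?_ ?_ ?_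
    · intro n
      exact hf.1.mul (Complex.measurable_ofReal.comp
        ((k n).continuous.measurable.comp (K9_XB_meas b))).aestronglyMeasurable
    · rw [integrable_indicator_iff (hms _)]
      exact (K9_integrableOn h4 hf hb (A + 1)).norm
    · intro n
      filter_upwards [K9_ae] with z hz
      rw [norm_mul, Complex.norm_real, Real.norm_of_nonneg (k n).nonneg]
      by_cases hc : XB b z ≤ A + 1
      · rw [Set.indicator_of_mem (show z ∈ {z | XB b z ≤ A + 1} from hc)]
        exact mul_le_of_le_one_right (norm_nonneg _) (k n).le_one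
      · rw [Set.indicator_of_notMem (show z ∉ {z | XB b z ≤ A + 1} from hc)]
        have h0 : k n (XB b z) = 0 := by
          apply (k n).zero_of_le_dist
          rw [(hk n).2, Real.dist_eq, sub_zero, abs_of_pos (K9_XB_pos hb hz)]
          have : 1 / ((n : ℝ) + 1) ≤ 1 := by
            rw [div_le_one (by positivity)]
            have : (0 : ℝ) ≤ n := Nat.cast_nonneg n
            linarith
          linarith [not_le.1 hc]
        rw [h0, mul_zero]
    · filter_upwards [K9_ae] with z hz
      by_cases hc : XB b z ≤ A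
      · rw [Set.indicator_of_mem (show z ∈ {z | XB b z ≤ A} from hc)]
        refine tendsto_const_nhds.congr fun n => ?_
        have h1 : k n (XB b z) = 1 := by
          apply (k n).one_of_mem_closedBall
          rw [(hk n).1, Metric.mem_closedBall, Real.dist_eq, sub_zero,
            abs_of_pos (K9_XB_pos hb hz)]
          exact hc
        rw [h1]
        simp
      · rw [Set.indicator_of_notMem (show z ∉ {z | XB b z ≤ A} from hc)]
        refine tendsto_const_nhds.congr' ?_
        have hgap : 0 < XB b z - A := by linarith [not_le.1 hc]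
        have ht := tendsto_one_div_add_atTop_nhds_zero_nat (𝕜 := ℝ)
        filter_upwards [ht.eventually_lt_const hgap] with n hn
        have h0 : k n (XB b z) = 0 := by
          apply (k n).zero_of_le_dist
          rw [(hk n).2, Real.dist_eq, sub_zero, abs_of_pos (K9_XB_pos hb hz)]
          linarith
        rw [h0]
        simp
  have e : ∫ z, Set.indicator {z | XB b z ≤ A} f z ∂mu = 0 := by
    refine tendsto_nhds_unique hlim ?_
    simp only [hz]
    exact tendsto_const_nhds
  rwa [integral_indicator (hms A)] at e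

/-- Euclidean discs are hyperbolic discs -/
theorem K9_ball {z₀ : ℂ} {δ : ℝ} (hδ : 0 < δ) (hc : δ < z₀.im) :
    ∃ (b : ℂ) (A : ℝ), 0 < b.im ∧ 0 < A ∧ ∀ z : ℂ, 0 < z.im →
      (XB b z ≤ A ↔ z ∈ Metric.closedBall z₀ δ) := by
  have hc0 : 0 < z₀.im := hδ.trans hc
  have hq : 0 < z₀.im ^ 2 - δ ^ 2 := by nlinarith
  obtain ⟨β, hβ⟩ : ∃ β, β = Real.sqrt (z₀.im ^ 2 - δ ^ 2) := ⟨_, rfl⟩
  have hβ0 : 0 < β := by rw [hβ]; exact Real.sqrt_pos.2 hq
  have hβ2 : β ^ 2 = z₀.im ^ 2 - δ ^ 2 := by rw [hβ]; exact Real.sq_sqrt hq.le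
  refine ⟨⟨z₀.re, β⟩, z₀.im / β, hβ0, div_pos hc0 hβ0, fun z hz => ?_⟩
  unfold XB XX
  dsimp only
  have h2 : 0 < z.im / β := div_pos hz hβ0
  rw [div_le_iff₀ (by positivity), Metric.mem_closedBall, Complex.dist_eq, Complex.norm_def,
    Complex.normSq_apply, Real.sqrt_le_left hδ.le, Complex.sub_re, Complex.sub_im]
  have e1 : ((z.re - z₀.re) / β) ^ 2 + (z.im / β) ^ 2 + 1 =
      ((z.re - z₀.re) ^ 2 + z.im ^ 2 + β ^ 2) / β ^ 2 := by
    field_simp
  have e2 : z₀.im / β * (2 * (z.im / β)) = (2 * z₀.im * z.im) / β ^ 2 := by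
    field_simp
  rw [e1, e2, div_le_div_iff_of_pos_right (by positivity), hβ2]
  constructor <;> intro h <;> nlinarith

/- TARGET -/
theorem k9 (h4 : K4) : K9 := by
  intro f hf h
  -- the integrals over Euclidean discs
  have hball : ∀ (z₀ : ℂ) (δ : ℝ), 0 < δ → δ < z₀.im →
      ∫ z in Metric.closedBall z₀ δ, (K9_rho z).toReal • f z = 0 := by
    intro z₀ δ hδ hc
    obtain ⟨b, A, hb, hA, hbA⟩ := K9_ball hδ hc
    have hsub : Metric.closedBall z₀ δ ⊆ {z : ℂ | 0 < z.im} := by
      intro z hz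
      have h1 : |(z - z₀).im| ≤ δ := (Complex.abs_im_le_norm _).trans (by
        rw [← Complex.dist_eq]; exact hz)
      rw [Complex.sub_im, abs_le] at h1
      show 0 < z.im
      linarith [h1.1]
    rw [← K9_int Metric.isClosed_closedBall.measurableSet hsub f, ← K9_disc h4 hf h hb hA]
    refine setIntegral_congr_set ?_
    filter_upwards [K9_ae] with z hz
    exact propext (hbA z hz).symm
  -- exhaustion
  have key : ∀ n : ℕ, ∀ᵐ z : ℂ, z.re ^ 2 + z.im ^ 2 + 1 < 2 * n * z.im → f z = 0 := by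
    intro n
    have hopen : IsOpen {z : ℂ | z.re ^ 2 + z.im ^ 2 + 1 < 2 * n * z.im} :=
      isOpen_lt (by fun_prop) (by fun_prop)
    have hsub : {z : ℂ | z.re ^ 2 + z.im ^ 2 + 1 < 2 * n * z.im} ⊆ {z : ℂ | 0 < z.im} := by
      intro z hz
      have hz' : z.re ^ 2 + z.im ^ 2 + 1 < 2 * n * z.im := hz
      show 0 < z.im
      by_contra hneg
      have h1 : 2 * (n : ℝ) * z.im ≤ 0 :=
        mul_nonpos_of_nonneg_of_nonpos (by positivity) (not_lt.1 hneg)
      nlinarith [sq_nonneg z.re, sq_nonneg z.im]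
    have hsub2 : {z : ℂ | z.re ^ 2 + z.im ^ 2 + 1 < 2 * n * z.im} ⊆
        {z : ℂ | XB Complex.I z ≤ n} := by
      intro z hz
      have hz0 : 0 < z.im := hsub hz
      have hz' : z.re ^ 2 + z.im ^ 2 + 1 < 2 * n * z.im := hz
      show XB Complex.I z ≤ n
      unfold XB XX
      simp only [Complex.I_re, Complex.I_im, sub_zero, div_one]
      rw [div_le_iff₀ (by positivity)]
      linarith
    have hint : Integrable (Set.indicator {z : ℂ | z.re ^ 2 + z.im ^ 2 + 1 < 2 * n * z.im}
        fun z => (K9_rho z).toReal • f z) := by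
      rw [integrable_indicator_iff hopen.measurableSet]
      exact K9_intble hopen.measurableSet hsub f
        ((K9_integrableOn h4 hf (b := Complex.I) (by simp) n).mono_set hsub2)
    have hL := IsUnifLocDoublingMeasure.ae_tendsto_average (μ := (volume : Measure ℂ))
      hint.locallyIntegrable 1
    filter_upwards [hL] with z hz hzU
    have hδ : Tendsto (fun j : ℕ => 1 / ((j : ℝ) + 1)) atTop (𝓝[>] 0) := by
      refine tendsto_nhdsWithin_iff.2 ⟨tendsto_one_div_add_atTop_nhds_zero_nat, ?_⟩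
      exact Eventually.of_forall fun j => by
        show (0 : ℝ) < 1 / ((j : ℝ) + 1)
        positivity
    have h1 := hz (fun _ : ℕ => z) _ hδ (Eventually.of_forall fun j => by
      rw [one_mul]
      exact Metric.mem_closedBall_self (by positivity))
    have h2 : Tendsto (fun j : ℕ => ⨍ y in Metric.closedBall z (1 / ((j : ℝ) + 1)),
        Set.indicator {z : ℂ | z.re ^ 2 + z.im ^ 2 + 1 < 2 * n * z.im}
          (fun z => (K9_rho z).toReal • f z) y) atTop (𝓝 0) := by
      refine tendsto_const_nhds.congr' ?_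
      obtain ⟨ε, hε, hεU⟩ := Metric.isOpen_iff.1 hopen z hzU
      have hz0 : 0 < z.im := hsub hzU
      filter_upwards [(tendsto_one_div_add_atTop_nhds_zero_nat (𝕜 := ℝ)).eventually_lt_const hε,
        (tendsto_one_div_add_atTop_nhds_zero_nat (𝕜 := ℝ)).eventually_lt_const hz0] with j hj hj2
      have hjp : (0 : ℝ) < 1 / ((j : ℝ) + 1) := by positivity
      have hin : Metric.closedBall z (1 / ((j : ℝ) + 1)) ⊆
          {z : ℂ | z.re ^ 2 + z.im ^ 2 + 1 < 2 * n * z.im} :=
        (Metric.closedBall_subset_ball hj).trans hεU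
      rw [setAverage_eq, setIntegral_congr_fun Metric.isClosed_closedBall.measurableSet
        (fun y hy => Set.indicator_of_mem (hin hy) _), hball z _ hjp hj2, smul_zero]
    have h3 := tendsto_nhds_unique h1 h2
    rw [Set.indicator_of_mem (show z ∈ {z : ℂ | z.re ^ 2 + z.im ^ 2 + 1 < 2 * n * z.im} from hzU),
      smul_eq_zero] at h3
    rcases h3 with h3 | h3
    · exfalso
      have hz0 : 0 < z.im := hsub hzU
      unfold K9_rho at h3
      rw [ENNReal.toReal_ofReal (by positivity)] at h3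
      have : 0 < 1 / z.im ^ 2 := by positivity
      linarith
    · exact h3
  have hall : ∀ᵐ z : ℂ, ∀ n : ℕ, z.re ^ 2 + z.im ^ 2 + 1 < 2 * n * z.im → f z = 0 :=
    ae_all_iff.2 key
  have habs : mu ≪ (volume : Measure ℂ) := by
    unfold mu
    exact (withDensity_absolutelyContinuous _ _).trans Measure.absolutelyContinuous_restrict
  filter_upwards [habs.ae_le hall, K9_ae] with z hz hz0
  obtain ⟨n, hn⟩ := exists_nat_gt ((z.re ^ 2 + z.im ^ 2 + 1) / (2 * z.im))
  refine hz n ?_
  rw [div_lt_iff₀ (by positivity)] at hn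
  linarith

end Pool.Agent.H267H
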