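import Pool.Agent.Helper267_hyp.Final
import Pool.Agent.Helper267_hyp.Asm2c
import Pool.Agent.Helper267_hyp.K0
import Pool.Agent.Helper267_hyp.K1
import Pool.Agent.Helper267_hyp.K2a
import Pool.Agent.Helper267_hyp.K2
import Pool.Agent.Helper267_hyp.K3
import Pool.Agent.Helper267_hyp.K4
import Pool.Agent.Helper267_hyp.K5
import Pool.Agent.Helper267_hyp.K6a
import Pool.Agent.Helper267_hyp.K6b
import Pool.Agent.Helper267_hyp.K6
import Pool.Agent.Helper267_hyp.K7a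
import Pool.Agent.Helper267_hyp.K7
import Pool.Agent.Helper267_hyp.K8
import Pool.Agent.Helper267_hyp.K9
import Pool.Agent.Helper267_hyp.K10
import Pool.Agent.Helper267_hyp.K11
import Pool.Agent.Helper267_hyp.K12

set_option autoImplicit false

open MeasureTheory Filter Topology Set
open scoped ENNReal ComplexConjugate

namespace Pool.Agent.H267H

theorem spectrum_facts (d : ℝ) (hd : 0 < d) :
    BddAbove (RR d) ∧ BddBelow (RR d) ∧ sSup (RR d) = Phi 0 d ∧
      sInf (RR d) = ⨅ l : ℝ, Phi l d :=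
  spectral (k1 k0) (k2 k0 (k1 k0) k2a) k3 k4 (k5 k3) (k6 k6a k6b) (k7 (k7a k2a)) k8 (k9 k4) k10
    (k11 k0 (k7a k2a)) hS1 d hd

theorem final2 :
    (∀ (d t : ℝ) (z : ℂ), 0 < d → 0 < z.im →
      1 + ‖act z (pt d t) - z‖ ^ 2 / (2 * z.im * (act z (pt d t)).im) = Real.cosh d ∧
      ∃ w : ℂ, HasDerivAt (fun t : ℝ => act z (pt d t)) w t ∧
        ‖w‖ = Real.sinh d * (act z (pt d t)).im) ∧
    (∀ d : ℝ, 0 < d → BddAbove (RR d) ∧ BddBelow (RR d) ∧ (RR d).Nonempty ∧ sInf (RR d) < 0 ∧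
      sSup (RR d) = Phi 0 d ∧ sInf (RR d) = ⨅ l : ℝ, Phi l d) ∧
    ∀ d d' : ℝ, 0 < d → d < d' →
      1 - sSup (RR d) / sInf (RR d) ≤ 1 - sSup (RR d') / sInf (RR d') := by
  refine ⟨fun d t z hd hz => k12 d t z hd hz, ?_, ?_⟩
  · intro d hd
    obtain ⟨q1, q2, q3, q4⟩ := spectrum_facts d hd
    have hneg := (final.1 d hd).2
    refine ⟨q1, q2, ?_, by rw [q4]; exact hneg, q3, q4⟩
    by_contra hne
    rw [Set.not_nonempty_iff_eq_empty] at hne
    rw [hne, Real.sSup_empty] at q3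
    have := hS1.2.2.2.2.2.1 d
    linarith
  · intro d d' hd hdd'
    obtain ⟨-, -, q3, q4⟩ := spectrum_facts d hd
    obtain ⟨-, -, r3, r4⟩ := spectrum_facts d' (hd.trans hdd')
    rw [q3, q4, r3, r4]
    exact final.2 d d' hd hdd'

end Pool.Agent.H267H
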