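import Pool.Agent.Helper267_hyp.Final2
import Pool.Agent.Helper267_hyp.Asm3
import Pool.Agent.Helper267_hyp.C1
import Pool.Agent.Helper267_hyp.C3
import Pool.Agent.Helper267_hyp.C4

set_option autoImplicit false

open MeasureTheory Filter Topology Set
open scoped ENNReal ComplexConjugate

namespace Pool.Agent.H267H

theorem RRD_eq' (d : ℝ) (hd : 0 < d) : RRD d = RR d := RRD_eq c1 c3 (k1 k0) d hd

theorem final3 :
    (∀ (d t : ℝ) (w : ℂ), 0 < d → ‖w‖ < 1 →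
      ‖dpt d t w‖ < 1 ∧
      ‖(dpt d t w - w) / (1 - conj w * dpt d t w)‖ = Real.tanh (d / 2) ∧
      ∃ v : ℂ, HasDerivAt (fun t : ℝ => dpt d t w) v t ∧
        2 * ‖v‖ / (1 - ‖dpt d t w‖ ^ 2) = Real.sinh d) ∧
    (∀ d : ℝ, 0 < d → BddAbove (RRD d) ∧ BddBelow (RRD d) ∧ (RRD d).Nonempty ∧
      sInf (RRD d) < 0 ∧ sSup (RRD d) = Phi 0 d ∧ sInf (RRD d) = ⨅ l : ℝ, Phi l d) ∧
    ∀ d d' : ℝ, 0 < d → d < d' →
      1 - sSup (RRD d) / sInf (RRD d) ≤ 1 - sSup (RRD d') / sInf (RRD d') := by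
  refine ⟨fun d t w hd hw => c4 d t w hd hw, ?_, ?_⟩
  · intro d hd
    rw [RRD_eq' d hd]
    exact final2.2.1 d hd
  · intro d d' hd hdd'
    rw [RRD_eq' d hd, RRD_eq' d' (hd.trans hdd')]
    exact final2.2.2 d d' hd hdd'

end Pool.Agent.H267H
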