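import Pool.Agent.Helper267_hyp.Defs

set_option autoImplicit false

open MeasureTheory Filter Topology Set

namespace Pool.Agent.H267H

theorem tendsto_zero_of_div {a : ℝ → ℝ} {c : ℝ}
    (h : Tendsto (fun r => a r / r) (𝓝[>] 0) (𝓝 c)) : Tendsto a (𝓝[>] 0) (𝓝 0) := by
  have h1 : Tendsto (fun r : ℝ => a r / r * r) (𝓝[>] 0) (𝓝 (c * 0)) :=
    h.mul (tendsto_nhdsWithin_of_tendsto_nhds tendsto_id)
  rw [mul_zero] at h1
  refine h1.congr' ?_
  filter_upwards [self_mem_nhdsWithin] with r hr
  have : (0:ℝ) < r := hr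
  field_simp

theorem s10 (h6 : S6) (h7 : S7) (h8 : S8) : S10 := by
  intro y dy l L a b R S hl hlL hy hdy hdp hanti hy0 ha ha0 hb hb0 hR hR0 hS hS0 d d' hd hd' hab
  have hL : 0 < L := hl.trans hlL
  have hsa := h6 y dy a l hl hy hdy hdp hy0 ha ha0
  have hsb := h6 y dy b L hL hy hdy hdp hy0 hb hb0
  have hapos : ∀ r : ℝ, 0 < r → 0 < l - Real.sin (a r) * Real.cos (a r) / y r := by
    intro r hr
    have := hsa r hr
    rw [sub_pos, div_lt_iff₀ (hy r hr)]
    exact this
  have hbpos : ∀ r : ℝ, 0 < r → 0 < L - Real.sin (b r) * Real.cos (b r) / y r := by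
    intro r hr
    have := hsb r hr
    rw [sub_pos, div_lt_iff₀ (hy r hr)]
    exact this
  obtain ⟨g, hg1, hg2, hg3⟩ := h7 a _ ha hapos (tendsto_zero_of_div ha0)
  obtain ⟨h, hh1, hh2, hh3⟩ := h7 b _ hb hbpos (tendsto_zero_of_div hb0)
  -- monotonicity of `y`, `a`, `b`
  have hymono : StrictMonoOn y (Ioi 0) := by
    apply strictMonoOn_of_deriv_pos (convex_Ioi 0)
      (fun r hr => (hdy r hr).continuousAt.continuousWithinAt)
    intro r hr
    rw [interior_Ioi] at hr
    rw [(hdy r hr).deriv]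
    exact hdp r hr
  have hamono : StrictMonoOn a (Ioi 0) := by
    apply strictMonoOn_of_deriv_pos (convex_Ioi 0)
      (fun r hr => (ha r hr).continuousAt.continuousWithinAt)
    intro r hr
    rw [interior_Ioi] at hr
    rw [(ha r hr).deriv]
    exact hapos r hr
  have hbmono : StrictMonoOn b (Ioi 0) := by
    apply strictMonoOn_of_deriv_pos (convex_Ioi 0)
      (fun r hr => (hb r hr).continuousAt.continuousWithinAt)
    intro r hr
    rw [interior_Ioi] at hr
    rw [(hb r hr).deriv]
    exact hbpos r hr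
  set X := min (a (d' + 1)) (b (d + 1)) with hX
  have hXa : a d' < X := by
    rw [hX, lt_min_iff]
    constructor
    · exact hamono (mem_Ioi.2 hd') (mem_Ioi.2 (by linarith)) (by linarith)
    · rw [← hab]
      exact hbmono (mem_Ioi.2 hd) (mem_Ioi.2 (by linarith)) (by linarith)
  have Gx : ∀ x ∈ Ioo 0 X, 0 < g x ∧ a (g x) = x ∧
      HasDerivAt g (1 / (l - Real.sin (a (g x)) * Real.cos (a (g x)) / y (g x))) x := by
    intro x hx
    exact hg2 (d' + 1) x (by linarith) hx.1 (lt_of_lt_of_le hx.2 (min_le_left _ _))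
  have Hx : ∀ x ∈ Ioo 0 X, 0 < h x ∧ b (h x) = x ∧
      HasDerivAt h (1 / (L - Real.sin (b (h x)) * Real.cos (b (h x)) / y (h x))) x := by
    intro x hx
    exact hh2 (d + 1) x (by linarith) hx.1 (lt_of_lt_of_le hx.2 (min_le_right _ _))
  have hXpos : 0 < X := lt_trans ((hg1 d' hd').1) hXa
  have Ememx : ∀ᶠ x in 𝓝[>] (0:ℝ), x ∈ Ioo 0 X := Ioo_mem_nhdsGT hXpos
  -- limits
  have lim_g : Tendsto (fun x => y (g x) / x) (𝓝[>] 0) (𝓝 (2 / l)) := by
    have h1 : Tendsto (fun x => y (g x) / g x) (𝓝[>] 0) (𝓝 1) := hy0.comp hg3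
    have h2 : Tendsto (fun x => a (g x) / g x) (𝓝[>] 0) (𝓝 (l / 2)) := ha0.comp hg3
    have h3 := h1.div h2 (by positivity)
    have e : (1:ℝ) / (l / 2) = 2 / l := by field_simp
    rw [e] at h3
    refine h3.congr' ?_
    filter_upwards [Ememx] with x hx
    obtain ⟨p1, p2, -⟩ := Gx x hx
    have hx0 : (0:ℝ) < x := hx.1
    simp only [Pi.div_apply, p2]
    field_simp
  have lim_h : Tendsto (fun x => y (h x) / x) (𝓝[>] 0) (𝓝 (2 / L)) := by
    have h1 : Tendsto (fun x => y (h x) / h x) (𝓝[>] 0) (𝓝 1) := hy0.comp hh3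
    have h2 : Tendsto (fun x => b (h x) / h x) (𝓝[>] 0) (𝓝 (L / 2)) := hb0.comp hh3
    have h3 := h1.div h2 (by positivity)
    have e : (1:ℝ) / (L / 2) = 2 / L := by field_simp
    rw [e] at h3
    refine h3.congr' ?_
    filter_upwards [Ememx] with x hx
    obtain ⟨p1, p2, -⟩ := Hx x hx
    have hx0 : (0:ℝ) < x := hx.1
    simp only [Pi.div_apply, p2]
    field_simp
  have lim_FE : Tendsto (fun x => L * y (h x) / (l * y (g x))) (𝓝[>] 0) (𝓝 1) := by
    have h3 := (lim_h.const_mul L).div (lim_g.const_mul l) (by positivity)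
    have e : L * (2 / L) / (l * (2 / l)) = 1 := by field_simp
    rw [e] at h3
    refine h3.congr' ?_
    filter_upwards [Ememx] with x hx
    obtain ⟨p1, p2, -⟩ := Gx x hx
    have hx0 : (0:ℝ) < x := hx.1
    have := hy _ p1
    simp only [Pi.div_apply]
    field_simp
  have key := h8 X (fun x => l * y (g x)) (fun x => L * y (h x)) (fun x => dy (g x))
    (fun x => dy (h x)) ?_ ?_ ?_ ?_ ?_ ?_ ?_ lim_FE
  rotate_left
  · intro x hx
    obtain ⟨p1, p2, p3⟩ := Gx x hx
    have q := ((hdy _ p1).comp x p3).const_mul l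
    have hyp := hy _ p1
    have hs := hsa _ p1
    rw [p2] at hs q
    refine q.congr_deriv ?_
    have h1 : l * y (g x) - Real.sin x * Real.cos x ≠ 0 := by
      have : 0 < l * y (g x) - Real.sin x * Real.cos x := by linarith
      exact this.ne'
    have h2 : l - Real.sin x * Real.cos x / y (g x) ≠ 0 := by
      have := hapos _ p1
      rw [p2] at this
      exact this.ne'
    have e : l - Real.sin x * Real.cos x / y (g x)
        = (l * y (g x) - Real.sin x * Real.cos x) / y (g x) := by
      field_simp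
    rw [e]
    field_simp
  · intro x hx
    obtain ⟨p1, p2, p3⟩ := Hx x hx
    have q := ((hdy _ p1).comp x p3).const_mul L
    have hyp := hy _ p1
    have hs := hsb _ p1
    rw [p2] at hs q
    refine q.congr_deriv ?_
    have h1 : L * y (h x) - Real.sin x * Real.cos x ≠ 0 := by
      have : 0 < L * y (h x) - Real.sin x * Real.cos x := by linarith
      exact this.ne'
    have e : L - Real.sin x * Real.cos x / y (h x)
        = (L * y (h x) - Real.sin x * Real.cos x) / y (h x) := by
      field_simp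
    rw [e]
    field_simp
  · intro x hx
    obtain ⟨p1, p2, p3⟩ := Gx x hx
    have hs := hsa _ p1
    rw [p2] at hs
    exact ⟨mul_pos hl (hy _ p1), hs⟩
  · intro x hx
    obtain ⟨p1, p2, p3⟩ := Hx x hx
    have hs := hsb _ p1
    rw [p2] at hs
    exact ⟨mul_pos hL (hy _ p1), hs⟩
  · intro x hx
    exact hdp _ (Gx x hx).1
  · intro x hx
    exact hdp _ (Hx x hx).1
  · intro x hx hFE
    have p1 := (Gx x hx).1
    have p2 := (Hx x hx).1
    have hlt : y (h x) < y (g x) := by
      have e1 : 0 < y (h x) := hy _ p2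
      have hFE' : L * y (h x) ≤ l * y (g x) := hFE
      nlinarith
    have : h x < g x := by
      by_contra hc
      have := hymono.monotoneOn (mem_Ioi.2 p1) (mem_Ioi.2 p2) (not_lt.1 hc)
      linarith
    exact hanti (mem_Ioi.2 p2) (mem_Ioi.2 p1) this.le
  -- the difference of the logarithmic amplitudes
  have hV : ∀ x ∈ Ioo 0 X, HasDerivAt (fun x => S (h x) - R (g x))
      ((Real.sin x) ^ 2 / (l * y (g x) - Real.sin x * Real.cos x)
        - (Real.sin x) ^ 2 / (L * y (h x) - Real.sin x * Real.cos x)) x := by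
    intro x hx
    obtain ⟨p1, p2, p3⟩ := Gx x hx
    obtain ⟨r1, r2, r3⟩ := Hx x hx
    have qR := (hR _ p1).comp x p3
    have qS := (hS _ r1).comp x r3
    have hs := hsa _ p1
    have hs' := hsb _ r1
    rw [p2] at hs qR
    rw [r2] at hs' qS
    have hyp := hy _ p1
    have hyr := hy _ r1
    refine (qS.sub qR).congr_deriv ?_
    have h1 : l * y (g x) - Real.sin x * Real.cos x ≠ 0 := by
      have : 0 < l * y (g x) - Real.sin x * Real.cos x := by linarith
      exact this.ne'
    have h2 : L * y (h x) - Real.sin x * Real.cos x ≠ 0 := by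
      have : 0 < L * y (h x) - Real.sin x * Real.cos x := by linarith
      exact this.ne'
    have e : l - Real.sin x * Real.cos x / y (g x)
        = (l * y (g x) - Real.sin x * Real.cos x) / y (g x) := by
      field_simp
    have e' : L - Real.sin x * Real.cos x / y (h x)
        = (L * y (h x) - Real.sin x * Real.cos x) / y (h x) := by
      field_simp
    rw [e, e']
    field_simp
    ring
  have hVmono : MonotoneOn (fun x => S (h x) - R (g x)) (Ioo 0 X) := by
    apply monotoneOn_of_deriv_nonneg (convex_Ioo 0 X)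
      (fun x hx => (hV x hx).continuousAt.continuousWithinAt)
    · intro x hx
      rw [interior_Ioo] at hx
      exact (hV x hx).differentiableAt.differentiableWithinAt
    · intro x hx
      rw [interior_Ioo] at hx
      rw [(hV x hx).deriv, sub_nonneg]
      obtain ⟨p1, p2, -⟩ := Gx x hx
      have hs := hsa _ p1
      rw [p2] at hs
      have hk : l * y (g x) ≤ L * y (h x) := key x hx
      apply div_le_div_of_nonneg_left (sq_nonneg _) (by linarith) (by linarith)
  have hVlim : Tendsto (fun x => S (h x) - R (g x)) (𝓝[>] 0) (𝓝 0) := by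
    have h1 : Tendsto (fun x => S (h x)) (𝓝[>] 0) (𝓝 0) := hS0.comp hh3
    have h2 : Tendsto (fun x => R (g x)) (𝓝[>] 0) (𝓝 0) := hR0.comp hg3
    simpa using h1.sub h2
  have hfin : 0 ≤ S (h (a d')) - R (g (a d')) := by
    have hmem : a d' ∈ Ioo 0 X := ⟨(hg1 d' hd').1, hXa⟩
    apply le_of_tendsto hVlim
    filter_upwards [Ioo_mem_nhdsGT hmem.1] with t ht
    exact hVmono ⟨ht.1, ht.2.trans hmem.2⟩ hmem ht.2.le
  rw [(hg1 d' hd').2, ← hab, (hh1 d hd).2] at hfin
  linarith

end Pool.Agent.H267H
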