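import Pool.Agent.Helper267_hyp.Defs

/-
JOB of helper267 (MP_592f63_co, Hoffman bound of the hyperbolic distance graphs; full paper proof = papers id 182, verdict ok).
SETUP (1 minute):  cd /workdir/pool/outputs/live && git fetch -q origin && git merge -q --ff-only origin/main ; cd /workdir/pool ;
  mkdir -p Pool/Agent/Helper267_hyp && cp outputs/live/Pool/Agent/Helper267_hyp/Defs.lean Pool/Agent/Helper267_hyp/ ;
  lake build Pool.Agent.Helper267_hyp.Defs        (all definitions and the Props S1 .. S10 are there)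
TASK: prove the theorem(s) marked TARGET (statement unchanged; helper lemmas welcome), file J9b.lean.
Result: the full file in jobs.result (and, if you like, land it as a helper file). Time limit: please be done by 18:45 UTC;
if you only have a part at 18:40 send the part.
PROOF: aa l is increasing on (0,oo) with limit 0 at 0+, so aa l (d/2) >= 0. On [d/2,d] yy >= m > 0 (h3), and |u z| <= (u^2+z^2)/2, so the derivative is >= l - 1/(2m) there (also when u^2+z^2 = 0, division by zero gives l). Mean value inequality: aa l d >= (d/2)(l - 1/(2m)).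
-/

set_option autoImplicit false

open MeasureTheory Filter Topology Set

namespace Pool.Agent.H267H

/- TARGET -/
/-- given: the integrand is positive and equals `l - sin a cos a / y` -/
theorem s9b (h3 : S3)
    (hpos : ∀ l s : ℝ, 0 < l → 0 < s → 0 < l - uu l s * zz l s / (yy s * (uu l s ^ 2 + zz l s ^ 2)))
    (hd : ∀ l r : ℝ, 0 < l → 0 < r → HasDerivAt (aa l)
      (l - uu l r * zz l r / (yy r * (uu l r ^ 2 + zz l r ^ 2))) r)
    (h0 : ∀ l : ℝ, 0 < l → Tendsto (aa l) (𝓝[>] 0) (𝓝 0)) :
    ∀ d : ℝ, 0 < d → Tendsto (fun l => aa l d) atTop atTop := by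
  have slope : ∀ l : ℝ, 0 < l → ∀ r s : ℝ, 0 < r → r < s → ∃ c ∈ Ioo r s,
      l - uu l c * zz l c / (yy c * (uu l c ^ 2 + zz l c ^ 2)) = (aa l s - aa l r) / (s - r) := by
    intro l hl r s hr hrs
    refine exists_hasDerivAt_eq_slope (aa l)
      (fun c => l - uu l c * zz l c / (yy c * (uu l c ^ 2 + zz l c ^ 2))) hrs ?_ ?_
    · intro x hx
      exact (hd l x hl (hr.trans_le hx.1)).continuousAt.continuousWithinAt
    · intro x hx
      exact hd l x hl (hr.trans hx.1)
  have mono : ∀ l : ℝ, 0 < l → ∀ r s : ℝ, 0 < r → r < s → aa l r < aa l s := by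
    intro l hl r s hr hrs
    obtain ⟨c, hc, h⟩ := slope l hl r s hr hrs
    have h1 := hpos l c hl (hr.trans hc.1)
    rw [h] at h1
    have h2 : 0 < s - r := sub_pos.2 hrs
    have h3 : 0 < aa l s - aa l r := by
      by_contra hcon
      exact absurd h1 (not_lt.2 (div_nonpos_of_nonpos_of_nonneg (not_lt.1 hcon) h2.le))
    linarith
  have nonneg : ∀ l : ℝ, 0 < l → ∀ r : ℝ, 0 < r → 0 ≤ aa l r := by
    intro l hl r hr
    refine le_of_tendsto (h0 l hl) ?_
    have hmem : Ioo (0 : ℝ) r ∈ 𝓝[>] (0 : ℝ) := Ioo_mem_nhdsGT hr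
    filter_upwards [hmem] with x hx
    exact (mono l hl x r hx.1 hx.2).le
  intro d hdpos
  obtain ⟨-, -, -, h3'⟩ := h3
  obtain ⟨c, hc, hcy⟩ := h3' d hdpos
  have hm : 0 < c * (d / 2) := by positivity
  have key : ∀ l : ℝ, 0 < l → (l - 1 / (2 * (c * (d / 2)))) * (d / 2) ≤ aa l d := by
    intro l hl
    obtain ⟨x, hx, h⟩ := slope l hl (d / 2) d (by positivity) (by linarith)
    have h1 := nonneg l hl (d / 2) (by positivity)
    have hxpos : 0 < x := lt_trans (by positivity) hx.1
    have hy : c * (d / 2) ≤ yy x := by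
      have h2 := hcy x hxpos hx.2.le
      have h4 : c * (d / 2) ≤ c * x := mul_le_mul_of_nonneg_left hx.1.le hc.le
      linarith
    have hypos : 0 < yy x := hm.trans_le hy
    have hq : uu l x * zz l x / (yy x * (uu l x ^ 2 + zz l x ^ 2)) ≤ 1 / (2 * (c * (d / 2))) := by
      rcases (add_nonneg (sq_nonneg (uu l x)) (sq_nonneg (zz l x))).eq_or_lt with h5 | h5
      · rw [← h5, mul_zero, div_zero]
        positivity
      · rw [div_le_div_iff₀ (by positivity) (by positivity)]
        have h6 : uu l x * zz l x ≤ (uu l x ^ 2 + zz l x ^ 2) / 2 := by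
          nlinarith [sq_nonneg (uu l x - zz l x)]
        calc uu l x * zz l x * (2 * (c * (d / 2)))
            ≤ (uu l x ^ 2 + zz l x ^ 2) / 2 * (2 * (c * (d / 2))) :=
              mul_le_mul_of_nonneg_right h6 (by positivity)
          _ = (c * (d / 2)) * (uu l x ^ 2 + zz l x ^ 2) := by ring
          _ ≤ yy x * (uu l x ^ 2 + zz l x ^ 2) := mul_le_mul_of_nonneg_right hy h5.le
          _ = 1 * (yy x * (uu l x ^ 2 + zz l x ^ 2)) := by ring
    have h7 : l - 1 / (2 * (c * (d / 2))) ≤ (aa l d - aa l (d / 2)) / (d - d / 2) := by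
      rw [← h]; linarith
    have h8 : d - d / 2 = d / 2 := by ring
    rw [h8, le_div_iff₀ (by positivity)] at h7
    linarith
  refine tendsto_atTop_mono' atTop (f₁ := fun l : ℝ => (l - 1 / (2 * (c * (d / 2)))) * (d / 2)) ?_ ?_
  · filter_upwards [eventually_gt_atTop (0 : ℝ)] with l hl
    exact key l hl
  · refine Tendsto.atTop_mul_const (by positivity) ?_
    exact tendsto_atTop_add_const_right atTop (-(1 / (2 * (c * (d / 2))))) tendsto_id

end Pool.Agent.H267H

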