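import Pool.Agent.Helper267_hyp.Defs2

set_option autoImplicit false

open MeasureTheory Filter Topology Set
open scoped ENNReal ComplexConjugate

namespace Pool.Agent.H267H

theorem k7a_P_pos (d t : ℝ) (hd : 0 < d) : 0 < P d t := by
  unfold P
  have h1 : 0 < Real.sinh d := Real.sinh_pos_iff.2 hd
  have h2 := Real.cos_le_one t
  have h3 : Real.cosh d - Real.sinh d = Real.exp (-d) := Real.cosh_sub_sinh d
  have h4 := Real.exp_pos (-d)
  nlinarith

theorem k7a_measurable_mk {α : Type*} [MeasurableSpace α] {a b : α → ℝ} (ha : Measurable a)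
    (hb : Measurable b) : Measurable (fun x => (⟨a x, b x⟩ : ℂ)) :=
  Complex.measurableEquivRealProd.symm.measurable.comp (ha.prodMk hb)

theorem k7a_measurable_P (d : ℝ) : Measurable (P d) := by
  unfold P
  exact (Real.measurable_cos.const_mul _).const_sub _

theorem k7a_measurable_pt (d : ℝ) : Measurable (pt d) := by
  unfold pt
  apply k7a_measurable_mk
  · exact ((Real.measurable_sin.const_mul _).neg).div (k7a_measurable_P d)
  · exact measurable_const.div (k7a_measurable_P d)

theorem k7a_measurable_binv : Measurable binv := by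
  unfold binv
  apply k7a_measurable_mk
  · exact Complex.measurable_re.neg.div Complex.measurable_im
  · exact measurable_const.div Complex.measurable_im

theorem k7a_change (h2 : K2a) (d : ℝ) (hd : 0 < d) (G : ℂ → ℝ) (hGm : Measurable G) :
    ∫ t in Ioc (0:ℝ) (2 * Real.pi), G (pt d t) =
      ∫ t in Ioc (0:ℝ) (2 * Real.pi), (1 / P d t) * G (binv (pt d t)) := by
  set ν : Measure ℝ := volume.restrict (Ioc (0:ℝ) (2 * Real.pi)) with hν
  have him0 : ∀ t, 0 < 1 / P d t := fun t => one_div_pos.2 (k7a_P_pos d t hd)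
  have hqm : Measurable (fun t => binv (pt d t)) := k7a_measurable_binv.comp (k7a_measurable_pt d)
  set ρ : ℝ → ℝ≥0∞ := fun t => ENNReal.ofReal (1 / P d t) with hρ
  have hρm : Measurable ρ := (measurable_const.div (k7a_measurable_P d)).ennreal_ofReal
  have hmap : (ν.withDensity ρ).map (fun t => binv (pt d t)) = ν.map (pt d) := by
    ext s hs
    rw [Measure.map_apply hqm hs, Measure.map_apply (k7a_measurable_pt d) hs,
      withDensity_apply _ (hqm hs), ← lintegral_indicator (hqm hs),
      ← lintegral_indicator_one ((k7a_measurable_pt d) hs)]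
    have h := h2 d hd (s.indicator 1) (measurable_one.indicator hs)
    rw [← hν] at h
    have e2 : (fun t => s.indicator (1 : ℂ → ℝ≥0∞) (pt d t)) =
        (pt d ⁻¹' s).indicator (1 : ℝ → ℝ≥0∞) := rfl
    rw [← e2, ← h]
    congr 1
    funext t
    by_cases ht : binv (pt d t) ∈ s
    · rw [indicator_of_mem (show t ∈ (fun t => binv (pt d t)) ⁻¹' s from ht),
        indicator_of_mem ht]
      simp [hρ]
    · rw [indicator_of_notMem (show t ∉ (fun t => binv (pt d t)) ⁻¹' s from ht),
        indicator_of_notMem ht]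
      simp
  calc ∫ t, G (pt d t) ∂ν = ∫ p, G p ∂(ν.map (pt d)) :=
        (integral_map (k7a_measurable_pt d).aemeasurable hGm.aestronglyMeasurable).symm
    _ = ∫ t, G (binv (pt d t)) ∂(ν.withDensity ρ) := by
        rw [← hmap, integral_map hqm.aemeasurable hGm.aestronglyMeasurable]
    _ = ∫ t, (ρ t).toReal • G (binv (pt d t)) ∂ν :=
        integral_withDensity_eq_integral_toReal_smul hρm
          (Eventually.of_forall fun t => ENNReal.ofReal_lt_top) _
    _ = _ := by
        congr 1
        funext t
        rw [hρ]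
        simp only
        rw [ENNReal.toReal_ofReal (him0 t).le, smul_eq_mul]

/- TARGET -/
theorem k7a (h2 : K2a) : K7a := by
  intro l d hd
  rw [intervalIntegral.integral_of_le (by positivity)]
  have hm : Measurable (fun p : ℂ => p.im ^ (1 / 2 : ℝ) * Real.sin (l * Real.log p.im)) := by
    have h1 : Measurable (fun p : ℂ => p.im ^ (1 / 2 : ℝ)) :=
      Complex.measurable_im.pow_const _
    have h2 : Measurable (fun p : ℂ => Real.sin (l * Real.log p.im)) :=
      Real.measurable_sin.comp ((Real.measurable_log.comp Complex.measurable_im).const_mul l)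
    exact h1.mul h2
  have h := k7a_change h2 d hd _ hm
  have e1 : ∀ t, (pt d t).im = (P d t)⁻¹ := fun t => one_div _
  have e2 : ∀ t, (binv (pt d t)).im = P d t := fun t => by
    show 1 / (1 / P d t) = P d t
    rw [one_div_one_div]
  have l1 : ∫ t in Ioc (0:ℝ) (2 * Real.pi),
      (pt d t).im ^ (1 / 2 : ℝ) * Real.sin (l * Real.log (pt d t).im) =
      -∫ t in Ioc (0:ℝ) (2 * Real.pi), (P d t) ^ (-(1 / 2) : ℝ) * Real.sin (l * Real.log (P d t)) := by
    rw [← integral_neg]
    congr 1
    funext t
    have hP := k7a_P_pos d t hd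
    rw [e1, Real.log_inv, mul_neg, Real.sin_neg, Real.inv_rpow hP.le, Real.rpow_neg hP.le]
    ring
  have l2 : ∫ t in Ioc (0:ℝ) (2 * Real.pi), (1 / P d t) *
      ((binv (pt d t)).im ^ (1 / 2 : ℝ) * Real.sin (l * Real.log (binv (pt d t)).im)) =
      ∫ t in Ioc (0:ℝ) (2 * Real.pi), (P d t) ^ (-(1 / 2) : ℝ) * Real.sin (l * Real.log (P d t)) := by
    congr 1
    funext t
    have hP := k7a_P_pos d t hd
    rw [e2, ← mul_assoc]
    congr 1
    have : (P d t) ^ (-(1 / 2) : ℝ) = (P d t) ^ (-1 : ℝ) * (P d t) ^ (1 / 2 : ℝ) := by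
      rw [← Real.rpow_add hP]
      norm_num
    rw [this, Real.rpow_neg_one, one_div]
  rw [l1, l2] at h
  linarith

end Pool.Agent.H267H
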